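import Pool.Agent.Lib.Helper54.BestApproxRecord

/-!
# Base geometry at a violation (chunk G of S18919)
-/

set_option autoImplicit false

namespace Pool.Agent.Helper54

namespace IsNorm2

variable {N : (Fin 2 → ℝ) → ℝ} (hN : IsNorm2 N)
include hN

/-- `k y = c₁ p + c₂ q` gives a bound for `|k| N y`. -/
lemma lin2' {k c d : ℝ} {y p q : Fin 2 → ℝ} (h : k • y = c • p + d • q) :
    |k| * N y ≤ |c| * N p + |d| * N q := by
  rw [← hN.hom, h]
  exact hN.lin2 c d p q

/-- The side vectors of the parallelogram are independent. -/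
lemma par_indep (a b c : Fin 2 → ℝ) (hab : N b < N a) (hbc : N c < N b)
    (hU : N a < N (b - a)) (hV : N a < N (c - a)) (hW : N a < N (c - b)) (p q : ℝ)
    (h : p • (b - a) + q • (c - a) = 0) : p = 0 ∧ q = 0 := by
  have ha := hN.nonneg a
  have hU' := hN.sub_le b a
  have hV' := hN.sub_le c a
  have hW' := hN.sub_le c b
  by_cases hq : q = 0
  · subst hq
    refine ⟨?_, rfl⟩
    by_contra hp
    rw [zero_smul, add_zero] at h
    have h1 : b - a = 0 := by
      rcases smul_eq_zero.1 h with h2 | h2
      · exact absurd h2 hp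
      · exact h2
    rw [h1, hN.zero] at hU
    linarith
  · exfalso
    obtain ⟨l, hl⟩ : ∃ l : ℝ, c - a = l • (b - a) := by
      refine ⟨-(p / q), ?_⟩
      have h1 : q • (c - a) = -(p • (b - a)) := by
        rw [eq_neg_iff_add_eq_zero, add_comm]; exact h
      have h2 : c - a = q⁻¹ • (q • (c - a)) := by rw [smul_smul, inv_mul_cancel₀ hq, one_smul]
      rw [h2, h1, div_eq_mul_inv]
      module
    have hl' : c - b = (l - 1) • (b - a) := by
      have : c - b = (c - a) - (b - a) := by abel
      rw [this, hl]; module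
    rw [hl, hN.hom] at hV hV'
    rw [hl', hN.hom] at hW hW'
    rcases le_total l 0 with h0 | h0
    · rw [abs_of_nonpos h0] at hV hV'
      rw [abs_of_nonpos (by linarith)] at hW hW'
      nlinarith
    · rw [abs_of_nonneg h0] at hV hV'
      rcases le_total l 1 with h1 | h1
      · rw [abs_of_nonpos (by linarith)] at hW hW'
        nlinarith
      · rw [abs_of_nonneg (by linarith)] at hW hW'
        nlinarith

/-- Coordinates of the origin in the parallelogram at a violation. -/
lemma par_coords (a b c d : Fin 2 → ℝ) (hd : d = b + c - a) (hab : N b < N a) (hbc : N c < N b)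
    (hcd : N d < N c) (hU : N a < N (b - a)) (hV : N a < N (c - a)) (hW : N a < N (c - b)) :
    ∃ s t : ℝ, 0 ≤ s ∧ s ≤ 1 ∧ 1 / 2 < t ∧ t ≤ 1 ∧ 1 < s + t ∧
      a = -(s • (b - a) + t • (c - a)) := by
  have indep := hN.par_indep a b c hab hbc hU hV hW
  have hd0 := hN.nonneg d
  obtain ⟨s, t, hst⟩ : ∃ s t : ℝ, a = -(s • (b - a) + t • (c - a)) := by
    obtain ⟨p, q, r, hne, hrel⟩ := rel3 a (b - a) (c - a)
    have hp : p ≠ 0 := by
      intro hp
      rw [hp, zero_smul, zero_add] at hrel
      have := indep q r hrel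
      rcases hne with h | h | h
      · exact h hp
      · exact h this.1
      · exact h this.2
    refine ⟨p⁻¹ * q, p⁻¹ * r, ?_⟩
    have h1 : p • a = -(q • (b - a) + r • (c - a)) := by
      rw [eq_neg_iff_add_eq_zero, ← add_assoc]; exact hrel
    have h2 : a = p⁻¹ • (p • a) := by rw [smul_smul, inv_mul_cancel₀ hp, one_smul]
    conv_lhs => rw [h2, h1]
    module
  set U := b - a with hUdef
  set V := c - a with hVdef
  have eb : b = (1 - s) • U + (-t) • V := by
    have : b = a + U := by rw [hUdef]; abel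
    rw [this]; nth_rewrite 1 [hst]; module
  have ec : c = (-s) • U + (1 - t) • V := by
    have : c = a + V := by rw [hVdef]; abel
    rw [this]; nth_rewrite 1 [hst]; module
  have ed : d = (1 - s) • U + (1 - t) • V := by
    have : d = a + U + V := by rw [hd, hUdef, hVdef]; abel
    rw [this]; nth_rewrite 1 [hst]; module
  have ea : a = (-s) • U + (-t) • V := by
    nth_rewrite 1 [hst]; module
  have hW2 : N (c - b) = N (V - U) := by
    have : c - b = V - U := by rw [hUdef, hVdef]; abel
    rw [this]
  -- norm inequalities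
  have i1 : |1 - s| * N U ≤ |1 - t| * N b + |t| * N d :=
    hN.lin2' (by rw [eb, ed]; module)
  have i2 : |s| * N U ≤ |-(1 - t)| * N a + |-t| * N c :=
    hN.lin2' (by rw [ea, ec]; module)
  have i3 : |1 - t| * N V ≤ |1 - s| * N c + |s| * N d :=
    hN.lin2' (by rw [ec, ed]; module)
  have i4 : |t| * N V ≤ |-(1 - s)| * N a + |-s| * N b :=
    hN.lin2' (by rw [ea, eb]; module)
  have i5 : |1 - s - t| * N U ≤ |1 - t| * N b + |t| * N c :=
    hN.lin2' (by rw [eb, ec]; module)
  have i6 : |1 - s - t| * N V ≤ |s| * N b + |1 - s| * N c :=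
    hN.lin2' (by rw [eb, ec]; module)
  have i7 : |t - s| * N U ≤ |1 - t| * N a + |t| * N d :=
    hN.lin2' (by rw [ea, ed]; module)
  have i8 : |s - t| * N V ≤ |1 - s| * N a + |s| * N d :=
    hN.lin2' (by rw [ea, ed]; module)
  have i9 : |1 - t| * N a ≤ |s - t| * N c + |-s| * N d :=
    hN.lin2' (by rw [ea, ec, ed]; module)
  have i10 : |1 - t| * N b ≤ |-(1 - s)| * N c + |1 - s - t| * N d :=
    hN.lin2' (by rw [eb, ec, ed]; module)
  have i11 : |1 - s| * N a ≤ |t - s| * N b + |-t| * N d :=
    hN.lin2' (by rw [ea, eb, ed]; module)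
  have i12 : |1 - s| * N c ≤ |-(1 - t)| * N b + |1 - s - t| * N d :=
    hN.lin2' (by rw [eb, ec, ed]; module)
  rw [abs_neg] at i9 i10 i11 i12
  rw [abs_neg, abs_neg] at i2 i4
  clear_value U V
  have hs : 0 ≤ s ∧ s ≤ 1 ∧ 0 ≤ t ∧ t ≤ 1 := by
    rcases lt_or_ge s 0 with s0 | s0
    · exfalso
      rw [abs_of_neg s0] at i3 i6 i8
      rw [abs_of_pos (by linarith : 0 < 1 - s)] at i1 i3 i6 i8
      rcases lt_or_ge t 0 with t0 | t0
      · rw [abs_of_pos (by linarith : 0 < 1 - s - t)] at i5 i6
        rw [abs_of_neg t0, abs_of_pos (by linarith : 0 < 1 - t)] at i5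
        have m := mul_pos (by linarith : 0 < 1 - s - t) (by linarith : 0 < N U + N V - N b - N c)
        linarith
      · rcases le_or_gt t 1 with t1 | t1
        · rw [abs_of_nonneg t0, abs_of_nonneg (by linarith : 0 ≤ 1 - t)] at i1
          have m1 := mul_nonneg t0 (by linarith : 0 ≤ N b - N d)
          have m2 := mul_pos (by linarith : 0 < 1 - s) (by linarith : 0 < N U - N b)
          have m3 := mul_pos (by linarith : 0 < -s) (by linarith : 0 < N b)
          linarith
        · rw [abs_of_pos (by linarith : 0 < t - s)] at i7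
          rw [abs_of_neg (by linarith : s - t < 0)] at i8
          rw [abs_of_pos (by linarith : 0 < t), abs_of_neg (by linarith : 1 - t < 0)] at i7
          have m := mul_pos (by linarith : 0 < t - s) (by linarith : 0 < N U + N V - N a - N d)
          linarith
    · rcases le_or_gt s 1 with s1 | s1
      · refine ⟨s0, s1, ?_, ?_⟩
        · by_contra t0
          push Not at t0
          rw [abs_of_nonneg s0, abs_of_nonneg (by linarith : 0 ≤ 1 - s),
            abs_of_pos (by linarith : 0 < 1 - t)] at i3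
          have m1 := mul_nonneg s0 (by linarith : 0 ≤ N c - N d)
          have m2 := mul_pos (by linarith : 0 < 1 - t) (by linarith : 0 < N V - N c)
          have m3 := mul_pos (by linarith : 0 < -t) (by linarith : 0 < N c)
          linarith
        · by_contra t1
          push Not at t1
          rw [abs_of_nonneg s0, abs_of_nonneg (by linarith : 0 ≤ 1 - s),
            abs_of_pos (by linarith : 0 < t)] at i4
          have m1 := mul_nonneg s0 (by linarith : 0 ≤ N a - N b)
          have m2 := mul_pos (by linarith : 0 < t) (by linarith : 0 < N V - N a)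
          have m3 := mul_pos (by linarith : 0 < t - 1) (by linarith : 0 < N a)
          linarith
      · exfalso
        rw [abs_of_pos (by linarith : 0 < s)] at i2 i6 i8
        rw [abs_of_neg (by linarith : 1 - s < 0)] at i6 i8
        rcases lt_or_ge t 0 with t0 | t0
        · rw [abs_of_neg (by linarith : t - s < 0)] at i7
          rw [abs_of_pos (by linarith : 0 < s - t)] at i8
          rw [abs_of_neg t0, abs_of_pos (by linarith : 0 < 1 - t)] at i7
          have m := mul_pos (by linarith : 0 < s - t) (by linarith : 0 < N U + N V - N a - N d)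
          linarith
        · rcases le_or_gt t 1 with t1 | t1
          · rw [abs_of_nonneg t0, abs_of_nonneg (by linarith : 0 ≤ 1 - t)] at i2
            have m1 := mul_nonneg t0 (by linarith : 0 ≤ N a - N c)
            have m2 := mul_pos (by linarith : 0 < s) (by linarith : 0 < N U - N a)
            have m3 := mul_pos (by linarith : 0 < s - 1) (by linarith : 0 < N a)
            linarith
          · rw [abs_of_neg (by linarith : 1 - s - t < 0)] at i5 i6
            rw [abs_of_pos (by linarith : 0 < t), abs_of_neg (by linarith : 1 - t < 0)] at i5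
            have m := mul_pos (by linarith : 0 < s + t - 1)
              (by linarith : 0 < N U + N V - N b - N c)
            linarith
  obtain ⟨s0, s1, t0, t1⟩ := hs
  have hsum : 1 < s + t := by
    by_contra hcon
    push Not at hcon
    rw [abs_of_nonneg (by linarith : 0 ≤ 1 - t)] at i9 i10 i12
    rw [abs_of_nonneg (by linarith : 0 ≤ 1 - s)] at i10 i11 i12
    rw [abs_of_nonneg (by linarith : 0 ≤ 1 - s - t)] at i10 i12
    rw [abs_of_nonneg s0] at i9
    rw [abs_of_nonneg t0] at i11
    rcases le_total t s with hts | hts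
    · rw [abs_of_nonneg (by linarith : 0 ≤ s - t)] at i9
      have ht1 : 0 < 1 - t := by linarith
      have m := mul_pos ht1 (by linarith : 0 < N a + N b - N c - N d)
      linarith
    · rw [abs_of_nonpos (by linarith : s - t ≤ 0)] at i9
      rw [abs_of_nonneg (by linarith : 0 ≤ t - s)] at i11
      have m := mul_pos (by linarith : 0 < 2 - s - t) (by linarith : 0 < N a + N c - N b - N d)
      linarith
  refine ⟨s, t, s0, s1, ?_, t1, hsum, hst⟩
  rw [abs_of_nonneg (by linarith : 0 ≤ 1 - t), abs_of_nonneg (by linarith : 0 ≤ 1 - s),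
    abs_of_neg (by linarith : 1 - s - t < 0)] at i10
  by_contra hcon
  push Not at hcon
  have m1 := mul_nonneg (by linarith : 0 ≤ 1 - s) (by linarith : 0 ≤ N b - N c)
  have m2 := mul_pos (by linarith : 0 < s + t - 1) (by linarith : 0 < N b - N d)
  have m3 := mul_nonneg (by linarith : 0 ≤ 1 - 2 * t) (by linarith : 0 ≤ N b)
  linarith

end IsNorm2

namespace BASeq

variable {N : (Fin 2 → ℝ) → ℝ} {X : (Fin 3 → ℤ) →+ ℤ} {E : (Fin 3 → ℤ) →+ (Fin 2 → ℝ)}
  {z : ℕ → Fin 3 → ℤ} (h : BASeq N X E z)
include h

/-- Heights grow at least linearly. -/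
lemma x_ge (n : ℕ) : (n : ℤ) < X (z n) := by
  induction n with
  | zero => exact h.xpos
  | succ k ih =>
    have := h.x_lt (show k < k + 1 by omega)
    push_cast
    omega

/-- The error map is injective. -/
lemma E_inj (w : Fin 3 → ℤ) (hw : E w = 0) : w = 0 := by
  by_contra hne
  obtain ⟨n, hn⟩ : ∃ n : ℕ, |X w| = (n : ℤ) := ⟨(X w).natAbs, (Int.natCast_natAbs (X w)).symm⟩
  have h1 := h.x_ge (n + 1)
  have h2 := h.best n w hne (by rw [hn]; push_cast at h1; omega)
  rw [hw, h.norm.zero] at h2
  have := h.r_pos n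
  linarith

/-- The geometry of a violation. -/
lemma viol_geom (n : ℕ) (hn : 1 ≤ n) (hV : X (z (n + 3)) < X (z (n + 1)) + X (z n)) :
    N (E (z n)) < N (E (z (n + 1)) - E (z n)) ∧ N (E (z n)) < N (E (z (n + 2)) - E (z n)) ∧
      N (E (z n)) < N (E (z (n + 2)) - E (z (n + 1))) := by
  obtain ⟨m, rfl⟩ : ∃ m, n = m + 1 := ⟨n - 1, by omega⟩
  have e := congrArg X (h.viol (m + 1) hV)
  rw [map_add, map_add] at e
  have x01 := h.x_lt (show m + 1 < m + 1 + 1 by omega)
  have x12 := h.x_lt (show m + 1 + 1 < m + 1 + 2 by omega)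
  have x0 := h.x_pos (m + 1)
  have r := h.r_lt (show m < m + 1 by omega)
  have key : ∀ i j, X (z j) < X (z i) → X (z i) - X (z j) < X (z (m + 1)) →
      N (E (z (m + 1))) < N (E (z i) - E (z j)) := by
    intro i j h1 h2
    have := h.best m (z i - z j) (by intro h0; rw [sub_eq_zero] at h0; rw [h0] at h1; omega)
      (by rw [map_sub, abs_of_pos (by omega)]; exact h2)
    rw [map_sub] at this
    linarith
  refine ⟨key _ _ x01 (by omega), key _ _ (by omega) (by omega), key _ _ x12 (by omega)⟩

/-- **Base geometry at a violation.** -/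
theorem base_coords (n : ℕ) (hn : 1 ≤ n) (hV : X (z (n + 3)) < X (z (n + 1)) + X (z n)) :
    (∀ w : Fin 3 → ℤ, ∃ k m l : ℤ,
      w = k • z n + m • (z (n + 1) - z n) + l • (z (n + 2) - z n)) ∧
    ∃ s t : ℝ, 0 ≤ s ∧ s ≤ 1 ∧ 1 / 2 < t ∧ t ≤ 1 ∧ 1 < s + t ∧
      E (z n) = -(s • E (z (n + 1) - z n) + t • E (z (n + 2) - z n)) := by
  have hviol := h.viol n hV
  obtain ⟨gU, gV, gW⟩ := h.viol_geom n hn hV
  have x01 := h.x_lt (show n < n + 1 by omega)
  have x12 := h.x_lt (show n + 1 < n + 2 by omega)
  have x0 := h.x_pos n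
  have r01 := h.r_lt (show n < n + 1 by omega)
  have r12 := h.r_lt (show n + 1 < n + 2 by omega)
  have r23 := h.r_lt (show n + 2 < n + 3 by omega)
  have e3 : E (z (n + 3)) = E (z (n + 1)) + E (z (n + 2)) - E (z n) := by
    rw [← map_add, ← hviol, map_add]; abel
  have x3 : X (z (n + 3)) = X (z (n + 1)) + X (z (n + 2)) - X (z n) := by
    rw [← map_add, ← hviol, map_add]; abel
  obtain ⟨s, t, s0, s1, t2, t1, hsum, hst⟩ := h.norm.par_coords _ _ _ _ e3 r01 r12 r23 gU gV gW
  have indep := h.norm.par_indep _ _ _ r01 r12 gU gV gW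
  refine ⟨?_, s, t, s0, s1, t2, t1, hsum, by rw [map_sub, map_sub]; exact hst⟩
  -- the basis property
  set e0 := E (z n) with he0
  set U := E (z (n + 1)) - E (z n) with hU
  set V := E (z (n + 2)) - E (z n) with hVd
  have hE1 : E (z (n + 1)) = e0 + U := by rw [hU]; abel
  have hE2 : E (z (n + 2)) = e0 + V := by rw [hVd]; abel
  have hE3 : E (z (n + 3)) = e0 + U + V := by rw [e3, hU, hVd]; abel
  have t0 : (0:ℝ) < t := by linarith
  let Good : (Fin 3 → ℤ) → Prop := fun w => ∃ k m l : ℤ,
      w = k • z n + m • (z (n + 1) - z n) + l • (z (n + 2) - z n)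
  let xu : ℝ := ((X (z (n + 1)) - X (z n) : ℤ) : ℝ)
  let xv : ℝ := ((X (z (n + 2)) - X (z n) : ℤ) : ℝ)
  let x0r : ℝ := ((X (z n) : ℤ) : ℝ)
  have hxu : 0 < xu := by
    show (0:ℝ) < ((X (z (n + 1)) - X (z n) : ℤ) : ℝ)
    exact_mod_cast (by omega : 0 < X (z (n + 1)) - X (z n))
  have hxuv : xu < xv := by
    show ((X (z (n + 1)) - X (z n) : ℤ) : ℝ) < ((X (z (n + 2)) - X (z n) : ℤ) : ℝ)
    exact_mod_cast (by omega : X (z (n + 1)) - X (z n) < X (z (n + 2)) - X (z n))
  have hxv0 : xv < x0r := by
    show ((X (z (n + 2)) - X (z n) : ℤ) : ℝ) < ((X (z n) : ℤ) : ℝ)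
    exact_mod_cast (by omega : X (z (n + 2)) - X (z n) < X (z n))
  set Ω : ℝ := x0r + s * xu + t * xv with hΩ
  have hsxu : 0 ≤ s * xu := mul_nonneg s0 hxu.le
  have htxv : 0 < t * xv := mul_pos t0 (by linarith)
  have hΩ0 : 0 < Ω := by linarith
  -- key lemma: bad vectors have large fractional part
  have key : ∀ (w : Fin 3 → ℤ) (k p q : ℝ), ¬ Good w → E w = p • U + q • V →
      ((X w : ℤ) : ℝ) = k * Ω + p * xu + q * xv → 1 / 3 < Int.fract k := by
    intro w k p q hbad hEw hXw
    set a : ℤ := ⌊k⌋ with ha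
    set m : ℤ := ⌊p + a * s + s⌋ with hm
    set l : ℤ := ⌊q + a * t + t⌋ with hl
    set α : ℝ := Int.fract (p + a * s + s) with hα
    set β : ℝ := Int.fract (q + a * t + t) with hβ
    have α0 : 0 ≤ α := Int.fract_nonneg _
    have α1 : α < 1 := Int.fract_lt_one _
    have β0 : 0 ≤ β := Int.fract_nonneg _
    have β1 : β < 1 := Int.fract_lt_one _
    have κ0 : 0 ≤ Int.fract k := Int.fract_nonneg _
    have hαe : p + a * s - m = α - s := by
      have := Int.fract_add_floor (p + a * s + s)
      rw [← hα, ← hm] at this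
      linarith
    have hβe : q + a * t - l = β - t := by
      have := Int.fract_add_floor (q + a * t + t)
      rw [← hβ, ← hl] at this
      linarith
    have hke : k - a = Int.fract k := by
      have := Int.fract_add_floor k
      rw [← ha] at this
      linarith
    set w' : Fin 3 → ℤ := w - a • z n - m • (z (n + 1) - z n) - l • (z (n + 2) - z n) with hw'
    have hEw' : E w' = (α - s) • U + (β - t) • V := by
      rw [hw', map_sub, map_sub, map_sub, map_zsmul, map_zsmul, map_zsmul, map_sub, map_sub,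
        ← he0, ← hU, ← hVd, hEw, ← hαe, ← hβe, ← Int.cast_smul_eq_zsmul ℝ a,
        ← Int.cast_smul_eq_zsmul ℝ m, ← Int.cast_smul_eq_zsmul ℝ l]
      nth_rewrite 1 [hst]
      module
    have hXw' : ((X w' : ℤ) : ℝ) = Int.fract k * Ω + (α - s) * xu + (β - t) * xv := by
      rw [hw', map_sub, map_sub, map_sub, map_zsmul, map_zsmul, map_zsmul, map_sub, map_sub,
        ← hαe, ← hβe, ← hke]
      push_cast [smul_eq_mul]
      rw [hXw]
      show _ - _ * x0r - _ * (_ - _) - _ * (_ - _) = _
      have hxu' : ((X (z (n + 1)) : ℤ) : ℝ) - ((X (z n) : ℤ) : ℝ) = xu := by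
        show _ = ((X (z (n + 1)) - X (z n) : ℤ) : ℝ)
        push_cast; ring
      have hxv' : ((X (z (n + 2)) : ℤ) : ℝ) - ((X (z n) : ℤ) : ℝ) = xv := by
        show _ = ((X (z (n + 2)) - X (z n) : ℤ) : ℝ)
        push_cast; ring
      rw [hxu', hxv', hΩ]
      ring
    have hbad' : ∀ a' b' c' : ℤ,
        w' ≠ a' • z n + b' • (z (n + 1) - z n) + c' • (z (n + 2) - z n) := by
      intro a' b' c' hc
      apply hbad
      refine ⟨a + a', m + b', l + c', ?_⟩
      have : w = w' + a • z n + m • (z (n + 1) - z n) + l • (z (n + 2) - z n) := by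
        rw [hw']; abel
      rw [this, hc]
      module
    have hw'0 : w' ≠ 0 := by
      have := hbad' 0 0 0
      simpa using this
    -- the norm of the error
    have hcomb : E w' = ((1 - α) * (1 - β)) • e0 + (α * (1 - β)) • E (z (n + 1))
        + ((1 - α) * β) • E (z (n + 2)) + (α * β) • E (z (n + 3)) := by
      rw [hE1, hE2, hE3, hEw']
      have : (α - s) • U + (β - t) • V = e0 + α • U + β • V := by
        nth_rewrite 1 [hst]; module
      rw [this]
      module
    have hnorm : N (E w') ≤ (1 - α) * (1 - β) * N e0 + α * (1 - β) * N (E (z (n + 1)))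
        + (1 - α) * β * N (E (z (n + 2))) + α * β * N (E (z (n + 3))) := by
      rw [hcomb]
      have n1 := h.norm.tri (((1 - α) * (1 - β)) • e0 + (α * (1 - β)) • E (z (n + 1))
        + ((1 - α) * β) • E (z (n + 2))) ((α * β) • E (z (n + 3)))
      have n2 := h.norm.tri (((1 - α) * (1 - β)) • e0 + (α * (1 - β)) • E (z (n + 1)))
        (((1 - α) * β) • E (z (n + 2)))
      have n3 := h.norm.tri (((1 - α) * (1 - β)) • e0) ((α * (1 - β)) • E (z (n + 1)))
      rw [h.norm.hom, h.norm.hom, abs_of_nonneg (mul_nonneg (by linarith) (by linarith)),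
        abs_of_nonneg (mul_nonneg (by linarith) (by linarith))] at n3
      rw [h.norm.hom ((1 - α) * β), abs_of_nonneg (mul_nonneg (by linarith) (by linarith))] at n2
      rw [h.norm.hom (α * β), abs_of_nonneg (mul_nonneg (by linarith) (by linarith))] at n1
      linarith
    -- height is large
    have hbig : X (z (n + 1)) ≤ |X w'| := by
      by_contra hcon
      push Not at hcon
      have hb := h.best n w' hw'0 hcon
      rw [← he0] at hb
      have p1 : 0 ≤ α * (1 - β) * (N e0 - N (E (z (n + 1)))) :=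
        mul_nonneg (mul_nonneg α0 (by linarith)) (by linarith)
      have p2 : 0 ≤ (1 - α) * β * (N e0 - N (E (z (n + 2)))) :=
        mul_nonneg (mul_nonneg (by linarith) β0) (by linarith)
      have p3 : 0 ≤ α * β * (N e0 - N (E (z (n + 3)))) :=
        mul_nonneg (mul_nonneg α0 β0) (by linarith)
      have hα00 : α = 0 := by
        rcases eq_or_lt_of_le α0 with h0 | h0
        · exact h0.symm
        · exfalso
          have := mul_pos (mul_pos h0 (by linarith : 0 < 1 - β))
            (by linarith : 0 < N e0 - N (E (z (n + 1))))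
          linarith
      have hβ00 : β = 0 := by
        rcases eq_or_lt_of_le β0 with h0 | h0
        · exact h0.symm
        · exfalso
          have := mul_pos (mul_pos (by linarith : 0 < 1 - α) h0)
            (by linarith : 0 < N e0 - N (E (z (n + 2))))
          linarith
      have hEe : E (w' - z n) = 0 := by
        rw [map_sub, hcomb, hα00, hβ00, ← he0]; module
      have := h.E_inj _ hEe
      apply hbad' 1 0 0
      rw [sub_eq_zero] at this
      rw [this]; module
    have hαxu : 0 ≤ α * xu := mul_nonneg α0 hxu.le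
    have hβxv : 0 ≤ β * xv := mul_nonneg β0 (by linarith)
    have hxv : 0 < xv := by linarith
    have hαxu1 : α * xu ≤ xu := mul_le_of_le_one_left hxu.le α1.le
    have hβxv1 : β * xv ≤ xv := mul_le_of_le_one_left hxv.le β1.le
    have hsxu1 : s * xu ≤ xu := mul_le_of_le_one_left hxu.le s1
    have htxv1 : t * xv ≤ xv := mul_le_of_le_one_left hxv.le t1
    have hκΩ : 0 ≤ Int.fract k * Ω := mul_nonneg κ0 hΩ0.le
    have hx1r : ((X (z (n + 1)) : ℤ) : ℝ) = x0r + xu := by
      show _ = ((X (z n) : ℤ) : ℝ) + ((X (z (n + 1)) - X (z n) : ℤ) : ℝ)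
      push_cast; ring
    have hvr : xu + xv < x0r + xu := by linarith
    have hpos : 0 < X w' ∨ X w' ≤ 0 := lt_or_ge _ _
    have hXpos : X (z (n + 1)) ≤ X w' := by
      rcases le_or_gt 0 (X w') with hp | hp
      · rwa [abs_of_nonneg hp] at hbig
      · exfalso
        rw [abs_of_neg hp] at hbig
        have : ((X (z (n + 1)) : ℤ) : ℝ) ≤ -((X w' : ℤ) : ℝ) := by exact_mod_cast hbig
        rw [hx1r, hXw'] at this
        linarith
    have hXr : x0r + xu ≤ Int.fract k * Ω + (α - s) * xu + (β - t) * xv := by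
      rw [← hx1r, ← hXw']
      exact_mod_cast hXpos
    -- k Ω ≥ Ω - xv
    have h1 : Ω - xv ≤ Int.fract k * Ω := by
      have hΩ' : Ω = x0r + s * xu + t * xv := hΩ
      linarith
    by_contra hcon
    push Not at hcon
    have h2 : Int.fract k * Ω ≤ 1 / 3 * Ω := mul_le_mul_of_nonneg_right hcon hΩ0.le
    have h3 : (1 + t) * xv < Ω := by
      have hΩ' : Ω = x0r + s * xu + t * xv := hΩ
      linarith
    have h4 : 3 / 2 * xv < (1 + t) * xv := mul_lt_mul_of_pos_right (by linarith) hxv
    linarith
  -- real coordinates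
  have coords : ∀ w : Fin 3 → ℤ, ∃ k p q : ℝ, E w = p • U + q • V ∧
      ((X w : ℤ) : ℝ) = k * Ω + p * xu + q * xv := by
    intro w
    obtain ⟨p, q, hpq⟩ : ∃ p q : ℝ, E w = p • U + q • V := by
      obtain ⟨a, b, c, hne, hrel⟩ := rel3 (E w) U V
      have ha : a ≠ 0 := by
        intro ha
        rw [ha, zero_smul, zero_add] at hrel
        have := indep b c hrel
        rcases hne with h1 | h1 | h1
        · exact h1 ha
        · exact h1 this.1
        · exact h1 this.2
      refine ⟨-(a⁻¹ * b), -(a⁻¹ * c), ?_⟩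
      have h1 : a • E w = -(b • U + c • V) := by
        rw [eq_neg_iff_add_eq_zero, ← add_assoc]; exact hrel
      have h2 : E w = a⁻¹ • (a • E w) := by rw [smul_smul, inv_mul_cancel₀ ha, one_smul]
      rw [h2, h1]
      module
    refine ⟨(((X w : ℤ) : ℝ) - p * xu - q * xv) / Ω, p, q, hpq, ?_⟩
    field_simp
    ring
  intro w
  by_contra hbad
  have hbad : ¬ Good w := hbad
  obtain ⟨k, p, q, hE, hX⟩ := coords w
  have f1 := key w k p q hbad hE hX
  have hbadn : ¬ Good (-w) := by
    rintro ⟨a, b, c, he⟩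
    apply hbad
    refine ⟨-a, -b, -c, ?_⟩
    rw [← neg_neg w, he]
    module
  have f2 := key (-w) (-k) (-p) (-q) hbadn (by rw [map_neg, hE]; module)
    (by rw [map_neg]; push_cast; rw [hX]; ring)
  have hbad2 : ¬ Good (w + w) := by
    rintro ⟨a, b, c, he⟩
    have par : ∀ a : ℤ, ∃ a' e : ℤ, a = 2 * a' + e ∧ (e = 0 ∨ e = 1) :=
      fun a => ⟨a / 2, a % 2, by omega, by omega⟩
    obtain ⟨a', ea, ha, ha2⟩ := par a
    obtain ⟨b', eb, hb, hb2⟩ := par b
    obtain ⟨c', ec, hc, hc2⟩ := par c
    set y := w - (a' • z n + b' • (z (n + 1) - z n) + c' • (z (n + 2) - z n)) with hy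
    have hyy : y + y = ea • z n + eb • (z (n + 1) - z n) + ec • (z (n + 2) - z n) := by
      have e1 : y + y = (w + w) - (2 * a') • z n - (2 * b') • (z (n + 1) - z n)
          - (2 * c') • (z (n + 2) - z n) := by
        rw [hy]; module
      rw [e1, he, ha, hb, hc]
      module
    have hc0 : cls (y + y) = 0 := by
      rw [cls_add]
      have : ∀ v : ZMod 2 × ZMod 2 × ZMod 2, v + v = 0 := by decide
      exact this _
    rw [hyy] at hc0
    have sc : ∀ i j : ℕ, i < j → X (z j) < X (z i) + 2 * X (z (i + 1)) →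
        cls (z j) + cls (z i) ≠ 0 := by
      intro i j hij hx hcc
      have := h.same_cls hij (by rw [add_comm]; exact hcc)
      omega
    have s01 := sc n (n + 1) (by omega) (by omega)
    have s02 := sc n (n + 2) (by omega) (by omega)
    have s12 := sc (n + 1) (n + 2) (by omega) (by
      have : X (z (n + 1 + 1)) = X (z (n + 2)) := rfl
      omega)
    have c0 := h.cls_ne n
    have c1 := h.cls_ne (n + 1)
    have c2 := h.cls_ne (n + 2)
    have c3 := h.cls_ne (n + 3)
    have z3 : z (n + 3) = z (n + 1) + z (n + 2) - z n := by rw [← hviol]; abel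
    rcases ha2 with rfl | rfl <;> rcases hb2 with rfl | rfl <;> rcases hc2 with rfl | rfl
    · -- all even
      apply hbad
      refine ⟨a', b', c', ?_⟩
      have hyz : y + y = 0 := by rw [hyy]; simp
      have hy0 : y = 0 := by
        ext i
        have := congrFun hyz i
        simp only [Pi.add_apply, Pi.zero_apply] at this ⊢
        omega
      rw [hy, sub_eq_zero] at hy0
      exact hy0
    · apply s02
      rw [← cls_sub, ← hc0]; congr 1; simp
    · apply s01
      rw [← cls_sub, ← hc0]; congr 1; simp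
    · apply s12
      have : (0:ℤ) • z n + (1:ℤ) • (z (n + 1) - z n) + (1:ℤ) • (z (n + 2) - z n)
          = z (n + 2) + z (n + 1) - (z n + z n) := by module
      rw [this, cls_sub, cls_add, cls_add] at hc0
      have hv : ∀ v : ZMod 2 × ZMod 2 × ZMod 2, v + v = 0 := by decide
      rw [hv, add_zero] at hc0
      exact hc0
    · apply c0
      rw [← hc0]; congr 1; simp
    · apply c2
      rw [← hc0]; congr 1; simp
    · apply c1
      rw [← hc0]; congr 1; simp
    · apply c3
      rw [← hc0, z3]; congr 1; module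
  have f3 := key (w + w) (2 * k) (2 * p) (2 * q) hbad2 (by rw [map_add, hE]; module)
    (by rw [map_add]; push_cast; rw [hX]; ring)
  -- final contradiction on fractional parts
  have hk0 : Int.fract k ≠ 0 := by linarith
  have hneg : Int.fract (-k) = 1 - Int.fract k := Int.fract_neg hk0
  rw [hneg] at f2
  have hfl := Int.fract_add_floor k
  have hlt := Int.fract_lt_one k
  rcases lt_or_ge (Int.fract k) (1 / 2) with hk | hk
  · -- fract (2k) = 2 fract k > 2/3; use -(w+w)
    have hbadn2 : ¬ Good (-(w + w)) := by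
      rintro ⟨a, b, c, he⟩
      apply hbad2
      refine ⟨-a, -b, -c, ?_⟩
      rw [← neg_neg (w + w), he]
      module
    have f4 := key (-(w + w)) (-(2 * k)) (-(2 * p)) (-(2 * q)) hbadn2
      (by rw [map_neg, map_add, hE]; module) (by rw [map_neg, map_add]; push_cast; rw [hX]; ring)
    have h1 : Int.fract (2 * k) = 2 * Int.fract k := by
      rw [Int.fract_eq_iff]
      refine ⟨by linarith, by linarith, 2 * ⌊k⌋, ?_⟩
      push_cast
      linarith
    have h2 : Int.fract (-(2 * k)) = 1 - Int.fract (2 * k) := Int.fract_neg (by linarith)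
    rw [h2, h1] at f4
    linarith
  · have h1 : Int.fract (2 * k) = 2 * Int.fract k - 1 := by
      rw [Int.fract_eq_iff]
      refine ⟨by linarith, by linarith, 2 * ⌊k⌋ + 1, ?_⟩
      push_cast
      linarith
    rw [h1] at f3
    linarith

end BASeq

end Pool.Agent.Helper54
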