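import Pool.Agent.Lib.Helper54.S18919.Ctx
import Pool.Agent.Lib.Helper54.S18919.Base

/-!
# From best approximations to the abstract situation (chunk H)
-/

set_option autoImplicit false

namespace Pool.Agent.Helper54.Cert

/-- The state at the root of the certificate. -/
def rootSt : St :=
  ⟨0, 67, [⟨1, 0, 1, 0, 1, 0⟩, ⟨1, 0, 1, 0, 2, 0⟩, ⟨1, 0, 2, 0, 2, 0⟩, ⟨1, 0, 2, 0, 3, 0⟩],
    0, 65, [1, 2], [], [], [], .c, .c⟩

theorem lab_root (i : ℕ) : (i = 64 ∧ lab rootSt i = 1) ∨ (i = 65 ∧ lab rootSt i = 2) ∨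
    lab rootSt i = 0 := by
  by_cases h64 : i = 64
  · subst h64; left; exact ⟨rfl, rfl⟩
  · by_cases h65 : i = 65
    · subst h65; right; left; exact ⟨rfl, rfl⟩
    · right; right
      rcases Nat.lt_or_ge i 64 with h | h
      · have : Nat.ble 64 (Nat.add i 0) = false := by
          rw [← Bool.not_eq_true, Nat.ble_eq]
          show ¬ 64 ≤ i
          omega
        show cond (Nat.ble 64 (Nat.add i 0)) _ 0 = 0
        rw [this]; rfl
      · obtain ⟨k, rfl⟩ : ∃ k, i = k + 66 := ⟨i - 66, by omega⟩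
        have h1 : Nat.ble 64 (Nat.add (k + 66) 0) = true := by
          rw [Nat.ble_eq]
          show 64 ≤ k + 66
          omega
        have h2 : Nat.sub (Nat.add (k + 66) 0) 64 = k + 2 := by
          show k + 66 + 0 - 64 = k + 2
          omega
        show cond (Nat.ble 64 (Nat.add (k + 66) 0))
          (get 0 [1, 2] (Nat.sub (Nat.add (k + 66) 0) 64)) 0 = 0
        rw [h1, h2]; rfl

theorem root_holds (C : Ctx) : Holds C rootSt := by
  refine ⟨by decide, by decide, rfl, ?_, by decide, by decide, rfl, ?_, ?_, ?_, ?_, ?_, ?_⟩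
  · intro i hi
    have h1 : 64 ≤ i ∧ i ≤ 67 := by
      have hi' : cond (Nat.ble 64 (Nat.add i 0)) (Nat.ble i 67) false = true := hi
      rcases hb : Nat.ble 64 (Nat.add i 0) with _ | _
      · rw [hb] at hi'; exact absurd hi' (by simp)
      · rw [hb] at hi'
        have h1 : 64 ≤ i := Nat.le_of_ble_eq_true hb
        exact ⟨h1, Nat.le_of_ble_eq_true hi'⟩
    have h2 : i = 64 ∨ i = 65 ∨ i = 66 ∨ i = 67 := by omega
    rcases h2 with rfl | rfl | rfl | rfl
    · rw [C.z64]; rfl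
    · rw [C.z65]; rfl
    · rw [C.z66]; rfl
    · rw [C.z67]; rfl
  · intro i hi
    rcases lab_root i with ⟨h1, h2⟩ | ⟨h1, h2⟩ | h2
    · subst h1; exact C.lab64
    · rw [h2] at hi; exact absurd hi (by decide)
    · rw [h2] at hi; exact absurd hi (by decide)
  · intro i hi
    rcases lab_root i with ⟨h1, h2⟩ | ⟨h1, h2⟩ | h2
    · rw [h2] at hi; exact absurd hi (by decide)
    · subst h1; exact not_lt.2 C.lab65
    · rw [h2] at hi; exact absurd hi (by decide)
  · intro f hf; exact absurd hf (List.not_mem_nil)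
  · intro f hf; exact absurd hf (List.not_mem_nil)
  · intro f hf; exact absurd hf (List.not_mem_nil)
  · exact C.c_mem

/-! ### Coordinates -/

/-- The planar seminorm in coordinates. -/
noncomputable def planar {N : (Fin 2 → ℝ) → ℝ} (hN : IsNorm2 N) (p q r : Fin 2 → ℝ) :
    Seminorm ℝ E3 :=
  Seminorm.of (fun w => N (w.1 • p + w.2.1 • q + w.2.2 • r))
    (fun x y => by
      have := hN.tri (x.1 • p + x.2.1 • q + x.2.2 • r) (y.1 • p + y.2.1 • q + y.2.2 • r)
      have e : (x + y).1 • p + (x + y).2.1 • q + (x + y).2.2 • r =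
          (x.1 • p + x.2.1 • q + x.2.2 • r) + (y.1 • p + y.2.1 • q + y.2.2 • r) := by
        simp only [Prod.fst_add, Prod.snd_add]; module
      rw [e]; exact this)
    (fun a x => by
      have e : (a • x).1 • p + (a • x).2.1 • q + (a • x).2.2 • r =
          a • (x.1 • p + x.2.1 • q + x.2.2 • r) := by
        simp only [Prod.smul_fst, Prod.smul_snd, smul_eq_mul]; module
      rw [e, hN.hom, Real.norm_eq_abs])

theorem planar_apply {N : (Fin 2 → ℝ) → ℝ} (hN : IsNorm2 N) (p q r : Fin 2 → ℝ) (w : E3) :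
    planar hN p q r w = N (w.1 • p + w.2.1 • q + w.2.2 • r) := rfl

/-- The vector with given coordinates. -/
def emb (a b u : Fin 3 → ℤ) : Z3 →+ (Fin 3 → ℤ) where
  toFun w := w.1 • a + w.2.1 • b + w.2.2 • u
  map_zero' := by simp
  map_add' v w := by
    simp only [Prod.fst_add, Prod.snd_add]; module

theorem emb_apply (a b u : Fin 3 → ℤ) (w : Z3) :
    emb a b u w = w.1 • a + w.2.1 • b + w.2.2 • u := rfl

theorem emb_inj (a b u : Fin 3 → ℤ) (hs : Function.Surjective (emb a b u)) :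
    Function.Injective (emb a b u) := by
  have hi : Function.Injective
      (emb (Pi.single 0 1) (Pi.single 1 1) (Pi.single 2 1)).toIntLinearMap := by
    intro v w hvw
    have h : emb (Pi.single 0 1) (Pi.single 1 1) (Pi.single 2 1) v =
      emb (Pi.single 0 1) (Pi.single 1 1) (Pi.single 2 1) w := hvw
    have h0 := congrFun h 0
    have h1 := congrFun h 1
    have h2 := congrFun h 2
    simp [emb_apply] at h0 h1 h2
    exact Prod.ext h0 (Prod.ext h1 h2)
  have := OrzechProperty.injective_of_surjective_of_injective _ (emb a b u).toIntLinearMap hi hs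
  exact this

theorem height_emb (X : (Fin 3 → ℤ) →+ ℤ) (a b u : Fin 3 → ℤ) (w : Z3) :
    dot3 ((X a : ℝ), (X b : ℝ), (X u : ℝ)) (cast3 w) = ((X (emb a b u w) : ℤ) : ℝ) := by
  rw [emb_apply, map_add, map_add, map_zsmul, map_zsmul, map_zsmul]
  simp only [dot3, cast3, smul_eq_mul]
  push_cast
  ring

theorem nu_emb {N : (Fin 2 → ℝ) → ℝ} (hN : IsNorm2 N) (E : (Fin 3 → ℤ) →+ (Fin 2 → ℝ))
    (a b u : Fin 3 → ℤ) (w : Z3) :
    planar hN (E a) (E b) (E u) (cast3 w) = N (E (emb a b u w)) := by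
  rw [planar_apply, emb_apply, map_add, map_add, map_zsmul, map_zsmul, map_zsmul]
  simp only [cast3]
  rw [Int.cast_smul_eq_zsmul, Int.cast_smul_eq_zsmul, Int.cast_smul_eq_zsmul]

/-- The label at `n` is A. -/
def LA (X : (Fin 3 → ℤ) →+ ℤ) (z : ℕ → Fin 3 → ℤ) (φ β : ℝ) (n : ℕ) : Prop :=
  β * φ ^ n < ((X (z n) : ℤ) : ℝ) + φ ^ 2 * ((X (z (n + 1)) : ℤ) : ℝ) +
    φ * ((X (z (n + 2)) : ℤ) : ℝ)

/-- A drop gives a violation. -/
theorem viol_of_drop (X : (Fin 3 → ℤ) →+ ℤ) (z : ℕ → Fin 3 → ℤ) (φ β : ℝ) (hφ0 : 0 < φ)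
    (hφ : φ ^ 3 = φ + 1) (n : ℕ) (hA : LA X z φ β n) (hD : ¬ LA X z φ β (n + 1)) :
    X (z (n + 3)) < X (z (n + 1)) + X (z n) := by
  unfold LA at hA hD
  push Not at hD
  have e1 : β * φ ^ (n + 1) = φ * (β * φ ^ n) := by rw [pow_succ]; ring
  rw [e1] at hD
  have h1 := mul_lt_mul_of_pos_left hA hφ0
  have h2 : ((X (z (n + 1)) : ℤ) : ℝ) + φ ^ 2 * ((X (z (n + 1 + 1)) : ℤ) : ℝ) +
      φ * ((X (z (n + 1 + 2)) : ℤ) : ℝ) < φ * (((X (z n) : ℤ) : ℝ) +
        φ ^ 2 * ((X (z (n + 1)) : ℤ) : ℝ) + φ * ((X (z (n + 2)) : ℤ) : ℝ)) :=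
    lt_of_le_of_lt hD h1
  have e2 : φ * (((X (z n) : ℤ) : ℝ) +
        φ ^ 2 * ((X (z (n + 1)) : ℤ) : ℝ) + φ * ((X (z (n + 2)) : ℤ) : ℝ)) =
      φ * ((X (z n) : ℤ) : ℝ) + φ ^ 3 * ((X (z (n + 1)) : ℤ) : ℝ) +
        φ ^ 2 * ((X (z (n + 2)) : ℤ) : ℝ) := by ring
  rw [e2, hφ] at h2
  have e3 : z (n + 1 + 1) = z (n + 2) := rfl
  have e4 : z (n + 1 + 2) = z (n + 3) := rfl
  rw [e3, e4] at h2
  have h3 : φ * ((X (z (n + 3)) : ℤ) : ℝ) <
      φ * (((X (z (n + 1)) : ℤ) : ℝ) + ((X (z n) : ℤ) : ℝ)) := by linarith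
  have h4 := lt_of_mul_lt_mul_left h3 hφ0.le
  exact_mod_cast h4

/-- The two root cells cover all kernel directions. -/
theorem root_cover (s t : ℝ) (hs1 : s ≤ 1) (ht2 : 1 / 2 < t) (ht1 : t ≤ 1) (hst : 1 < s + t) :
    root1.mem (1, 1 + t, 1 + s + t) ∨ root2.mem (1, 1 + t, 1 + s + t) := by
  rcases le_total s t with h | h
  · left
    refine ⟨t - s, 1 - t, s + t - 1, by linarith, by linarith, by linarith, ?_⟩
    refine Prod.ext ?_ (Prod.ext ?_ ?_)
    · simp [root1, Cn.toR]; ring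
    · simp [root1, Cn.toR]; ring
    · simp [root1, Cn.toR]; ring
  · right
    refine ⟨1 - s, s - t, 2 * t - 1, by linarith, by linarith, by linarith, ?_⟩
    refine Prod.ext ?_ (Prod.ext ?_ ?_)
    · simp [root2, Cn.toR]; ring
    · simp [root2, Cn.toR]; ring
    · simp [root2, Cn.toR]; ring

/-- The conclusion for one drop. -/
theorem drop_step (hv : Valid rootSt) {N : (Fin 2 → ℝ) → ℝ} {X : (Fin 3 → ℤ) →+ ℤ}
    {E : (Fin 3 → ℤ) →+ (Fin 2 → ℝ)} {z : ℕ → Fin 3 → ℤ} (h : BASeq N X E z) (φ β : ℝ)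
    (hφ0 : 0 < φ) (hφ : φ ^ 3 = φ + 1) (m : ℕ)
    (hA : LA X z φ β (m + 64)) (hD : ¬ LA X z φ β (m + 65))
    (hist1 : ∀ i, i < 64 → LA X z φ β (m + i) → ¬ LA X z φ β (m + i + 1) →
      ∀ j, j ≤ i → i ≤ j + cJ → LA X z φ β (m + j))
    (hist2 : ∀ i, i + 1 < 64 → ¬ LA X z φ β (m + i) → ¬ LA X z φ β (m + i + 1) →
      z (m + i + 3) = z (m + i + 1) + z (m + i))
    (hist3 : ∀ i, i + cK ≤ 64 → ∃ j, i ≤ j ∧ j < i + cK ∧ LA X z φ β (m + j)) :
    (∀ j, j ≤ 64 → 64 ≤ j + cJ → LA X z φ β (m + j)) ∧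
    (∀ i, 65 ≤ i → i + 1 < 64 + cK → (∀ j, 65 ≤ j → j ≤ i + 1 → ¬ LA X z φ β (m + j)) →
      z (m + i + 3) = z (m + i + 1) + z (m + i)) ∧
    (∃ j, 65 ≤ j ∧ j ≤ 64 + cK ∧ LA X z φ β (m + j)) := by
  have hV := viol_of_drop X z φ β hφ0 hφ (m + 64) hA hD
  obtain ⟨hbasis, s, t, s0, s1, t2, t1, hst, hE⟩ := h.base_coords (m + 64) (by omega) hV
  have hviol := h.viol (m + 64) hV
  have x01 := h.x_lt (show m + 64 < m + 64 + 1 by omega)
  have x12 := h.x_lt (show m + 64 + 1 < m + 64 + 2 by omega)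
  have x0 := h.x_pos (m + 64)
  set u := z (m + 64 + 1) - z (m + 64) with hu
  set b := z (m + 64 + 2) - z (m + 64 + 1) with hb
  set a := z (m + 64) - b - u with ha
  have hbu : z (m + 64 + 2) - z (m + 64) = b + u := by rw [hb, hu]; abel
  have e64 : z (m + 64) = emb a b u (1, 1, 1) := by
    rw [emb_apply, ha]; simp only [one_smul]; abel
  have e65 : z (m + 64 + 1) = emb a b u (1, 1, 2) := by
    have : z (m + 64 + 1) = z (m + 64) + u := by rw [hu]; abel
    rw [this, emb_apply, ha]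
    show _ = (1:ℤ) • _ + (1:ℤ) • b + (2:ℤ) • u
    module
  have e66 : z (m + 64 + 2) = emb a b u (1, 2, 2) := by
    have : z (m + 64 + 2) = z (m + 64) + u + b := by rw [hu, hb]; abel
    rw [this, emb_apply, ha]
    show _ = (1:ℤ) • _ + (2:ℤ) • b + (2:ℤ) • u
    module
  have e67 : z (m + 64 + 3) = emb a b u (1, 2, 3) := by
    have : z (m + 64 + 3) = z (m + 64 + 1) + z (m + 64 + 2) - z (m + 64) := by
      rw [← hviol]; abel
    rw [this, e64, e65, e66, ← map_add, ← map_sub]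
    rfl
  have hsurj : Function.Surjective (emb a b u) := by
    intro w
    obtain ⟨k, p, l, hw⟩ := hbasis w
    refine ⟨(k, k + l, k + p + l), ?_⟩
    rw [hw, hbu, emb_apply]
    show k • a + (k + l) • b + (k + p + l) • u = _
    rw [ha]
    module
  have hinj := emb_inj a b u hsurj
  choose z' hz' using fun i => hsurj (z (m + i))
  have hX3 : X (z (m + 64 + 3)) = X (z (m + 64 + 1)) + X (z (m + 64 + 2)) - X (z (m + 64)) := by
    have := congrArg X hviol
    rw [map_add, map_add] at this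
    omega
  have Xu : 0 < X u := by rw [hu, map_sub]; omega
  have Xb : 0 < X b := by rw [hb, map_sub]; omega
  have Xa : 0 < X a := by
    rw [ha, map_sub, map_sub, hb, hu, map_sub, map_sub]
    have : X (z (m + 64 + 3)) < X (z (m + 64 + 1)) + X (z (m + 64)) := hV
    omega
  have ht : ∀ i, dot3 ((X a : ℝ), (X b : ℝ), (X u : ℝ)) (cast3 (z' i)) =
      ((X (z (m + i)) : ℤ) : ℝ) := by
    intro i; rw [height_emb, hz']
  have hr : ∀ i, planar h.norm (E a) (E b) (E u) (cast3 (z' i)) = N (E (z (m + i))) := by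
    intro i; rw [nu_emb, hz']
  have hc : planar h.norm (E a) (E b) (E u) (1, 1 + t, 1 + s + t) = 0 := by
    rw [planar_apply]
    have : (1:ℝ) • E a + (1 + t) • E b + (1 + s + t) • E u = 0 := by
      rw [ha, map_sub, map_sub, hE, hbu, map_add]
      module
    show N ((1:ℝ) • E a + (1 + t) • E b + (1 + s + t) • E u) = 0
    rw [this, h.norm.zero]
  have hlab : ∀ i, (β * φ ^ m * φ ^ i < ((X (z (m + i)) : ℤ) : ℝ) +
      φ ^ 2 * ((X (z (m + (i + 1))) : ℤ) : ℝ) + φ * ((X (z (m + (i + 2))) : ℤ) : ℝ)) ↔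
      LA X z φ β (m + i) := by
    intro i
    unfold LA
    rw [mul_assoc, ← pow_add]
    rfl
  have hlabD : ∀ i, (((X (z (m + i)) : ℤ) : ℝ) +
      φ ^ 2 * ((X (z (m + (i + 1))) : ℤ) : ℝ) + φ * ((X (z (m + (i + 2))) : ℤ) : ℝ) ≤
      β * φ ^ m * φ ^ i) ↔ ¬ LA X z φ β (m + i) := by
    intro i
    rw [← hlab, not_lt]
  have hadd : ∀ i j k : ℕ, z (m + i) = z (m + j) + z (m + k) → z' i = z' j + z' k := by
    intro i j k hh
    apply hinj
    rw [map_add, hz', hz', hz', hh]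
  let C : Ctx :=
    { ν := planar h.norm (E a) (E b) (E u)
      c := (1, 1 + t, 1 + s + t)
      X := ((X a : ℝ), (X b : ℝ), (X u : ℝ))
      z := z'
      φ := φ
      β := β * φ ^ m
      φ_pos := hφ0
      φ_eq := hφ
      X_pos := ⟨Int.cast_pos.2 Xa, Int.cast_pos.2 Xb, Int.cast_pos.2 Xu⟩
      c_ne := by
        intro h0
        have := congrArg Prod.fst h0
        simp at this
      c_mem := root_cover s t s1 t2 t1 hst
      ν_c := hc
      z64 := hinj (by rw [hz', ← e64])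
      z65 := hinj (by rw [hz', ← e65])
      z66 := hinj (by rw [hz', ← e66])
      z67 := hinj (by rw [hz', ← e67])
      x_pos := by
        rw [ht]; exact_mod_cast h.x_pos _
      x_lt := by
        intro i; rw [ht, ht]; exact_mod_cast h.x_lt (show m + i < m + (i + 1) by omega)
      r_pos := by
        intro i; rw [hr]; exact h.r_pos _
      r_lt := by
        intro i; rw [hr, hr]; exact h.r_lt (show m + i < m + (i + 1) by omega)
      best := by
        intro i w hw hlt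
        rw [height_emb, ht] at hlt
        rw [hr, nu_emb]
        apply h.best (m + i) (emb a b u w)
        · intro h0
          apply hw
          apply hinj
          rw [h0, map_zero]
        · rw [← Int.cast_abs] at hlt
          exact_mod_cast hlt
      same := by
        intro i j hij hev
        rw [ht, ht, ht]
        obtain ⟨v, hv⟩ := hev
        have h1 : cls (z (m + i)) + cls (z (m + j)) = 0 := by
          rw [← cls_add, ← hz', ← hz', ← map_add, hv, map_add, cls_add]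
          have : ∀ v : ZMod 2 × ZMod 2 × ZMod 2, v + v = 0 := by decide
          exact this _
        have := h.same_cls (show m + i < m + j by omega) h1
        exact_mod_cast this
      fano := by
        intro i j k hij hjk hev
        rw [ht, ht, ht]
        obtain ⟨v, hv⟩ := hev
        have h1 : cls (z (m + i)) + cls (z (m + j)) + cls (z (m + k)) = 0 := by
          rw [← cls_add, ← cls_add, ← hz', ← hz', ← hz', ← map_add, ← map_add, hv, map_add,
            cls_add]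
          have : ∀ v : ZMod 2 × ZMod 2 × ZMod 2, v + v = 0 := by decide
          exact this _
        have := h.fano_line (show m + i < m + j by omega) (show m + j < m + k by omega) h1
        exact_mod_cast this
      viol := by
        intro i hlt
        rw [ht, ht, ht] at hlt
        have h1 : X (z (m + i + 3)) < X (z (m + i + 1)) + X (z (m + i)) := by
          exact_mod_cast hlt
        have h2 := h.viol (m + i) h1
        apply hinj
        rw [map_add, map_add, hz', hz', hz', hz']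
        exact h2
      no_two := by
        intro i hlt
        rw [ht, ht, ht] at hlt
        rw [ht, ht, ht]
        have h1 : X (z (m + i + 3)) < X (z (m + i + 1)) + X (z (m + i)) := by
          exact_mod_cast hlt
        by_contra hcon
        push Not at hcon
        have h2 : X (z (m + i + 4)) < X (z (m + i + 2)) + X (z (m + i + 1)) := by
          exact_mod_cast hcon
        exact h.no_two_viol (m + i) h1 h2
      lab64 := by
        rw [ht, ht, ht]; exact (hlab 64).2 hA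
      lab65 := by
        rw [ht, ht, ht]; exact (hlabD 65).2 hD
      hist1 := by
        intro i hi h1 h2 j hj hj2
        rw [ht, ht, ht] at h1 h2
        rw [ht, ht, ht]
        exact (hlab j).2 (hist1 i hi ((hlab i).1 h1) ((hlabD (i + 1)).1 h2) j hj hj2)
      hist2 := by
        intro i hi h1 h2
        rw [ht, ht, ht] at h1 h2
        exact hadd _ _ _ (hist2 i hi ((hlabD i).1 h1) ((hlabD (i + 1)).1 h2))
      hist3 := by
        intro i hi
        obtain ⟨j, h1, h2, h3⟩ := hist3 i hi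
        refine ⟨j, h1, h2, ?_⟩
        rw [ht, ht, ht]
        exact (hlab j).2 h3 }
  have hCA : ∀ i, C.A i ↔ LA X z φ β (m + i) := by
    intro i
    rw [← hlab, ← ht, ← ht, ← ht]
    rfl
  obtain ⟨c1, c2, c3⟩ := hv C (root_holds C)
  refine ⟨?_, ?_, ?_⟩
  · intro j hj hj2
    exact (hCA j).1 (c1 j hj hj2)
  · intro i hi hi2 hall
    have := c2 i hi hi2 (fun j hj hj2 hh => hall j hj hj2 ((hCA j).1 hh))
    have h2 : z' (i + 3) = z' (i + 1) + z' i := this
    have h3 := congrArg (emb a b u) h2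
    rw [map_add, hz', hz', hz'] at h3
    exact h3
  · obtain ⟨j, h1, h2, h3⟩ := c3
    exact ⟨j, h1, h2, (hCA j).1 h3⟩

/-- The three properties of a drop. -/
def DropQ (X : (Fin 3 → ℤ) →+ ℤ) (z : ℕ → Fin 3 → ℤ) (φ β : ℝ) (n : ℕ) : Prop :=
  (∀ j, j ≤ n → n ≤ j + cJ → LA X z φ β j) ∧
  (∀ i, n + 1 ≤ i → i + 1 < n + cK → (∀ j, n + 1 ≤ j → j ≤ i + 1 → ¬ LA X z φ β j) →
    z (i + 3) = z (i + 1) + z i) ∧
  (∃ j, n + 1 ≤ j ∧ j ≤ n + cK ∧ LA X z φ β j)

/-- The last label A before an index. -/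
theorem last_A (X : (Fin 3 → ℤ) →+ ℤ) (z : ℕ → Fin 3 → ℤ) (φ β : ℝ) (h0 : LA X z φ β 0)
    (n : ℕ) (hn : ¬ LA X z φ β n) : ∃ d, d < n ∧ LA X z φ β d ∧
      ∀ j, d < j → j ≤ n → ¬ LA X z φ β j := by
  induction n with
  | zero => exact absurd h0 hn
  | succ k ih =>
    by_cases hk : LA X z φ β k
    · refine ⟨k, by omega, hk, ?_⟩
      intro j h1 h2
      have : j = k + 1 := by omega
      rw [this]; exact hn
    · obtain ⟨d, h1, h2, h3⟩ := ih hk
      refine ⟨d, by omega, h2, ?_⟩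
      intro j h4 h5
      rcases Nat.lt_or_ge k j with h6 | h6
      · have : j = k + 1 := by omega
        rw [this]; exact hn
      · exact h3 j h4 h6

/-- All drops have the three properties. -/
theorem drops (hv : Valid rootSt) {N : (Fin 2 → ℝ) → ℝ} {X : (Fin 3 → ℤ) →+ ℤ}
    {E : (Fin 3 → ℤ) →+ (Fin 2 → ℝ)} {z : ℕ → Fin 3 → ℤ} (h : BASeq N X E z) (φ β : ℝ)
    (hφ0 : 0 < φ) (hφ : φ ^ 3 = φ + 1) (hβ : ∀ i, i ≤ 64 → LA X z φ β i) (n : ℕ)
    (hA : LA X z φ β n) (hD : ¬ LA X z φ β (n + 1)) : DropQ X z φ β n := by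
  induction n using Nat.strong_induction_on with
  | _ n ih =>
    have hn : 64 ≤ n := by
      by_contra hcon
      exact hD (hβ (n + 1) (by omega))
    obtain ⟨m, rfl⟩ : ∃ m, n = m + 64 := ⟨n - 64, by omega⟩
    have hA0 : LA X z φ β 0 := hβ 0 (by omega)
    have key := drop_step hv h φ β hφ0 hφ m hA hD ?_ ?_ ?_
    · obtain ⟨c1, c2, c3⟩ := key
      refine ⟨?_, ?_, ?_⟩
      · intro j hj hj2
        have hcJ : cJ = 3 := rfl
        obtain ⟨k, rfl⟩ : ∃ k, j = m + k := ⟨j - m, by omega⟩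
        exact c1 k (by omega) (by omega)
      · intro i hi hi2 hall
        obtain ⟨k, rfl⟩ : ∃ k, i = m + k := ⟨i - m, by omega⟩
        exact c2 k (by omega) (by omega) (fun j hj hj2 => hall (m + j) (by omega) (by omega))
      · obtain ⟨j, h1, h2, h3⟩ := c3
        exact ⟨m + j, by omega, by omega, h3⟩
    · intro i hi h1 h2 j hj hj2
      exact (ih (m + i) (by omega) h1 h2).1 (m + j) (by omega) (by omega)
    · intro i hi h1 h2
      obtain ⟨d, d1, d2, d3⟩ := last_A X z φ β hA0 (m + i) h1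
      have hd := ih d (by omega) d2 (d3 (d + 1) (by omega) (by omega))
      have hall : ∀ j, d + 1 ≤ j → j ≤ m + i + 1 → ¬ LA X z φ β j := by
        intro j hj hj2
        rcases Nat.lt_or_ge (m + i) j with h6 | h6
        · have : j = m + i + 1 := by omega
          rw [this]; exact h2
        · exact d3 j (by omega) h6
      obtain ⟨j, j1, j2, j3⟩ := hd.2.2
      have hj : m + i + 1 < j := by
        by_contra hcon
        exact hall j j1 (by omega) j3
      exact hd.2.1 (m + i) (by omega) (by omega) hall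
    · intro i hi
      by_contra hcon
      push Not at hcon
      have hcK : cK = 7 := rfl
      obtain ⟨d, d1, d2, d3⟩ := last_A X z φ β hA0 (m + i) (hcon i le_rfl (by omega))
      have hd := ih d (by omega) d2 (d3 (d + 1) (by omega) (by omega))
      obtain ⟨j, j1, j2, j3⟩ := hd.2.2
      rcases Nat.lt_or_ge (m + i) j with h6 | h6
      · obtain ⟨k, rfl⟩ : ∃ k, j = m + k := ⟨j - m, by omega⟩
        exact hcon k (by omega) (by omega) j3
      · exact d3 j (by omega) h6 j3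

theorem phi_gt {φ : ℝ} (hφ0 : 0 < φ) (hφ : φ ^ 3 = φ + 1) : 1 < φ := by
  by_contra hcon
  push Not at hcon
  have h1 : φ ^ 3 ≤ 1 := pow_le_one₀ hφ0.le hcon
  linarith

/-- A positive constant for the labels. -/
theorem exists_beta (X : (Fin 3 → ℤ) →+ ℤ) (z : ℕ → Fin 3 → ℤ) (φ : ℝ) (hφ1 : 1 < φ)
    (hx : ∀ i, 0 < X (z i)) (K : ℕ) :
    ∃ β : ℝ, 0 < β ∧ ∀ i, i ≤ K → LA X z φ β i := by
  have hφ0 : 0 < φ := by linarith
  refine ⟨1 / φ ^ K, by positivity, ?_⟩
  intro i hi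
  unfold LA
  have h0 : (1:ℝ) ≤ ((X (z i) : ℤ) : ℝ) := by exact_mod_cast hx i
  have h1 : (0:ℝ) < ((X (z (i + 1)) : ℤ) : ℝ) := by exact_mod_cast hx (i + 1)
  have h2 : (0:ℝ) < ((X (z (i + 2)) : ℤ) : ℝ) := by exact_mod_cast hx (i + 2)
  have h3 : 1 / φ ^ K * φ ^ i ≤ 1 := by
    rw [one_div, inv_mul_le_iff₀ (by positivity), mul_one]
    exact pow_le_pow_right₀ hφ1.le hi
  have h4 : 0 < φ ^ 2 * ((X (z (i + 1)) : ℤ) : ℝ) := by positivity
  have h5 : 0 < φ * ((X (z (i + 2)) : ℤ) : ℝ) := by positivity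
  linarith

/-- The certificate implies exponential growth with the plastic number. -/
theorem growth_of_valid (hv : Valid rootSt) {N : (Fin 2 → ℝ) → ℝ} {X : (Fin 3 → ℤ) →+ ℤ}
    {E : (Fin 3 → ℤ) →+ (Fin 2 → ℝ)} {z : ℕ → Fin 3 → ℤ} (h : BASeq N X E z) (φ : ℝ) (hφ0 : 0 < φ)
    (hφ : φ ^ 3 = φ + 1) : ∃ c : ℝ, 0 < c ∧ ∀ n, c * φ ^ n ≤ (X (z n) : ℝ) := by
  have hφ1 := phi_gt hφ0 hφ
  obtain ⟨β, hβ0, hβ⟩ := exists_beta X z φ hφ1 h.x_pos 64
  have hA0 : LA X z φ β 0 := hβ 0 (by omega)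
  have hdrop := fun n => drops hv h φ β hφ0 hφ hβ n
  -- a label A not far before
  have hnear : ∀ n, ∃ j, j ≤ n ∧ n ≤ j + cK ∧ LA X z φ β j := by
    intro n
    by_cases hn : LA X z φ β n
    · exact ⟨n, le_rfl, by omega, hn⟩
    · obtain ⟨d, d1, d2, d3⟩ := last_A X z φ β hA0 n hn
      have hd := hdrop d d2 (d3 (d + 1) (by omega) (by omega))
      obtain ⟨j, j1, j2, j3⟩ := hd.2.2
      refine ⟨d, d1.le, ?_, d2⟩
      rcases Nat.lt_or_ge n j with h6 | h6
      · omega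
      · exact absurd j3 (d3 j (by omega) h6)
  have hsum : 0 < 1 + φ + φ ^ 2 := by positivity
  refine ⟨min (β / (φ ^ (cK + 2) * (1 + φ + φ ^ 2))) (1 / φ), by positivity, ?_⟩
  intro n
  have hx1 : ∀ i, (1:ℝ) ≤ ((X (z i) : ℤ) : ℝ) := fun i => by exact_mod_cast h.x_pos i
  rcases Nat.lt_or_ge n 2 with hn | hn
  · have h1 : min (β / (φ ^ (cK + 2) * (1 + φ + φ ^ 2))) (1 / φ) * φ ^ n ≤ 1 / φ * φ ^ 1 :=
      mul_le_mul (min_le_right _ _) (pow_le_pow_right₀ hφ1.le (by omega)) (by positivity)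
        (by positivity)
    have h2 : 1 / φ * φ ^ 1 = 1 := by field_simp
    rw [h2] at h1
    exact h1.trans (hx1 n)
  · obtain ⟨k, rfl⟩ : ∃ k, n = k + 2 := ⟨n - 2, by omega⟩
    obtain ⟨j, j1, j2, j3⟩ := hnear k
    unfold LA at j3
    have a0 : ((X (z j) : ℤ) : ℝ) ≤ ((X (z (k + 2)) : ℤ) : ℝ) := by
      exact_mod_cast h.x_le (show j ≤ k + 2 by omega)
    have a1 : ((X (z (j + 1)) : ℤ) : ℝ) ≤ ((X (z (k + 2)) : ℤ) : ℝ) := by
      exact_mod_cast h.x_le (show j + 1 ≤ k + 2 by omega)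
    have a2 : ((X (z (j + 2)) : ℤ) : ℝ) ≤ ((X (z (k + 2)) : ℤ) : ℝ) := by
      exact_mod_cast h.x_le (show j + 2 ≤ k + 2 by omega)
    have b1 := mul_le_mul_of_nonneg_left a1 (by positivity : 0 ≤ φ ^ 2)
    have b2 := mul_le_mul_of_nonneg_left a2 hφ0.le
    have h3 : β * φ ^ j ≤ (1 + φ + φ ^ 2) * ((X (z (k + 2)) : ℤ) : ℝ) := by
      have : (1 + φ + φ ^ 2) * ((X (z (k + 2)) : ℤ) : ℝ) = ((X (z (k + 2)) : ℤ) : ℝ) +
        φ ^ 2 * ((X (z (k + 2)) : ℤ) : ℝ) + φ * ((X (z (k + 2)) : ℤ) : ℝ) := by ring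
      rw [this]; linarith
    have h4 : φ ^ (k + 2) ≤ φ ^ (cK + 2) * φ ^ j := by
      rw [← pow_add]
      exact pow_le_pow_right₀ hφ1.le (by omega)
    calc min (β / (φ ^ (cK + 2) * (1 + φ + φ ^ 2))) (1 / φ) * φ ^ (k + 2)
        ≤ β / (φ ^ (cK + 2) * (1 + φ + φ ^ 2)) * (φ ^ (cK + 2) * φ ^ j) :=
          mul_le_mul (min_le_left _ _) h4 (by positivity) (by positivity)
      _ = β * φ ^ j / (1 + φ + φ ^ 2) := by
          field_simp
      _ ≤ _ := by
          rw [div_le_iff₀ hsum]; linarith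

end Pool.Agent.Helper54.Cert
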