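import Pool.Agent.Lib.Helper54.S18919.Root
import Pool.Agent.Lib.Helper54.BestApproxSharp2

/-!
# The theorem, given the certificate
-/

set_option autoImplicit false

namespace Pool.Agent.Helper54.Cert

open Filter

/-- The growth statement for the denominators. -/
theorem nth_growth (hv : Valid rootSt) {N : (Fin 2 → ℝ) → ℝ} (hN : IsNorm2 N) {θ : Fin 2 → ℝ}
    (hθ : ∀ q : ℤ, q ≠ 0 → ¬ ∀ i : Fin 2, ∃ a : ℤ, (q : ℝ) * θ i = (a : ℝ)) (φ : ℝ)
    (hφ : φ ^ 3 = φ + 1) (c : ℝ) (hc : 0 < c) (hcφ : c < φ) :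
    ∀ᶠ ν in atTop, c ^ ν < (Nat.nth (isRec N θ) ν : ℝ) := by
  have hφ0 : 0 < φ := hc.trans hcφ
  obtain ⟨n0, z, hz, hX⟩ := exists_BASeq hN hθ
  obtain ⟨C, hC, hlow⟩ := growth_of_valid hv hz φ hφ0 hφ
  -- `c ^ ν < C φ ^ (ν - n0)` for large `ν`
  have hratio : Tendsto (fun ν : ℕ => (φ ^ n0 / C) * (c / φ) ^ ν) atTop (nhds 0) := by
    have := (tendsto_pow_atTop_nhds_zero_of_lt_one (r := c / φ) (by positivity)
      ((div_lt_one hφ0).2 hcφ)).const_mul (φ ^ n0 / C)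
    rwa [mul_zero] at this
  filter_upwards [hratio.eventually (gt_mem_nhds one_pos), eventually_ge_atTop n0] with ν h1 h2
  obtain ⟨m, rfl⟩ := Nat.exists_eq_add_of_le' h2
  have h3 := hlow m
  rw [hX m] at h3
  have h4 : φ ^ n0 / C * (c / φ) ^ (m + n0) = c ^ (m + n0) / (C * φ ^ m) := by
    rw [div_pow, pow_add φ]
    field_simp
  rw [h4, div_lt_one (by positivity)] at h1
  calc c ^ (m + n0) < C * φ ^ m := h1
    _ ≤ _ := by exact_mod_cast h3

end Pool.Agent.Helper54.Cert
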