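import Pool.Agent.Lib.Helper54.S18919.Sem

/-!
# Splitting of cells
-/

set_option autoImplicit false

namespace Pool.Agent.Helper54.Cert

lemma comb_toR (k : ℕ) (x : Cn) (l : ℕ) (y : Cn) :
    (Cn.comb k x l y).toR = (k : ℝ) • x.toR + (l : ℝ) • y.toR := by
  unfold Cn.comb Cn.toR
  ext
  · show ((k * x.a + l * y.a : ℕ) : ℝ) = _
    simp
  · show ((k * x.b + l * y.b : ℕ) : ℝ) = _
    simp
  · show ((k * x.u + l * y.u : ℕ) : ℝ) = _
    simp

/-- The splitting of one side of a triangle, in coordinates. -/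
lemma split_aux {t1 t2 k1 k2 : ℝ} (h1 : 0 ≤ t1) (h2 : 0 ≤ t2) (hk1 : 0 ≤ k1) (hk2 : 0 ≤ k2)
    (hk : 0 < k1 ∨ 0 < k2) :
    (∃ a b : ℝ, 0 ≤ a ∧ 0 ≤ b ∧ ∀ x y : E3, t1 • x + t2 • y = a • x + b • (k1 • x + k2 • y)) ∨
    (∃ a b : ℝ, 0 ≤ a ∧ 0 ≤ b ∧ ∀ x y : E3, t1 • x + t2 • y = b • (k1 • x + k2 • y) + a • y) := by
  by_cases hA : 0 < k2 ∧ t2 * k1 ≤ t1 * k2
  · left
    refine ⟨t1 - t2 / k2 * k1, t2 / k2, ?_, div_nonneg h2 hk2, ?_⟩
    · have : t2 / k2 * k1 = t2 * k1 / k2 := by ring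
      rw [this, sub_nonneg, div_le_iff₀ hA.1]
      exact hA.2
    · intro x y
      have e : t2 / k2 * k2 = t2 := div_mul_cancel₀ _ hA.1.ne'
      rw [smul_add, smul_smul, smul_smul, e, ← add_assoc, ← add_smul]
      congr 2
      ring
  · right
    have hB : 0 < k1 ∧ t1 * k2 ≤ t2 * k1 := by
      rcases lt_or_eq_of_le hk2 with h | h
      · have h3 : ¬ t2 * k1 ≤ t1 * k2 := fun hh => hA ⟨h, hh⟩
        have h4 := not_le.1 h3
        refine ⟨?_, h4.le⟩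
        rcases lt_or_eq_of_le hk1 with h' | h'
        · exact h'
        · exfalso
          rw [← h', mul_zero] at h4
          have := mul_nonneg h1 hk2
          linarith
      · have h3 : 0 < k1 := by
          rcases hk with h' | h'
          · exact h'
          · exact absurd h' (by rw [← h]; exact lt_irrefl _)
        refine ⟨h3, ?_⟩
        rw [← h, mul_zero]
        exact mul_nonneg h2 hk1
    refine ⟨t2 - t1 / k1 * k2, t1 / k1, ?_, div_nonneg h1 hk1, ?_⟩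
    · have : t1 / k1 * k2 = t1 * k2 / k1 := by ring
      rw [this, sub_nonneg, div_le_iff₀ hB.1]
      exact hB.2
    · intro x y
      have e : t1 / k1 * k1 = t1 := div_mul_cancel₀ _ hB.1.ne'
      rw [smul_add, smul_smul, smul_smul, e, add_assoc, ← add_smul]
      congr 2
      ring

lemma Tri.left_zero (T : Tri) (k1 k2 : ℕ) :
    T.left 0 k1 k2 = ⟨T.c1, Cn.comb k1 T.c1 k2 T.c2, T.c3⟩ := rfl
lemma Tri.left_one (T : Tri) (k1 k2 : ℕ) :
    T.left 1 k1 k2 = ⟨T.c1, T.c2, Cn.comb k1 T.c2 k2 T.c3⟩ := rfl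
lemma Tri.left_two (T : Tri) (i k1 k2 : ℕ) :
    T.left (i + 2) k1 k2 = ⟨Cn.comb k1 T.c3 k2 T.c1, T.c2, T.c3⟩ := rfl
lemma Tri.right_zero (T : Tri) (k1 k2 : ℕ) :
    T.right 0 k1 k2 = ⟨Cn.comb k1 T.c1 k2 T.c2, T.c2, T.c3⟩ := rfl
lemma Tri.right_one (T : Tri) (k1 k2 : ℕ) :
    T.right 1 k1 k2 = ⟨T.c1, Cn.comb k1 T.c2 k2 T.c3, T.c3⟩ := rfl
lemma Tri.right_two (T : Tri) (i k1 k2 : ℕ) :
    T.right (i + 2) k1 k2 = ⟨T.c1, T.c2, Cn.comb k1 T.c3 k2 T.c1⟩ := rfl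

/-- A split cell is covered by its two parts. -/
theorem Tri.mem_split {T : Tri} {c : E3} (hc : T.mem c) (i k1 k2 : ℕ) (hk : 0 < k1 ∨ 0 < k2) :
    (T.left i k1 k2).mem c ∨ (T.right i k1 k2).mem c := by
  obtain ⟨t1, t2, t3, h1, h2, h3, e⟩ := hc
  have k1' : (0:ℝ) ≤ k1 := Nat.cast_nonneg _
  have k2' : (0:ℝ) ≤ k2 := Nat.cast_nonneg _
  have hk' : (0:ℝ) < k1 ∨ (0:ℝ) < k2 := by
    rcases hk with h | h
    · left; exact_mod_cast h
    · right; exact_mod_cast h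
  match i with
  | 0 =>
    rw [Tri.left_zero, Tri.right_zero]
    rcases split_aux h1 h2 k1' k2' hk' with ⟨a, b, ha, hb, hab⟩ | ⟨a, b, ha, hb, hab⟩
    · left
      refine ⟨a, b, t3, ha, hb, h3, ?_⟩
      show c = a • T.c1.toR + b • (Cn.comb k1 T.c1 k2 T.c2).toR + t3 • T.c3.toR
      rw [comb_toR, ← hab, e]
    · right
      refine ⟨b, a, t3, hb, ha, h3, ?_⟩
      show c = b • (Cn.comb k1 T.c1 k2 T.c2).toR + a • T.c2.toR + t3 • T.c3.toR
      rw [comb_toR, ← hab, e]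
  | 1 =>
    rw [Tri.left_one, Tri.right_one]
    rcases split_aux h2 h3 k1' k2' hk' with ⟨a, b, ha, hb, hab⟩ | ⟨a, b, ha, hb, hab⟩
    · left
      refine ⟨t1, a, b, h1, ha, hb, ?_⟩
      show c = t1 • T.c1.toR + a • T.c2.toR + b • (Cn.comb k1 T.c2 k2 T.c3).toR
      rw [comb_toR, add_assoc, ← hab, e, add_assoc]
    · right
      refine ⟨t1, b, a, h1, hb, ha, ?_⟩
      show c = t1 • T.c1.toR + b • (Cn.comb k1 T.c2 k2 T.c3).toR + a • T.c3.toR
      rw [comb_toR, add_assoc, ← hab, e, add_assoc]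
  | (i + 2) =>
    rw [Tri.left_two, Tri.right_two]
    rcases split_aux h3 h1 k1' k2' hk' with ⟨a, b, ha, hb, hab⟩ | ⟨a, b, ha, hb, hab⟩
    · left
      refine ⟨b, t2, a, hb, h2, ha, ?_⟩
      show c = b • (Cn.comb k1 T.c3 k2 T.c1).toR + t2 • T.c2.toR + a • T.c3.toR
      have := hab T.c3.toR T.c1.toR
      rw [comb_toR, e]
      calc t1 • T.c1.toR + t2 • T.c2.toR + t3 • T.c3.toR
          = (t3 • T.c3.toR + t1 • T.c1.toR) + t2 • T.c2.toR := by abel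
        _ = _ := by rw [this]; abel
    · right
      refine ⟨a, t2, b, ha, h2, hb, ?_⟩
      show c = a • T.c1.toR + t2 • T.c2.toR + b • (Cn.comb k1 T.c3 k2 T.c1).toR
      have := hab T.c3.toR T.c1.toR
      rw [comb_toR, e]
      calc t1 • T.c1.toR + t2 • T.c2.toR + t3 • T.c3.toR
          = (t3 • T.c3.toR + t1 • T.c1.toR) + t2 • T.c2.toR := by abel
        _ = _ := by rw [this]; abel

end Pool.Agent.Helper54.Cert
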