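import Pool.Agent.Lib.Helper54.S18919.LeafH

/-!
# Soundness of the planar leaf check
-/

set_option autoImplicit false
set_option exponentiation.threshold 100000

namespace Pool.Agent.Helper54.Cert

open Finset

lemma pRows_zero (MR s : ℕ) : pRows 0 MR s = [] := rfl

lemma pRows_succ (n MR s : ℕ) : pRows (n + 1) MR s =
    ⟨Nat.land s 1023, Nat.land (Nat.shiftRight s 10) 31, Nat.land (Nat.shiftRight s 15) 31,
        Nat.land (Nat.shiftRight s 20) 31, Nat.shiftRight (Nat.mod s MR) 25⟩ ::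
      pRows n MR (Nat.div s MR) := rfl

lemma pRows_length (n MR s : ℕ) : (pRows n MR s).length = n := by
  induction n generalizing s with
  | zero => rfl
  | succ n ih => rw [pRows_succ, List.length_cons, ih]

lemma pRows_lam (n w : ℕ) (s : ℕ) : ∀ R ∈ pRows n (2 ^ (25 + w)) s, R.lam < 2 ^ w := by
  induction n generalizing s with
  | zero => intro R hR; rw [pRows_zero] at hR; simp at hR
  | succ n ih =>
    intro R hR
    rw [pRows_succ, List.mem_cons] at hR
    rcases hR with h | h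
    · rw [h]
      show (s % 2 ^ (25 + w)) >>> 25 < 2 ^ w
      rw [Nat.shiftRight_eq_div_pow, Nat.div_lt_iff_lt_mul (Nat.two_pow_pos _), ← pow_add,
        add_comm w 25]
      exact Nat.mod_lt _ (Nat.two_pow_pos _)
    · exact ih _ R h

lemma dg_single (k : ℕ) (hk : k < 72) :
    dg (2 ^ 96) 72 (fun i => if i = k then 1 else 0) = 2 ^ (96 * k) := by
  unfold dg
  rw [Finset.sum_eq_single k]
  · simp only [if_true, one_mul, ← pow_mul]
  · intro b _ hb
    beta_reduce
    rw [if_neg hb, zero_mul]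
  · intro h
    exact absurd (mem_range.2 hk) h

lemma eOf_eq (c m : ℕ) : eOf c m = 2 ^ (96 * (3 * m + c)) := by
  have h : eOf c m = 1 <<< (96 * c + 288 * m) := rfl
  rw [h, Nat.one_shiftLeft]
  congr 1
  ring

lemma eOf_sum (m0 m1 m2 : ℕ) (h0 : m0 < 24) (h1 : m1 < 24) (h2 : m2 < 24) :
    Nat.add (eOf 0 m0) (Nat.add (eOf 1 m1) (eOf 2 m2)) = dg (2 ^ 96) 72 (unit3 m0 m1 m2) := by
  have e : dg (2 ^ 96) 72 (unit3 m0 m1 m2)
      = dg (2 ^ 96) 72 (fun i => if i = 3 * m0 then 1 else 0)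
        + dg (2 ^ 96) 72 (fun i => if i = 3 * m1 + 1 then 1 else 0)
        + dg (2 ^ 96) 72 (fun i => if i = 3 * m2 + 2 then 1 else 0) := by
    rw [← dg_add, ← dg_add]
    rfl
  rw [e, dg_single _ (by omega), dg_single _ (by omega), dg_single _ (by omega), eOf_eq, eOf_eq,
    eOf_eq, Nat.add_zero]
  exact (Nat.add_assoc _ _ _).symm

lemma unit3_le (m0 m1 m2 i : ℕ) : unit3 m0 m1 m2 i ≤ 3 := by
  unfold unit3
  split_ifs <;> omega

lemma cond_split {a b : Bool} (h : (bif a then b else false) = true) : a = true ∧ b = true := by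
  cases a <;> cases b <;> simp_all

lemma leaf_unfold {X : LC} {s : ℕ} (h : leaf X s = true) :
    Nat.land (Nat.shiftRight s 8) 255 ≤ 24 ∧ Nat.land (Nat.shiftRight s 16) 31 < 24 ∧
    Nat.land (Nat.shiftRight s 21) 31 < 24 ∧ Nat.land (Nat.shiftRight s 26) 31 < 24 ∧
    foldK X (Nat.add (eOf 0 (Nat.land (Nat.shiftRight s 16) 31))
              (Nat.add (eOf 1 (Nat.land (Nat.shiftRight s 21) 31))
                (eOf 2 (Nat.land (Nat.shiftRight s 26) 31))))
            (pRows (Nat.land s 255)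
              (2 ^ (25 + (Nat.land (Nat.shiftRight s 8) 255))) (Nat.shiftRight s 31)) 0 0
      = true := by
  unfold leaf at h
  obtain ⟨h1, h⟩ := cond_split h
  obtain ⟨h2, h⟩ := cond_split h
  obtain ⟨h3, h⟩ := cond_split h
  obtain ⟨h4, h⟩ := cond_split h
  rw [below_iff] at h2 h3 h4
  exact ⟨Nat.le_of_ble_eq_true h1, h2, h3, h4, h⟩

/-- Soundness of the planar leaf check, in the form with a virtual vector `(1 - θ) p₁ + θ p₂` at position
`pi` of the chain (for a leaf without virtual vector take `ch2 = ch1`, `pi = 31`, `θ = 0`, `e2 = e1`).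
Position `m` of the chain stands for the vector with absolute index `off + m`, whose length is
`r (off + m)`; positions after the end of the chain only stand for their lengths. -/
theorem leaf_sound (ν : Seminorm ℝ E3) (c : E3) (hc0 : c ≠ 0) (hc : ν c = 0)
    (r : ℕ → ℝ) (hr : ∀ i, r (i + 1) < r i) (hr0 : ∀ i, 0 < r i)
    (T : Tri) (hT : smallT T = true) (hcT : T.mem c)
    (ch1 ch2 : List Vc) (ys : List Lev) (gs : List Gap) (off pi nu : ℕ)
    (hl1 : ch1.length ≤ 24) (hl : ch2.length = ch1.length)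
    (hs1 : ∀ v ∈ ch1, smallV 1048576 v = true) (hs2 : ∀ v ∈ ch2, smallV 1048576 v = true)
    (hys : ∀ y ∈ ys, smallV 1024 y.y = true ∧ y.lev ≤ 1000)
    (hnu : nu ≤ 1024) (hoff : off ≤ 900)
    (hne : ∀ m, m ≠ pi → get Vc.zero ch1 m = get Vc.zero ch2 m)
    (θ : ℝ) (hθ0 : 0 ≤ θ) (hθ1 : θ ≤ 1)
    (hch : ∀ m, ν ((1 - θ) • (get Vc.zero ch1 m).toR + θ • (get Vc.zero ch2 m).toR) ≤
      (if m = pi then (nu : ℝ) else 1) * r (off + m))
    (hy : ∀ y ∈ ys, r y.lev ≤ ν y.y.toR)
    (hg : ∀ g ∈ gs, r g.i ≤ r g.m + r g.l)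
    (f1 f2 : ℕ) (hf1 : f1 = flipOf (get Vc.zero ch1 pi)) (hf2 : f2 = flipOf (get Vc.zero ch2 pi))
    (s e1 e2 : ℕ)
    (h1 : leaf ⟨packC ch1, packY ys, kOf T, pi, nu, off, gs, e1, f1⟩ s = true)
    (h2 : leaf ⟨packC ch2, packY ys, kOf T, pi, nu, off, gs, e2, f2⟩ s = true) : False := by
  rw [hf1] at h1
  rw [hf2] at h2
  unfold Tri.mem at hcT
  obtain ⟨t1, t2, t3, ht1, ht2, ht3, hcT'⟩ := hcT
  have ht : 0 < t1 + t2 + t3 := by
    rcases lt_or_eq_of_le (add_nonneg (add_nonneg ht1 ht2) ht3) with h | h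
    · exact h
    · exfalso
      have z1 : t1 = 0 := by linarith only [ht1, ht2, ht3, h]
      have z2 : t2 = 0 := by linarith only [ht1, ht2, ht3, h]
      have z3 : t3 = 0 := by linarith only [ht1, ht2, ht3, h]
      apply hc0
      rw [hcT', z1, z2, z3, zero_smul, zero_smul, zero_smul, add_zero, add_zero]
  have u1 := leaf_unfold h1
  have u2 := leaf_unfold h2
  clear h1 h2
  obtain ⟨a1, a2, a3, a4, h1⟩ := u1
  have h2 := u2.2.2.2.2
  clear u2
  have hz : (0:ℕ) = dg (2 ^ 96) 72 (fun _ => 0) := by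
    unfold dg
    simp only [zero_mul, sum_const_zero]
  have hP : Phi t1 t2 t3 r off (fun _ => 0) = 0 := by
    unfold Phi
    simp
  have hn : Nat.land s 255 ≤ 255 := Nat.and_le_right
  have hlam : ∀ R ∈ pRows (Nat.land s 255) (2 ^ (25 + (Nat.land (Nat.shiftRight s 8) 255)))
      (Nat.shiftRight s 31), R.lam ≤ 2 ^ 24 := by
    intro R hR
    have b1 := pRows_lam _ _ _ R hR
    exact b1.le.trans (Nat.pow_le_pow_right (by norm_num) a1)
  have hlen : 0 + (pRows (Nat.land s 255) (2 ^ (25 + (Nat.land (Nat.shiftRight s 8) 255)))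
      (Nat.shiftRight s 31)).length ≤ 255 := by
    rw [pRows_length, zero_add]
    exact hn
  generalize pRows (Nat.land s 255) (2 ^ (25 + (Nat.land (Nat.shiftRight s 8) 255)))
      (Nat.shiftRight s 31) = rows at h1 h2 hlam hlen
  have hE := eOf_sum _ _ _ a2 a3 a4
  have hpos := Phi_unit3_pos hr hr0 ht1 ht2 ht3 ht off _ _ _ a2 a3 a4
  have hle := unit3_le (Nat.land (Nat.shiftRight s 16) 31) (Nat.land (Nat.shiftRight s 21) 31)
    (Nat.land (Nat.shiftRight s 26) 31)
  generalize Nat.land (Nat.shiftRight s 16) 31 = m0 at *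
  generalize Nat.land (Nat.shiftRight s 21) 31 = m1 at *
  generalize Nat.land (Nat.shiftRight s 26) 31 = m2 at *
  have z0 : ∀ i : ℕ, (fun _ => 0 : ℕ → ℕ) i ≤ 0 * 2 ^ 84 := fun i => Nat.zero_le _
  have key := fold_sound hc hr hr0 hT ht1 ht2 ht3 hcT' hl1 hl hs1 hs2 hys hnu hoff hne hθ0 hθ1
    hch hy hg e1 e2 _ _ hle hE hpos rows hlam 0 hlen
    (fun _ => 0) (fun _ => 0) (fun _ => 0) (fun _ => 0) z0 z0 z0 z0
  rw [← hz] at key
  exact key (by rw [hP]; simp) h1 h2

end Pool.Agent.Helper54.Cert
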