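import Pool.Agent.Lib.Helper54.S18919.Ctx
import Pool.Agent.Lib.Helper54.S18919.LeafSound
import Pool.Agent.Lib.Helper54.S18919.Cell

/-!
# Soundness of the operations on trees of cells (chunk P)
-/

set_option autoImplicit false

namespace Pool.Agent.Helper54.Cert

/-! ### Sub-cells -/

theorem left_sub (T : Tri) (i k1 k2 : ℕ) (c : E3) (h : (T.left i k1 k2).mem c) : T.mem c := by
  obtain ⟨t1, t2, t3, h1, h2, h3, e⟩ := h
  have k1' : (0:ℝ) ≤ k1 := Nat.cast_nonneg _
  have k2' : (0:ℝ) ≤ k2 := Nat.cast_nonneg _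
  match i with
  | 0 =>
    rw [Tri.left_zero] at e
    refine ⟨t1 + t2 * k1, t2 * k2, t3, by positivity, by positivity, h3, ?_⟩
    rw [e]
    show t1 • T.c1.toR + t2 • (Cn.comb k1 T.c1 k2 T.c2).toR + t3 • T.c3.toR = _
    rw [comb_toR]
    module
  | 1 =>
    rw [Tri.left_one] at e
    refine ⟨t1, t2 + t3 * k1, t3 * k2, h1, by positivity, by positivity, ?_⟩
    rw [e]
    show t1 • T.c1.toR + t2 • T.c2.toR + t3 • (Cn.comb k1 T.c2 k2 T.c3).toR = _
    rw [comb_toR]
    module
  | (i + 2) =>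
    rw [Tri.left_two] at e
    refine ⟨t1 * k2, t2, t3 + t1 * k1, by positivity, h2, by positivity, ?_⟩
    rw [e]
    show t1 • (Cn.comb k1 T.c3 k2 T.c1).toR + t2 • T.c2.toR + t3 • T.c3.toR = _
    rw [comb_toR]
    module

theorem right_sub (T : Tri) (i k1 k2 : ℕ) (c : E3) (h : (T.right i k1 k2).mem c) : T.mem c := by
  obtain ⟨t1, t2, t3, h1, h2, h3, e⟩ := h
  have k1' : (0:ℝ) ≤ k1 := Nat.cast_nonneg _
  have k2' : (0:ℝ) ≤ k2 := Nat.cast_nonneg _
  match i with
  | 0 =>
    rw [Tri.right_zero] at e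
    refine ⟨t1 * k1, t2 + t1 * k2, t3, by positivity, by positivity, h3, ?_⟩
    rw [e]
    show t1 • (Cn.comb k1 T.c1 k2 T.c2).toR + t2 • T.c2.toR + t3 • T.c3.toR = _
    rw [comb_toR]
    module
  | 1 =>
    rw [Tri.right_one] at e
    refine ⟨t1, t2 * k1, t3 + t2 * k2, h1, by positivity, by positivity, ?_⟩
    rw [e]
    show t1 • T.c1.toR + t2 • (Cn.comb k1 T.c2 k2 T.c3).toR + t3 • T.c3.toR = _
    rw [comb_toR]
    module
  | (i + 2) =>
    rw [Tri.right_two] at e
    refine ⟨t1 + t3 * k2, t2, t3 * k1, by positivity, h2, by positivity, ?_⟩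
    rw [e]
    show t1 • T.c1.toR + t2 • T.c2.toR + t3 • (Cn.comb k1 T.c3 k2 T.c1).toR = _
    rw [comb_toR]
    module

theorem split_cover (T : Tri) (i k1 k2 : ℕ) (h1 : 1 ≤ k1) (h2 : 1 ≤ k2) (c : E3) (h : T.mem c) :
    (T.left i k1 k2).mem c ∨ (T.right i k1 k2).mem c := by
  have := h2
  exact Tri.mem_split h i k1 k2 (Or.inl h1)

lemma CT.mem_e (c : E3) (T : Tri) : CT.mem c CT.e T ↔ False := Iff.rfl
lemma CT.mem_c (c : E3) (T : Tri) : CT.mem c CT.c T ↔ T.mem c := Iff.rfl
lemma CT.mem_s (c : E3) (i k1 k2 : ℕ) (l r : CT) (T : Tri) : CT.mem c (CT.s i k1 k2 l r) T ↔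
    (CT.mem c l (T.left i k1 k2) ∨ CT.mem c r (T.right i k1 k2)) := Iff.rfl

theorem CT.mem_sub (ct : CT) (T : Tri) (c : E3) (h : ct.mem c T) : T.mem c := by
  induction ct generalizing T with
  | e => exact h.elim
  | c => exact h
  | s i k1 k2 l r ihl ihr =>
    rcases h with h | h
    · exact left_sub T i k1 k2 c (ihl _ h)
    · exact right_sub T i k1 k2 c (ihr _ h)

/-! ### Forcing -/

lemma frc_eq (n : ℕ) (k : ℕ → Bool) : force n k = k n := by
  cases n <;> rfl

lemma frcV_eq (v : Vc) (k : Vc → Bool) : forceV v k = k v := by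
  unfold forceV
  simp only [frc_eq]

lemma frcT_eq (T : Tri) (k : Tri → Bool) : forceT T k = k T := by
  unfold forceT forceC
  simp only [frc_eq]

/-! ### Vectors -/

lemma cadd_toR (v w : Vc) : (v.add w).toR = v.toR + w.toR := by
  unfold Vc.toR Vc.add
  ext
  · show (((v.ap + w.ap : ℕ) : ℝ) - ((v.an + w.an : ℕ) : ℝ)) = _
    push_cast
    show _ = ((v.ap : ℝ) - v.an) + ((w.ap : ℝ) - w.an)
    ring
  · show (((v.bp + w.bp : ℕ) : ℝ) - ((v.bn + w.bn : ℕ) : ℝ)) = _
    push_cast
    show _ = ((v.bp : ℝ) - v.bn) + ((w.bp : ℝ) - w.bn)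
    ring
  · show (((v.up + w.up : ℕ) : ℝ) - ((v.un + w.un : ℕ) : ℝ)) = _
    push_cast
    show _ = ((v.up : ℝ) - v.un) + ((w.up : ℝ) - w.un)
    ring

lemma csmul_toR (k : ℕ) (v : Vc) : (v.smul k).toR = (k : ℝ) • v.toR := by
  unfold Vc.toR Vc.smul
  ext
  · show (((k * v.ap : ℕ) : ℝ) - ((k * v.an : ℕ) : ℝ)) = _
    push_cast
    show _ = (k : ℝ) * ((v.ap : ℝ) - v.an)
    ring
  · show (((k * v.bp : ℕ) : ℝ) - ((k * v.bn : ℕ) : ℝ)) = _
    push_cast
    show _ = (k : ℝ) * ((v.bp : ℝ) - v.bn)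
    ring
  · show (((k * v.up : ℕ) : ℝ) - ((k * v.un : ℕ) : ℝ)) = _
    push_cast
    show _ = (k : ℝ) * ((v.up : ℝ) - v.un)
    ring

lemma sub_sub_cast (a b : ℕ) : (((a - b : ℕ) : ℝ) - ((b - a : ℕ) : ℝ)) = (a : ℝ) - b := by
  rcases Nat.le_total a b with h | h
  · rw [Nat.sub_eq_zero_of_le h, Nat.cast_sub h]
    push_cast
    ring
  · rw [Nat.sub_eq_zero_of_le h, Nat.cast_sub h]
    push_cast
    ring

lemma cnorm_toR (v : Vc) : v.norm.toR = v.toR := by
  unfold Vc.toR Vc.norm
  ext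
  · exact sub_sub_cast _ _
  · exact sub_sub_cast _ _
  · exact sub_sub_cast _ _

lemma ccast3_toZ (v : Vc) : cast3 v.toZ = v.toR := by
  unfold cast3 Vc.toZ Vc.toR
  push_cast
  rfl

lemma lenV_eq (l : List Vc) : lenV l = l.length := by
  induction l with
  | nil => rfl
  | cons h l ih =>
    show Nat.succ (lenV l) = _
    rw [ih, List.length_cons]

lemma smallL_mem {B : ℕ} {l : List Vc} (h : smallL B l = true) : ∀ v ∈ l, smallV B v = true := by
  induction l with
  | nil => intro v hv; simp at hv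
  | cons a l ih =>
    have h' : cond (smallV B a) (smallL B l) false = true := h
    intro v hv
    cases ha : smallV B a with
    | false => rw [ha, cond_false] at h'; exact absurd h' (by simp)
    | true =>
      rw [ha, cond_true] at h'
      rw [List.mem_cons] at hv
      rcases hv with hv | hv
      · rw [hv]; exact ha
      · exact ih h' v hv

lemma posK_iff (k1 k2 : ℕ) : posK k1 k2 = true ↔ 1 ≤ k1 ∧ 1 ≤ k2 := by
  unfold posK
  rw [Bool.cond_eq_true_distrib]
  simp only [Nat.ble_eq, Bool.false_eq_true, if_false_right]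
  <;> tauto

/-! ### Pruning -/

/-- The planar part of a state, for the packed checks. -/
structure Plan (C : Ctx) (zs : List Vc) (ys : List Lev) (gs : List Gap) (off : ℕ) : Prop where
  small : smallL 1048576 zs = true
  hoff : off ≤ 900
  zs : ∀ m, m < lenV zs → (get Vc.zero zs m).toZ = C.z (off + m)
  ys : ∀ y ∈ ys, Lev.ok C y
  gs : ∀ g ∈ gs, Gap.ok C g

lemma mkS_mem (i k1 k2 : ℕ) (l r : CT) (k : CT → Bool) (h : mkS i k1 k2 l r k = true) :
    ∃ ct' : CT, k ct' = true ∧ ∀ (c : E3) (T : Tri),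
      CT.mem c (CT.s i k1 k2 l r) T → CT.mem c ct' T := by
  cases l with
  | e =>
    cases r with
    | e => exact ⟨CT.e, h, fun c T hc => by rcases hc with hc | hc <;> exact hc⟩
    | c => exact ⟨_, h, fun c T hc => hc⟩
    | s => exact ⟨_, h, fun c T hc => hc⟩
  | c => exact ⟨_, h, fun c T hc => hc⟩
  | s => exact ⟨_, h, fun c T hc => hc⟩

/-- Upper bound for the length at a position of the chain. -/
lemma plan_chain {C : Ctx} {zs : List Vc} {ys : List Lev} {gs : List Gap} {off : ℕ}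
    (hP : Plan C zs ys gs off) (m : ℕ) : C.ν (get Vc.zero zs m).toR ≤ C.r (off + m) := by
  rcases Nat.lt_or_ge m (lenV zs) with h | h
  · rw [← ccast3_toZ, hP.zs m h]
    exact le_rfl
  · rw [lenV_eq] at h
    rw [get_ge _ _ _ h, toR_zero, map_zero]
    exact (C.r_pos _).le

lemma comb_self (θ : ℝ) (v : E3) : (1 - θ) • v + θ • v = v := by
  rw [← add_smul, sub_add_cancel, one_smul]

lemma flipOf_zero : flipOf Vc.zero = 0 := by
  unfold flipOf Vc.zero
  simp only [enc_eq, zero_mul, add_zero]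
  rfl

/-- A pruning leaf kills the cell. -/
lemma pLeaf_sound {C : Ctx} {zs : List Vc} {ys : List Lev} {gs : List Gap} {off : ℕ}
    (hP : Plan C zs ys gs off) (hlen : lenV zs ≤ 24) (T : Tri) (d : ℕ)
    (h : pLeaf ⟨packC zs, packY ys, off, gs⟩ T d = true) (hT : T.mem C.c) : False := by
  unfold pLeaf at h
  cases hs : smallT T with
  | false => rw [hs, cond_false] at h; exact absurd h (by simp)
  | true =>
    rw [hs, cond_true, frc_eq] at h
    have hsm := smallL_mem hP.small
    refine leaf_sound C.ν C.c C.c_ne C.ν_c C.r C.r_lt C.r_pos T hs hT zs zs ys gs off 31 1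
      (by rw [← lenV_eq]; exact hlen) rfl hsm hsm (fun y hy => ⟨(hP.ys y hy).1, (hP.ys y hy).2.1⟩)
      (by norm_num) hP.hoff (fun _ _ => rfl) 0 le_rfl zero_le_one ?_
      (fun y hy => (hP.ys y hy).2.2) hP.gs 0 0 ?_ ?_ d 0 0 h h
    · intro m
      have e : (if m = 31 then ((1:ℕ) : ℝ) else 1) = 1 := by split_ifs <;> simp
      rw [e, one_mul, comb_self]
      exact plan_chain hP m
    · rw [get_ge _ _ _ (by rw [← lenV_eq]; omega), flipOf_zero]
    · rw [get_ge _ _ _ (by rw [← lenV_eq]; omega), flipOf_zero]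

/-- Pruning: the kernel direction stays in the new tree. -/
theorem pruneK_sound (C : Ctx) (zs : List Vc) (ys : List Lev) (gs : List Gap) (off : ℕ)
    (hP : Plan C zs ys gs off) (hlen : lenV zs ≤ 24) (t : PT) (ct : CT) (T : Tri)
    (k : CT → Bool) (h : pruneK ⟨packC zs, packY ys, off, gs⟩ t ct T k = true) :
    ∃ ct' : CT, k ct' = true ∧ (ct.mem C.c T → ct'.mem C.c T) := by
  induction t generalizing ct T k with
  | keep => exact ⟨ct, h, fun hc => hc⟩
  | leaf d =>
    have h' : cond (pLeaf ⟨packC zs, packY ys, off, gs⟩ T d) (k CT.e) false = true := h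
    cases hl : pLeaf ⟨packC zs, packY ys, off, gs⟩ T d with
    | false => rw [hl, cond_false] at h'; exact absurd h' (by simp)
    | true =>
      rw [hl, cond_true] at h'
      exact ⟨CT.e, h', fun hc => (pLeaf_sound hP hlen T d hl (CT.mem_sub _ _ _ hc)).elim⟩
  | split i k1 k2 l r ihl ihr =>
    cases ct with
    | e => exact absurd h (by intro hh; exact Bool.noConfusion hh)
    | s => exact absurd h (by intro hh; exact Bool.noConfusion hh)
    | c =>
      have h' : cond (posK k1 k2)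
        (forceT (T.left i k1 k2) fun Tl => pruneK ⟨packC zs, packY ys, off, gs⟩ l CT.c Tl fun l' =>
          forceT (T.right i k1 k2) fun Tr => pruneK ⟨packC zs, packY ys, off, gs⟩ r CT.c Tr
            fun r' => mkS i k1 k2 l' r' k) false = true := h
      cases hk : posK k1 k2 with
      | false => rw [hk, cond_false] at h'; exact absurd h' (by simp)
      | true =>
        rw [hk, cond_true, frcT_eq] at h'
        rw [posK_iff] at hk
        obtain ⟨l', hl', ml⟩ := ihl _ _ _ h'
        rw [frcT_eq] at hl'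
        obtain ⟨r', hr', mr⟩ := ihr _ _ _ hl'
        obtain ⟨ct', h1, h2⟩ := mkS_mem _ _ _ _ _ _ hr'
        refine ⟨ct', h1, fun hc => h2 _ _ ?_⟩
        rcases split_cover T i k1 k2 hk.1 hk.2 _ hc with hc | hc
        · left; exact ml hc
        · right; exact mr hc
  | desc l r ihl ihr =>
    cases ct with
    | e => exact absurd h (by intro hh; exact Bool.noConfusion hh)
    | c => exact absurd h (by intro hh; exact Bool.noConfusion hh)
    | s i k1 k2 a b =>
      have h' : (forceT (T.left i k1 k2) fun Tl => pruneK ⟨packC zs, packY ys, off, gs⟩ l a Tl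
          fun l' => forceT (T.right i k1 k2) fun Tr =>
            pruneK ⟨packC zs, packY ys, off, gs⟩ r b Tr fun r' => mkS i k1 k2 l' r' k) = true := h
      rw [frcT_eq] at h'
      obtain ⟨l', hl', ml⟩ := ihl _ _ _ h'
      rw [frcT_eq] at hl'
      obtain ⟨r', hr', mr⟩ := ihr _ _ _ hl'
      obtain ⟨ct', h1, h2⟩ := mkS_mem _ _ _ _ _ _ hr'
      refine ⟨ct', h1, fun hc => h2 _ _ ?_⟩
      rcases hc with hc | hc
      · left; exact ml hc
      · right; exact mr hc

/-! ### Regions -/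

lemma isE_iff (ct : CT) (h : isE ct = true) : ct = CT.e := by
  cases ct with
  | e => rfl
  | c => exact Bool.noConfusion h
  | s => exact Bool.noConfusion h

lemma cond_both {a b : Bool} (h : cond a b false = true) : a = true ∧ b = true := by
  cases a
  · exact absurd h (by simp)
  · exact ⟨rfl, h⟩

/-- The induction over a region tree. -/
lemma regK_gen (C : Ctx) (X : RX) (ρ : ℝ)
    (hleaf : ∀ (T : Tri) (p1 p2 : Vc) (nu d : ℕ) (θ : ℝ), rLeaf X T p1 p2 nu d = true →
      T.mem C.c → 0 ≤ θ → θ ≤ 1 → C.ν ((1 - θ) • p1.toR + θ • p2.toR) ≤ nu * ρ → False)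
    (t : RT) : ∀ (ct : CT) (T : Tri) (p1 p2 : Vc) (nu : ℕ) (θ : ℝ),
      regK X t ct T p1 p2 nu = true → ct.mem C.c T → 0 ≤ θ → θ ≤ 1 →
      C.ν ((1 - θ) • p1.toR + θ • p2.toR) ≤ nu * ρ → False := by
  induction t with
  | none =>
    intro ct T p1 p2 nu θ h hc h0 h1 hν
    have he := isE_iff ct h
    rw [he] at hc
    exact hc
  | leaf d =>
    intro ct T p1 p2 nu θ h hc h0 h1 hν
    exact hleaf T p1 p2 nu d θ h (CT.mem_sub _ _ _ hc) h0 h1 hν
  | split i k1 k2 l r ihl ihr =>
    intro ct T p1 p2 nu θ h hc h0 h1 hν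
    cases ct with
    | e => exact hc
    | s => exact Bool.noConfusion h
    | c =>
      have h' : cond (posK k1 k2)
        (cond (forceT (T.left i k1 k2) fun Tl => regK X l CT.c Tl p1 p2 nu)
          (forceT (T.right i k1 k2) fun Tr => regK X r CT.c Tr p1 p2 nu) false) false = true := h
      obtain ⟨hk, h'⟩ := cond_both h'
      obtain ⟨ha, hb⟩ := cond_both h'
      rw [frcT_eq] at ha hb
      rw [posK_iff] at hk
      rcases split_cover T i k1 k2 hk.1 hk.2 _ hc with hc | hc
      · exact ihl _ _ _ _ _ _ ha hc h0 h1 hν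
      · exact ihr _ _ _ _ _ _ hb hc h0 h1 hν
  | desc l r ihl ihr =>
    intro ct T p1 p2 nu θ h hc h0 h1 hν
    cases ct with
    | e => exact hc
    | c => exact Bool.noConfusion h
    | s i k1 k2 a b =>
      have h' : cond (forceT (T.left i k1 k2) fun Tl => regK X l a Tl p1 p2 nu)
          (forceT (T.right i k1 k2) fun Tr => regK X r b Tr p1 p2 nu) false = true := h
      obtain ⟨ha, hb⟩ := cond_both h'
      rw [frcT_eq] at ha hb
      rcases hc with hc | hc
      · exact ihl _ _ _ _ _ _ ha hc h0 h1 hν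
      · exact ihr _ _ _ _ _ _ hb hc h0 h1 hν
  | half l r ihl ihr =>
    intro ct T p1 p2 nu θ h hc h0 h1 hν
    have h' : (forceV (Vc.norm (Vc.add p1 p2)) fun m =>
        cond (forceV (Vc.smul 2 p1) fun q => regK X l ct T q m (Nat.mul 2 nu))
          (forceV (Vc.smul 2 p2) fun q => regK X r ct T m q (Nat.mul 2 nu)) false) = true := h
    rw [frcV_eq] at h'
    obtain ⟨ha, hb⟩ := cond_both h'
    rw [frcV_eq] at ha hb
    have hdouble : C.ν ((2:ℝ) • ((1 - θ) • p1.toR + θ • p2.toR))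
        ≤ ((Nat.mul 2 nu : ℕ) : ℝ) * ρ := by
      rw [map_smul_eq_mul, Real.norm_eq_abs, abs_of_pos (by norm_num : (0:ℝ) < 2)]
      have : ((Nat.mul 2 nu : ℕ) : ℝ) = 2 * nu := by
        show ((2 * nu : ℕ) : ℝ) = 2 * nu
        push_cast
        ring
      rw [this, mul_assoc]
      linarith
    rcases le_total θ (1/2) with hθ | hθ
    · refine ihl _ _ _ _ _ (2 * θ) ha hc (by linarith) (by linarith) ?_
      rw [cnorm_toR, cadd_toR, csmul_toR]
      have e : (1 - 2 * θ) • (((2:ℕ) : ℝ) • p1.toR) + (2 * θ) • (p1.toR + p2.toR)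
          = (2:ℝ) • ((1 - θ) • p1.toR + θ • p2.toR) := by
        push_cast
        module
      rw [e]
      exact hdouble
    · refine ihr _ _ _ _ _ (2 * θ - 1) hb hc (by linarith) (by linarith) ?_
      rw [cnorm_toR, cadd_toR, csmul_toR]
      have e : (1 - (2 * θ - 1)) • (p1.toR + p2.toR) + (2 * θ - 1) • (((2:ℕ) : ℝ) • p2.toR)
          = (2:ℝ) • ((1 - θ) • p1.toR + θ • p2.toR) := by
        push_cast
        module
      rw [e]
      exact hdouble

lemma rLeaf_split {X : RX} {T : Tri} {p1 p2 : Vc} {nu d : ℕ} (h : rLeaf X T p1 p2 nu d = true) :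
    smallT T = true ∧ smallV 1048576 p1 = true ∧ smallV 1048576 p2 = true ∧ nu ≤ 1024 ∧
    leaf ⟨chP X p1, X.ya, kOf T, X.pi, nu, X.off, X.gs, 0, flipOf p1⟩ d = true ∧
    leaf ⟨chP X p2, X.ya, kOf T, X.pi, nu, X.off, X.gs, 2, flipOf p2⟩ d = true := by
  unfold rLeaf at h
  obtain ⟨a1, h⟩ := cond_both h
  obtain ⟨a2, h⟩ := cond_both h
  obtain ⟨a3, h⟩ := cond_both h
  obtain ⟨a4, h⟩ := cond_both h
  rw [frc_eq] at h
  obtain ⟨a5, a6⟩ := cond_both h
  rw [frc_eq] at a5 a6
  exact ⟨a1, a2, a3, Nat.le_of_ble_eq_true a4, a5, a6⟩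

/-- Region check with the virtual vector before the chain (`off + 1` is the index of the first chain
vector). -/
theorem regK_sound_past (C : Ctx) (zs : List Vc) (ys : List Lev) (gs : List Gap) (off : ℕ)
    (hP : Plan C zs ys gs (off + 1)) (hlen : lenV zs ≤ 23) (t : RT) (ct : CT) (T : Tri)
    (p1 p2 : Vc) (nu : ℕ) (h : regK ⟨packC zs, packY ys, off, gs, 0⟩ t ct T p1 p2 nu = true)
    (hc : ct.mem C.c T) (θ : ℝ) (h0 : 0 ≤ θ) (h1 : θ ≤ 1)
    (hν : C.ν ((1 - θ) • p1.toR + θ • p2.toR) ≤ nu * C.r off) : False := by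
  refine regK_gen C _ (C.r off) ?_ t ct T p1 p2 nu θ h hc h0 h1 hν
  clear h hc h0 h1 hν θ p1 p2 nu T ct t
  intro T p1 p2 nu d θ h hT h0 h1 hν
  obtain ⟨a1, a2, a3, a4, a5, a6⟩ := rLeaf_split h
  have hsm := smallL_mem hP.small
  have c1 : chP ⟨packC zs, packY ys, off, gs, 0⟩ p1 = packC (p1 :: zs) := rfl
  have c2 : chP ⟨packC zs, packY ys, off, gs, 0⟩ p2 = packC (p2 :: zs) := rfl
  rw [c1] at a5
  rw [c2] at a6
  refine leaf_sound C.ν C.c C.c_ne C.ν_c C.r C.r_lt C.r_pos T a1 hT (p1 :: zs) (p2 :: zs) ys gs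
    off 0 nu ?_ ?_ ?_ ?_ (fun y hy => ⟨(hP.ys y hy).1, (hP.ys y hy).2.1⟩) a4 ?_ ?_ θ h0 h1 ?_
    (fun y hy => (hP.ys y hy).2.2) hP.gs _ _ rfl rfl d 0 2 a5 a6
  · rw [List.length_cons, ← lenV_eq]; omega
  · rw [List.length_cons, List.length_cons]
  · intro v hv
    rw [List.mem_cons] at hv
    rcases hv with hv | hv
    · rw [hv]; exact a2
    · exact hsm v hv
  · intro v hv
    rw [List.mem_cons] at hv
    rcases hv with hv | hv
    · rw [hv]; exact a3
    · exact hsm v hv
  · have := hP.hoff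
    omega
  · intro m hm
    cases m with
    | zero => exact absurd rfl hm
    | succ m => rfl
  · intro m
    cases m with
    | zero =>
      rw [if_pos rfl, get_zero, get_zero, add_zero]
      exact hν
    | succ m =>
      rw [if_neg (by omega), one_mul, get_succ, get_succ, comb_self,
        show off + (m + 1) = off + 1 + m by omega]
      exact plan_chain hP m

lemma packC_snoc (zs : List Vc) (p : Vc) : packC (zs ++ [p])
    = packC zs + recOf (pcOf p) 0 * 2 ^ (3072 * zs.length) := by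
  have e : ∀ l, packC l = packG (fun h => recOf (pcOf h) 0) l := fun _ => rfl
  rw [e, e]
  induction zs with
  | nil =>
    rw [List.nil_append, packG_cons]
    have : packG (fun h => recOf (pcOf h) 0) ([] : List Vc) = 0 := rfl
    rw [this, List.length_nil, Nat.mul_zero, pow_zero, zero_mul, mul_one, add_zero, zero_add]
  | cons h l ih =>
    rw [List.cons_append, packG_cons, ih, packG_cons, List.length_cons, Nat.mul_succ,
      pow_add]
    generalize packG (fun h => recOf (pcOf h) 0) l = A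
    generalize recOf (pcOf h) 0 = B
    generalize recOf (pcOf p) 0 = D
    generalize 2 ^ 3072 = Z
    generalize 2 ^ (3072 * l.length) = W
    ring

lemma get_append_lt {α : Type} (d : α) (l : List α) (p : α) (m : ℕ) (h : m < l.length) :
    get d (l ++ [p]) m = get d l m := by
  induction l generalizing m with
  | nil => simp at h
  | cons a l ih =>
    cases m with
    | zero => rfl
    | succ m =>
      rw [List.cons_append, get_succ, get_succ]
      exact ih m (by simpa using h)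

lemma get_append_eq {α : Type} (d : α) (l : List α) (p : α) :
    get d (l ++ [p]) l.length = p := by
  induction l with
  | nil => rfl
  | cons a l ih => rw [List.cons_append, List.length_cons, get_succ]; exact ih

/-- Region check with the virtual vector after the chain. -/
theorem regK_sound_fut (C : Ctx) (zs : List Vc) (ys : List Lev) (gs : List Gap) (off : ℕ)
    (hP : Plan C zs ys gs off) (hlen : lenV zs ≤ 23) (hpos : 1 ≤ lenV zs) (t : RT) (ct : CT) (T : Tri)
    (p1 p2 : Vc) (nu : ℕ)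
    (h : regK ⟨packC zs, packY ys, off, gs, lenV zs⟩ t ct T p1 p2 nu = true)
    (hc : ct.mem C.c T) (θ : ℝ) (h0 : 0 ≤ θ) (h1 : θ ≤ 1)
    (hν : C.ν ((1 - θ) • p1.toR + θ • p2.toR) ≤ nu * C.r (off + lenV zs)) : False := by
  refine regK_gen C _ (C.r (off + lenV zs)) ?_ t ct T p1 p2 nu θ h hc h0 h1 hν
  clear h hc h0 h1 hν θ p1 p2 nu T ct t
  intro T p1 p2 nu d θ h hT h0 h1 hν
  obtain ⟨a1, a2, a3, a4, a5, a6⟩ := rLeaf_split h
  have hsm := smallL_mem hP.small
  have cP : ∀ p : Vc, chP ⟨packC zs, packY ys, off, gs, lenV zs⟩ p = packC (zs ++ [p]) := by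
    intro p
    obtain ⟨n, hn⟩ : ∃ n, lenV zs = n + 1 := ⟨lenV zs - 1, by omega⟩
    rw [packC_snoc, ← lenV_eq, hn]
    have e : chP ⟨packC zs, packY ys, off, gs, n + 1⟩ p
        = packC zs + (recOf (pcOf p) 0) <<< (3072 * (n + 1)) := rfl
    rw [e, Nat.shiftLeft_eq]
  rw [cP] at a5 a6
  have hget : ∀ p : Vc, ∀ m, m ≠ lenV zs → get Vc.zero (zs ++ [p]) m = get Vc.zero zs m := by
    intro p m hm
    rw [lenV_eq] at hm
    rcases Nat.lt_or_ge m zs.length with h' | h'
    · exact get_append_lt _ _ _ _ h'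
    · rw [get_ge Vc.zero zs m h', get_ge]
      rw [List.length_append, List.length_cons, List.length_nil]
      omega
  have hgetE : ∀ p : Vc, get Vc.zero (zs ++ [p]) (lenV zs) = p := by
    intro p
    rw [lenV_eq]
    exact get_append_eq _ _ _
  refine leaf_sound C.ν C.c C.c_ne C.ν_c C.r C.r_lt C.r_pos T a1 hT (zs ++ [p1]) (zs ++ [p2]) ys gs
    off (lenV zs) nu ?_ ?_ ?_ ?_ (fun y hy => ⟨(hP.ys y hy).1, (hP.ys y hy).2.1⟩) a4 hP.hoff ?_
    θ h0 h1 ?_ (fun y hy => (hP.ys y hy).2.2) hP.gs _ _ ?_ ?_ d 0 2 a5 a6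
  · rw [List.length_append, List.length_cons, List.length_nil, ← lenV_eq]; omega
  · rw [List.length_append, List.length_append, List.length_cons, List.length_cons]
  · intro v hv
    rw [List.mem_append, List.mem_singleton] at hv
    rcases hv with hv | hv
    · exact hsm v hv
    · rw [hv]; exact a2
  · intro v hv
    rw [List.mem_append, List.mem_singleton] at hv
    rcases hv with hv | hv
    · exact hsm v hv
    · rw [hv]; exact a3
  · intro m hm
    rw [hget _ _ hm, hget _ _ hm]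
  · intro m
    by_cases hm : m = lenV zs
    · rw [if_pos hm, hm, hgetE, hgetE]
      exact hν
    · rw [if_neg hm, one_mul, hget _ _ hm, hget _ _ hm, comb_self]
      exact plan_chain hP m
  · rw [hgetE]
  · rw [hgetE]

/-! ### Corners -/

/-- The kernel direction is a combination of three corners of the list. -/
def InCone (cs : List Cn) (c : E3) : Prop :=
  ∃ x ∈ cs, ∃ y ∈ cs, ∃ z ∈ cs, ∃ t1 t2 t3 : ℝ, 0 ≤ t1 ∧ 0 ≤ t2 ∧ 0 ≤ t3 ∧
    c = t1 • x.toR + t2 • y.toR + t3 • z.toR

lemma InCone.mono {cs cs' : List Cn} (h : cs ⊆ cs') {c : E3} (hc : InCone cs c) : InCone cs' c := by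
  obtain ⟨x, hx, y, hy, z, hz, rest⟩ := hc
  exact ⟨x, h hx, y, h hy, z, h hz, rest⟩

lemma tri_inCone {T : Tri} {c : E3} (h : T.mem c) (acc : List Cn) :
    InCone (T.c1 :: T.c2 :: T.c3 :: acc) c := by
  obtain ⟨t1, t2, t3, h1, h2, h3, e⟩ := h
  exact ⟨T.c1, by simp, T.c2, by simp, T.c3, by simp, t1, t2, t3, h1, h2, h3, e⟩

lemma sub_cons3 (a b d : Cn) (acc : List Cn) : acc ⊆ a :: b :: d :: acc := by
  intro x hx
  simp [hx]

theorem cornK_sound (dep : ℕ) (ct : CT) (T : Tri) (acc : List Cn) (k : List Cn → Bool)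
    (h : cornK dep ct T acc k = true) :
    ∃ acc' : List Cn, k acc' = true ∧ acc ⊆ acc' ∧ (∀ c, ct.mem c T → InCone acc' c) := by
  induction dep generalizing ct T acc k with
  | zero =>
    cases ct with
    | e => exact ⟨acc, h, List.Subset.refl _, fun c hc => hc.elim⟩
    | c => exact ⟨_, h, sub_cons3 _ _ _ _, fun c hc => tri_inCone hc _⟩
    | s => exact ⟨_, h, sub_cons3 _ _ _ _, fun c hc => tri_inCone (CT.mem_sub _ _ _ hc) _⟩
  | succ dep ih =>
    cases ct with
    | e => exact ⟨acc, h, List.Subset.refl _, fun c hc => hc.elim⟩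
    | c => exact ⟨_, h, sub_cons3 _ _ _ _, fun c hc => tri_inCone hc _⟩
    | s i k1 k2 l r =>
      have h' : (forceT (T.left i k1 k2) fun Tl => cornK dep l Tl acc fun acc' =>
        forceT (T.right i k1 k2) fun Tr => cornK dep r Tr acc' k) = true := h
      rw [frcT_eq] at h'
      obtain ⟨a1, h1, s1, m1⟩ := ih _ _ _ _ h'
      rw [frcT_eq] at h1
      obtain ⟨a2, h2, s2, m2⟩ := ih _ _ _ _ h1
      refine ⟨a2, h2, List.Subset.trans s1 s2, fun c hc => ?_⟩
      rcases hc with hc | hc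
      · exact (m1 c hc).mono s2
      · exact m2 c hc

lemma cdotC_val (f : Vc) (c : Cn) :
    (((dotC f c).p : ℝ) - (dotC f c).n) = dot3 f.toR c.toR := by
  have e1 : (dotC f c).p = f.ap * c.a + (f.bp * c.b + f.up * c.u) := rfl
  have e2 : (dotC f c).n = f.an * c.a + (f.bn * c.b + f.un * c.u) := rfl
  rw [e1, e2]
  unfold dot3 Vc.toR Cn.toR
  push_cast
  ring

lemma dot3_comb (f x y z : E3) (t1 t2 t3 : ℝ) :
    dot3 f (t1 • x + t2 • y + t3 • z) = t1 * dot3 f x + t2 * dot3 f y + t3 * dot3 f z := by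
  unfold dot3
  simp only [Prod.fst_add, Prod.snd_add, Prod.smul_fst, Prod.smul_snd, smul_eq_mul]
  ring

lemma allC_mem (cs : List Cn) (f : Vc) (h : allC cs f = true) :
    ∀ c ∈ cs, 0 ≤ dot3 f.toR c.toR := by
  induction cs with
  | nil => intro c hc; simp at hc
  | cons a cs ih =>
    have h' : cond (Nat.ble (dotC f a).n (dotC f a).p) (allC cs f) false = true := h
    obtain ⟨h1, h2⟩ := cond_both h'
    intro c hc
    rw [List.mem_cons] at hc
    rcases hc with hc | hc
    · rw [hc, ← cdotC_val, sub_nonneg]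
      exact_mod_cast Nat.le_of_ble_eq_true h1
    · exact ih h2 c hc

lemma allCpos_mem (cs : List Cn) (f : Vc) (h : allCpos cs f = true) :
    ∀ c ∈ cs, 0 < dot3 f.toR c.toR := by
  induction cs with
  | nil => intro c hc; simp at hc
  | cons a cs ih =>
    have h' : cond (Nat.ble (Nat.succ (dotC f a).n) (dotC f a).p) (allCpos cs f) false = true := h
    obtain ⟨h1, h2⟩ := cond_both h'
    intro c hc
    rw [List.mem_cons] at hc
    rcases hc with hc | hc
    · rw [hc, ← cdotC_val, sub_pos]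
      exact_mod_cast Nat.le_of_ble_eq_true h1
    · exact ih h2 c hc

theorem allC_sound (cs : List Cn) (f : Vc) (h : allC cs f = true) (c : E3) (hc : InCone cs c) :
    0 ≤ dot3 f.toR c := by
  obtain ⟨x, hx, y, hy, z, hz, t1, t2, t3, h1, h2, h3, e⟩ := hc
  rw [e, dot3_comb]
  have a := mul_nonneg h1 (allC_mem cs f h x hx)
  have b := mul_nonneg h2 (allC_mem cs f h y hy)
  have d := mul_nonneg h3 (allC_mem cs f h z hz)
  linarith

theorem allCpos_sound (cs : List Cn) (f : Vc) (h : allCpos cs f = true) (c : E3) (hc : InCone cs c)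
    (hc0 : c ≠ 0) : 0 < dot3 f.toR c := by
  obtain ⟨x, hx, y, hy, z, hz, t1, t2, t3, h1, h2, h3, e⟩ := hc
  have px := allCpos_mem cs f h x hx
  have py := allCpos_mem cs f h y hy
  have pz := allCpos_mem cs f h z hz
  have a := mul_nonneg h1 px.le
  have b := mul_nonneg h2 py.le
  have d := mul_nonneg h3 pz.le
  rw [e, dot3_comb]
  rcases lt_or_eq_of_le h1 with q | q
  · have := mul_pos q px
    linarith
  rcases lt_or_eq_of_le h2 with q' | q'
  · have := mul_pos q' py
    linarith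
  rcases lt_or_eq_of_le h3 with q'' | q''
  · have := mul_pos q'' pz
    linarith
  exfalso
  apply hc0
  rw [e, ← q, ← q', ← q'', zero_smul, zero_smul, zero_smul, add_zero, add_zero]

end Pool.Agent.Helper54.Cert
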