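import Pool.Agent.Lib.Helper54.S18919.Facts

/-!
# The certificate checker (definitions only)
-/

set_option autoImplicit false

namespace Pool.Agent.Helper54.Cert

noncomputable section

/-! ### Forcing the evaluation of numbers -/

def force (n : Nat) (k : Nat → Bool) : Bool :=
  Nat.rec (motive := fun _ => Bool) (k 0) (fun m _ => k (Nat.succ m)) n

def forceV (v : Vc) (k : Vc → Bool) : Bool :=
  force v.ap fun ap => force v.an fun an => force v.bp fun bp => force v.bn fun bn =>
    force v.up fun up => force v.un fun un => k ⟨ap, an, bp, bn, up, un⟩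

def forceC (v : Cn) (k : Cn → Bool) : Bool :=
  force v.a fun a => force v.b fun b => force v.u fun u => k ⟨a, b, u⟩

def forceT (T : Tri) (k : Tri → Bool) : Bool :=
  forceC T.c1 fun c1 => forceC T.c2 fun c2 => forceC T.c3 fun c3 => k ⟨c1, c2, c3⟩

/-! ### The two root cells -/

def root1 : Tri := ⟨⟨1, 2, 2⟩, ⟨2, 3, 4⟩, ⟨1, 2, 3⟩⟩
def root2 : Tri := ⟨⟨2, 3, 4⟩, ⟨2, 3, 5⟩, ⟨1, 2, 3⟩⟩

/-! ### Pruning -/

/-- Pruning tree: keep the subtree, kill it by a leaf, make a new split of a full cell, descend in an
existing split. -/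
inductive PT where
  | keep : PT
  | leaf (d : Nat) : PT
  | split (i k1 k2 : Nat) (l r : PT) : PT
  | desc (l r : PT) : PT

/-- Context of the planar checks: packed chain, packed table, index of the first chain vector, gaps. -/
structure PX where
  ca : Nat
  ya : Nat
  off : Nat
  gs : List Gap

def pLeaf (X : PX) (T : Tri) (d : Nat) : Bool :=
  cond (smallT T) (force (kOf T) fun kp => leaf ⟨X.ca, X.ya, kp, 31, 1, X.off, X.gs, 0, 0⟩ d) false

/-- A split with both parts empty is empty. -/
def mkS (i k1 k2 : Nat) (l r : CT) (k : CT → Bool) : Bool :=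
  CT.rec (motive := fun _ => Bool)
    (CT.rec (motive := fun _ => Bool) (k CT.e) (k (CT.s i k1 k2 l r))
      (fun _ _ _ _ _ _ _ => k (CT.s i k1 k2 l r)) r)
    (k (CT.s i k1 k2 l r)) (fun _ _ _ _ _ _ _ => k (CT.s i k1 k2 l r)) l

/-- Positive weights of a new split. -/
def posK (k1 k2 : Nat) : Bool := cond (Nat.ble 1 k1) (Nat.ble 1 k2) false

def pruneK (X : PX) (t : PT) : CT → Tri → (CT → Bool) → Bool :=
  PT.rec (motive := fun _ => CT → Tri → (CT → Bool) → Bool)
    (fun ct _ k => k ct)
    (fun d _ T k => cond (pLeaf X T d) (k CT.e) false)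
    (fun i k1 k2 _ _ ihl ihr ct T k => CT.rec (motive := fun _ => Bool) false
      (cond (posK k1 k2)
        (forceT (T.left i k1 k2) fun Tl => ihl CT.c Tl fun l' =>
          forceT (T.right i k1 k2) fun Tr => ihr CT.c Tr fun r' => mkS i k1 k2 l' r' k) false)
      (fun _ _ _ _ _ _ _ => false) ct)
    (fun _ _ ihl ihr ct T k => CT.rec (motive := fun _ => Bool) false false
      (fun i k1 k2 l r _ _ => forceT (T.left i k1 k2) fun Tl => ihl l Tl fun l' =>
        forceT (T.right i k1 k2) fun Tr => ihr r Tr fun r' => mkS i k1 k2 l' r' k) ct)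
    t

/-! ### Region checks -/

/-- Region tree: nothing (empty cell), leaf, new split of a full cell, descend, halve the segment. -/
inductive RT where
  | none : RT
  | leaf (d : Nat) : RT
  | split (i k1 k2 : Nat) (l r : RT) : RT
  | desc (l r : RT) : RT
  | half (l r : RT) : RT

/-- Context of a region check: as `PX`, with the position of the virtual vector in the chain
(`pi = 0` and the packed chain has to be shifted, or `pi` is the length of the chain). -/
structure RX where
  ca : Nat
  ya : Nat
  off : Nat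
  gs : List Gap
  pi : Nat

/-- Packed chain with the virtual vector. -/
def chP (X : RX) (p : Vc) : Nat :=
  Nat.rec (motive := fun _ => Nat) (Nat.add (recOf (pcOf p) 0) (Nat.shiftLeft X.ca 3072))
    (fun _ _ => Nat.add X.ca (Nat.shiftLeft (recOf (pcOf p) 0) (Nat.mul 3072 X.pi))) X.pi

def rLeaf (X : RX) (T : Tri) (p1 p2 : Vc) (nu d : Nat) : Bool :=
  cond (smallT T) (cond (smallV 1048576 p1) (cond (smallV 1048576 p2) (cond (Nat.ble nu 1024)
    (force (kOf T) fun kp =>
      cond (force (chP X p1) fun ca => leaf ⟨ca, X.ya, kp, X.pi, nu, X.off, X.gs, 0, flipOf p1⟩ d)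
        (force (chP X p2) fun ca => leaf ⟨ca, X.ya, kp, X.pi, nu, X.off, X.gs, 2, flipOf p2⟩ d) false)
    false) false) false) false

def isE (ct : CT) : Bool :=
  CT.rec (motive := fun _ => Bool) true false (fun _ _ _ _ _ _ _ => false) ct

def regK (X : RX) (t : RT) : CT → Tri → Vc → Vc → Nat → Bool :=
  RT.rec (motive := fun _ => CT → Tri → Vc → Vc → Nat → Bool)
    (fun ct _ _ _ _ => isE ct)
    (fun d _ T p1 p2 nu => rLeaf X T p1 p2 nu d)
    (fun i k1 k2 _ _ ihl ihr ct T p1 p2 nu => CT.rec (motive := fun _ => Bool) false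
      (cond (posK k1 k2)
        (cond (forceT (T.left i k1 k2) fun Tl => ihl CT.c Tl p1 p2 nu)
          (forceT (T.right i k1 k2) fun Tr => ihr CT.c Tr p1 p2 nu) false) false)
      (fun _ _ _ _ _ _ _ => false) ct)
    (fun _ _ ihl ihr ct T p1 p2 nu => CT.rec (motive := fun _ => Bool) false false
      (fun i k1 k2 l r _ _ =>
        cond (forceT (T.left i k1 k2) fun Tl => ihl l Tl p1 p2 nu)
          (forceT (T.right i k1 k2) fun Tr => ihr r Tr p1 p2 nu) false) ct)
    (fun _ _ ihl ihr ct T p1 p2 nu =>
      forceV (Vc.norm (Vc.add p1 p2)) fun m =>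
        cond (forceV (Vc.smul 2 p1) fun q => ihl ct T q m (Nat.mul 2 nu))
          (forceV (Vc.smul 2 p2) fun q => ihr ct T m q (Nat.mul 2 nu)) false)
    t

/-! ### Corners of a coarse cover -/

def cornK (dep : Nat) : CT → Tri → List Cn → (List Cn → Bool) → Bool :=
  Nat.rec (motive := fun _ => CT → Tri → List Cn → (List Cn → Bool) → Bool)
    (fun ct T acc k => CT.rec (motive := fun _ => Bool) (k acc)
      (k (List.cons T.c1 (List.cons T.c2 (List.cons T.c3 acc))))
      (fun _ _ _ _ _ _ _ => k (List.cons T.c1 (List.cons T.c2 (List.cons T.c3 acc)))) ct)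
    (fun _ ih ct T acc k => CT.rec (motive := fun _ => Bool) (k acc)
      (k (List.cons T.c1 (List.cons T.c2 (List.cons T.c3 acc))))
      (fun i k1 k2 l r _ _ => forceT (T.left i k1 k2) fun Tl => ih l Tl acc fun acc' =>
        forceT (T.right i k1 k2) fun Tr => ih r Tr acc' k) ct)
    dep

/-- The form is nonnegative at all corners. -/
def allC (cs : List Cn) (f : Vc) : Bool :=
  List.rec (motive := fun _ => Bool) true
    (fun c _ ih => (fun z : Z2 => cond (Nat.ble z.n z.p) ih false) (dotC f c)) cs

/-- The form is positive at all corners. -/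
def allCpos (cs : List Cn) (f : Vc) : Bool :=
  List.rec (motive := fun _ => Bool) true
    (fun c _ ih => (fun z : Z2 => cond (Nat.ble (Nat.succ z.n) z.p) ih false) (dotC f c)) cs

/-! ### Enumeration of the next vector -/

/-- Header of an enumeration: `past = 1` for the vector before the chain, `0` for the vector after it;
packed `f, g, h`; the octagon `|α| < L / 8`, `|β| < M / 8`, `|α + β| < P / 8`, `|α - β| < Q / 8`; orientation;
depth of the cover; label index for the bound of the third coordinate, and this bound; certificates. -/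
structure EH where
  past : Nat
  f : Nat
  g : Nat
  h : Nat
  L : Nat
  M : Nat
  P : Nat
  Q : Nat
  ori : Nat
  dep : Nat
  gj : Nat
  Gm : Nat
  cf : FL
  cg : FL
  gc : List FL
  r1 : RT
  r2 : RT
  r3 : RT
  r4 : RT
  s1 : RT
  s2 : RT
  s3 : RT
  s4 : RT

/-- Evaluated data of an enumeration. -/
structure EC where
  S : St
  past : Nat
  f : Vc
  g : Vc
  h : Vc
  L : Nat
  M : Nat
  P : Nat
  Q : Nat
  ori : Nat
  cs : List Cn
  dd : Vc

def crsO (ori : Nat) (x y : Vc) : Vc :=
  Nat.rec (motive := fun _ => Vc) (crs x y) (fun _ _ => crs y x) ori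

/-- `|det (c, f, g)| α` as a form in `c`. -/
def fA (E : EC) (w : Vc) : Vc := crsO E.ori w E.g
/-- `|det (c, f, g)| β` as a form in `c`. -/
def fB (E : EC) (w : Vc) : Vc := crsO E.ori E.f w

/-- `8 x ≥ bound` for the form `x` (times `|det|`). -/
def octT (E : EC) (x : Vc) (b : Nat) : Bool :=
  forceV (Vc.norm (Vc.sub (Vc.smul 8 x) (Vc.smul b E.dd))) fun F => allC E.cs F

def fstI (S : St) : Nat := Nat.sub 64 S.k

/-- Form of the label comparison with `w` at `first - 1` (label A there, D at `i`). -/
def formWA (S : St) (w : Vc) (i : Nat) : Vc :=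
  formT (Nat.sub 63 S.k) i w (vec S (fstI S)) (vec S (Nat.succ (fstI S)))
    (vec S i) (vec S (Nat.add i 1)) (vec S (Nat.add i 2))

/-- Form of the label comparison with `w` at `first - 1` (label D there, A at `j`). -/
def formWD (S : St) (w : Vc) (j : Nat) : Vc :=
  formT j (Nat.sub 63 S.k) (vec S j) (vec S (Nat.add j 1)) (vec S (Nat.add j 2))
    w (vec S (fstI S)) (vec S (Nat.succ (fstI S)))

/-- Form of the label comparison with `w` at `lst + 1` (label D at `lst - 1`, A at `j`). -/
def formWF (S : St) (w : Vc) (j : Nat) : Vc :=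
  formT j (Nat.sub S.lst 1) (vec S j) (vec S (Nat.add j 1)) (vec S (Nat.add j 2))
    (vec S (Nat.sub S.lst 1)) (vec S S.lst) w

/-- All vectors `w - j f` are excluded. -/
def lowCut (E : EC) (t i : Nat) (c : FL) (w : Vc) : Bool :=
  get false
    [ octT E (Vc.neg (fA E w)) E.L,
      octT E (Vc.neg (Vc.add (fA E w) (fB E w))) E.P,
      octT E (Vc.neg (Vc.sub (fA E w) (fB E w))) E.Q,
      Nat.rec (motive := fun _ => Bool)
        (fark E.S.fs (Vc.sub (nextLB E.S) w) (nextStrict E.S) c)
        (fun _ _ => fark E.S.fs (Vc.neg w) false c) E.past,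
      Nat.rec (motive := fun _ => Bool) false
        (fun _ _ => cond (labIs E.S (Nat.sub 63 E.S.k) 1) (cond (labIs E.S i 2) (cond (hasV E.S i)
          (cond (hasV E.S (Nat.add i 2)) (cond (Nat.ble 65 (Nat.add E.S.lst E.S.k))
            (fark E.S.fs (Vc.neg (formWA E.S w i)) false c) false) false) false) false) false) E.past ]
    t

/-- All vectors `w + j f` are excluded. -/
def highCut (E : EC) (t i : Nat) (c : FL) (w : Vc) : Bool :=
  get false
    [ octT E (fA E w) E.L,
      octT E (Vc.add (fA E w) (fB E w)) E.P,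
      octT E (Vc.sub (fA E w) (fB E w)) E.Q,
      Nat.rec (motive := fun _ => Bool) false
        (fun _ _ => fark E.S.fs (Vc.sub w (vec E.S (fstI E.S))) false c) E.past,
      Nat.rec (motive := fun _ => Bool)
        (cond (jOk E.S i) (fark E.S.fs (Vc.neg (formWF E.S w i)) false c) false)
        (fun _ _ => cond (labIs E.S (Nat.sub 63 E.S.k) 2) (cond (labIs E.S i 1) (cond (hasV E.S i)
          (cond (hasV E.S (Nat.add i 2)) (cond (Nat.ble 65 (Nat.add E.S.lst E.S.k))
            (fark E.S.fs (Vc.neg (formWD E.S w i)) false c) false) false) false) false) false) E.past ]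
    t

/-- Bound for the third coordinate: `|G| ≤ Gm`. -/
def gForm (E : EC) (gj Gm : Nat) (c : Cn) : Vc :=
  (fun (d : Nat) (Om : Vc) =>
    Nat.rec (motive := fun _ => Vc)
      (Vc.sub (Vc.smul (kapT gj (Nat.sub E.S.lst 1))
          (Vc.sub Om (Vc.smul d (Vc.add (Vc.smul E.L E.f) (Vc.smul E.M E.g)))))
        (Vc.smul (Nat.mul 8 d) (formG E.S gj)))
      (fun _ _ => Vc.sub Om (Vc.smul d (Vc.add (Vc.smul 8 (vec E.S (fstI E.S)))
        (Vc.add (Vc.smul E.L E.f) (Vc.smul E.M E.g))))) E.past)
    ((fun z : Z2 => Nat.sub z.p z.n) (dotC E.dd c))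
    (Vc.smul (Nat.mul 8 (Nat.succ Gm)) ⟨c.a, 0, c.b, 0, c.u, 0⟩)

def gOk (E : EC) (gj Gm : Nat) (cs : List Cn) : List FL → Bool :=
  List.rec (motive := fun _ => List FL → Bool) (fun _ => true)
    (fun c _ ih l => List.rec (motive := fun _ => Bool) false
      (fun t r _ => cond (fark E.S.fs (gForm E gj Gm c) false t) (ih r) false) l) cs

/-- Lists of vectors are small. -/
def smallL (B : Nat) (l : List Vc) : Bool :=
  List.rec (motive := fun _ => Bool) true (fun v _ ih => cond (smallV B v) ih false) l

def lenV (l : List Vc) : Nat := List.rec (motive := fun _ => Nat) 0 (fun _ _ ih => Nat.succ ih) l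

/-- The vector `(a - b) f + (c - d) g`. -/
def cmb (E : EC) (a b c d : Nat) : Vc :=
  Vc.norm (Vc.add (Vc.zsmul ⟨a, b⟩ E.f) (Vc.zsmul ⟨c, d⟩ E.g))

/-- One edge of the octagon, from `p1` to `p2`. -/
def edge (X : RX) (p1 p2 : Vc) (t s : RT) (S : St) : Bool :=
  forceV p1 fun p1 => forceV p2 fun p2 =>
    cond (regK X t S.t1 root1 p1 p2 8) (regK X s S.t2 root2 p1 p2 8) false

/-- The four edges of the octagon (up to sign). -/
def edges (E : EC) (X : RX) (H : EH) : Bool :=
  cond (edge X (cmb E E.L 0 E.L E.Q) (cmb E E.L 0 E.P E.L) H.r1 H.s1 E.S)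
    (cond (cond (Nat.ble (Nat.add E.L E.M) E.P) true
        (edge X (cmb E E.L 0 E.P E.L) (cmb E E.P E.M E.M 0) H.r2 H.s2 E.S))
      (cond (edge X (cmb E E.P E.M E.M 0) (cmb E E.M E.Q E.M 0) H.r3 H.s3 E.S)
        (cond (Nat.ble (Nat.add E.L E.M) E.Q) true
          (edge X (cmb E E.M E.Q E.M 0) (cmb E 0 E.L E.Q E.L) H.r4 H.s4 E.S)) false) false) false

/-- Context of the region checks. -/
def rx (S : St) (past ca ya : Nat) : RX :=
  Nat.rec (motive := fun _ => RX) ⟨ca, ya, Nat.sub 64 S.k, S.gs, lenV S.zs⟩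
    (fun _ _ => ⟨ca, ya, Nat.sub 63 S.k, S.gs, 0⟩) past

/-- The third coordinate takes the values `-Gm, ..., Gm`: determinant `± 1`. -/
def uniM (f g h : Vc) : Bool :=
  (fun (F : Vc) =>
    (fun (x y : Nat) => cond (Nat.beq x (Nat.succ y)) true (Nat.beq y (Nat.succ x)))
      (Nat.add (Nat.add (Nat.mul F.ap h.ap) (Nat.mul F.an h.an))
        (Nat.add (Nat.add (Nat.mul F.bp h.bp) (Nat.mul F.bn h.bn))
          (Nat.add (Nat.mul F.up h.up) (Nat.mul F.un h.un))))
      (Nat.add (Nat.add (Nat.mul F.ap h.an) (Nat.mul F.an h.ap))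
        (Nat.add (Nat.add (Nat.mul F.bp h.bn) (Nat.mul F.bn h.bp))
          (Nat.add (Nat.mul F.up h.un) (Nat.mul F.un h.up)))))
    (crs f g)

/-- Label conditions for the bound of the third coordinate. -/
def gjOk (S : St) (past gj : Nat) : Bool :=
  Nat.rec (motive := fun _ => Bool) (jOk S gj) (fun _ _ => Nat.ble 64 (Nat.add S.lst S.k)) past

/-- All checks of the header of an enumeration. -/
def enumOk (E : EC) (H : EH) : Bool :=
  cond (cond (smallL 1048576 E.S.zs) (cond (Nat.ble (lenV E.S.zs) 23) (Nat.ble E.S.k 50) false) false)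
  (cond (cond (allCpos E.cs E.dd) (uniM E.f E.g E.h) false)
  (cond (cond (fark E.S.fs E.f false H.cf) (fark E.S.fs E.g false H.cg) false)
  (cond (cond (gjOk E.S E.past H.gj) (gOk E H.gj H.Gm E.cs H.gc) false)
    (force (packC E.S.zs) fun ca => force (packY E.S.ys) fun ya => edges E (rx E.S E.past ca ya) H)
    false) false) false) false

/-- The header of an enumeration; the continuation receives the evaluated data. -/
def enumH (S : St) (H : EH) (k : EC → Bool) : Bool :=
  forceV (pVc H.f) fun f => forceV (pVc H.g) fun g => forceV (pVc H.h) fun h =>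
  cornK H.dep S.t1 root1 [] fun cs1 => cornK H.dep S.t2 root2 cs1 fun cs =>
  forceV (Vc.norm (crsO H.ori f g)) fun dd =>
  (fun (E : EC) => cond (enumOk E H) (k E) false)
    ⟨S, H.past, f, g, h, H.L, H.M, H.P, H.Q, H.ori, cs, dd⟩

/-! ### States -/

def St.push (S : St) (w : Vc) : St :=
  ⟨Nat.succ S.k, S.lst, List.cons w S.zs, S.kl, S.lh, S.ls, S.fs, S.ys, S.gs, S.t1, S.t2⟩

def snoc (l : List Vc) (w : Vc) : List Vc :=
  List.rec (motive := fun _ => List Vc) (List.cons w []) (fun h _ ih => List.cons h ih) l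

def St.pushF (S : St) (w : Vc) : St :=
  ⟨S.k, Nat.succ S.lst, snoc S.zs w, S.kl, S.lh, S.ls, S.fs, S.ys, S.gs, S.t1, S.t2⟩

def consN (n : Nat) (x : Nat) (l : List Nat) : List Nat :=
  Nat.rec (motive := fun _ => List Nat) l (fun _ ih => List.cons x ih) n

def snocN (l : List Nat) (w : Nat) : List Nat :=
  List.rec (motive := fun _ => List Nat) (List.cons w []) (fun h _ ih => List.cons h ih) l

/-- New labels `x, ..., x` (`n` of them) before the known ones. -/
def St.labs (S : St) (n x : Nat) : St :=
  ⟨S.k, S.lst, S.zs, Nat.add S.kl n, S.lh, consN n x S.ls, S.fs, S.ys, S.gs, S.t1, S.t2⟩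

/-- New label D at `lh + 1`. -/
def St.labD (S : St) : St :=
  ⟨S.k, S.lst, S.zs, S.kl, Nat.succ S.lh, snocN S.ls 2, S.fs, S.ys, S.gs, S.t1, S.t2⟩

def St.setF (S : St) (fs : List Fact) : St :=
  ⟨S.k, S.lst, S.zs, S.kl, S.lh, S.ls, fs, S.ys, S.gs, S.t1, S.t2⟩

def St.setY (S : St) (ys : List Lev) (gs : List Gap) : St :=
  ⟨S.k, S.lst, S.zs, S.kl, S.lh, S.ls, S.fs, ys, gs, S.t1, S.t2⟩

def St.setT (S : St) (t1 t2 : CT) : St :=
  ⟨S.k, S.lst, S.zs, S.kl, S.lh, S.ls, S.fs, S.ys, S.gs, t1, t2⟩

/-- Labels D at `i, ..., i + n - 1`. -/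
def allD (S : St) (n : Nat) : Nat → Bool :=
  Nat.rec (motive := fun _ => Nat → Bool) (fun _ => true)
    (fun _ ih i => cond (labIs S i 2) (ih (Nat.succ i)) false) n

/-- Labels A at `i, ..., i + n - 1`. -/
def allA (S : St) (n : Nat) : Nat → Bool :=
  Nat.rec (motive := fun _ => Nat → Bool) (fun _ => true)
    (fun _ ih i => cond (labIs S i 1) (ih (Nat.succ i)) false) n

/-- Relations `z (i + 3) = z (i + 1) + z i` for `i, ..., i + n - 1`, with all vectors known. -/
def pad (S : St) (n : Nat) : Nat → Bool :=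
  Nat.rec (motive := fun _ => Nat → Bool) (fun _ => true)
    (fun _ ih i => cond (cond (hasV S i) (hasV S (Nat.add i 3)) false)
      (cond (Vc.eqv (vec S (Nat.add i 3)) (Vc.add (vec S (Nat.add i 1)) (vec S i)))
        (ih (Nat.succ i)) false) false) n

/-- If the label at `lh + 1` is A, the conclusion holds. -/
def flOk (S : St) : Bool :=
  cond (cond (Nat.ble 65 S.lh) (Nat.ble (Nat.succ S.lh) (Nat.add 64 cK)) false)
    (cond (allA S (Nat.succ cJ) (Nat.sub 64 cJ))
      (cond (allD S (Nat.sub S.lh 64) 65) (pad S (Nat.sub S.lh 65) 65) false) false) false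

/-! ### Equality of states -/

def eqN (x y : Nat) : Bool := Nat.beq x y

def eqV (x y : Vc) : Bool :=
  cond (Nat.beq x.ap y.ap) (cond (Nat.beq x.an y.an) (cond (Nat.beq x.bp y.bp)
    (cond (Nat.beq x.bn y.bn) (cond (Nat.beq x.up y.up) (Nat.beq x.un y.un) false) false)
    false) false) false

def eqL {α : Type} (e : α → α → Bool) (l : List α) : List α → Bool :=
  List.rec (motive := fun _ => List α → Bool)
    (fun m => List.rec (motive := fun _ => Bool) true (fun _ _ _ => false) m)
    (fun h _ ih m => List.rec (motive := fun _ => Bool) false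
      (fun h' t' _ => cond (e h h') (ih t') false) m) l

def eqB (x y : Bool) : Bool := cond x y (cond y false true)

def eqFact (x y : Fact) : Bool := cond (eqV x.f y.f) (eqB x.strict y.strict) false

def eqLev (x y : Lev) : Bool := cond (eqV x.y y.y) (Nat.beq x.lev y.lev) false

def eqGap (x y : Gap) : Bool :=
  cond (Nat.beq x.i y.i) (cond (Nat.beq x.m y.m) (Nat.beq x.l y.l) false) false

def eqCT (t : CT) : CT → Bool :=
  CT.rec (motive := fun _ => CT → Bool)
    (fun s => CT.rec (motive := fun _ => Bool) true false (fun _ _ _ _ _ _ _ => false) s)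
    (fun s => CT.rec (motive := fun _ => Bool) false true (fun _ _ _ _ _ _ _ => false) s)
    (fun i k1 k2 _ _ ihl ihr s => CT.rec (motive := fun _ => Bool) false false
      (fun i' k1' k2' l' r' _ _ => cond (Nat.beq i i') (cond (Nat.beq k1 k1') (cond (Nat.beq k2 k2')
        (cond (ihl l') (ihr r') false) false) false) false) s) t

/-- The state `C` is obtained from `S` by forgetting all planar data. -/
def leSt (C S : St) : Bool :=
  cond (cond (Nat.beq C.k S.k) (cond (Nat.beq C.lst S.lst) (cond (Nat.beq C.kl S.kl)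
      (Nat.beq C.lh S.lh) false) false) false)
    (cond (eqL eqV C.zs S.zs) (cond (eqL eqN C.ls S.ls) (cond (eqL eqFact C.fs S.fs)
      (cond (eqL eqLev C.ys []) (cond (eqL eqGap C.gs [])
        (cond (eqCT C.t1 S.t1) (eqCT C.t2 S.t2) false) false) false) false) false) false) false

/-! ### Certificates -/

inductive Cert where
  /-- contradictory height facts -/
  | dead (c : FL) : Cert
  /-- new facts -/
  | pre (fd : FD) (yd : YD) (gd : GD) (n : Cert) : Cert
  /-- forget the planar facts -/
  | clr (n : Cert) : Cert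
  /-- prune the trees of cells -/
  | prune (p1 p2 : PT) (n : Cert) : Cert
  /-- cases for the label before the first one -/
  | label (a d : Cert) : Cert
  /-- the label before the first one is A since `cK - 1` labels D follow -/
  | labelA (a : Cert) : Cert
  /-- the vector before the first one is determined by the labels -/
  | forced (n : Cert) : Cert
  /-- the label at `lh + 1` is D, or else the conclusion holds -/
  | flabel (n : Cert) : Cert
  /-- cases for the sign of a form -/
  | xsplit (f : Nat) (a d : Cert) : Cert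
  /-- a vector of the chain is not primitive -/
  | np (i g : Nat) : Cert
  /-- refer to another certificate -/
  | cut (j : Nat) : Cert
  /-- enumerate the next vector -/
  | enum (H : EH) (rows : Cert) : Cert
  | grow (b0 : Nat) (bs next : Cert) : Cert
  | gnil : Cert
  | brow (a0 tl il : Nat) (cl : FL) (th jh : Nat) (chi : FL) (cs next : Cert) : Cert
  | bnil : Cert
  | child (c next : Cert) : Cert
  | cnil : Cert

/-- Argument of a certificate: a state, or a position in an enumeration. -/
inductive Arg where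
  | st (S : St) : Arg
  | gr (E : EC) (n : Nat) (w : Vc) : Arg
  | br (E : EC) (w : Vc) : Arg
  | ch (E : EC) (th jh : Nat) (c : FL) (w : Vc) : Arg

def onSt (a : Arg) (f : St → Bool) : Bool :=
  Arg.rec (motive := fun _ => Bool) f (fun _ _ _ => false) (fun _ _ => false)
    (fun _ _ _ _ _ => false) a

def onGr (a : Arg) (f : EC → Nat → Vc → Bool) : Bool :=
  Arg.rec (motive := fun _ => Bool) (fun _ => false) f (fun _ _ => false)
    (fun _ _ _ _ _ => false) a

def onBr (a : Arg) (f : EC → Vc → Bool) : Bool :=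
  Arg.rec (motive := fun _ => Bool) (fun _ => false) (fun _ _ _ => false) f
    (fun _ _ _ _ _ => false) a

def onCh (a : Arg) (f : EC → Nat → Nat → FL → Vc → Bool) : Bool :=
  Arg.rec (motive := fun _ => Bool) (fun _ => false) (fun _ _ _ => false) (fun _ _ => false) f a

/-- First vector of a new pair of labels: the state after the label A before the first one. -/
def labelSt (S : St) : St :=
  cond (labIs S (fstI S) 2) (S.labs (Nat.succ cJ) 1) (S.labs 1 1)

/-- The vector forced by the labels at `first - 1` and `first`. -/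
def forcedV (S : St) : Vc :=
  cond (labIs S (Nat.sub 63 S.k) 1)
    (Vc.norm (Vc.sub (Vc.add (vec S (fstI S)) (vec S (Nat.succ (fstI S))))
      (vec S (Nat.add (fstI S) 2))))
    (Vc.norm (Vc.sub (vec S (Nat.add (fstI S) 2)) (vec S (fstI S))))

def forcedOk (S : St) : Bool :=
  cond (Nat.ble 1 S.k) (cond (Nat.ble S.k 50) (cond (hasV S (Nat.add (fstI S) 2))
    (cond (labIs S (fstI S) 2)
      (cond (labIs S (Nat.sub 63 S.k) 1) true (labIs S (Nat.sub 63 S.k) 2)) false) false) false) false

def divB (g : Nat) (v : Vc) : Bool :=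
  cond (Nat.beq (Nat.mod (Nat.add v.ap v.an) g) 0) (cond (Nat.beq (Nat.mod (Nat.add v.bp v.bn) g) 0)
    (Nat.beq (Nat.mod (Nat.add v.up v.un) g) 0) false) false

/-- The vector number `i` is divisible by `g ≥ 2` (its normal form is used). -/
def npOk (S : St) (i g : Nat) : Bool :=
  cond (Nat.ble 2 g) (cond (hasV S i) (divB g (Vc.norm (vec S i))) false) false

/-- Base vector `- Gm h`. -/
def gBase (E : EC) (Gm : Nat) : Vc := Vc.norm (Vc.zsmul ⟨0, Gm⟩ E.h)

/-- Add a multiple of a vector, offset 512. -/
def addO (w : Vc) (a : Nat) (f : Vc) : Vc :=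
  Vc.norm (Vc.add w (Vc.zsmul ⟨Nat.sub a 512, Nat.sub 512 a⟩ f))

def pushE (E : EC) (w : Vc) : St :=
  Nat.rec (motive := fun _ => St) (E.S.pushF w) (fun _ _ => E.S.push w) E.past

/-- The main check. -/
def run (cuts : List St) (c : Cert) : Arg → Bool :=
  Cert.rec (motive := fun _ => Arg → Bool)
    -- dead
    (fun c a => onSt a fun S => dead S.fs c)
    -- pre
    (fun fd yd gd _ ih a => onSt a fun S =>
      cond (fdOk S fd)
        ((fun fs : List Fact => cond (ydOk S fs yd)
          (cond (gdOk S fs gd) (ih (Arg.st ((S.setF fs).setY (ydV S.ys yd) (gdV S gd)))) false) false)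
          (fdV S fd)) false)
    -- clr
    (fun _ ih a => onSt a fun S => ih (Arg.st (S.setY [] [])))
    -- prune
    (fun p1 p2 _ ih a => onSt a fun S =>
      cond (cond (smallL 1048576 S.zs) (Nat.ble (lenV S.zs) 24) false)
        (force (packC S.zs) fun ca => force (packY S.ys) fun ya =>
          (fun X : PX => pruneK X p1 S.t1 root1 fun t1 => pruneK X p2 S.t2 root2 fun t2 =>
            cond (cond (isE t1) (isE t2) false) true (ih (Arg.st (S.setT t1 t2))))
          ⟨ca, ya, Nat.sub 64 S.k, S.gs⟩) false)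
    -- label
    (fun _ _ iha ihd a => onSt a fun S =>
      cond (cond (Nat.beq S.kl S.k) (Nat.ble S.k 50) false)
        (cond (iha (Arg.st (labelSt S))) (ihd (Arg.st (S.labs 1 2))) false) false)
    -- labelA
    (fun _ iha a => onSt a fun S =>
      cond (cond (Nat.beq S.kl S.k) (Nat.ble S.k 50) false)
        (cond (allD S (Nat.sub cK 1) (fstI S)) (iha (Arg.st (labelSt S))) false) false)
    -- forced
    (fun _ ih a => onSt a fun S =>
      cond (forcedOk S) (forceV (forcedV S) fun w => ih (Arg.st (S.push w))) false)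
    -- flabel
    (fun _ ih a => onSt a fun S => cond (flOk S) (ih (Arg.st S.labD)) false)
    -- xsplit
    (fun f _ _ iha ihd a => onSt a fun S =>
      forceV (pVc f) fun v =>
        cond (iha (Arg.st (S.setF (List.cons ⟨v, false⟩ S.fs))))
          (ihd (Arg.st (S.setF (List.cons ⟨Vc.neg v, false⟩ S.fs)))) false)
    -- np
    (fun i g a => onSt a fun S => npOk S i g)
    -- cut
    (fun j a => onSt a fun S => List.rec (motive := fun _ => Nat → Bool) (fun _ => false)
      (fun C _ ih j => Nat.rec (motive := fun _ => Bool) (leSt C S) (fun j' _ => ih j') j) cuts j)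
    -- enum
    (fun H _ ih a => onSt a fun S => enumH S H fun E =>
      forceV (gBase E H.Gm) fun w => ih (Arg.gr E (Nat.succ (Nat.mul 2 H.Gm)) w))
    -- grow
    (fun b0 _ _ ihb ihn a => onGr a fun E n w =>
      Nat.rec (motive := fun _ => Bool) false
        (fun n' _ => forceV (addO w b0 E.g) fun w0 =>
          cond (octT E (Vc.neg (fB E (Vc.sub w0 E.g))) E.M)
            (cond (ihb (Arg.br E w0))
              (forceV (Vc.norm (Vc.add w E.h)) fun w' => ihn (Arg.gr E n' w')) false) false) n)
    -- gnil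
    (fun a => onGr a fun _ n _ => Nat.beq n 0)
    -- brow
    (fun a0 tl il cl th jh chi _ _ ihc ihn a => onBr a fun E w =>
      forceV (addO w a0 E.f) fun wl =>
        cond (lowCut E tl il cl wl)
          (cond (forceV (Vc.norm (Vc.add wl E.f)) fun w1 => ihc (Arg.ch E th jh chi w1))
            (forceV (Vc.norm (Vc.add w E.g)) fun w' => ihn (Arg.br E w')) false) false)
    -- bnil
    (fun a => onBr a fun E w => octT E (fB E w) E.M)
    -- child
    (fun _ _ ihc ihn a => onCh a fun E th jh c w =>
      cond (ihc (Arg.st (pushE E w)))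
        (forceV (Vc.norm (Vc.add w E.f)) fun w' => ihn (Arg.ch E th jh c w')) false)
    -- cnil
    (fun a => onCh a fun E th jh c w => highCut E th jh c w)
    c

end

end Pool.Agent.Helper54.Cert
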