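import Pool.Agent.Lib.Helper54.S18919.Sem
import Pool.Agent.Lib.Helper54.S18919.Check

/-!
# Semantic context of the certificates

`Ctx` is the abstract situation around a violation (index 64); `Holds C S` says that the state `S` describes
the situation `C` correctly; `Valid S` says that `S` implies the conclusion.
-/

set_option autoImplicit false

namespace Pool.Agent.Helper54.Cert

/-- Integer vectors, coordinates `(a, b, u)`. -/
abbrev Z3 := ℤ × ℤ × ℤ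

def Vc.toZ (v : Vc) : Z3 := ((v.ap : ℤ) - v.an, (v.bp : ℤ) - v.bn, (v.up : ℤ) - v.un)

def cast3 (w : Z3) : E3 := ((w.1 : ℝ), (w.2.1 : ℝ), (w.2.2 : ℝ))

/-- Scalar product; `dot3 X w` is the height of `w`, and also the value of a linear form in the heights. -/
def dot3 (p q : E3) : ℝ := p.1 * q.1 + p.2.1 * q.2.1 + p.2.2 * q.2.2

/-- The vector is zero modulo two. -/
def Even3 (w : Z3) : Prop := ∃ v : Z3, w = v + v

/-- The abstract situation. Index 64 is the index of the violation. -/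
structure Ctx where
  /-- planar seminorm -/
  ν : Seminorm ℝ E3
  /-- kernel direction -/
  c : E3
  /-- heights of the three basis vectors -/
  X : E3
  /-- the best approximation vectors -/
  z : ℕ → Z3
  φ : ℝ
  β : ℝ
  φ_pos : 0 < φ
  φ_eq : φ ^ 3 = φ + 1
  X_pos : 0 < X.1 ∧ 0 < X.2.1 ∧ 0 < X.2.2
  c_ne : c ≠ 0
  c_mem : root1.mem c ∨ root2.mem c
  ν_c : ν c = 0
  z64 : z 64 = (1, 1, 1)
  z65 : z 65 = (1, 1, 2)
  z66 : z 66 = (1, 2, 2)
  z67 : z 67 = (1, 2, 3)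
  x_pos : 0 < dot3 X (cast3 (z 0))
  x_lt : ∀ i, dot3 X (cast3 (z i)) < dot3 X (cast3 (z (i + 1)))
  r_pos : ∀ i, 0 < ν (cast3 (z i))
  r_lt : ∀ i, ν (cast3 (z (i + 1))) < ν (cast3 (z i))
  best : ∀ i, ∀ w : Z3, w ≠ 0 → |dot3 X (cast3 w)| < dot3 X (cast3 (z (i + 1))) →
    ν (cast3 (z i)) ≤ ν (cast3 w)
  same : ∀ i j, i < j → Even3 (z i + z j) →
    dot3 X (cast3 (z i)) + 2 * dot3 X (cast3 (z (i + 1))) ≤ dot3 X (cast3 (z j))
  fano : ∀ i j k, i < j → j < k → Even3 (z i + z j + z k) →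
    dot3 X (cast3 (z i)) + dot3 X (cast3 (z j)) ≤ dot3 X (cast3 (z k))
  viol : ∀ i, dot3 X (cast3 (z (i + 3))) < dot3 X (cast3 (z (i + 1))) + dot3 X (cast3 (z i)) →
    z i + z (i + 3) = z (i + 1) + z (i + 2)
  no_two : ∀ i, dot3 X (cast3 (z (i + 3))) < dot3 X (cast3 (z (i + 1))) + dot3 X (cast3 (z i)) →
    dot3 X (cast3 (z (i + 2))) + dot3 X (cast3 (z (i + 1))) ≤ dot3 X (cast3 (z (i + 4)))
  /-- label at the violation: A -/
  lab64 : β * φ ^ 64 < dot3 X (cast3 (z 64)) + φ ^ 2 * dot3 X (cast3 (z 65)) +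
    φ * dot3 X (cast3 (z 66))
  /-- label after the violation: D -/
  lab65 : dot3 X (cast3 (z 65)) + φ ^ 2 * dot3 X (cast3 (z 66)) + φ * dot3 X (cast3 (z 67)) ≤
    β * φ ^ 65
  /-- history: after a drop at `i` the labels `i - cJ, ..., i` are A -/
  hist1 : ∀ i, i < 64 →
    β * φ ^ i < dot3 X (cast3 (z i)) + φ ^ 2 * dot3 X (cast3 (z (i + 1))) +
      φ * dot3 X (cast3 (z (i + 2))) →
    dot3 X (cast3 (z (i + 1))) + φ ^ 2 * dot3 X (cast3 (z (i + 2))) +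
      φ * dot3 X (cast3 (z (i + 3))) ≤ β * φ ^ (i + 1) →
    ∀ j, j ≤ i → i ≤ j + cJ →
      β * φ ^ j < dot3 X (cast3 (z j)) + φ ^ 2 * dot3 X (cast3 (z (j + 1))) +
        φ * dot3 X (cast3 (z (j + 2)))
  /-- history: two consecutive labels D -/
  hist2 : ∀ i, i + 1 < 64 →
    dot3 X (cast3 (z i)) + φ ^ 2 * dot3 X (cast3 (z (i + 1))) +
      φ * dot3 X (cast3 (z (i + 2))) ≤ β * φ ^ i →
    dot3 X (cast3 (z (i + 1))) + φ ^ 2 * dot3 X (cast3 (z (i + 2))) +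
      φ * dot3 X (cast3 (z (i + 3))) ≤ β * φ ^ (i + 1) →
    z (i + 3) = z (i + 1) + z i
  /-- history: there are no `cK` consecutive labels D -/
  hist3 : ∀ i, i + cK ≤ 64 → ∃ j, i ≤ j ∧ j < i + cK ∧
      β * φ ^ j < dot3 X (cast3 (z j)) + φ ^ 2 * dot3 X (cast3 (z (j + 1))) +
        φ * dot3 X (cast3 (z (j + 2)))

namespace Ctx

variable (C : Ctx)

/-- height of an integer vector -/
noncomputable def ht (w : Z3) : ℝ := dot3 C.X (cast3 w)
/-- height of the vector number `i` -/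
noncomputable def x (i : ℕ) : ℝ := dot3 C.X (cast3 (C.z i))
/-- length of the vector number `i` -/
noncomputable def r (i : ℕ) : ℝ := C.ν (cast3 (C.z i))
/-- `φ ^ i Φ_i` -/
noncomputable def P (i : ℕ) : ℝ := C.x i + C.φ ^ 2 * C.x (i + 1) + C.φ * C.x (i + 2)
/-- The label at `i` is A. -/
def A (i : ℕ) : Prop := C.β * C.φ ^ i < C.P i

/-- The conclusion: properties `hist1`, `hist2`, `hist3` for the drop at 64. -/
def Concl : Prop :=
  (∀ j, j ≤ 64 → 64 ≤ j + cJ → C.A j) ∧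
  (∀ i, 65 ≤ i → i + 1 < 64 + cK → (∀ j, 65 ≤ j → j ≤ i + 1 → ¬ C.A j) →
    C.z (i + 3) = C.z (i + 1) + C.z i) ∧
  (∃ j, 65 ≤ j ∧ j ≤ 64 + cK ∧ C.A j)

end Ctx

/-- A fact is true. -/
def Fact.ok (C : Ctx) (f : Fact) : Prop :=
  0 ≤ dot3 C.X f.f.toR ∧ (f.strict = true → 0 < dot3 C.X f.f.toR)

/-- A planar lower bound is true. -/
def Lev.ok (C : Ctx) (y : Lev) : Prop :=
  smallV 1024 y.y = true ∧ y.lev ≤ 1000 ∧ C.r y.lev ≤ C.ν y.y.toR

def Gap.ok (C : Ctx) (g : Gap) : Prop := C.r g.i ≤ C.r g.m + C.r g.l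

/-- The state `S` describes the situation `C`. -/
structure Holds (C : Ctx) (S : St) : Prop where
  hk : S.k ≤ 60
  hlst : 67 ≤ S.lst ∧ S.lst ≤ 100
  len : lenV S.zs + 63 = S.lst + S.k
  zs : ∀ i, hasV S i = true → (vec S i).toZ = C.z i
  hkl : S.kl ≤ 62
  hlh : 65 ≤ S.lh
  lenl : S.ls.length + 63 = S.lh + S.kl
  labA : ∀ i, lab S i = 1 → C.A i
  labD : ∀ i, lab S i = 2 → ¬ C.A i
  fs : ∀ f ∈ S.fs, Fact.ok C f
  ys : ∀ y ∈ S.ys, Lev.ok C y
  gs : ∀ g ∈ S.gs, Gap.ok C g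
  cells : S.t1.mem C.c root1 ∨ S.t2.mem C.c root2

/-- The state implies the conclusion. -/
def Valid (S : St) : Prop := ∀ C : Ctx, Holds C S → C.Concl

end Pool.Agent.Helper54.Cert
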