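/-!
# Certificate checker for the growth of best approximations: basic definitions

Everything is computed with natural numbers; a signed integer is a pair `(p, n)` that stands for `p - n`.
Vectors and linear forms have three signed coordinates `(a, b, u)`.
-/

set_option autoImplicit false

namespace Pool.Agent.Helper54.Cert

noncomputable section

/-- A signed integer, as a difference of two natural numbers. -/
structure Z2 where
  p : Nat
  n : Nat

/-- An integer vector (or a linear form) in the coordinates `(a, b, u)`. -/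
structure Vc where
  ap : Nat
  an : Nat
  bp : Nat
  bn : Nat
  up : Nat
  un : Nat

namespace Vc

def zero : Vc := ⟨0, 0, 0, 0, 0, 0⟩
def add (x y : Vc) : Vc :=
  ⟨Nat.add x.ap y.ap, Nat.add x.an y.an, Nat.add x.bp y.bp, Nat.add x.bn y.bn,
    Nat.add x.up y.up, Nat.add x.un y.un⟩
def neg (x : Vc) : Vc := ⟨x.an, x.ap, x.bn, x.bp, x.un, x.up⟩
def sub (x y : Vc) : Vc :=
  ⟨Nat.add x.ap y.an, Nat.add x.an y.ap, Nat.add x.bp y.bn, Nat.add x.bn y.bp,
    Nat.add x.up y.un, Nat.add x.un y.up⟩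
def smul (k : Nat) (x : Vc) : Vc :=
  ⟨Nat.mul k x.ap, Nat.mul k x.an, Nat.mul k x.bp, Nat.mul k x.bn, Nat.mul k x.up, Nat.mul k x.un⟩
def zsmul (k : Z2) (x : Vc) : Vc := (x.smul k.p).sub (x.smul k.n)
/-- Normal form. -/
def norm (x : Vc) : Vc :=
  ⟨Nat.sub x.ap x.an, Nat.sub x.an x.ap, Nat.sub x.bp x.bn, Nat.sub x.bn x.bp,
    Nat.sub x.up x.un, Nat.sub x.un x.up⟩
def eqv (x y : Vc) : Bool :=
  cond (Nat.beq (Nat.add x.ap y.an) (Nat.add x.an y.ap))
    (cond (Nat.beq (Nat.add x.bp y.bn) (Nat.add x.bn y.bp))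
      (Nat.beq (Nat.add x.up y.un) (Nat.add x.un y.up)) false) false
def isZero (x : Vc) : Bool :=
  cond (Nat.beq x.ap x.an) (cond (Nat.beq x.bp x.bn) (Nat.beq x.up x.un) false) false
def allNonneg (x : Vc) : Bool :=
  cond (Nat.ble x.an x.ap) (cond (Nat.ble x.bn x.bp) (Nat.ble x.un x.up) false) false
def somePos (x : Vc) : Bool :=
  cond (Nat.ble x.ap x.an) (cond (Nat.ble x.bp x.bn) (Nat.ble (Nat.succ x.un) x.up) true) true

end Vc

/-- A corner of a cell of kernel directions: nonnegative coordinates. -/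
structure Cn where
  a : Nat
  b : Nat
  u : Nat

namespace Cn
def comb (k : Nat) (x : Cn) (l : Nat) (y : Cn) : Cn :=
  ⟨Nat.add (Nat.mul k x.a) (Nat.mul l y.a), Nat.add (Nat.mul k x.b) (Nat.mul l y.b),
    Nat.add (Nat.mul k x.u) (Nat.mul l y.u)⟩
end Cn

/-- Value of a form at a corner. -/
def dotC (f : Vc) (c : Cn) : Z2 :=
  ⟨Nat.add (Nat.mul f.ap c.a) (Nat.add (Nat.mul f.bp c.b) (Nat.mul f.up c.u)),
    Nat.add (Nat.mul f.an c.a) (Nat.add (Nat.mul f.bn c.b) (Nat.mul f.un c.u))⟩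

/-- Positive parts of the minors of two vectors (the negative parts are obtained by exchange). -/
def m1 (p q : Vc) : Nat :=
  Nat.add (Nat.add (Nat.mul p.bp q.up) (Nat.mul p.bn q.un))
    (Nat.add (Nat.mul p.up q.bn) (Nat.mul p.un q.bp))
def m2 (p q : Vc) : Nat :=
  Nat.add (Nat.add (Nat.mul p.up q.ap) (Nat.mul p.un q.an))
    (Nat.add (Nat.mul p.ap q.un) (Nat.mul p.an q.up))
def m3 (p q : Vc) : Nat :=
  Nat.add (Nat.add (Nat.mul p.ap q.bp) (Nat.mul p.an q.bn))
    (Nat.add (Nat.mul p.bp q.an) (Nat.mul p.bn q.ap))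

/-- Cross product. -/
def crs (p q : Vc) : Vc := ⟨m1 p q, m1 q p, m2 p q, m2 q p, m3 p q, m3 q p⟩

/-- A cell: the cone over three corners. -/
structure Tri where
  c1 : Cn
  c2 : Cn
  c3 : Cn

/-- Trees of cells: empty, everything, or a split of the side `i` at the point `k1 v_i + k2 v_{i+1}`. -/
inductive CT where
  | e : CT
  | c : CT
  | s (i k1 k2 : Nat) (l r : CT) : CT

/-- Left part of a split. -/
def Tri.left (T : Tri) (i k1 k2 : Nat) : Tri :=
  Nat.rec (motive := fun _ => Tri) ⟨T.c1, Cn.comb k1 T.c1 k2 T.c2, T.c3⟩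
    (fun j _ => Nat.rec (motive := fun _ => Tri) ⟨T.c1, T.c2, Cn.comb k1 T.c2 k2 T.c3⟩
      (fun _ _ => ⟨Cn.comb k1 T.c3 k2 T.c1, T.c2, T.c3⟩) j) i

/-- Right part of a split. -/
def Tri.right (T : Tri) (i k1 k2 : Nat) : Tri :=
  Nat.rec (motive := fun _ => Tri) ⟨Cn.comb k1 T.c1 k2 T.c2, T.c2, T.c3⟩
    (fun j _ => Nat.rec (motive := fun _ => Tri) ⟨T.c1, Cn.comb k1 T.c2 k2 T.c3, T.c3⟩
      (fun _ _ => ⟨T.c1, T.c2, Cn.comb k1 T.c3 k2 T.c1⟩) j) i

/-- Planar lower bound: `ν y ≥ ν (z lev)` (absolute index). -/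
structure Lev where
  y : Vc
  lev : Nat

/-- Planar fact `ν (z i) ≤ ν (z m) + ν (z l)` (absolute indices). -/
structure Gap where
  i : Nat
  m : Nat
  l : Nat

/-- A linear form `f` in the heights; `strict` means `0 < f`, otherwise `0 ≤ f`. -/
structure Fact where
  f : Vc
  strict : Bool

/-- Generic look-up with a default value. -/
def get {α : Type} (d : α) (l : List α) (i : Nat) : α :=
  List.rec (motive := fun _ => Nat → α) (fun _ => d)
    (fun h _ ih i => Nat.rec (motive := fun _ => α) h (fun j _ => ih j) i) l i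

end

end Pool.Agent.Helper54.Cert
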