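import Pool.Agent.Lib.Helper54.S18919.FactSound
import Pool.Agent.Lib.Helper54.S18919.CellSound

/-!
# Soundness of the enumeration of the next vector (chunk E)
-/

set_option autoImplicit false

namespace Pool.Agent.Helper54.Cert

/-- Index of the enumerated vector. -/
def tgt (S : St) (past : ℕ) : ℕ := if past = 0 then S.lst + 1 else 63 - S.k

/-- Orientation sign. -/
noncomputable def osg (ori : ℕ) : ℝ := if ori = 0 then 1 else -1

/-- `|det (c, f, g)|`, and `α`, `β` times this number. -/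
noncomputable def dV (C : Ctx) (E : EC) : ℝ := osg E.ori * det3 C.c E.f.toR E.g.toR
noncomputable def aV (C : Ctx) (E : EC) (w : E3) : ℝ := osg E.ori * det3 C.c w E.g.toR
noncomputable def bV (C : Ctx) (E : EC) (w : E3) : ℝ := osg E.ori * det3 C.c E.f.toR w

/-- Everything that the header of an enumeration guarantees. -/
structure EGood (C : Ctx) (S : St) (Gm : ℕ) (E : EC) : Prop where
  S_eq : E.S = S
  holds : Holds C S
  hk : S.k ≤ 50
  hlen : lenV S.zs ≤ 23
  cover : InCone E.cs C.c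
  dd : dot3 E.dd.toR C.c = dV C E
  d_pos : 0 < dV C E
  xf : 0 ≤ dot3 C.X E.f.toR
  xg : 0 ≤ dot3 C.X E.g.toR
  octL : 8 * |aV C E (cast3 (C.z (tgt S E.past)))| < E.L * dV C E
  octM : 8 * |bV C E (cast3 (C.z (tgt S E.past)))| < E.M * dV C E
  octP : 8 * |aV C E (cast3 (C.z (tgt S E.past))) + bV C E (cast3 (C.z (tgt S E.past)))| <
    E.P * dV C E
  octQ : 8 * |aV C E (cast3 (C.z (tgt S E.past))) - bV C E (cast3 (C.z (tgt S E.past)))| <
    E.Q * dV C E
  coord : ∃ G B A : ℤ, |G| ≤ (Gm : ℤ) ∧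
    C.z (tgt S E.past) = G • E.h.toZ + B • E.g.toZ + A • E.f.toZ

namespace EnumP

/-- A number between two others is a convex combination. -/
theorem seg_exists (a b x : ℝ) (h : (a ≤ x ∧ x ≤ b) ∨ (b ≤ x ∧ x ≤ a)) :
    ∃ θ : ℝ, 0 ≤ θ ∧ θ ≤ 1 ∧ x = (1 - θ) * a + θ * b := by
  by_cases hab : a = b
  · refine ⟨0, le_refl _, zero_le_one, ?_⟩
    rcases h with h | h <;> · subst hab; linarith [h.1, h.2]
  · have hne : b - a ≠ 0 := fun h0 => hab (by linarith)
    refine ⟨(x - a) / (b - a), ?_, ?_, ?_⟩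
    · rcases h with ⟨h1, h2⟩ | ⟨h1, h2⟩
      · exact div_nonneg (by linarith) (by linarith)
      · exact div_nonneg_of_nonpos (by linarith) (by linarith)
    · rcases h with ⟨h1, h2⟩ | ⟨h1, h2⟩
      · have : 0 < b - a := lt_of_le_of_ne (by linarith) (Ne.symm hne)
        rw [div_le_one this]; linarith
      · have : b - a < 0 := lt_of_le_of_ne (by linarith) hne
        rw [div_le_one_of_neg this]; linarith
    · field_simp
      ring

/-- A point of the boundary of the octagon. -/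
theorem oct_key (N : Seminorm ℝ E3) (f g : E3) (r : ℝ) (L M P Q : ℕ)
    (e1 : ∀ θ : ℝ, 0 ≤ θ → θ ≤ 1 → ¬ N ((1 - θ) • ((L : ℝ) • f + ((L : ℝ) - Q) • g) +
      θ • ((L : ℝ) • f + ((P : ℝ) - L) • g)) ≤ 8 * r)
    (e2 : L + M ≤ P ∨ ∀ θ : ℝ, 0 ≤ θ → θ ≤ 1 → ¬ N ((1 - θ) • ((L : ℝ) • f + ((P : ℝ) - L) • g) +
      θ • (((P : ℝ) - M) • f + (M : ℝ) • g)) ≤ 8 * r)
    (e3 : ∀ θ : ℝ, 0 ≤ θ → θ ≤ 1 → ¬ N ((1 - θ) • (((P : ℝ) - M) • f + (M : ℝ) • g) +
      θ • (((M : ℝ) - Q) • f + (M : ℝ) • g)) ≤ 8 * r)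
    (e4 : L + M ≤ Q ∨ ∀ θ : ℝ, 0 ≤ θ → θ ≤ 1 → ¬ N ((1 - θ) • (((M : ℝ) - Q) • f + (M : ℝ) • g) +
      θ • ((-(L : ℝ)) • f + ((Q : ℝ) - L) • g)) ≤ 8 * r)
    (u v : ℝ) (hN : N (u • f + v • g) ≤ 8 * r) (hu : |u| ≤ L) (hv : |v| ≤ M) (hp : |u + v| ≤ P)
    (hq : |u - v| ≤ Q) (h : u = L ∨ v = M ∨ u + v = P ∨ v - u = Q) : False := by
  have hE1 : u = L → False := by
    intro hu1
    obtain ⟨θ, h0, h1, h2⟩ := seg_exists ((L : ℝ) - Q) ((P : ℝ) - L) v
      (Or.inl ⟨by have := (abs_le.1 hq).2; linarith, by have := (abs_le.1 hp).2; linarith⟩)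
    apply e1 θ h0 h1
    have : (1 - θ) • ((L : ℝ) • f + ((L : ℝ) - Q) • g) + θ • ((L : ℝ) • f + ((P : ℝ) - L) • g)
        = u • f + v • g := by
      rw [h2, hu1]; module
    rw [this]; exact hN
  have hE3 : v = M → False := by
    intro hv1
    obtain ⟨θ, h0, h1, h2⟩ := seg_exists ((P : ℝ) - M) ((M : ℝ) - Q) u
      (Or.inr ⟨by have := (abs_le.1 hq).1; linarith, by have := (abs_le.1 hp).2; linarith⟩)
    apply e3 θ h0 h1
    have : (1 - θ) • (((P : ℝ) - M) • f + (M : ℝ) • g) + θ • (((M : ℝ) - Q) • f + (M : ℝ) • g)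
        = u • f + v • g := by
      rw [h2, hv1]; module
    rw [this]; exact hN
  rcases h with h | h | h | h
  · exact hE1 h
  · exact hE3 h
  · have hul := (abs_le.1 hu).2
    have hvl := (abs_le.1 hv).2
    rcases e2 with e2 | e2
    · have : (L : ℝ) + M ≤ P := by exact_mod_cast e2
      exact hE1 (by linarith)
    · obtain ⟨θ, h0, h1, h2⟩ := seg_exists (L : ℝ) ((P : ℝ) - M) u
        (Or.inr ⟨by linarith, hul⟩)
      apply e2 θ h0 h1
      have : (1 - θ) • ((L : ℝ) • f + ((P : ℝ) - L) • g) + θ • (((P : ℝ) - M) • f + (M : ℝ) • g)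
          = u • f + v • g := by
        have hv2 : v = P - u := by linarith
        rw [hv2, h2]; module
      rw [this]; exact hN
  · have hul := (abs_le.1 hu).1
    have hvl := (abs_le.1 hv).2
    rcases e4 with e4 | e4
    · have : (L : ℝ) + M ≤ Q := by exact_mod_cast e4
      exact hE3 (by linarith)
    · obtain ⟨θ, h0, h1, h2⟩ := seg_exists ((M : ℝ) - Q) (-(L : ℝ)) u
        (Or.inr ⟨hul, by linarith⟩)
      apply e4 θ h0 h1
      have : (1 - θ) • (((M : ℝ) - Q) • f + (M : ℝ) • g) + θ • ((-(L : ℝ)) • f + ((Q : ℝ) - L) • g)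
          = u • f + v • g := by
        have hv2 : v = Q + u := by linarith
        rw [hv2, h2]; module
      rw [this]; exact hN

theorem octagon' (N : Seminorm ℝ E3) (f g : E3) (r : ℝ) (L M P Q : ℕ)
    (e1 : ∀ θ : ℝ, 0 ≤ θ → θ ≤ 1 → ¬ N ((1 - θ) • ((L : ℝ) • f + ((L : ℝ) - Q) • g) +
      θ • ((L : ℝ) • f + ((P : ℝ) - L) • g)) ≤ 8 * r)
    (e2 : L + M ≤ P ∨ ∀ θ : ℝ, 0 ≤ θ → θ ≤ 1 → ¬ N ((1 - θ) • ((L : ℝ) • f + ((P : ℝ) - L) • g) +
      θ • (((P : ℝ) - M) • f + (M : ℝ) • g)) ≤ 8 * r)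
    (e3 : ∀ θ : ℝ, 0 ≤ θ → θ ≤ 1 → ¬ N ((1 - θ) • (((P : ℝ) - M) • f + (M : ℝ) • g) +
      θ • (((M : ℝ) - Q) • f + (M : ℝ) • g)) ≤ 8 * r)
    (e4 : L + M ≤ Q ∨ ∀ θ : ℝ, 0 ≤ θ → θ ≤ 1 → ¬ N ((1 - θ) • (((M : ℝ) - Q) • f + (M : ℝ) • g) +
      θ • ((-(L : ℝ)) • f + ((Q : ℝ) - L) • g)) ≤ 8 * r)
    (x y : ℝ) (hN : N (x • f + y • g) ≤ r) (hr : 0 ≤ r) :
    8 * |x| < L ∧ 8 * |y| < M ∧ 8 * |x + y| < P ∧ 8 * |x - y| < Q := by
  have key := oct_key N f g r L M P Q e1 e2 e3 e4
  have h0 : N ((0 : ℝ) • f + (0 : ℝ) • g) ≤ 8 * r := by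
    simp only [zero_smul, add_zero, map_zero]; linarith
  have hL : (0 : ℝ) < L := by
    rcases Nat.eq_zero_or_pos L with h | h
    · exfalso
      exact key 0 0 h0 (by simp) (by simp) (by simp) (by simp) (Or.inl (by simp [h]))
    · exact_mod_cast h
  have hM : (0 : ℝ) < M := by
    rcases Nat.eq_zero_or_pos M with h | h
    · exfalso
      exact key 0 0 h0 (by simp) (by simp) (by simp) (by simp) (Or.inr (Or.inl (by simp [h])))
    · exact_mod_cast h
  have hP : (0 : ℝ) < P := by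
    rcases Nat.eq_zero_or_pos P with h | h
    · exfalso
      exact key 0 0 h0 (by simp) (by simp) (by simp) (by simp)
        (Or.inr (Or.inr (Or.inl (by simp [h]))))
    · exact_mod_cast h
  have hQ : (0 : ℝ) < Q := by
    rcases Nat.eq_zero_or_pos Q with h | h
    · exfalso
      exact key 0 0 h0 (by simp) (by simp) (by simp) (by simp)
        (Or.inr (Or.inr (Or.inr (by simp [h]))))
    · exact_mod_cast h
  by_contra hcon
  -- the gauge
  obtain ⟨G, hG1, hGx, hGy, hGp, hGq, hGe⟩ : ∃ G : ℝ, 1 ≤ G ∧ 8 * |x| ≤ G * L ∧ 8 * |y| ≤ G * M ∧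
      8 * |x + y| ≤ G * P ∧ 8 * |x - y| ≤ G * Q ∧
      (8 * |x| = G * L ∨ 8 * |y| = G * M ∨ 8 * |x + y| = G * P ∨ 8 * |x - y| = G * Q) := by
    refine ⟨max (max (8 * |x| / L) (8 * |y| / M)) (max (8 * |x + y| / P) (8 * |x - y| / Q)),
      ?_, ?_, ?_, ?_, ?_, ?_⟩
    · by_contra hlt
      push Not at hlt
      have h1 := (max_lt_iff.1 hlt).1
      have h2 := (max_lt_iff.1 hlt).2
      apply hcon
      refine ⟨?_, ?_, ?_, ?_⟩
      · exact (div_lt_one hL).1 (max_lt_iff.1 h1).1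
      · exact (div_lt_one hM).1 (max_lt_iff.1 h1).2
      · exact (div_lt_one hP).1 (max_lt_iff.1 h2).1
      · exact (div_lt_one hQ).1 (max_lt_iff.1 h2).2
    · rw [← div_le_iff₀ hL]; exact le_trans (le_max_left _ _) (le_max_left _ _)
    · rw [← div_le_iff₀ hM]; exact le_trans (le_max_right _ _) (le_max_left _ _)
    · rw [← div_le_iff₀ hP]; exact le_trans (le_max_left _ _) (le_max_right _ _)
    · rw [← div_le_iff₀ hQ]; exact le_trans (le_max_right _ _) (le_max_right _ _)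
    · rw [← div_eq_iff hL.ne', ← div_eq_iff hM.ne', ← div_eq_iff hP.ne', ← div_eq_iff hQ.ne']
      rcases max_choice (max (8 * |x| / L) (8 * |y| / M)) (max (8 * |x + y| / P) (8 * |x - y| / Q))
        with h | h
      · rcases max_choice (8 * |x| / (L : ℝ)) (8 * |y| / M) with h' | h'
        · left; rw [h, h']
        · right; left; rw [h, h']
      · rcases max_choice (8 * |x + y| / (P : ℝ)) (8 * |x - y| / Q) with h' | h'
        · right; right; left; rw [h, h']
        · right; right; right; rw [h, h']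
  have hG0 : 0 < G := by linarith
  -- the scaled point, with a sign
  have hscale : ∀ s : ℝ, |s| = 1 → ∀ (_ : s * x = |x| ∧ 8 * |x| = G * L ∨ s * y = |y| ∧ 8 * |y| = G * M ∨
      s * (x + y) = |x + y| ∧ 8 * |x + y| = G * P ∨ s * (y - x) = |x - y| ∧ 8 * |x - y| = G * Q),
      False := by
    intro s hs hcase
    have hsc : ∀ t : ℝ, |s * 8 / G * t| = 8 * |t| / G := by
      intro t
      rw [abs_mul, abs_div, abs_mul, hs, abs_of_pos hG0]
      norm_num
      ring
    apply key (s * 8 / G * x) (s * 8 / G * y)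
    · have : (s * 8 / G * x) • f + (s * 8 / G * y) • g = (s * 8 / G) • (x • f + y • g) := by module
      rw [this, map_smul_eq_mul, Real.norm_eq_abs, abs_div, abs_mul, hs, abs_of_pos hG0]
      norm_num
      rw [div_mul_eq_mul_div, div_le_iff₀ hG0]
      have : 0 ≤ (G - 1) * r := mul_nonneg (by linarith) hr
      nlinarith
    · rw [hsc, div_le_iff₀ hG0]; linarith
    · rw [hsc, div_le_iff₀ hG0]; linarith
    · rw [← mul_add, hsc, div_le_iff₀ hG0]; linarith
    · rw [← mul_sub, hsc, div_le_iff₀ hG0]; linarith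
    · rcases hcase with ⟨h1, h2⟩ | ⟨h1, h2⟩ | ⟨h1, h2⟩ | ⟨h1, h2⟩
      · left
        rw [div_mul_eq_mul_div, div_eq_iff hG0.ne']; linarith
      · right; left
        rw [div_mul_eq_mul_div, div_eq_iff hG0.ne']; linarith
      · right; right; left
        rw [← mul_add, div_mul_eq_mul_div, div_eq_iff hG0.ne']; linarith
      · right; right; right
        rw [← mul_sub, div_mul_eq_mul_div, div_eq_iff hG0.ne']; linarith
  have hsgn : ∀ t : ℝ, ∃ s : ℝ, |s| = 1 ∧ s * t = |t| := by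
    intro t
    rcases le_total 0 t with h | h
    · exact ⟨1, by simp, by rw [abs_of_nonneg h]; ring⟩
    · exact ⟨-1, by simp, by rw [abs_of_nonpos h]; ring⟩
  rcases hGe with h | h | h | h
  · obtain ⟨s, hs1, hs2⟩ := hsgn x
    exact hscale s hs1 (Or.inl ⟨hs2, h⟩)
  · obtain ⟨s, hs1, hs2⟩ := hsgn y
    exact hscale s hs1 (Or.inr (Or.inl ⟨hs2, h⟩))
  · obtain ⟨s, hs1, hs2⟩ := hsgn (x + y)
    exact hscale s hs1 (Or.inr (Or.inr (Or.inl ⟨hs2, h⟩)))
  · obtain ⟨s, hs1, hs2⟩ := hsgn (y - x)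
    exact hscale s hs1 (Or.inr (Or.inr (Or.inr ⟨by rw [hs2, abs_sub_comm], h⟩)))

theorem ccond {a b : Bool} (h : cond a b false = true) : a = true ∧ b = true := by
  cases a <;> cases b <;> simp_all

theorem det3_neg_swap (c p q : E3) : det3 c q p = -det3 c p q := by
  simp only [det3]; ring

theorem det3_self (c p : E3) : det3 c p p = 0 := by simp only [det3]; ring

theorem osg_crs (c : E3) (ori : ℕ) (p q : Vc) :
    dot3 (crsO ori p q).toR c = osg ori * det3 c p.toR q.toR := by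
  unfold crsO osg
  cases ori with
  | zero => simp [crs_det]
  | succ n => simp [crs_det, det3_neg_swap c p.toR q.toR]

theorem fA_val' (C : Ctx) (E : EC) (w : Vc) : dot3 (fA E w).toR C.c = aV C E w.toR := by
  simp only [fA, aV, osg_crs]
theorem fB_val' (C : Ctx) (E : EC) (w : Vc) : dot3 (fB E w).toR C.c = bV C E w.toR := by
  simp only [fB, bV, osg_crs]

theorem dot3_add_left (a b c : E3) : dot3 (a + b) c = dot3 a c + dot3 b c := by
  simp only [dot3, Prod.fst_add, Prod.snd_add]; ring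
theorem dot3_sub_left (a b c : E3) : dot3 (a - b) c = dot3 a c - dot3 b c := by
  simp only [dot3, Prod.fst_sub, Prod.snd_sub]; ring
theorem dot3_neg_left (a c : E3) : dot3 (-a) c = -dot3 a c := by
  simp only [dot3, Prod.fst_neg, Prod.snd_neg]; ring
theorem dot3_smul_left (k : ℝ) (a c : E3) : dot3 (k • a) c = k * dot3 a c := by
  simp only [dot3, Prod.smul_fst, Prod.smul_snd, smul_eq_mul]; ring
theorem dot3_add_right (a b c : E3) : dot3 c (a + b) = dot3 c a + dot3 c b := by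
  simp only [dot3, Prod.fst_add, Prod.snd_add]; ring
theorem dot3_sub_right (a b c : E3) : dot3 c (a - b) = dot3 c a - dot3 c b := by
  simp only [dot3, Prod.fst_sub, Prod.snd_sub]; ring
theorem dot3_neg_right (a c : E3) : dot3 c (-a) = -dot3 c a := by
  simp only [dot3, Prod.fst_neg, Prod.snd_neg]; ring
theorem dot3_smul_right (k : ℝ) (a c : E3) : dot3 c (k • a) = k * dot3 c a := by
  simp only [dot3, Prod.smul_fst, Prod.smul_snd, smul_eq_mul]; ring

theorem octT_sound' (C : Ctx) (E : EC) (hc : InCone E.cs C.c) (hd : dot3 E.dd.toR C.c = dV C E)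
    (x : Vc) (b : ℕ) (h : octT E x b = true) : (b : ℝ) * dV C E ≤ 8 * dot3 x.toR C.c := by
  unfold octT at h
  rw [forceV_eq] at h
  have h1 := allC_sound _ _ h _ hc
  rw [Vc.toR_norm, Vc.toR_sub, Vc.toR_smul, Vc.toR_smul, dot3_sub_left, dot3_smul_left,
    dot3_smul_left, hd] at h1
  push_cast at h1
  linarith

theorem cast3_add (v w : Z3) : cast3 (v + w) = cast3 v + cast3 w := by
  simp [cast3]
theorem cast3_sub (v w : Z3) : cast3 (v - w) = cast3 v - cast3 w := by
  simp [cast3]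
theorem cast3_zsmul (k : ℤ) (v : Z3) : cast3 (k • v) = (k : ℝ) • cast3 v := by
  simp [cast3]

theorem det3_smul_right (k : ℝ) (c p q : E3) : det3 c p (k • q) = k * det3 c p q := by
  simp only [det3, Prod.smul_fst, Prod.smul_snd, smul_eq_mul]; ring
theorem det3_smul_mid (k : ℝ) (c p q : E3) : det3 c (k • p) q = k * det3 c p q := by
  simp only [det3, Prod.smul_fst, Prod.smul_snd, smul_eq_mul]; ring
theorem det3_add_right (c p q q' : E3) : det3 c p (q + q') = det3 c p q + det3 c p q' := by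
  simp only [det3, Prod.fst_add, Prod.snd_add]; ring
theorem det3_sub_right (c p q q' : E3) : det3 c p (q - q') = det3 c p q - det3 c p q' := by
  simp only [det3, Prod.fst_sub, Prod.snd_sub]; ring
theorem det3_add_mid (c p p' q : E3) : det3 c (p + p') q = det3 c p q + det3 c p' q := by
  simp only [det3, Prod.fst_add, Prod.snd_add]; ring
theorem det3_sub_mid (c p p' q : E3) : det3 c (p - p') q = det3 c p q - det3 c p' q := by
  simp only [det3, Prod.fst_sub, Prod.snd_sub]; ring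

/-- The coordinates of a shifted vector. -/
theorem aV_shift (C : Ctx) (E : EC) (w : Vc) (t : ℝ) :
    aV C E (w.toR + t • E.f.toR) = aV C E w.toR + t * dV C E := by
  simp only [aV, dV, det3_add_mid, det3_smul_mid]; ring
theorem bV_shift (C : Ctx) (E : EC) (w : Vc) (t : ℝ) :
    bV C E (w.toR + t • E.f.toR) = bV C E w.toR := by
  simp only [bV, det3_add_right, det3_smul_right, det3_self]; ring

/-- The lower cuts by the octagon. -/
theorem low_real (C : Ctx) (S : St) (E : EC) (w : Vc) (j : ℕ)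
    (h : C.z (tgt S E.past) = w.toZ - (j : ℤ) • E.f.toZ) :
    cast3 (C.z (tgt S E.past)) = w.toR + (-(j : ℝ)) • E.f.toR := by
  rw [h, cast3_sub, cast3_zsmul, Vc.cast3_toZ, Vc.cast3_toZ]
  push_cast
  module

theorem high_real (C : Ctx) (S : St) (E : EC) (w : Vc) (j : ℕ)
    (h : C.z (tgt S E.past) = w.toZ + (j : ℤ) • E.f.toZ) :
    cast3 (C.z (tgt S E.past)) = w.toR + (j : ℝ) • E.f.toR := by
  rw [h, cast3_add, cast3_zsmul, Vc.cast3_toZ, Vc.cast3_toZ]
  push_cast
  module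

theorem ctx_x_pos (C : Ctx) (i : ℕ) : 0 < C.x i := by
  induction i with
  | zero => exact C.x_pos
  | succ n ih => exact lt_trans ih (C.x_lt n)

theorem tgt_succ (S : St) (n : ℕ) : tgt S (n + 1) = 63 - S.k := by simp [tgt]
theorem tgt_zero (S : St) : tgt S 0 = S.lst + 1 := by simp [tgt]

theorem labIs_eq (S : St) (i l : ℕ) (h : labIs S i l = true) : lab S i = l := by
  unfold labIs at h
  exact Nat.eq_of_beq_eq_true h

theorem hasV_iff (S : St) (i : ℕ) : hasV S i = true ↔ 64 ≤ i + S.k ∧ i ≤ S.lst := by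
  unfold hasV
  constructor
  · intro h
    obtain ⟨h1, h2⟩ := ccond h
    exact ⟨Nat.le_of_ble_eq_true h1, Nat.le_of_ble_eq_true h2⟩
  · rintro ⟨h1, h2⟩
    have e1 : Nat.ble 64 (Nat.add i S.k) = true := Nat.ble_eq_true_of_le h1
    have e2 : Nat.ble i S.lst = true := Nat.ble_eq_true_of_le h2
    rw [e1, e2]; rfl

theorem vec_x (C : Ctx) (S : St) (hS : Holds C S) (i : ℕ) (h : hasV S i = true) :
    dot3 C.X (vec S i).toR = C.x i := by
  rw [← Vc.cast3_toZ, hS.zs i h]; rfl

theorem lowCut_sound' (C : Ctx) (S : St) (Gm : ℕ) (E : EC) (hE : EGood C S Gm E) (t i : ℕ) (c : FL)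
    (w : Vc) (h : lowCut E t i c w = true) (j : ℕ) :
    C.z (tgt S E.past) ≠ w.toZ - (j : ℤ) • E.f.toZ := by
  intro hz
  have hr := low_real C S E w j hz
  have hj : (0 : ℝ) ≤ j := Nat.cast_nonneg j
  have hd := hE.d_pos
  have hjd : 0 ≤ (j : ℝ) * dV C E := mul_nonneg hj hd.le
  have hjf : 0 ≤ (j : ℝ) * dot3 C.X E.f.toR := mul_nonneg hj hE.xf
  have haV := aV_shift C E w (-(j : ℝ))
  have hbV := bV_shift C E w (-(j : ℝ))
  rw [← hr] at haV hbV
  have hS' := hE.S_eq
  have hH := hE.holds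
  -- the height
  have hx : C.x (tgt S E.past) = dot3 C.X w.toR - j * dot3 C.X E.f.toR := by
    unfold Ctx.x
    rw [hr, dot3_add_right, dot3_smul_right]; ring
  match t, h with
  | 0, h =>
    have h1 := octT_sound' C E hE.cover hE.dd _ _ h
    rw [Vc.toR_neg, dot3_neg_left, fA_val'] at h1
    have h2 := hE.octL
    have h3 := neg_abs_le (aV C E (cast3 (C.z (tgt S E.past))))
    linarith
  | 1, h =>
    have h1 := octT_sound' C E hE.cover hE.dd _ _ h
    rw [Vc.toR_neg, Vc.toR_add, dot3_neg_left, dot3_add_left, fA_val', fB_val'] at h1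
    have h2 := hE.octP
    have h3 := neg_abs_le (aV C E (cast3 (C.z (tgt S E.past))) + bV C E (cast3 (C.z (tgt S E.past))))
    linarith
  | 2, h =>
    have h1 := octT_sound' C E hE.cover hE.dd _ _ h
    rw [Vc.toR_neg, Vc.toR_sub, dot3_neg_left, dot3_sub_left, fA_val', fB_val'] at h1
    have h2 := hE.octQ
    have h3 := neg_abs_le (aV C E (cast3 (C.z (tgt S E.past))) - bV C E (cast3 (C.z (tgt S E.past))))
    linarith
  | 3, h =>
    rcases hp : E.past with _ | n
    · have h' : fark E.S.fs (Vc.sub (nextLB E.S) w) (nextStrict E.S) c = true := by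
        unfold lowCut at h; rw [hp] at h; exact h
      rw [hS'] at h'
      have h1 := fark_sound C S.fs hH.fs _ _ _ h'
      rw [Vc.toR_sub, dot3_sub_right] at h1
      have h2 := nextLB_le C S hH
      rw [hp, tgt_zero] at hx
      cases hn : nextStrict S with
      | true => have := h1.2 hn; linarith [h2.1]
      | false => have := h2.2 hn; linarith [h1.1]
    · have h' : fark E.S.fs (Vc.neg w) false c = true := by
        unfold lowCut at h; rw [hp] at h; exact h
      rw [hS'] at h'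
      have h1 := (fark_sound C S.fs hH.fs _ _ _ h').1
      rw [Vc.toR_neg, dot3_neg_right] at h1
      have h2 : 0 < C.x (tgt S E.past) := ctx_x_pos C _
      linarith
  | 4, h =>
    rcases hp : E.past with _ | n
    · have h' : false = true := by
        unfold lowCut at h; rw [hp] at h; exact h
      simp at h'
    · have h' : cond (labIs E.S (Nat.sub 63 E.S.k) 1) (cond (labIs E.S i 2) (cond (hasV E.S i)
          (cond (hasV E.S (Nat.add i 2)) (cond (Nat.ble 65 (Nat.add E.S.lst E.S.k))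
            (fark E.S.fs (Vc.neg (formWA E.S w i)) false c) false) false) false) false) false
            = true := by
        unfold lowCut at h; rw [hp] at h; exact h
      rw [hS'] at h'
      obtain ⟨g1, h'⟩ := ccond h'
      obtain ⟨g2, h'⟩ := ccond h'
      obtain ⟨g3, h'⟩ := ccond h'
      obtain ⟨g4, h'⟩ := ccond h'
      obtain ⟨g5, h'⟩ := ccond h'
      have h1 := (fark_sound C S.fs hH.fs _ _ _ h').1
      rw [Vc.toR_neg, dot3_neg_right] at h1
      rw [hp, tgt_succ] at hx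
      have hk := hE.hk
      have hlst := hH.hlst
      have l1 := hH.labA _ (labIs_eq _ _ _ g1)
      have l2 := hH.labD _ (labIs_eq _ _ _ g2)
      have h2 := lab_lt C _ _ l1 l2
      have h3 := formT_le C (Nat.sub 63 S.k) i w (vec S (fstI S)) (vec S (Nat.succ (fstI S)))
        (vec S i) (vec S (Nat.add i 1)) (vec S (Nat.add i 2))
      have g5' : 65 ≤ S.lst + S.k := Nat.le_of_ble_eq_true g5
      have g3' := (hasV_iff _ _).1 g3
      have g4' : 64 ≤ (i + 2) + S.k ∧ i + 2 ≤ S.lst := (hasV_iff _ _).1 g4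
      have f1 : hasV S (fstI S) = true := by
        rw [hasV_iff]; unfold fstI; simp only [Nat.sub_eq]; omega
      have f2 : hasV S (Nat.succ (fstI S)) = true := by
        rw [hasV_iff]; unfold fstI; simp only [Nat.sub_eq]; omega
      have f3 : hasV S (Nat.add i 1) = true := by
        rw [hasV_iff]; simp only [Nat.add_eq]; omega
      rw [vec_x C S hH _ f1, vec_x C S hH _ f2, vec_x C S hH _ g3, vec_x C S hH _ f3,
        vec_x C S hH _ g4] at h3
      unfold formWA at h1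
      have e1 : fstI S = 63 - S.k + 1 := by unfold fstI; simp only [Nat.sub_eq]; omega
      rw [e1] at h1 h3
      simp only [Nat.sub_eq, Nat.add_eq, Nat.succ_eq_add_one, Ctx.P] at h1 h2 h3
      rw [hx] at h2
      have : (63 - S.k + 1 + 1) = (63 - S.k + 2) := by ring
      rw [this] at h1 h3
      nlinarith [h1, h2, h3, hjf]
  | (n + 5), h =>
    have : lowCut E (n + 5) i c w = false := rfl
    rw [this] at h
    simp at h

theorem highCut_sound' (C : Ctx) (S : St) (Gm : ℕ) (E : EC) (hE : EGood C S Gm E) (t i : ℕ) (c : FL)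
    (w : Vc) (h : highCut E t i c w = true) (j : ℕ) :
    C.z (tgt S E.past) ≠ w.toZ + (j : ℤ) • E.f.toZ := by
  intro hz
  have hr := high_real C S E w j hz
  have hj : (0 : ℝ) ≤ j := Nat.cast_nonneg j
  have hd := hE.d_pos
  have hjd : 0 ≤ (j : ℝ) * dV C E := mul_nonneg hj hd.le
  have hjf : 0 ≤ (j : ℝ) * dot3 C.X E.f.toR := mul_nonneg hj hE.xf
  have haV := aV_shift C E w (j : ℝ)
  have hbV := bV_shift C E w (j : ℝ)
  rw [← hr] at haV hbV
  have hS' := hE.S_eq
  have hH := hE.holds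
  -- the height
  have hx : C.x (tgt S E.past) = dot3 C.X w.toR + j * dot3 C.X E.f.toR := by
    unfold Ctx.x
    rw [hr, dot3_add_right, dot3_smul_right]
  match t, h with
  | 0, h =>
    have h1 := octT_sound' C E hE.cover hE.dd _ _ h
    rw [fA_val'] at h1
    have h2 := hE.octL
    have h3 := le_abs_self (aV C E (cast3 (C.z (tgt S E.past))))
    linarith
  | 1, h =>
    have h1 := octT_sound' C E hE.cover hE.dd _ _ h
    rw [Vc.toR_add, dot3_add_left, fA_val', fB_val'] at h1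
    have h2 := hE.octP
    have h3 := le_abs_self (aV C E (cast3 (C.z (tgt S E.past))) + bV C E (cast3 (C.z (tgt S E.past))))
    linarith
  | 2, h =>
    have h1 := octT_sound' C E hE.cover hE.dd _ _ h
    rw [Vc.toR_sub, dot3_sub_left, fA_val', fB_val'] at h1
    have h2 := hE.octQ
    have h3 := le_abs_self (aV C E (cast3 (C.z (tgt S E.past))) - bV C E (cast3 (C.z (tgt S E.past))))
    linarith
  | 3, h =>
    rcases hp : E.past with _ | n
    · have h' : false = true := by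
        unfold highCut at h; rw [hp] at h; exact h
      simp at h'
    · have h' : fark E.S.fs (Vc.sub w (vec E.S (fstI E.S))) false c = true := by
        unfold highCut at h; rw [hp] at h; exact h
      rw [hS'] at h'
      have h1 := (fark_sound C S.fs hH.fs _ _ _ h').1
      have hk := hE.hk
      have hlst := hH.hlst
      have f1 : hasV S (fstI S) = true := by
        rw [hasV_iff]; unfold fstI; simp only [Nat.sub_eq]; omega
      rw [Vc.toR_sub, dot3_sub_right, vec_x C S hH _ f1] at h1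
      have e1 : fstI S = 63 - S.k + 1 := by unfold fstI; simp only [Nat.sub_eq]; omega
      rw [hp, tgt_succ] at hx
      rw [e1] at h1
      have h2 : C.x (63 - S.k) < C.x (63 - S.k + 1) := C.x_lt _
      linarith
  | 4, h =>
    rcases hp : E.past with _ | n
    · have h' : cond (jOk E.S i) (fark E.S.fs (Vc.neg (formWF E.S w i)) false c) false = true := by
        unfold highCut at h; rw [hp] at h; exact h
      rw [hS'] at h'
      obtain ⟨g0, h'⟩ := ccond h'
      have h1 := (fark_sound C S.fs hH.fs _ _ _ h').1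
      rw [Vc.toR_neg, dot3_neg_right] at h1
      rw [hp, tgt_zero] at hx
      unfold jOk at g0
      obtain ⟨g1, g0⟩ := ccond g0
      obtain ⟨g2, g0⟩ := ccond g0
      obtain ⟨g3, g0⟩ := ccond g0
      obtain ⟨g4, g5⟩ := ccond g0
      have hk := hE.hk
      have hlst := hH.hlst
      have l1 := hH.labA _ (labIs_eq _ _ _ g1)
      have l2 := hH.labD _ (labIs_eq _ _ _ g2)
      have h2 := lab_lt C _ _ l1 l2
      have h3 := formT_le C i (Nat.sub S.lst 1) (vec S i) (vec S (Nat.add i 1)) (vec S (Nat.add i 2))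
        (vec S (Nat.sub S.lst 1)) (vec S S.lst) w
      have g3' := (hasV_iff _ _).1 g3
      have g4' : 64 ≤ (i + 2) + S.k ∧ i + 2 ≤ S.lst := (hasV_iff _ _).1 g4
      have g5' : 64 ≤ (S.lst - 1) + S.k ∧ S.lst - 1 ≤ S.lst := (hasV_iff _ _).1 g5
      have f1 : hasV S S.lst = true := by
        rw [hasV_iff]; omega
      have f3 : hasV S (Nat.add i 1) = true := by
        rw [hasV_iff]; simp only [Nat.add_eq]; omega
      rw [vec_x C S hH _ f1, vec_x C S hH _ g5, vec_x C S hH _ g3, vec_x C S hH _ f3,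
        vec_x C S hH _ g4] at h3
      unfold formWF at h1
      obtain ⟨m, hm⟩ : ∃ m, S.lst = m + 1 := ⟨S.lst - 1, by omega⟩
      rw [hm] at h1 h2 h3 hx
      simp only [Nat.sub_eq, Nat.add_eq, Nat.add_sub_cancel, Ctx.P] at h1 h2 h3
      have e2 : m + 1 + 1 = m + 2 := by ring
      rw [e2] at hx
      rw [hx] at h2
      have hphi : 0 < C.φ ^ ((i : ℤ) - (m : ℤ)) := zpow_pos C.φ_pos _
      have hphi1 : 0 ≤ C.φ ^ ((i : ℤ) - (m : ℤ)) * (C.φ * ((j : ℝ) * dot3 C.X E.f.toR)) :=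
        mul_nonneg hphi.le (mul_nonneg C.φ_pos.le hjf)
      have h4 : C.φ ^ ((i : ℤ) - (m : ℤ)) * (C.x m + C.φ ^ 2 * C.x (m + 1) + C.φ * dot3 C.X w.toR)
        < C.x i + C.φ ^ 2 * C.x (i + 1) + C.φ * C.x (i + 2) := by
        refine lt_of_le_of_lt ?_ h2
        have : C.φ ^ ((i : ℤ) - (m : ℤ)) * (C.x m + C.φ ^ 2 * C.x (m + 1) +
            C.φ * (dot3 C.X w.toR + j * dot3 C.X E.f.toR))
          = C.φ ^ ((i : ℤ) - (m : ℤ)) * (C.x m + C.φ ^ 2 * C.x (m + 1) + C.φ * dot3 C.X w.toR)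
            + C.φ ^ ((i : ℤ) - (m : ℤ)) * (C.φ * ((j : ℝ) * dot3 C.X E.f.toR)) := by ring
        rw [this]; linarith
      linarith
    · have h' : cond (labIs E.S (Nat.sub 63 E.S.k) 2) (cond (labIs E.S i 1) (cond (hasV E.S i)
          (cond (hasV E.S (Nat.add i 2)) (cond (Nat.ble 65 (Nat.add E.S.lst E.S.k))
            (fark E.S.fs (Vc.neg (formWD E.S w i)) false c) false) false) false) false) false
            = true := by
        unfold highCut at h; rw [hp] at h; exact h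
      rw [hS'] at h'
      obtain ⟨g1, h'⟩ := ccond h'
      obtain ⟨g2, h'⟩ := ccond h'
      obtain ⟨g3, h'⟩ := ccond h'
      obtain ⟨g4, h'⟩ := ccond h'
      obtain ⟨g5, h'⟩ := ccond h'
      have h1 := (fark_sound C S.fs hH.fs _ _ _ h').1
      rw [Vc.toR_neg, dot3_neg_right] at h1
      rw [hp, tgt_succ] at hx
      have hk := hE.hk
      have hlst := hH.hlst
      have l1 := hH.labD _ (labIs_eq _ _ _ g1)
      have l2 := hH.labA _ (labIs_eq _ _ _ g2)
      have h2 := lab_lt C _ _ l2 l1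
      have h3 := formT_le C i (Nat.sub 63 S.k) (vec S i) (vec S (Nat.add i 1)) (vec S (Nat.add i 2))
        w (vec S (fstI S)) (vec S (Nat.succ (fstI S)))
      have g5' : 65 ≤ S.lst + S.k := Nat.le_of_ble_eq_true g5
      have g3' := (hasV_iff _ _).1 g3
      have g4' : 64 ≤ (i + 2) + S.k ∧ i + 2 ≤ S.lst := (hasV_iff _ _).1 g4
      have f1 : hasV S (fstI S) = true := by
        rw [hasV_iff]; unfold fstI; simp only [Nat.sub_eq]; omega
      have f2 : hasV S (Nat.succ (fstI S)) = true := by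
        rw [hasV_iff]; unfold fstI; simp only [Nat.sub_eq]; omega
      have f3 : hasV S (Nat.add i 1) = true := by
        rw [hasV_iff]; simp only [Nat.add_eq]; omega
      rw [vec_x C S hH _ f1, vec_x C S hH _ f2, vec_x C S hH _ g3, vec_x C S hH _ f3,
        vec_x C S hH _ g4] at h3
      unfold formWD at h1
      have e1 : fstI S = 63 - S.k + 1 := by unfold fstI; simp only [Nat.sub_eq]; omega
      rw [e1] at h1 h3
      simp only [Nat.sub_eq, Nat.add_eq, Nat.succ_eq_add_one, Ctx.P] at h1 h2 h3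
      rw [hx] at h2
      generalize hm : 63 - S.k = m at h1 h2 h3
      have : (m + 1 + 1) = (m + 2) := by ring
      rw [this] at h1 h3
      have hphi : 0 < C.φ ^ ((i : ℤ) - (m : ℤ)) := zpow_pos C.φ_pos _
      have hphi1 : 0 ≤ C.φ ^ ((i : ℤ) - (m : ℤ)) * (((j : ℝ) * dot3 C.X E.f.toR)) :=
        mul_nonneg hphi.le hjf
      have h4 : C.φ ^ ((i : ℤ) - (m : ℤ)) * (dot3 C.X w.toR + C.φ ^ 2 * C.x (m + 1) + C.φ * C.x (m + 2))
        < C.x i + C.φ ^ 2 * C.x (i + 1) + C.φ * C.x (i + 2) := by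
        refine lt_of_le_of_lt ?_ h2
        have : C.φ ^ ((i : ℤ) - (m : ℤ)) * ((dot3 C.X w.toR + j * dot3 C.X E.f.toR) +
            C.φ ^ 2 * C.x (m + 1) + C.φ * C.x (m + 2))
          = C.φ ^ ((i : ℤ) - (m : ℤ)) * (dot3 C.X w.toR + C.φ ^ 2 * C.x (m + 1) + C.φ * C.x (m + 2))
            + C.φ ^ ((i : ℤ) - (m : ℤ)) * (((j : ℝ) * dot3 C.X E.f.toR)) := by ring
        rw [this]; linarith
      linarith
  | (n + 5), h =>
    have : highCut E (n + 5) i c w = false := rfl
    rw [this] at h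
    simp at h

theorem bV_gshift (C : Ctx) (E : EC) (w : E3) (s t : ℝ) :
    bV C E (w + s • E.g.toR + t • E.f.toR) = bV C E w + s * dV C E := by
  simp only [bV, dV, det3_add_right, det3_smul_right, det3_self]; ring

theorem bLow_sound' (C : Ctx) (S : St) (Gm : ℕ) (E : EC) (hE : EGood C S Gm E) (w : Vc)
    (h : octT E (Vc.neg (fB E w)) E.M = true) (j : ℕ) (a : ℤ) :
    C.z (tgt S E.past) ≠ w.toZ - (j : ℤ) • E.g.toZ + a • E.f.toZ := by
  intro hz
  have hr : cast3 (C.z (tgt S E.past)) = w.toR + (-(j : ℝ)) • E.g.toR + (a : ℝ) • E.f.toR := by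
    rw [hz, cast3_add, cast3_sub, cast3_zsmul, cast3_zsmul, Vc.cast3_toZ, Vc.cast3_toZ,
      Vc.cast3_toZ]
    push_cast
    module
  have hb := bV_gshift C E w.toR (-(j : ℝ)) a
  rw [← hr] at hb
  have h1 := octT_sound' C E hE.cover hE.dd _ _ h
  rw [Vc.toR_neg, dot3_neg_left, fB_val'] at h1
  have h2 := hE.octM
  have h3 := neg_abs_le (bV C E (cast3 (C.z (tgt S E.past))))
  have hjd : 0 ≤ (j : ℝ) * dV C E := mul_nonneg (Nat.cast_nonneg j) hE.d_pos.le
  linarith

theorem bHigh_sound' (C : Ctx) (S : St) (Gm : ℕ) (E : EC) (hE : EGood C S Gm E) (w : Vc)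
    (h : octT E (fB E w) E.M = true) (j : ℕ) (a : ℤ) :
    C.z (tgt S E.past) ≠ w.toZ + (j : ℤ) • E.g.toZ + a • E.f.toZ := by
  intro hz
  have hr : cast3 (C.z (tgt S E.past)) = w.toR + (j : ℝ) • E.g.toR + (a : ℝ) • E.f.toR := by
    rw [hz, cast3_add, cast3_add, cast3_zsmul, cast3_zsmul, Vc.cast3_toZ, Vc.cast3_toZ,
      Vc.cast3_toZ]
    push_cast
    module
  have hb := bV_gshift C E w.toR (j : ℝ) a
  rw [← hr] at hb
  have h1 := octT_sound' C E hE.cover hE.dd _ _ h
  rw [fB_val'] at h1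
  have h2 := hE.octM
  have h3 := le_abs_self (bV C E (cast3 (C.z (tgt S E.past))))
  have hjd : 0 ≤ (j : ℝ) * dV C E := mul_nonneg (Nat.cast_nonneg j) hE.d_pos.le
  linarith

/-! ### The child state -/

theorem get_cons_zero (w : Vc) (l : List Vc) : get Vc.zero (w :: l) 0 = w := rfl
theorem get_cons_succ (w : Vc) (l : List Vc) (i : ℕ) :
    get Vc.zero (w :: l) (i + 1) = get Vc.zero l i := rfl

theorem lenV_cons (w : Vc) (l : List Vc) : lenV (w :: l) = lenV l + 1 := rfl
theorem snoc_nil (w : Vc) : snoc [] w = [w] := rfl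
theorem snoc_cons (h w : Vc) (l : List Vc) : snoc (h :: l) w = h :: snoc l w := rfl

theorem lenV_snoc (w : Vc) (l : List Vc) : lenV (snoc l w) = lenV l + 1 := by
  induction l with
  | nil => rfl
  | cons h t ih => rw [snoc_cons, lenV_cons, lenV_cons, ih]

theorem get_snoc_lt (w : Vc) (l : List Vc) : ∀ i : ℕ, i < lenV l →
    get Vc.zero (snoc l w) i = get Vc.zero l i := by
  induction l with
  | nil => intro i hi; exact absurd hi (Nat.not_lt_zero _)
  | cons h t ih =>
    intro i hi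
    rw [snoc_cons]
    cases i with
    | zero => rfl
    | succ n => rw [get_cons_succ, get_cons_succ]; exact ih n (by rw [lenV_cons] at hi; omega)

theorem get_snoc_eq (w : Vc) (l : List Vc) : get Vc.zero (snoc l w) (lenV l) = w := by
  induction l with
  | nil => rfl
  | cons h t ih => rw [snoc_cons, lenV_cons, get_cons_succ]; exact ih

theorem push_holds (C : Ctx) (S : St) (hS : Holds C S) (hk : S.k ≤ 59) (w : Vc)
    (hw : C.z (63 - S.k) = w.toZ) : Holds C (S.push w) := by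
  have hlst := hS.hlst
  refine ⟨?_, hS.hlst, ?_, ?_, hS.hkl, hS.hlh, hS.lenl, hS.labA, hS.labD, hS.fs, hS.ys, hS.gs,
    hS.cells⟩
  · show S.k + 1 ≤ 60
    omega
  · show lenV (w :: S.zs) + 63 = S.lst + (S.k + 1)
    rw [lenV_cons]
    have := hS.len
    omega
  · intro i hi
    rw [hasV_iff] at hi
    have h1 : 64 ≤ i + (S.k + 1) := hi.1
    have h2 : i ≤ S.lst := hi.2
    show (get Vc.zero (w :: S.zs) (i + (S.k + 1) - 64)).toZ = C.z i
    by_cases hi0 : i + (S.k + 1) = 64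
    · have e : i + (S.k + 1) - 64 = 0 := by omega
      rw [e, get_cons_zero]
      have e2 : i = 63 - S.k := by omega
      rw [e2, hw]
    · have e : i + (S.k + 1) - 64 = (i + S.k - 64) + 1 := by omega
      rw [e, get_cons_succ]
      exact hS.zs i ((hasV_iff _ _).2 ⟨by omega, h2⟩)

theorem pushF_holds (C : Ctx) (S : St) (hS : Holds C S) (hk : S.lst ≤ 99) (w : Vc)
    (hw : C.z (S.lst + 1) = w.toZ) : Holds C (S.pushF w) := by
  have hlst := hS.hlst
  have hlen := hS.len
  refine ⟨hS.hk, ?_, ?_, ?_, hS.hkl, hS.hlh, hS.lenl, hS.labA, hS.labD, hS.fs, hS.ys, hS.gs,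
    hS.cells⟩
  · show 67 ≤ S.lst + 1 ∧ S.lst + 1 ≤ 100
    omega
  · show lenV (snoc S.zs w) + 63 = S.lst + 1 + S.k
    rw [lenV_snoc]
    omega
  · intro i hi
    rw [hasV_iff] at hi
    have h1 : 64 ≤ i + S.k := hi.1
    have h2 : i ≤ S.lst + 1 := hi.2
    show (get Vc.zero (snoc S.zs w) (i + S.k - 64)).toZ = C.z i
    by_cases hi0 : i = S.lst + 1
    · have e : i + S.k - 64 = lenV S.zs := by omega
      rw [e, get_snoc_eq, hi0, hw]
    · rw [get_snoc_lt _ _ _ (by omega)]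
      exact hS.zs i ((hasV_iff _ _).2 ⟨h1, by omega⟩)

theorem pushE_holds' (C : Ctx) (S : St) (Gm : ℕ) (E : EC) (hE : EGood C S Gm E) (w : Vc)
    (hw : C.z (tgt S E.past) = w.toZ) : Holds C (pushE E w) := by
  have hS' := hE.S_eq
  have hH := hE.holds
  have hk := hE.hk
  have hlen := hE.hlen
  have hlen2 := hH.len
  unfold pushE
  rw [hS']
  rcases hp : E.past with _ | n
  · rw [hp, tgt_zero] at hw
    exact pushF_holds C S hH (by omega) w hw
  · rw [hp, tgt_succ] at hw
    exact push_holds C S hH (by omega) w hw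


/-! ### The header -/

theorem inCone_mono {cs cs' : List Cn} (h : cs ⊆ cs') {c : E3} (hc : InCone cs c) : InCone cs' c := by
  obtain ⟨x, hx, y, hy, z, hz, r⟩ := hc
  exact ⟨x, h hx, y, h hy, z, h hz, r⟩

theorem cone_pos (X : E3) (T : Tri) (h1 : 0 < dot3 X T.c1.toR) (h2 : 0 < dot3 X T.c2.toR)
    (h3 : 0 < dot3 X T.c3.toR) (c : E3) (hc : T.mem c) (hc0 : c ≠ 0) : 0 < dot3 X c := by
  obtain ⟨t1, t2, t3, p1, p2, p3, e⟩ := hc
  have e1 : dot3 X c = t1 * dot3 X T.c1.toR + t2 * dot3 X T.c2.toR + t3 * dot3 X T.c3.toR := by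
    rw [e, dot3_add_right, dot3_add_right, dot3_smul_right, dot3_smul_right, dot3_smul_right]
  by_contra hn
  push Not at hn
  have q1 := mul_nonneg p1 h1.le
  have q2 := mul_nonneg p2 h2.le
  have q3 := mul_nonneg p3 h3.le
  have z1 : t1 = 0 := by
    by_contra h
    have := mul_pos (lt_of_le_of_ne p1 (Ne.symm h)) h1
    linarith
  have z2 : t2 = 0 := by
    by_contra h
    have := mul_pos (lt_of_le_of_ne p2 (Ne.symm h)) h2
    linarith
  have z3 : t3 = 0 := by
    by_contra h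
    have := mul_pos (lt_of_le_of_ne p3 (Ne.symm h)) h3
    linarith
  apply hc0
  rw [e, z1, z2, z3]
  simp

theorem Om_pos (C : Ctx) : 0 < dot3 C.X C.c := by
  obtain ⟨X1, X2, X3⟩ := C.X_pos
  rcases C.c_mem with h | h
  · apply cone_pos C.X root1 _ _ _ C.c h C.c_ne <;>
    · simp only [dot3, root1, Cn.toR]
      push_cast
      nlinarith
  · apply cone_pos C.X root2 _ _ _ C.c h C.c_ne <;>
    · simp only [dot3, root2, Cn.toR]
      push_cast
      nlinarith

/-- Cramer's rule. -/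
theorem cramer3 (c f g w : E3) :
    det3 c f g • w = det3 c w g • f + det3 c f w • g + det3 w f g • c := by
  obtain ⟨c1, c2, c3⟩ := c
  obtain ⟨f1, f2, f3⟩ := f
  obtain ⟨g1, g2, g3⟩ := g
  obtain ⟨w1, w2, w3⟩ := w
  simp only [det3, Prod.smul_mk, Prod.mk_add_mk, smul_eq_mul, Prod.mk.injEq]
  refine ⟨?_, ?_, ?_⟩ <;> ring

/-- Integer determinant. -/
def detZ (c p q : Z3) : ℤ :=
  c.1 * (p.2.1 * q.2.2 - p.2.2 * q.2.1) + c.2.1 * (p.2.2 * q.1 - p.1 * q.2.2)
    + c.2.2 * (p.1 * q.2.1 - p.2.1 * q.1)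

theorem cramerZ (c f g w : Z3) :
    detZ c f g • w = detZ c w g • f + detZ c f w • g + detZ w f g • c := by
  obtain ⟨c1, c2, c3⟩ := c
  obtain ⟨f1, f2, f3⟩ := f
  obtain ⟨g1, g2, g3⟩ := g
  obtain ⟨w1, w2, w3⟩ := w
  simp only [detZ, Prod.smul_mk, Prod.mk_add_mk, smul_eq_mul, Prod.mk.injEq]
  refine ⟨?_, ?_, ?_⟩ <;> ring

theorem det3_cast (c p q : Z3) : det3 (cast3 c) (cast3 p) (cast3 q) = (detZ c p q : ℝ) := by
  simp only [det3, detZ, cast3]
  push_cast
  ring

theorem uniM_sound (f g h : Vc) (hu : uniM f g h = true) :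
    detZ h.toZ f.toZ g.toZ = 1 ∨ detZ h.toZ f.toZ g.toZ = -1 := by
  unfold uniM at hu
  have key : ∀ x y : ℕ, cond (Nat.beq x (Nat.succ y)) true (Nat.beq y (Nat.succ x)) = true →
      (x : ℤ) - y = 1 ∨ (x : ℤ) - y = -1 := by
    intro x y hxy
    cases h1 : Nat.beq x (Nat.succ y) with
    | true =>
      have := Nat.eq_of_beq_eq_true h1
      left; rw [this]; push_cast; ring
    | false =>
      rw [h1] at hxy
      have := Nat.eq_of_beq_eq_true hxy
      right; rw [this]; push_cast; ring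
  have := key _ _ hu
  have e : ((Nat.add (Nat.add (Nat.mul (crs f g).ap h.ap) (Nat.mul (crs f g).an h.an))
        (Nat.add (Nat.add (Nat.mul (crs f g).bp h.bp) (Nat.mul (crs f g).bn h.bn))
          (Nat.add (Nat.mul (crs f g).up h.up) (Nat.mul (crs f g).un h.un))) : ℕ) : ℤ) -
      ((Nat.add (Nat.add (Nat.mul (crs f g).ap h.an) (Nat.mul (crs f g).an h.ap))
        (Nat.add (Nat.add (Nat.mul (crs f g).bp h.bn) (Nat.mul (crs f g).bn h.bp))
          (Nat.add (Nat.mul (crs f g).up h.un) (Nat.mul (crs f g).un h.up))) : ℕ) : ℤ)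
      = detZ h.toZ f.toZ g.toZ := by
    simp only [crs, m1, m2, m3, detZ, Vc.toZ, Nat.add_eq, Nat.mul_eq]
    push_cast
    ring
  rw [e] at this
  exact this

theorem cmb_val (E : EC) (a b c d : ℕ) :
    (cmb E a b c d).toR = ((a : ℝ) - b) • E.f.toR + ((c : ℝ) - d) • E.g.toR := by
  unfold cmb
  rw [Vc.toR_norm, Vc.toR_add, Vc.toR_zsmul, Vc.toR_zsmul]

theorem plan_of (C : Ctx) (S : St) (hS : Holds C S) (hsm : smallL 1048576 S.zs = true) :
    Plan C S.zs S.ys S.gs (64 - S.k) := by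
  have hk := hS.hk
  have hlen := hS.len
  refine ⟨hsm, by omega, ?_, hS.ys, hS.gs⟩
  intro m hm
  have h1 := hS.zs (64 - S.k + m) ((hasV_iff _ _).2 ⟨by omega, by omega⟩)
  unfold vec at h1
  have e : Nat.sub (Nat.add (64 - S.k + m) S.k) 64 = m := by
    simp only [Nat.sub_eq, Nat.add_eq]; omega
  rw [e] at h1
  exact h1

theorem edge_sound (C : Ctx) (S : St) (hS : Holds C S) (hsm : smallL 1048576 S.zs = true)
    (hlen : lenV S.zs ≤ 23) (past : ℕ) (p1 p2 : Vc) (t s : RT)
    (h : edge (rx S past (packC S.zs) (packY S.ys)) p1 p2 t s S = true)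
    (θ : ℝ) (h0 : 0 ≤ θ) (h1 : θ ≤ 1) :
    ¬ C.ν ((1 - θ) • p1.toR + θ • p2.toR) ≤ 8 * C.r (tgt S past) := by
  intro hν
  have hP := plan_of C S hS hsm
  have hk := hS.hk
  have hl := hS.len
  have hlst := hS.hlst
  unfold edge at h
  rw [forceV_eq, forceV_eq] at h
  obtain ⟨ha, hb⟩ := ccond h
  rcases past with _ | n
  · -- future
    rw [tgt_zero] at hν
    have ht : S.lst + 1 = (64 - S.k) + lenV S.zs := by omega
    rw [ht] at hν
    rcases hS.cells with hc | hc
    · exact regK_sound_fut C S.zs S.ys S.gs (64 - S.k) hP hlen (by omega) t S.t1 root1 p1 p2 8 ha hc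
        θ h0 h1 (by exact_mod_cast hν)
    · exact regK_sound_fut C S.zs S.ys S.gs (64 - S.k) hP hlen (by omega) s S.t2 root2 p1 p2 8 hb hc
        θ h0 h1 (by exact_mod_cast hν)
  · rw [tgt_succ] at hν
    have ht : 64 - S.k = (63 - S.k) + 1 := by omega
    rw [ht] at hP
    rcases hS.cells with hc | hc
    · exact regK_sound_past C S.zs S.ys S.gs (63 - S.k) hP hlen t S.t1 root1 p1 p2 8 ha hc
        θ h0 h1 (by exact_mod_cast hν)
    · exact regK_sound_past C S.zs S.ys S.gs (63 - S.k) hP hlen s S.t2 root2 p1 p2 8 hb hc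
        θ h0 h1 (by exact_mod_cast hν)

theorem gOk_sound (E : EC) (gj Gm : ℕ) (cs : List Cn) : ∀ l : List FL, gOk E gj Gm cs l = true →
    ∀ c ∈ cs, ∃ t, fark E.S.fs (gForm E gj Gm c) false t = true := by
  induction cs with
  | nil => intro l _ c hc; simp at hc
  | cons x r ih =>
    intro l h c hc
    cases l with
    | nil =>
      have : false = true := h
      simp at this
    | cons t l' =>
      have h' : cond (fark E.S.fs (gForm E gj Gm x) false t) (gOk E gj Gm r l') false = true := h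
      obtain ⟨h1, h2⟩ := ccond h'
      rcases List.mem_cons.1 hc with e | e
      · rw [e]; exact ⟨t, h1⟩
      · exact ih l' h2 c e

theorem allCpos_mem (cs : List Cn) (f : Vc) (h : allCpos cs f = true) :
    ∀ c ∈ cs, (dotC f c).n < (dotC f c).p := by
  induction cs with
  | nil => intro c hc; simp at hc
  | cons x r ih =>
    intro c hc
    have h' : cond (Nat.ble (Nat.succ (dotC f x).n) (dotC f x).p) (allCpos r f) false = true := h
    obtain ⟨h1, h2⟩ := ccond h'
    rcases List.mem_cons.1 hc with e | e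
    · rw [e]; exact Nat.le_of_ble_eq_true h1
    · exact ih h2 c e

theorem cn_toR (c : Cn) : Vc.toR ⟨c.a, 0, c.b, 0, c.u, 0⟩ = c.toR := by
  simp [Vc.toR, Cn.toR]

/-- Octagon coordinates of the enumerated vector. -/
theorem oct_coords (C : Ctx) (E : EC) (hd : 0 < dV C E) (w : E3) (r : ℝ) (hw : C.ν w ≤ r) :
    C.ν ((aV C E w / dV C E) • E.f.toR + (bV C E w / dV C E) • E.g.toR) ≤ r := by
  have h1 := cramer3 C.c E.f.toR E.g.toR w
  have h2 : dV C E • w = aV C E w • E.f.toR + bV C E w • E.g.toR +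
      (osg E.ori * det3 w E.f.toR E.g.toR) • C.c := by
    have : osg E.ori • (det3 C.c E.f.toR E.g.toR • w) = osg E.ori • (det3 C.c w E.g.toR • E.f.toR +
      det3 C.c E.f.toR w • E.g.toR + det3 w E.f.toR E.g.toR • C.c) := by rw [h1]
    unfold dV aV bV
    rw [mul_smul, this]
    module
  have h3 : (aV C E w / dV C E) • E.f.toR + (bV C E w / dV C E) • E.g.toR =
      w - ((osg E.ori * det3 w E.f.toR E.g.toR) / dV C E) • C.c := by
    have h4 : w = (1 / dV C E) • (dV C E • w) := by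
      rw [smul_smul, one_div, inv_mul_cancel₀ hd.ne', one_smul]
    have h5 : (1 / dV C E) • (dV C E • w) = (1 / dV C E) • (aV C E w • E.f.toR + bV C E w • E.g.toR +
      (osg E.ori * det3 w E.f.toR E.g.toR) • C.c) := by rw [h2]
    rw [h5] at h4
    nth_rewrite 3 [h4]
    module
  rw [h3]
  calc C.ν (w - ((osg E.ori * det3 w E.f.toR E.g.toR) / dV C E) • C.c)
      ≤ C.ν w + C.ν (((osg E.ori * det3 w E.f.toR E.g.toR) / dV C E) • C.c) := map_sub_le_add _ _ _
    _ = C.ν w := by rw [map_smul_eq_mul, C.ν_c, mul_zero, add_zero]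
    _ ≤ r := hw


/-- The heights in terms of the octagon coordinates. -/
theorem height_coords (C : Ctx) (E : EC) (w : E3) :
    dV C E * dot3 C.X w = aV C E w * dot3 C.X E.f.toR + bV C E w * dot3 C.X E.g.toR +
      osg E.ori * det3 w E.f.toR E.g.toR * dot3 C.X C.c := by
  have h1 := congrArg (dot3 C.X) (cramer3 C.c E.f.toR E.g.toR w)
  rw [dot3_add_right, dot3_add_right, dot3_smul_right, dot3_smul_right, dot3_smul_right,
    dot3_smul_right] at h1
  unfold dV aV bV
  linear_combination osg E.ori * h1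

/-- The third coordinate is bounded as soon as the bound for the height is. -/
theorem third_bound (C : Ctx) (E : EC) (hd : 0 < dV C E) (w : E3) (hx : 0 < dot3 C.X w)
    (xf : 0 ≤ dot3 C.X E.f.toR) (xg : 0 ≤ dot3 C.X E.g.toR)
    (octL : 8 * |aV C E w| < E.L * dV C E) (octM : 8 * |bV C E w| < E.M * dV C E) :
    8 * |det3 w E.f.toR E.g.toR| * dot3 C.X C.c ≤
      dV C E * (8 * dot3 C.X w + E.L * dot3 C.X E.f.toR + E.M * dot3 C.X E.g.toR) := by
  have hO := Om_pos C
  have h1 := height_coords C E w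
  have ho : |osg E.ori| = 1 := by
    unfold osg
    split_ifs <;> simp
  have h2 : |det3 w E.f.toR E.g.toR| * dot3 C.X C.c =
      |dV C E * dot3 C.X w - aV C E w * dot3 C.X E.f.toR - bV C E w * dot3 C.X E.g.toR| := by
    have e : dV C E * dot3 C.X w - aV C E w * dot3 C.X E.f.toR - bV C E w * dot3 C.X E.g.toR =
      osg E.ori * det3 w E.f.toR E.g.toR * dot3 C.X C.c := by linarith
    rw [e, abs_mul, abs_mul, ho, one_mul, abs_of_pos hO]
  have h3 : |dV C E * dot3 C.X w - aV C E w * dot3 C.X E.f.toR - bV C E w * dot3 C.X E.g.toR| ≤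
      dV C E * dot3 C.X w + |aV C E w| * dot3 C.X E.f.toR + |bV C E w| * dot3 C.X E.g.toR := by
    have q1 : |dV C E * dot3 C.X w - aV C E w * dot3 C.X E.f.toR - bV C E w * dot3 C.X E.g.toR| ≤
        |dV C E * dot3 C.X w| + |aV C E w * dot3 C.X E.f.toR| + |bV C E w * dot3 C.X E.g.toR| := by
      refine (abs_sub _ _).trans ?_
      have := abs_sub (dV C E * dot3 C.X w) (aV C E w * dot3 C.X E.f.toR)
      linarith
    rw [abs_mul (dV C E), abs_mul (aV C E w), abs_mul (bV C E w), abs_of_pos hd, abs_of_pos hx,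
      abs_of_nonneg xf, abs_of_nonneg xg] at q1
    exact q1
  have h4 := mul_le_mul_of_nonneg_right octL.le xf
  have h5 := mul_le_mul_of_nonneg_right octM.le xg
  nlinarith

theorem int_le_of_lt (G : ℤ) (Gm : ℕ) (O : ℝ) (hO : 0 < O) (h : 8 * |(G : ℝ)| * O < 8 * (Gm + 1) * O) :
    |G| ≤ (Gm : ℤ) := by
  have h1 : |(G : ℝ)| < (Gm : ℝ) + 1 := by
    by_contra hn
    push Not at hn
    have := mul_le_mul_of_nonneg_right hn hO.le
    nlinarith
  have h2 : |G| < (Gm : ℤ) + 1 := by exact_mod_cast h1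
  omega

/-- Value of the bound form. -/
theorem gForm_past (C : Ctx) (E : EC) (gj Gm n : ℕ) (hp : E.past = n + 1) (c : Cn)
    (hc : (dotC E.dd c).n < (dotC E.dd c).p) :
    dot3 C.X (gForm E gj Gm c).toR = 8 * (Gm + 1) * dot3 C.X c.toR -
      dot3 E.dd.toR c.toR * (8 * dot3 C.X (vec E.S (fstI E.S)).toR + E.L * dot3 C.X E.f.toR +
        E.M * dot3 C.X E.g.toR) := by
  unfold gForm
  rw [hp]
  show dot3 C.X (Vc.sub (Vc.smul (Nat.mul 8 (Nat.succ Gm)) ⟨c.a, 0, c.b, 0, c.u, 0⟩)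
    (Vc.smul (Nat.sub (dotC E.dd c).p (dotC E.dd c).n) (Vc.add (Vc.smul 8 (vec E.S (fstI E.S)))
        (Vc.add (Vc.smul E.L E.f) (Vc.smul E.M E.g))))).toR = _
  rw [Vc.toR_sub, Vc.toR_smul, Vc.toR_smul, Vc.toR_add, Vc.toR_add, Vc.toR_smul, Vc.toR_smul,
    Vc.toR_smul, cn_toR, dot3_sub_right, dot3_smul_right, dot3_smul_right, dot3_add_right,
    dot3_add_right, dot3_smul_right, dot3_smul_right, dot3_smul_right, ← dotC_val]
  simp only [Nat.sub_eq, Nat.mul_eq, Nat.succ_eq_add_one]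
  rw [Nat.cast_sub hc.le]
  push_cast
  ring

theorem gForm_fut (C : Ctx) (E : EC) (gj Gm : ℕ) (hp : E.past = 0) (c : Cn)
    (hc : (dotC E.dd c).n < (dotC E.dd c).p) :
    dot3 C.X (gForm E gj Gm c).toR = kapT gj (E.S.lst - 1) * (8 * (Gm + 1) * dot3 C.X c.toR -
      dot3 E.dd.toR c.toR * (E.L * dot3 C.X E.f.toR + E.M * dot3 C.X E.g.toR)) -
      8 * dot3 E.dd.toR c.toR * dot3 C.X (formG E.S gj).toR := by
  unfold gForm
  rw [hp]
  show dot3 C.X (Vc.sub (Vc.smul (kapT gj (Nat.sub E.S.lst 1))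
          (Vc.sub (Vc.smul (Nat.mul 8 (Nat.succ Gm)) ⟨c.a, 0, c.b, 0, c.u, 0⟩)
            (Vc.smul (Nat.sub (dotC E.dd c).p (dotC E.dd c).n)
              (Vc.add (Vc.smul E.L E.f) (Vc.smul E.M E.g)))))
        (Vc.smul (Nat.mul 8 (Nat.sub (dotC E.dd c).p (dotC E.dd c).n)) (formG E.S gj))).toR = _
  rw [Vc.toR_sub, Vc.toR_smul, Vc.toR_smul, Vc.toR_sub, Vc.toR_smul, Vc.toR_smul, Vc.toR_add,
    Vc.toR_smul, Vc.toR_smul, cn_toR, dot3_sub_right, dot3_smul_right, dot3_smul_right,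
    dot3_sub_right, dot3_smul_right, dot3_smul_right, dot3_add_right, dot3_smul_right,
    dot3_smul_right, ← dotC_val]
  simp only [Nat.sub_eq, Nat.mul_eq, Nat.succ_eq_add_one]
  have hsub : (((dotC E.dd c).p - (dotC E.dd c).n : ℕ) : ℝ) =
    ((dotC E.dd c).p : ℝ) - (dotC E.dd c).n := Nat.cast_sub hc.le
  rw [Nat.cast_mul 8 ((dotC E.dd c).p - (dotC E.dd c).n), hsub]
  push_cast
  ring

theorem ble_add {a b c : ℕ} (h : Nat.ble (Nat.add a b) c = true) : a + b ≤ c :=
  Nat.le_of_ble_eq_true h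

theorem fut_arith (K A d LF MG xW FG : ℝ) (hK : 0 ≤ K) (hd : 0 < d)
    (h1 : 0 ≤ K * (A - d * (LF + MG)) - 8 * d * FG) (h2 : K * xW < FG) :
    d * (8 * xW + LF + MG) < A := by
  have h3 := mul_lt_mul_of_pos_left h2 hd
  have h4 : 0 < K * (A - d * (8 * xW + LF + MG)) := by
    have e : K * (A - d * (8 * xW + LF + MG)) =
      (K * (A - d * (LF + MG)) - 8 * d * FG) + 8 * (d * FG - d * (K * xW)) := by ring
    rw [e]; linarith
  have h5 : 0 < A - d * (8 * xW + LF + MG) := by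
    by_contra hn
    push Not at hn
    have := mul_nonpos_of_nonneg_of_nonpos hK hn
    linarith
  linarith

/-- Linear inequality on the cone. -/
theorem cone_lin (cs : List Cn) (c : E3) (hc : InCone cs c) (F : E3 → ℝ)
    (hF : ∀ (t1 t2 t3 : ℝ) (x y z : E3), F (t1 • x + t2 • y + t3 • z) = t1 * F x + t2 * F y + t3 * F z)
    (h : ∀ x ∈ cs, 0 ≤ F x.toR) : 0 ≤ F c := by
  obtain ⟨x, hx, y, hy, z, hz, t1, t2, t3, p1, p2, p3, e⟩ := hc
  rw [e, hF]
  have := mul_nonneg p1 (h x hx)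
  have := mul_nonneg p2 (h y hy)
  have := mul_nonneg p3 (h z hz)
  linarith

theorem enumH_sound' (C : Ctx) (S : St) (hS : Holds C S) (H : EH) (k : EC → Bool)
    (h : enumH S H k = true) : ∃ E : EC, k E = true ∧ EGood C S H.Gm E ∧ E.past = H.past := by
  unfold enumH at h
  rw [forceV_eq, forceV_eq, forceV_eq] at h
  obtain ⟨cs1, h, _, hc1⟩ := cornK_sound _ _ _ _ _ h
  obtain ⟨cs, h, hsub, hc2⟩ := cornK_sound _ _ _ _ _ h
  rw [forceV_eq] at h
  have hcov : InCone cs C.c := by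
    rcases hS.cells with hc | hc
    · exact inCone_mono hsub (hc1 C.c hc)
    · exact hc2 C.c hc
  set E : EC := ⟨S, H.past, pVc H.f, pVc H.g, pVc H.h, H.L, H.M, H.P, H.Q, H.ori, cs,
    Vc.norm (crsO H.ori (pVc H.f) (pVc H.g))⟩ with hE
  have h' : cond (enumOk E H) (k E) false = true := h
  obtain ⟨hok, hk⟩ := ccond h'
  unfold enumOk at hok
  obtain ⟨hA, hok⟩ := ccond hok
  obtain ⟨hB, hok⟩ := ccond hok
  obtain ⟨hCc, hok⟩ := ccond hok
  obtain ⟨hD, hok⟩ := ccond hok
  obtain ⟨hA1, hA⟩ := ccond hA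
  obtain ⟨hA2, hA3⟩ := ccond hA
  have hA2' : lenV S.zs ≤ 23 := Nat.le_of_ble_eq_true hA2
  have hA3' : S.k ≤ 50 := Nat.le_of_ble_eq_true hA3
  obtain ⟨hB1, hB2⟩ := ccond hB
  obtain ⟨hC1, hC2⟩ := ccond hCc
  obtain ⟨hD1, hD2⟩ := ccond hD
  rw [force_eq, force_eq] at hok
  have hdd : dot3 E.dd.toR C.c = dV C E := by
    show dot3 (Vc.norm (crsO H.ori (pVc H.f) (pVc H.g))).toR C.c = _
    rw [Vc.toR_norm, osg_crs]
    rfl
  have hd : 0 < dV C E := by
    rw [← hdd]
    exact allCpos_sound cs E.dd hB1 C.c hcov C.c_ne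
  have hxf : 0 ≤ dot3 C.X E.f.toR := (fark_sound C S.fs hS.fs _ _ _ hC1).1
  have hxg : 0 ≤ dot3 C.X E.g.toR := (fark_sound C S.fs hS.fs _ _ _ hC2).1
  -- octagon
  set W : E3 := cast3 (C.z (tgt S E.past)) with hW
  have hoct := octagon' C.ν E.f.toR E.g.toR (C.r (tgt S E.past)) E.L E.M E.P E.Q
    (by
      intro θ h0 h1
      unfold edges at hok
      obtain ⟨g1, _⟩ := ccond hok
      have := edge_sound C S hS hA1 hA2' E.past _ _ _ _ g1 θ h0 h1
      rw [cmb_val, cmb_val] at this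
      simpa using this)
    (by
      unfold edges at hok
      obtain ⟨_, g2⟩ := ccond hok
      obtain ⟨g3, _⟩ := ccond g2
      cases hb : Nat.ble (Nat.add E.L E.M) E.P with
      | true => left; exact ble_add hb
      | false =>
        right
        rw [hb, Bool.cond_false] at g3
        intro θ h0 h1
        have := edge_sound C S hS hA1 hA2' E.past _ _ _ _ g3 θ h0 h1
        rw [cmb_val, cmb_val] at this
        simpa using this)
    (by
      intro θ h0 h1
      unfold edges at hok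
      obtain ⟨_, g2⟩ := ccond hok
      obtain ⟨_, g3⟩ := ccond g2
      obtain ⟨g4, _⟩ := ccond g3
      have := edge_sound C S hS hA1 hA2' E.past _ _ _ _ g4 θ h0 h1
      rw [cmb_val, cmb_val] at this
      simpa using this)
    (by
      unfold edges at hok
      obtain ⟨_, g2⟩ := ccond hok
      obtain ⟨_, g3⟩ := ccond g2
      obtain ⟨_, g4⟩ := ccond g3
      cases hb : Nat.ble (Nat.add E.L E.M) E.Q with
      | true => left; exact ble_add hb
      | false =>
        right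
        rw [hb, Bool.cond_false] at g4
        intro θ h0 h1
        have := edge_sound C S hS hA1 hA2' E.past _ _ _ _ g4 θ h0 h1
        rw [cmb_val, cmb_val] at this
        simpa using this)
    (aV C E W / dV C E) (bV C E W / dV C E) (oct_coords C E hd W _ (le_refl _)) (C.r_pos _).le
  obtain ⟨o1, o2, o3, o4⟩ := hoct
  have octL : 8 * |aV C E W| < E.L * dV C E := by
    rw [abs_div, abs_of_pos hd, mul_div_assoc', div_lt_iff₀ hd] at o1
    exact o1
  have octM : 8 * |bV C E W| < E.M * dV C E := by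
    rw [abs_div, abs_of_pos hd, mul_div_assoc', div_lt_iff₀ hd] at o2
    exact o2
  have octP : 8 * |aV C E W + bV C E W| < E.P * dV C E := by
    rw [← add_div, abs_div, abs_of_pos hd, mul_div_assoc', div_lt_iff₀ hd] at o3
    exact o3
  have octQ : 8 * |aV C E W - bV C E W| < E.Q * dV C E := by
    rw [← sub_div, abs_div, abs_of_pos hd, mul_div_assoc', div_lt_iff₀ hd] at o4
    exact o4
  refine ⟨E, hk, ⟨rfl, hS, hA3', hA2', hcov, hdd, hd, hxf, hxg, octL, octM, octP, octQ, ?_⟩, rfl⟩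
  -- integer coordinates
  have hx : 0 < dot3 C.X W := ctx_x_pos C _
  have htb := third_bound C E hd W hx hxf hxg octL octM
  have hO := Om_pos C
  have hlst := hS.hlst
  -- the bound for the height
  have hmain : dV C E * (8 * dot3 C.X W + E.L * dot3 C.X E.f.toR + E.M * dot3 C.X E.g.toR) <
      8 * (H.Gm + 1) * dot3 C.X C.c := by
    have hcc := gOk_sound E H.gj H.Gm cs H.gc hD2
    have hcn := allCpos_mem cs E.dd hB1
    rcases hp : E.past with _ | n
    · have hg : ∀ x ∈ cs, 0 ≤ kapT H.gj (E.S.lst - 1) * (8 * (H.Gm + 1) * dot3 C.X x.toR -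
          dot3 E.dd.toR x.toR * (E.L * dot3 C.X E.f.toR + E.M * dot3 C.X E.g.toR)) -
          8 * dot3 E.dd.toR x.toR * dot3 C.X (formG E.S H.gj).toR := by
        intro x hx
        obtain ⟨t, ht⟩ := hcc x hx
        have := (fark_sound C S.fs hS.fs _ _ _ ht).1
        rwa [gForm_fut C E H.gj H.Gm hp x (hcn x hx)] at this
      have h1 := cone_lin cs C.c hcov (fun v => kapT H.gj (E.S.lst - 1) *
          (8 * (H.Gm + 1) * dot3 C.X v -
          dot3 E.dd.toR v * (E.L * dot3 C.X E.f.toR + E.M * dot3 C.X E.g.toR)) -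
          8 * dot3 E.dd.toR v * dot3 C.X (formG E.S H.gj).toR) (by
            intro t1 t2 t3 x y z
            simp only [dot3_add_right, dot3_smul_right]
            ring) hg
      simp only [hdd] at h1
      have hj : jOk S H.gj = true := by
        have := hD1
        rw [hp] at this
        exact this
      have h2 := formG_lt C S hS H.gj hj
      have hWx : C.x (S.lst + 1) = dot3 C.X W := by
        rw [hW, hp, tgt_zero]; rfl
      rw [hWx] at h2
      have hES : E.S = S := rfl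
      rw [hES] at h1
      exact fut_arith _ _ _ _ _ _ _ (Nat.cast_nonneg _) hd h1 h2
    · have hg : ∀ x ∈ cs, 0 ≤ 8 * (H.Gm + 1) * dot3 C.X x.toR -
          dot3 E.dd.toR x.toR * (8 * dot3 C.X (vec E.S (fstI E.S)).toR + E.L * dot3 C.X E.f.toR +
          E.M * dot3 C.X E.g.toR) := by
        intro x hx
        obtain ⟨t, ht⟩ := hcc x hx
        have := (fark_sound C S.fs hS.fs _ _ _ ht).1
        rwa [gForm_past C E H.gj H.Gm n hp x (hcn x hx)] at this
      have h1 := cone_lin cs C.c hcov (fun v => 8 * (H.Gm + 1) * dot3 C.X v -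
          dot3 E.dd.toR v * (8 * dot3 C.X (vec E.S (fstI E.S)).toR + E.L * dot3 C.X E.f.toR +
          E.M * dot3 C.X E.g.toR)) (by
            intro t1 t2 t3 x y z
            simp only [dot3_add_right, dot3_smul_right]
            ring) hg
      simp only [hdd] at h1
      have hES : E.S = S := rfl
      rw [hES] at h1
      have f1 : hasV S (fstI S) = true := by
        rw [hasV_iff]; unfold fstI; simp only [Nat.sub_eq]; omega
      rw [vec_x C S hS _ f1] at h1
      have e1 : fstI S = 63 - S.k + 1 := by unfold fstI; simp only [Nat.sub_eq]; omega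
      rw [e1] at h1
      have h2 : C.x (63 - S.k) < C.x (63 - S.k + 1) := C.x_lt _
      have hWx : C.x (63 - S.k) = dot3 C.X W := by
        rw [hW, hp, tgt_succ]; rfl
      rw [hWx] at h2
      have h3 := mul_lt_mul_of_pos_left h2 hd
      linarith
  -- Cramer over the integers
  have hu := uniM_sound E.f E.g E.h hB2
  have hcr := cramerZ E.h.toZ E.f.toZ E.g.toZ (C.z (tgt S E.past))
  have hdW : det3 W E.f.toR E.g.toR = (detZ (C.z (tgt S E.past)) E.f.toZ E.g.toZ : ℝ) := by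
    rw [← det3_cast, Vc.cast3_toZ, Vc.cast3_toZ]
  have hGb : |detZ (C.z (tgt S E.past)) E.f.toZ E.g.toZ| ≤ (H.Gm : ℤ) := by
    apply int_le_of_lt _ _ _ hO
    rw [← hdW]
    linarith
  rcases hu with hu | hu
  · refine ⟨detZ (C.z (tgt S E.past)) E.f.toZ E.g.toZ, detZ E.h.toZ E.f.toZ (C.z (tgt S E.past)),
      detZ E.h.toZ (C.z (tgt S E.past)) E.g.toZ, hGb, ?_⟩
    rw [hu, one_smul] at hcr
    exact hcr.trans (by abel)
  · refine ⟨-detZ (C.z (tgt S E.past)) E.f.toZ E.g.toZ,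
      -detZ E.h.toZ E.f.toZ (C.z (tgt S E.past)),
      -detZ E.h.toZ (C.z (tgt S E.past)) E.g.toZ, by rw [abs_neg]; exact hGb, ?_⟩
    rw [hu, neg_smul, one_smul] at hcr
    have h9 := congrArg Neg.neg hcr
    rw [neg_neg] at h9
    exact h9.trans (by simp only [neg_smul]; abel)


end EnumP

/-! ### The octagon -/

/-- The gauge argument: if the planar seminorm `N` of a point `x f + y g` is at most `r` and all boundary
points of the octagon have `N > r`, then the point is in the interior. Here the boundary condition is given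
for the four edges (up to sign) with the scale factor 8. -/
theorem octagon (N : Seminorm ℝ E3) (f g : E3) (r : ℝ) (L M P Q : ℕ)
    (e1 : ∀ θ : ℝ, 0 ≤ θ → θ ≤ 1 → ¬ N ((1 - θ) • ((L : ℝ) • f + ((L : ℝ) - Q) • g) +
      θ • ((L : ℝ) • f + ((P : ℝ) - L) • g)) ≤ 8 * r)
    (e2 : L + M ≤ P ∨ ∀ θ : ℝ, 0 ≤ θ → θ ≤ 1 → ¬ N ((1 - θ) • ((L : ℝ) • f + ((P : ℝ) - L) • g) +
      θ • (((P : ℝ) - M) • f + (M : ℝ) • g)) ≤ 8 * r)
    (e3 : ∀ θ : ℝ, 0 ≤ θ → θ ≤ 1 → ¬ N ((1 - θ) • (((P : ℝ) - M) • f + (M : ℝ) • g) +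
      θ • (((M : ℝ) - Q) • f + (M : ℝ) • g)) ≤ 8 * r)
    (e4 : L + M ≤ Q ∨ ∀ θ : ℝ, 0 ≤ θ → θ ≤ 1 → ¬ N ((1 - θ) • (((M : ℝ) - Q) • f + (M : ℝ) • g) +
      θ • ((-(L : ℝ)) • f + ((Q : ℝ) - L) • g)) ≤ 8 * r)
    (x y : ℝ) (hN : N (x • f + y • g) ≤ r) (hr : 0 ≤ r) :
    8 * |x| < L ∧ 8 * |y| < M ∧ 8 * |x + y| < P ∧ 8 * |x - y| < Q :=
  EnumP.octagon' N f g r L M P Q e1 e2 e3 e4 x y hN hr

/-! ### The header -/

theorem enumH_sound (C : Ctx) (S : St) (hS : Holds C S) (H : EH) (k : EC → Bool)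
    (h : enumH S H k = true) : ∃ E : EC, k E = true ∧ EGood C S H.Gm E ∧ E.past = H.past :=
  EnumP.enumH_sound' C S hS H k h

/-! ### Cuts -/

theorem octT_sound (C : Ctx) (E : EC) (hc : InCone E.cs C.c) (hd : dot3 E.dd.toR C.c = dV C E)
    (x : Vc) (b : ℕ) (h : octT E x b = true) : (b : ℝ) * dV C E ≤ 8 * dot3 x.toR C.c :=
  EnumP.octT_sound' C E hc hd x b h

theorem fA_val (C : Ctx) (E : EC) (w : Vc) : dot3 (fA E w).toR C.c = aV C E w.toR :=
  EnumP.fA_val' C E w
theorem fB_val (C : Ctx) (E : EC) (w : Vc) : dot3 (fB E w).toR C.c = bV C E w.toR :=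
  EnumP.fB_val' C E w

theorem lowCut_sound (C : Ctx) (S : St) (Gm : ℕ) (E : EC) (hE : EGood C S Gm E) (t i : ℕ) (c : FL)
    (w : Vc) (h : lowCut E t i c w = true) (j : ℕ) :
    C.z (tgt S E.past) ≠ w.toZ - (j : ℤ) • E.f.toZ :=
  EnumP.lowCut_sound' C S Gm E hE t i c w h j

theorem highCut_sound (C : Ctx) (S : St) (Gm : ℕ) (E : EC) (hE : EGood C S Gm E) (t i : ℕ) (c : FL)
    (w : Vc) (h : highCut E t i c w = true) (j : ℕ) :
    C.z (tgt S E.past) ≠ w.toZ + (j : ℤ) • E.f.toZ :=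
  EnumP.highCut_sound' C S Gm E hE t i c w h j

theorem bLow_sound (C : Ctx) (S : St) (Gm : ℕ) (E : EC) (hE : EGood C S Gm E) (w : Vc)
    (h : octT E (Vc.neg (fB E w)) E.M = true) (j : ℕ) (a : ℤ) :
    C.z (tgt S E.past) ≠ w.toZ - (j : ℤ) • E.g.toZ + a • E.f.toZ :=
  EnumP.bLow_sound' C S Gm E hE w h j a

theorem bHigh_sound (C : Ctx) (S : St) (Gm : ℕ) (E : EC) (hE : EGood C S Gm E) (w : Vc)
    (h : octT E (fB E w) E.M = true) (j : ℕ) (a : ℤ) :
    C.z (tgt S E.past) ≠ w.toZ + (j : ℤ) • E.g.toZ + a • E.f.toZ :=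
  EnumP.bHigh_sound' C S Gm E hE w h j a

/-! ### The child state -/

theorem pushE_holds (C : Ctx) (S : St) (Gm : ℕ) (E : EC) (hE : EGood C S Gm E) (w : Vc)
    (hw : C.z (tgt S E.past) = w.toZ) : Holds C (pushE E w) :=
  EnumP.pushE_holds' C S Gm E hE w hw

end Pool.Agent.Helper54.Cert
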