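import Pool.Agent.Lib.Helper54.S18919.Ctx

/-!
# Soundness of height facts, Farkas certificates, planar lower bounds and gaps (chunk F)
-/

set_option autoImplicit false

namespace Pool.Agent.Helper54.Cert

/-! ### Auxiliary lemmas on booleans -/

theorem cond_f {a b : Bool} (h : cond a b false = true) : a = true ∧ b = true := by
  cases a
  · exact absurd h (by simp)
  · exact ⟨rfl, h⟩

theorem ble_t {m n : ℕ} (h : Nat.ble m n = true) : m ≤ n := Nat.le_of_ble_eq_true h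

theorem beq_t {m n : ℕ} (h : Nat.beq m n = true) : m = n := Nat.eq_of_beq_eq_true h

theorem t_beq {m n : ℕ} (h : m = n) : Nat.beq m n = true := by subst h; exact Nat.beq_refl m

theorem t_ble {m n : ℕ} (h : m ≤ n) : Nat.ble m n = true := Nat.ble_eq_true_of_le h

/-! ### Elementary facts about `Vc` -/

theorem Vc.cast3_toZ (v : Vc) : cast3 v.toZ = v.toR := by
  simp only [cast3, Vc.toZ, Vc.toR]
  push_cast
  rfl

theorem cast3_add (v w : Z3) : cast3 (v + w) = cast3 v + cast3 w := by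
  obtain ⟨v1, v2, v3⟩ := v
  obtain ⟨w1, w2, w3⟩ := w
  simp only [cast3, Prod.mk_add_mk]
  push_cast
  rfl

theorem cast3_sub (v w : Z3) : cast3 (v - w) = cast3 v - cast3 w := by
  obtain ⟨v1, v2, v3⟩ := v
  obtain ⟨w1, w2, w3⟩ := w
  simp only [cast3, Prod.mk_sub_mk]
  push_cast
  rfl

theorem cast3_neg (v : Z3) : cast3 (-v) = -cast3 v := by
  obtain ⟨v1, v2, v3⟩ := v
  simp only [cast3, Prod.neg_mk]
  push_cast
  rfl

theorem cast3_smul (k : ℤ) (v : Z3) : cast3 (k • v) = (k : ℝ) • cast3 v := by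
  obtain ⟨v1, v2, v3⟩ := v
  simp only [cast3, Prod.smul_mk, smul_eq_mul]
  push_cast
  rfl

theorem Vc.toZ_add (v w : Vc) : (v.add w).toZ = v.toZ + w.toZ := by
  simp only [Vc.toZ, Vc.add, Nat.add_eq, Prod.mk_add_mk]
  refine Prod.ext ?_ (Prod.ext ?_ ?_) <;> simp only <;> push_cast <;> ring

theorem Vc.toZ_sub (v w : Vc) : (v.sub w).toZ = v.toZ - w.toZ := by
  simp only [Vc.toZ, Vc.sub, Nat.add_eq, Prod.mk_sub_mk]
  refine Prod.ext ?_ (Prod.ext ?_ ?_) <;> simp only <;> push_cast <;> ring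

theorem Vc.toZ_neg (v : Vc) : v.neg.toZ = -v.toZ := by
  simp only [Vc.toZ, Vc.neg, Prod.neg_mk]
  refine Prod.ext ?_ (Prod.ext ?_ ?_) <;> simp only <;> ring

theorem Vc.toZ_norm (v : Vc) : v.norm.toZ = v.toZ := by
  simp only [Vc.toZ, Vc.norm, Nat.sub_eq]
  refine Prod.ext ?_ (Prod.ext ?_ ?_) <;> simp only <;> omega

theorem Vc.toZ_smul (k : ℕ) (v : Vc) : (v.smul k).toZ = (k : ℤ) • v.toZ := by
  simp only [Vc.toZ, Vc.smul, Nat.mul_eq, Prod.smul_mk, smul_eq_mul]
  refine Prod.ext ?_ (Prod.ext ?_ ?_) <;> simp only <;> push_cast <;> ring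

theorem Vc.toZ_zsmul (k : Z2) (v : Vc) : (Vc.zsmul k v).toZ = ((k.p : ℤ) - k.n) • v.toZ := by
  rw [Vc.zsmul, Vc.toZ_sub, Vc.toZ_smul, Vc.toZ_smul, sub_smul]

theorem Vc.toZ_eq_iff (v w : Vc) : v.toZ = w.toZ ↔
    (v.ap + w.an = v.an + w.ap ∧ v.bp + w.bn = v.bn + w.bp ∧ v.up + w.un = v.un + w.up) := by
  simp only [Vc.toZ, Prod.mk.injEq]
  constructor
  · rintro ⟨h1, h2, h3⟩
    refine ⟨?_, ?_, ?_⟩ <;> omega
  · rintro ⟨h1, h2, h3⟩
    refine ⟨?_, ?_, ?_⟩ <;> omega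

theorem Vc.eqv_iff (v w : Vc) : v.eqv w = true ↔ v.toZ = w.toZ := by
  rw [Vc.toZ_eq_iff]
  constructor
  · intro h
    obtain ⟨h1, h2⟩ := cond_f h
    obtain ⟨h2, h3⟩ := cond_f h2
    exact ⟨beq_t h1, beq_t h2, beq_t h3⟩
  · rintro ⟨h1, h2, h3⟩
    show cond _ (cond _ _ _) _ = true
    rw [t_beq (m := Nat.add v.ap w.an) (n := Nat.add v.an w.ap) h1,
      t_beq (m := Nat.add v.bp w.bn) (n := Nat.add v.bn w.bp) h2,
      t_beq (m := Nat.add v.up w.un) (n := Nat.add v.un w.up) h3]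
    rfl

theorem Vc.isZero_iff (v : Vc) : v.isZero = true ↔ v.toZ = 0 := by
  have hz : v.toZ = 0 ↔ (v.ap = v.an ∧ v.bp = v.bn ∧ v.up = v.un) := by
    rw [Prod.ext_iff, Prod.ext_iff]
    simp only [Vc.toZ, Prod.fst_zero, Prod.snd_zero]
    constructor
    · rintro ⟨h1, h2, h3⟩
      refine ⟨?_, ?_, ?_⟩ <;> omega
    · rintro ⟨h1, h2, h3⟩
      refine ⟨?_, ?_, ?_⟩ <;> omega
  rw [hz]
  constructor
  · intro h
    obtain ⟨h1, h2⟩ := cond_f h
    obtain ⟨h2, h3⟩ := cond_f h2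
    exact ⟨beq_t h1, beq_t h2, beq_t h3⟩
  · rintro ⟨h1, h2, h3⟩
    show cond _ (cond _ _ _) _ = true
    rw [t_beq h1, t_beq h2, t_beq h3]
    rfl

theorem Vc.toR_add (v w : Vc) : (v.add w).toR = v.toR + w.toR := by
  rw [← Vc.cast3_toZ, ← Vc.cast3_toZ, ← Vc.cast3_toZ, Vc.toZ_add, cast3_add]

theorem Vc.toR_sub (v w : Vc) : (v.sub w).toR = v.toR - w.toR := by
  rw [← Vc.cast3_toZ, ← Vc.cast3_toZ, ← Vc.cast3_toZ, Vc.toZ_sub, cast3_sub]

theorem Vc.toR_neg (v : Vc) : v.neg.toR = -v.toR := by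
  rw [← Vc.cast3_toZ, ← Vc.cast3_toZ, Vc.toZ_neg, cast3_neg]

theorem Vc.toR_norm (v : Vc) : v.norm.toR = v.toR := by
  rw [← Vc.cast3_toZ, ← Vc.cast3_toZ, Vc.toZ_norm]

theorem Vc.toR_smul (k : ℕ) (v : Vc) : (v.smul k).toR = (k : ℝ) • v.toR := by
  rw [← Vc.cast3_toZ, ← Vc.cast3_toZ, Vc.toZ_smul, cast3_smul, Int.cast_natCast]

theorem Vc.toR_zsmul (k : Z2) (v : Vc) : (Vc.zsmul k v).toR = ((k.p : ℝ) - k.n) • v.toR := by
  rw [← Vc.cast3_toZ, ← Vc.cast3_toZ, Vc.toZ_zsmul, cast3_smul]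
  push_cast
  rfl

theorem Vc.toR_zero : Vc.zero.toR = 0 := by
  simp only [Vc.toR, Vc.zero]
  simp

/-! ### The scalar product -/

theorem dot3_add (X v w : E3) : dot3 X (v + w) = dot3 X v + dot3 X w := by
  simp only [dot3, Prod.fst_add, Prod.snd_add]
  ring

theorem dot3_sub (X v w : E3) : dot3 X (v - w) = dot3 X v - dot3 X w := by
  simp only [dot3, Prod.fst_sub, Prod.snd_sub]
  ring

theorem dot3_neg (X v : E3) : dot3 X (-v) = -dot3 X v := by
  simp only [dot3, Prod.fst_neg, Prod.snd_neg]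
  ring

theorem dot3_smul (X : E3) (k : ℝ) (v : E3) : dot3 X (k • v) = k * dot3 X v := by
  simp only [dot3, Prod.smul_fst, Prod.smul_snd, smul_eq_mul]
  ring

theorem dot3_zero (X : E3) : dot3 X 0 = 0 := by
  simp [dot3]

/-- value of a form at a corner -/
theorem dotC_val (f : Vc) (c : Cn) :
    (((dotC f c).p : ℝ) - (dotC f c).n) = dot3 f.toR c.toR := by
  simp only [dotC, dot3, Vc.toR, Cn.toR, Nat.add_eq, Nat.mul_eq]
  push_cast
  ring

/-- The cross product and the determinant. -/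
theorem crs_det (c : E3) (p q : Vc) : dot3 (crs p q).toR c = det3 c p.toR q.toR := by
  simp only [crs, m1, m2, m3, dot3, det3, Vc.toR, Nat.add_eq, Nat.mul_eq]
  push_cast
  ring

/-! ### Forcing -/

theorem force_eq (n : ℕ) (k : ℕ → Bool) : force n k = k n := by
  cases n <;> rfl

theorem forceV_eq (v : Vc) (k : Vc → Bool) : forceV v k = k v := by
  simp only [forceV, force_eq]

theorem forceC_eq (v : Cn) (k : Cn → Bool) : forceC v k = k v := by
  simp only [forceC, force_eq]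

theorem forceT_eq (T : Tri) (k : Tri → Bool) : forceT T k = k T := by
  simp only [forceT, forceC_eq]

/-! ### Powers of `φ` -/

/-- Value in `ℝ` of an element of `ℤ[φ]`. -/
def phiVal (φ : ℝ) (v : Vc) : ℝ := v.toR.1 + v.toR.2.1 * φ + v.toR.2.2 * φ ^ 2

theorem phiVal_norm (φ : ℝ) (v : Vc) : phiVal φ v.norm = phiVal φ v := by
  simp only [phiVal, Vc.toR_norm]

theorem phiVal_neg (φ : ℝ) (v : Vc) : phiVal φ v.neg = -phiVal φ v := by
  simp only [phiVal, Vc.toR_neg, Prod.fst_neg, Prod.snd_neg]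
  ring

theorem phiVal_add (φ : ℝ) (v w : Vc) : phiVal φ (v.add w) = phiVal φ v + phiVal φ w := by
  simp only [phiVal, Vc.toR_add, Prod.fst_add, Prod.snd_add]
  ring

theorem phiVal_sub (φ : ℝ) (v w : Vc) : phiVal φ (v.sub w) = phiVal φ v - phiVal φ w := by
  simp only [phiVal, Vc.toR_sub, Prod.fst_sub, Prod.snd_sub]
  ring

theorem phiVal_zsmul (φ : ℝ) (k : Z2) (v : Vc) :
    phiVal φ (Vc.zsmul k v) = ((k.p : ℝ) - k.n) * phiVal φ v := by
  simp only [phiVal, Vc.toR_zsmul, Prod.smul_fst, Prod.smul_snd, smul_eq_mul]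
  ring

theorem phiVal_mulPhi (C : Ctx) (v : Vc) : phiVal C.φ (mulPhi v) = C.φ * phiVal C.φ v := by
  have h := C.φ_eq
  simp only [phiVal, mulPhi, Vc.toR, Nat.add_eq]
  push_cast
  have h3 : C.φ * C.φ ^ 2 = C.φ + 1 := by rw [← h]; ring
  have : C.φ * (((v.ap : ℝ) - v.an) + ((v.bp : ℝ) - v.bn) * C.φ + ((v.up : ℝ) - v.un) * C.φ ^ 2) =
      ((v.ap : ℝ) - v.an) * C.φ + ((v.bp : ℝ) - v.bn) * C.φ ^ 2 +
        ((v.up : ℝ) - v.un) * (C.φ * C.φ ^ 2) := by ring
  rw [this, h3]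
  ring

theorem phiVal_divPhi (C : Ctx) (v : Vc) : phiVal C.φ (divPhi v) = C.φ⁻¹ * phiVal C.φ v := by
  have h := C.φ_eq
  have h0 := C.φ_pos
  have hm : phiVal C.φ v = C.φ * phiVal C.φ (divPhi v) := by
    simp only [phiVal, divPhi, Vc.toR, Nat.add_eq]
    push_cast
    have h3 : C.φ * C.φ ^ 2 = C.φ + 1 := by rw [← h]; ring
    have : C.φ * (((v.bp : ℝ) + v.an) - ((v.bn : ℝ) + v.ap) + ((v.up : ℝ) - v.un) * C.φ +
        ((v.ap : ℝ) - v.an) * C.φ ^ 2) =
        (((v.bp : ℝ) + v.an) - ((v.bn : ℝ) + v.ap)) * C.φ + ((v.up : ℝ) - v.un) * C.φ ^ 2 +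
          ((v.ap : ℝ) - v.an) * (C.φ * C.φ ^ 2) := by ring
    rw [this, h3]
    ring
  rw [hm, ← mul_assoc, inv_mul_cancel₀ h0.ne', one_mul]

theorem phiPow_val (C : Ctx) (a b : ℕ) :
    phiVal C.φ (phiPow a b) = C.φ ^ ((a : ℤ) - (b : ℤ)) := by
  have h0 := C.φ_pos
  have hone : phiVal C.φ ⟨1, 0, 0, 0, 0, 0⟩ = 1 := by
    simp [phiVal, Vc.toR]
  have h1 : ∀ n : ℕ, phiVal C.φ (Nat.rec (motive := fun _ => Vc) ⟨1, 0, 0, 0, 0, 0⟩
      (fun _ v => Vc.norm (mulPhi v)) n) = C.φ ^ n := by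
    intro n
    induction n with
    | zero => simpa using hone
    | succ n ih =>
      show phiVal C.φ (Vc.norm (mulPhi _)) = _
      rw [phiVal_norm, phiVal_mulPhi, ih, pow_succ, mul_comm]
  have h2 : ∀ n : ℕ, phiVal C.φ (Nat.rec (motive := fun _ => Vc) ⟨1, 0, 0, 0, 0, 0⟩
      (fun _ v => Vc.norm (divPhi v)) n) = (C.φ ^ n)⁻¹ := by
    intro n
    induction n with
    | zero => simpa using hone
    | succ n ih =>
      show phiVal C.φ (Vc.norm (divPhi _)) = _
      rw [phiVal_norm, phiVal_divPhi, ih, pow_succ, mul_inv, mul_comm]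
  unfold phiPow
  rcases Nat.le_total b a with hab | hab
  · rw [t_ble hab, cond_true, h1, Nat.sub_eq, ← zpow_natCast, Nat.cast_sub hab]
  · by_cases hba : b ≤ a
    · rw [t_ble hba, cond_true, h1, Nat.sub_eq, ← zpow_natCast, Nat.cast_sub hba]
    · have : Nat.ble b a = false := by
        rcases hh : Nat.ble b a with _ | _
        · rfl
        · exact absurd (ble_t hh) hba
      rw [this, cond_false, h2, Nat.sub_eq, ← zpow_natCast, Nat.cast_sub hab, ← zpow_neg]
      congr 1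
      ring

theorem phi_bounds (C : Ctx) :
    (cPLO : ℝ) ≤ 2 ^ 40 * C.φ ∧ 2 ^ 40 * C.φ ≤ (cPLO : ℝ) + 1 ∧
      (cRLO : ℝ) ≤ 2 ^ 40 * C.φ ^ 2 ∧ 2 ^ 40 * C.φ ^ 2 ≤ (cRHI : ℝ) := by
  have h := C.φ_eq
  have h0 := C.φ_pos
  have h1 : 1 < C.φ := by
    by_contra hc
    push Not at hc
    have : C.φ ^ 3 ≤ 1 := by
      apply pow_le_one₀ h0.le hc
    linarith
  have hlo : (1456542797514 : ℝ) / 2 ^ 40 ≤ C.φ := by
    by_contra hc
    push Not at hc
    have hp : (1 : ℝ) < 1456542797514 / 2 ^ 40 := by norm_num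
    have hk : 0 < (1456542797514 / 2 ^ 40 - C.φ) * ((1456542797514 / 2 ^ 40) ^ 2 +
        (1456542797514 / 2 ^ 40) * C.φ + C.φ ^ 2 - 1) := by
      apply mul_pos (by linarith)
      nlinarith
    have he : (1456542797514 / 2 ^ 40 - C.φ) * ((1456542797514 / 2 ^ 40) ^ 2 +
        (1456542797514 / 2 ^ 40) * C.φ + C.φ ^ 2 - 1) =
        ((1456542797514 : ℝ) / 2 ^ 40) ^ 3 - 1456542797514 / 2 ^ 40 - 1 - (C.φ ^ 3 - C.φ - 1) := by
      ring
    rw [he, h] at hk
    norm_num at hk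
  have hhi : C.φ ≤ (1456542797515 : ℝ) / 2 ^ 40 := by
    by_contra hc
    push Not at hc
    have hp : (1 : ℝ) < 1456542797515 / 2 ^ 40 := by norm_num
    have hk : 0 < (C.φ - 1456542797515 / 2 ^ 40) * ((1456542797515 / 2 ^ 40) ^ 2 +
        (1456542797515 / 2 ^ 40) * C.φ + C.φ ^ 2 - 1) := by
      apply mul_pos (by linarith)
      nlinarith
    have he : (C.φ - 1456542797515 / 2 ^ 40) * ((1456542797515 / 2 ^ 40) ^ 2 +
        (1456542797515 / 2 ^ 40) * C.φ + C.φ ^ 2 - 1) =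
        (C.φ ^ 3 - C.φ - 1) - (((1456542797515 : ℝ) / 2 ^ 40) ^ 3 - 1456542797515 / 2 ^ 40 - 1) := by
      ring
    rw [he, h] at hk
    norm_num at hk
  have hs1 : ((1456542797514 : ℝ) / 2 ^ 40) ^ 2 ≤ C.φ ^ 2 :=
    pow_le_pow_left₀ (by norm_num) hlo 2
  have hs2 : C.φ ^ 2 ≤ ((1456542797515 : ℝ) / 2 ^ 40) ^ 2 :=
    pow_le_pow_left₀ h0.le hhi 2
  refine ⟨?_, ?_, ?_, ?_⟩
  · simp only [cPLO]
    push_cast
    rw [div_le_iff₀ (by positivity)] at hlo
    linarith
  · simp only [cPLO]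
    push_cast
    rw [le_div_iff₀ (by positivity)] at hhi
    linarith
  · simp only [cRLO]
    push_cast
    have : (1929508399361 : ℝ) ≤ 2 ^ 40 * ((1456542797514 : ℝ) / 2 ^ 40) ^ 2 := by norm_num
    nlinarith
  · simp only [cRHI]
    push_cast
    have : 2 ^ 40 * ((1456542797515 : ℝ) / 2 ^ 40) ^ 2 ≤ (1929508399365 : ℝ) := by norm_num
    nlinarith

theorem shr_eq (a k : ℕ) : Nat.shiftRight a k = a / 2 ^ k := Nat.shiftRight_eq_div_pow a k

/-- `upQ` is an upper bound. -/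
theorem upQ_le (C : Ctx) (s : Vc) :
    2 ^ 16 * phiVal C.φ s ≤ ((upQ s).p : ℝ) - (upQ s).n := by
  obtain ⟨b1, b2, b3, b4⟩ := phi_bounds C
  rw [← phiVal_norm]
  unfold upQ
  generalize Vc.norm s = t
  simp only [shr_eq, Nat.add_eq, Nat.mul_eq, Nat.succ_eq_add_one, Nat.pow_eq]
  set N : ℕ := t.ap * 2 ^ 40 + (t.bp * (cPLO + 1) + t.up * cRHI) with hN
  set M : ℕ := t.an * 2 ^ 40 + (t.bn * cPLO + t.un * cRLO) with hM
  have hNle : N ≤ 2 ^ 24 * ((N + 16777215) / 2 ^ 24) := by omega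
  have hMle : 2 ^ 24 * (M / 2 ^ 24) ≤ M := by omega
  have hN' : (N : ℝ) ≤ 2 ^ 24 * (((N + 16777215) / 2 ^ 24 : ℕ) : ℝ) := by exact_mod_cast hNle
  have hM' : 2 ^ 24 * ((M / 2 ^ 24 : ℕ) : ℝ) ≤ (M : ℝ) := by exact_mod_cast hMle
  have hv : 2 ^ 40 * phiVal C.φ t ≤ (N : ℝ) - M := by
    simp only [phiVal, Vc.toR, hN, hM]
    push_cast
    have c1 := mul_le_mul_of_nonneg_left b2 (Nat.cast_nonneg (α := ℝ) t.bp)
    have c2 := mul_le_mul_of_nonneg_left b4 (Nat.cast_nonneg (α := ℝ) t.up)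
    have c3 := mul_le_mul_of_nonneg_left b1 (Nat.cast_nonneg (α := ℝ) t.bn)
    have c4 := mul_le_mul_of_nonneg_left b3 (Nat.cast_nonneg (α := ℝ) t.un)
    linarith
  linarith

theorem kapT_le (C : Ctx) (j i : ℕ) :
    (kapT j i : ℝ) ≤ 2 ^ 16 * C.φ ^ ((j : ℤ) + 1 - (i : ℤ)) := by
  have h := upQ_le C (Vc.neg (phiPow (Nat.succ j) i))
  rw [phiVal_neg, phiPow_val] at h
  have hz : 0 ≤ C.φ ^ ((j : ℤ) + 1 - (i : ℤ)) := (zpow_pos C.φ_pos _).le
  have hk : kapT j i = (upQ (Vc.neg (phiPow (Nat.succ j) i))).n -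
    (upQ (Vc.neg (phiPow (Nat.succ j) i))).p := rfl
  rw [hk]
  have hs : (((Nat.succ j : ℕ) : ℤ) - (i : ℤ)) = (j : ℤ) + 1 - (i : ℤ) := by push_cast; ring
  rw [hs] at h
  rcases Nat.le_total (upQ (Vc.neg (phiPow (Nat.succ j) i))).p
    (upQ (Vc.neg (phiPow (Nat.succ j) i))).n with hle | hle
  · rw [Nat.cast_sub hle]
    linarith
  · rw [Nat.sub_eq_zero_of_le hle]
    push_cast
    linarith

theorem coordT_val (C : Ctx) (w0 w1 w2 v0 v1 v2 : Z2) (j i : ℕ) :
    phiVal C.φ (coordT w0 w1 w2 v0 v1 v2 (phiPow j i) (phiPow (Nat.succ j) i)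
      (phiPow (Nat.succ (Nat.succ j)) i)) =
    (((w0.p : ℝ) - w0.n) + C.φ ^ 2 * ((w1.p : ℝ) - w1.n) + C.φ * ((w2.p : ℝ) - w2.n)) -
      C.φ ^ ((j : ℤ) - (i : ℤ)) *
        (((v0.p : ℝ) - v0.n) + C.φ ^ 2 * ((v1.p : ℝ) - v1.n) + C.φ * ((v2.p : ℝ) - v2.n)) := by
  have h0 : C.φ ≠ 0 := C.φ_pos.ne'
  unfold coordT
  rw [phiVal_sub, phiVal_add, phiVal_add, phiVal_zsmul, phiVal_zsmul, phiVal_zsmul,
    phiPow_val, phiPow_val, phiPow_val]
  have e1 : C.φ ^ (((Nat.succ j : ℕ) : ℤ) - (i : ℤ)) = C.φ ^ ((j : ℤ) - (i : ℤ)) * C.φ := by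
    rw [← zpow_add_one₀ h0]
    congr 1
    push_cast
    ring
  have e2 : C.φ ^ (((Nat.succ (Nat.succ j) : ℕ) : ℤ) - (i : ℤ)) =
      C.φ ^ ((j : ℤ) - (i : ℤ)) * C.φ ^ 2 := by
    have : (((Nat.succ (Nat.succ j) : ℕ) : ℤ) - (i : ℤ)) = ((j : ℤ) - (i : ℤ)) + (2 : ℕ) := by
      push_cast
      ring
    rw [this, zpow_add₀ h0, zpow_natCast]
  rw [e1, e2]
  have e3 : phiVal C.φ ⟨w0.p, w0.n, w2.p, w2.n, w1.p, w1.n⟩ =
      ((w0.p : ℝ) - w0.n) + C.φ ^ 2 * ((w1.p : ℝ) - w1.n) + C.φ * ((w2.p : ℝ) - w2.n) := by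
    simp only [phiVal, Vc.toR]
    ring
  rw [e3]
  ring

/-- The form `formT` is an upper bound for the difference of the `Φ`'s. -/
theorem formT_le (C : Ctx) (j i : ℕ) (w0 w1 w2 v0 v1 v2 : Vc) :
    2 ^ 16 * ((dot3 C.X w0.toR + C.φ ^ 2 * dot3 C.X w1.toR + C.φ * dot3 C.X w2.toR) -
      C.φ ^ ((j : ℤ) - (i : ℤ)) *
        (dot3 C.X v0.toR + C.φ ^ 2 * dot3 C.X v1.toR + C.φ * dot3 C.X v2.toR)) ≤
    dot3 C.X (formT j i w0 w1 w2 v0 v1 v2).toR := by
  obtain ⟨x1, x2, x3⟩ := C.X_pos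
  set T1 := coordT ⟨w0.ap, w0.an⟩ ⟨w1.ap, w1.an⟩ ⟨w2.ap, w2.an⟩
        ⟨v0.ap, v0.an⟩ ⟨v1.ap, v1.an⟩ ⟨v2.ap, v2.an⟩ (phiPow j i) (phiPow (Nat.succ j) i)
        (phiPow (Nat.succ (Nat.succ j)) i) with hT1
  set T2 := coordT ⟨w0.bp, w0.bn⟩ ⟨w1.bp, w1.bn⟩ ⟨w2.bp, w2.bn⟩
        ⟨v0.bp, v0.bn⟩ ⟨v1.bp, v1.bn⟩ ⟨v2.bp, v2.bn⟩ (phiPow j i) (phiPow (Nat.succ j) i)
        (phiPow (Nat.succ (Nat.succ j)) i) with hT2
  set T3 := coordT ⟨w0.up, w0.un⟩ ⟨w1.up, w1.un⟩ ⟨w2.up, w2.un⟩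
        ⟨v0.up, v0.un⟩ ⟨v1.up, v1.un⟩ ⟨v2.up, v2.un⟩ (phiPow j i) (phiPow (Nat.succ j) i)
        (phiPow (Nat.succ (Nat.succ j)) i) with hT3
  have hform : formT j i w0 w1 w2 v0 v1 v2 =
    Vc.norm ⟨(upQ T1).p, (upQ T1).n, (upQ T2).p, (upQ T2).n, (upQ T3).p, (upQ T3).n⟩ := rfl
  have u1 := mul_le_mul_of_nonneg_left (upQ_le C T1) x1.le
  have u2 := mul_le_mul_of_nonneg_left (upQ_le C T2) x2.le
  have u3 := mul_le_mul_of_nonneg_left (upQ_le C T3) x3.le
  rw [hform, Vc.toR_norm]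
  rw [hT1, coordT_val, ← hT1] at u1
  rw [hT2, coordT_val, ← hT2] at u2
  rw [hT3, coordT_val, ← hT3] at u3
  simp only [dot3, Vc.toR] at *
  linarith

/-! ### Heights -/

theorem xv (C : Ctx) (S : St) (hS : Holds C S) (i : ℕ) (h : hasV S i = true) :
    dot3 C.X (vec S i).toR = C.x i := by
  rw [← Vc.cast3_toZ, hS.zs i h]
  rfl

theorem hasV_iff (S : St) (i : ℕ) : hasV S i = true ↔ (64 ≤ i + S.k ∧ i ≤ S.lst) := by
  constructor
  · intro h
    obtain ⟨h1, h2⟩ := cond_f h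
    exact ⟨ble_t h1, ble_t h2⟩
  · rintro ⟨h1, h2⟩
    show cond (Nat.ble 64 (Nat.add i S.k)) (Nat.ble i S.lst) false = true
    rw [t_ble (n := Nat.add i S.k) h1, t_ble h2]
    rfl

theorem Ctx.x_strictMono (C : Ctx) : StrictMono C.x := strictMono_nat_of_lt_succ C.x_lt

theorem Ctx.x_pos' (C : Ctx) (i : ℕ) : 0 < C.x i :=
  lt_of_lt_of_le C.x_pos (C.x_strictMono.monotone (Nat.zero_le i))

theorem Ctx.z_ne (C : Ctx) (i : ℕ) : C.z i ≠ 0 := by
  intro h
  have hr := C.r_pos i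
  rw [h] at hr
  have : cast3 0 = 0 := by
    simp [cast3]
  rw [this, map_zero] at hr
  exact lt_irrefl _ hr

/-! ### Labels -/

/-- Label A at `j`, label D at `i`. -/
theorem lab_lt (C : Ctx) (j i : ℕ) (hj : C.A j) (hi : ¬ C.A i) :
    C.φ ^ ((j : ℤ) - (i : ℤ)) * C.P i < C.P j := by
  have h0 := C.φ_pos
  have hi' : C.P i ≤ C.β * C.φ ^ i := not_lt.mp hi
  have hj' : C.β * C.φ ^ j < C.P j := hj
  calc C.φ ^ ((j : ℤ) - (i : ℤ)) * C.P i ≤ C.φ ^ ((j : ℤ) - (i : ℤ)) * (C.β * C.φ ^ i) :=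
        mul_le_mul_of_nonneg_left hi' (zpow_pos h0 _).le
    _ = C.β * C.φ ^ j := by
        have : C.φ ^ ((j : ℤ) - (i : ℤ)) * C.φ ^ i = C.φ ^ j := by
          rw [← zpow_natCast C.φ i, ← zpow_add₀ h0.ne', ← zpow_natCast C.φ j]
          congr 1
          ring
        rw [← this]
        ring
    _ < C.P j := hj'

/-- Label A at `i` and D at `i + 1`: violation. -/
theorem lab_viol (C : Ctx) (i : ℕ) (hA : C.A i) (hD : ¬ C.A (i + 1)) :
    C.x (i + 3) < C.x (i + 1) + C.x i := by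
  have h0 := C.φ_pos
  have h3 := C.φ_eq
  have hD' : C.P (i + 1) ≤ C.β * C.φ ^ (i + 1) := not_lt.mp hD
  have hA' : C.β * C.φ ^ i < C.P i := hA
  have hlt : C.P (i + 1) < C.φ * C.P i := by
    calc C.P (i + 1) ≤ C.β * C.φ ^ (i + 1) := hD'
      _ = C.φ * (C.β * C.φ ^ i) := by ring
      _ < C.φ * C.P i := mul_lt_mul_of_pos_left hA' h0
  simp only [Ctx.P] at hlt
  have e : C.φ * (C.x i + C.φ ^ 2 * C.x (i + 1) + C.φ * C.x (i + 2)) =
      C.φ * C.x i + C.φ ^ 3 * C.x (i + 1) + C.φ ^ 2 * C.x (i + 2) := by ring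
  rw [e, h3] at hlt
  have hlt2 : C.φ * C.x (i + 3) < C.φ * (C.x (i + 1) + C.x i) := by
    have : C.x (i + 1 + 1) = C.x (i + 2) := rfl
    have h' : C.x (i + 1 + 2) = C.x (i + 3) := rfl
    rw [this, h'] at hlt
    linarith
  exact lt_of_mul_lt_mul_left hlt2 h0.le

/-- The vectors are primitive. -/
theorem prim (C : Ctx) (i : ℕ) (g : ℤ) (hg : 2 ≤ g) (w : Z3) (h : C.z i = g • w) : False := by
  have hg' : (2 : ℝ) ≤ (g : ℝ) := by exact_mod_cast hg
  have hw : w ≠ 0 := by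
    intro hw
    rw [hw, smul_zero] at h
    exact C.z_ne i h
  have hc : cast3 (C.z i) = (g : ℝ) • cast3 w := by rw [h, cast3_smul]
  have hx : C.x i = g * dot3 C.X (cast3 w) := by
    show dot3 C.X (cast3 (C.z i)) = _
    rw [hc, dot3_smul]
  have hxp := C.x_pos' i
  have hxl : C.x i < C.x (i + 1) := C.x_lt i
  have hpos : 0 < dot3 C.X (cast3 w) := by
    rw [hx] at hxp
    exact (mul_pos_iff_of_pos_left (by linarith : (0 : ℝ) < g)).mp hxp
  have hb := C.best i w hw (by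
    rw [abs_of_pos hpos]
    show _ < C.x (i + 1)
    nlinarith)
  have hr := C.r_pos i
  have hn : C.ν (cast3 (C.z i)) = g * C.ν (cast3 w) := by
    rw [hc, map_smul_eq_mul, Real.norm_eq_abs, abs_of_pos (by linarith)]
  nlinarith

/-! ### Classes modulo two -/

theorem cls2_val (v : Vc) : cls2 v =
    (v.ap + v.an) % 2 + (2 * ((v.bp + v.bn) % 2) + 4 * ((v.up + v.un) % 2)) := by
  have h : ∀ n : ℕ, Nat.land n 1 = n % 2 := fun n => Nat.and_one_is_mod n
  simp only [cls2, h, Nat.add_eq, Nat.mul_eq]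

theorem xor_bits : ∀ a b c d e f g h i : Fin 2,
    (a.val + (2 * b.val + 4 * c.val)) ^^^ (d.val + (2 * e.val + 4 * f.val)) =
      g.val + (2 * h.val + 4 * i.val) →
    (a.val + d.val + g.val) % 2 = 0 ∧ (b.val + e.val + h.val) % 2 = 0 ∧
      (c.val + f.val + i.val) % 2 = 0 := by
  decide

theorem even_of (v : Vc) (h1 : (v.ap + v.an) % 2 = 0) (h2 : (v.bp + v.bn) % 2 = 0)
    (h3 : (v.up + v.un) % 2 = 0) : Even3 v.toZ := by
  refine ⟨(((v.ap : ℤ) - v.an) / 2, ((v.bp : ℤ) - v.bn) / 2, ((v.up : ℤ) - v.un) / 2), ?_⟩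
  simp only [Vc.toZ, Prod.mk_add_mk]
  refine Prod.ext ?_ (Prod.ext ?_ ?_) <;> simp only <;> omega

theorem even_two (v w : Vc) (h : cls2 v = cls2 w) : Even3 (v.toZ + w.toZ) := by
  rw [cls2_val, cls2_val] at h
  rw [← Vc.toZ_add]
  apply even_of <;> simp only [Vc.add, Nat.add_eq] <;> omega

theorem even_three (v w u : Vc) (h : Nat.xor (cls2 v) (cls2 w) = cls2 u) :
    Even3 (v.toZ + w.toZ + u.toZ) := by
  rw [cls2_val, cls2_val, cls2_val] at h
  have hb := xor_bits ⟨(v.ap + v.an) % 2, Nat.mod_lt _ (by norm_num)⟩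
    ⟨(v.bp + v.bn) % 2, Nat.mod_lt _ (by norm_num)⟩ ⟨(v.up + v.un) % 2, Nat.mod_lt _ (by norm_num)⟩
    ⟨(w.ap + w.an) % 2, Nat.mod_lt _ (by norm_num)⟩
    ⟨(w.bp + w.bn) % 2, Nat.mod_lt _ (by norm_num)⟩ ⟨(w.up + w.un) % 2, Nat.mod_lt _ (by norm_num)⟩
    ⟨(u.ap + u.an) % 2, Nat.mod_lt _ (by norm_num)⟩
    ⟨(u.bp + u.bn) % 2, Nat.mod_lt _ (by norm_num)⟩ ⟨(u.up + u.un) % 2, Nat.mod_lt _ (by norm_num)⟩
    h
  obtain ⟨h1, h2, h3⟩ := hb
  simp only at h1 h2 h3
  rw [← Vc.toZ_add, ← Vc.toZ_add]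
  apply even_of <;> simp only [Vc.add, Nat.add_eq] <;> omega

/-! ### Height facts -/

theorem below_t {i n : ℕ} (h : below i n = true) : i < n := ble_t h

theorem labIs_iff (S : St) (i l : ℕ) : labIs S i l = true ↔ lab S i = l :=
  ⟨fun h => beq_t h, fun h => t_beq h⟩

theorem lab_A (C : Ctx) (S : St) (hS : Holds C S) (i : ℕ) (h : labIs S i 1 = true) : C.A i :=
  hS.labA i ((labIs_iff S i 1).mp h)

theorem lab_D (C : Ctx) (S : St) (hS : Holds C S) (i : ℕ) (h : labIs S i 2 = true) : ¬ C.A i :=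
  hS.labD i ((labIs_iff S i 2).mp h)

/-- No violation at `i`. -/
theorem nvOk_sound (C : Ctx) (S : St) (hS : Holds C S) (i : ℕ) (h0 : hasV S i = true)
    (h3 : hasV S (i + 3) = true) (h : nvOk S i = true) : C.x (i + 1) + C.x i ≤ C.x (i + 3) := by
  rw [hasV_iff] at h0 h3
  by_contra hc
  push Not at hc
  have hv := C.viol i hc
  have hn := C.no_two i hc
  have e0 := hS.zs i ((hasV_iff S i).mpr h0)
  have e1 := hS.zs (i + 1) ((hasV_iff S _).mpr ⟨by omega, by omega⟩)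
  have e2 := hS.zs (i + 2) ((hasV_iff S _).mpr ⟨by omega, by omega⟩)
  have e3 := hS.zs (i + 3) ((hasV_iff S _).mpr h3)
  have heq : Vc.eqv (vec S (Nat.add i 3))
      (Vc.sub (Vc.add (vec S (Nat.add i 1)) (vec S (Nat.add i 2))) (vec S i)) = true := by
    rw [Vc.eqv_iff, Vc.toZ_sub, Vc.toZ_add, Nat.add_eq, Nat.add_eq, Nat.add_eq, e0, e1, e2, e3,
      ← hv]
    abel
  unfold nvOk at h
  rw [heq, cond_true] at h
  rcases hA : (and (labIs S (Nat.add i 1) 1) (labIs S (Nat.add i 2) 2)) with _ | _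
  · rw [hA] at h
    have h' : (and (labIs S (Nat.sub i 1) 1) (labIs S i 2)) = true := h
    rw [Bool.and_eq_true] at h'
    have hA' := lab_A C S hS _ h'.1
    have hD' := lab_D C S hS _ h'.2
    have hi : 1 ≤ i := by
      rcases Nat.eq_zero_or_pos i with hi | hi
      · subst hi
        exact absurd hA' hD'
      · exact hi
    obtain ⟨m, rfl⟩ : ∃ m, i = m + 1 := ⟨i - 1, by omega⟩
    have hA'' : C.A m := by
      have : Nat.sub (m + 1) 1 = m := by simp
      rwa [this] at hA'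
    have hvm := lab_viol C m hA'' hD'
    have := C.no_two m hvm
    have h4 : C.x (m + 2) + C.x (m + 1) ≤ C.x (m + 4) := this
    have h5 : C.x (m + 1 + 3) < C.x (m + 1 + 1) + C.x (m + 1) := hc
    have e4 : C.x (m + 1 + 3) = C.x (m + 4) := rfl
    have e5 : C.x (m + 1 + 1) = C.x (m + 2) := rfl
    rw [e4, e5] at h5
    linarith
  · rw [Bool.and_eq_true] at hA
    have hA' : C.A (i + 1) := lab_A C S hS _ hA.1
    have hD' : ¬ C.A (i + 1 + 1) := lab_D C S hS _ hA.2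
    have hvm := lab_viol C (i + 1) hA' hD'
    have h4 : C.x (i + 2) + C.x (i + 1) ≤ C.x (i + 4) := hn
    have e4 : C.x (i + 1 + 3) = C.x (i + 4) := rfl
    have e5 : C.x (i + 1 + 1) = C.x (i + 2) := rfl
    rw [e4, e5] at hvm
    linarith

theorem ok_strict (C : Ctx) (v : Vc) (h : 0 < dot3 C.X v.toR) : Fact.ok C ⟨v, true⟩ :=
  ⟨h.le, fun _ => h⟩

theorem ok_weak (C : Ctx) (v : Vc) (h : 0 ≤ dot3 C.X v.toR) : Fact.ok C ⟨v, false⟩ :=
  ⟨h, fun hf => by exact absurd hf (by simp)⟩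

theorem factOk_sound (C : Ctx) (S : St) (hS : Holds C S) (t a b c : ℕ)
    (h : factOk S t a b c = true) : Fact.ok C (factV S t a b c) := by
  have hk := hS.hk
  have hl := hS.hlst
  rcases t with _ | _ | _ | _ | _ | _ | _ | _ | t
  · -- order
    have h' : cond (hasV S a) (hasV S (Nat.succ a)) false = true := h
    obtain ⟨h1, h2⟩ := cond_f h'
    apply ok_strict
    show 0 < dot3 C.X (Vc.norm (Vc.sub (vec S (Nat.succ a)) (vec S a))).toR
    rw [Vc.toR_norm, Vc.toR_sub, dot3_sub, xv C S hS _ h1, xv C S hS _ h2]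
    have := C.x_lt a
    exact sub_pos.mpr this
  · -- same class
    have h' : cond (below a b) (cond (hasV S a) (cond (hasV S b)
        (Nat.beq (cls2 (vec S a)) (cls2 (vec S b))) false) false) false = true := h
    obtain ⟨h1, h2⟩ := cond_f h'
    obtain ⟨h2, h3⟩ := cond_f h2
    obtain ⟨h3, h4⟩ := cond_f h3
    have hab := below_t h1
    have hs : hasV S (Nat.succ a) = true := by
      rw [hasV_iff] at h2 h3 ⊢
      exact ⟨by omega, by omega⟩
    apply ok_weak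
    show 0 ≤ dot3 C.X (Vc.norm (Vc.sub (Vc.sub (vec S b) (vec S a))
      (Vc.smul 2 (vec S (Nat.succ a))))).toR
    rw [Vc.toR_norm, Vc.toR_sub, Vc.toR_sub, Vc.toR_smul, dot3_sub, dot3_sub, dot3_smul,
      xv C S hS _ h2, xv C S hS _ h3, xv C S hS _ hs]
    have he := even_two _ _ (beq_t h4)
    rw [hS.zs _ h2, hS.zs _ h3] at he
    have hsame : C.x a + 2 * C.x (a + 1) ≤ C.x b := C.same a b hab he
    push_cast
    linarith
  · -- Fano
    have h' : cond (below a b) (cond (below b c) (cond (hasV S a) (cond (hasV S c)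
        (Nat.beq (Nat.xor (cls2 (vec S a)) (cls2 (vec S b))) (cls2 (vec S c)))
        false) false) false) false = true := h
    obtain ⟨h1, h2⟩ := cond_f h'
    obtain ⟨h2, h3⟩ := cond_f h2
    obtain ⟨h3, h4⟩ := cond_f h3
    obtain ⟨h4, h5⟩ := cond_f h4
    have hab := below_t h1
    have hbc := below_t h2
    have hb : hasV S b = true := by
      rw [hasV_iff] at h3 h4 ⊢
      exact ⟨by omega, by omega⟩
    apply ok_weak
    show 0 ≤ dot3 C.X (Vc.norm (Vc.sub (Vc.sub (vec S c) (vec S a)) (vec S b))).toR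
    rw [Vc.toR_norm, Vc.toR_sub, Vc.toR_sub, dot3_sub, dot3_sub,
      xv C S hS _ h3, xv C S hS _ h4, xv C S hS _ hb]
    have he := even_three _ _ _ (beq_t h5)
    rw [hS.zs _ h3, hS.zs _ h4, hS.zs _ hb] at he
    have hf : C.x a + C.x b ≤ C.x c := C.fano a b c hab hbc he
    linarith
  · -- no violation
    have h' : cond (hasV S a) (cond (hasV S (Nat.add a 3)) (nvOk S a) false) false = true := h
    obtain ⟨h1, h2⟩ := cond_f h'
    obtain ⟨h2, h3⟩ := cond_f h2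
    have h2' : hasV S (a + 3) = true := h2
    have ha1 : hasV S (a + 1) = true := by
      rw [hasV_iff] at h1 h2' ⊢
      exact ⟨by omega, by omega⟩
    have := nvOk_sound C S hS a h1 h2' h3
    apply ok_weak
    show 0 ≤ dot3 C.X (Vc.norm (Vc.sub (Vc.sub (vec S (a + 3)) (vec S (a + 1))) (vec S a))).toR
    rw [Vc.toR_norm, Vc.toR_sub, Vc.toR_sub, dot3_sub, dot3_sub,
      xv C S hS _ h1, xv C S hS _ h2', xv C S hS _ ha1]
    linarith
  · -- labels A at a, D at b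
    have h' : cond (labIs S a 1) (cond (labIs S b 2) (cond (hasV S a) (cond (hasV S (Nat.add a 2))
        (cond (hasV S b) (hasV S (Nat.add b 2)) false) false) false) false) false = true := h
    obtain ⟨h1, h2⟩ := cond_f h'
    obtain ⟨h2, h3⟩ := cond_f h2
    obtain ⟨h3, h4⟩ := cond_f h3
    obtain ⟨h4, h5⟩ := cond_f h4
    obtain ⟨h5, h6⟩ := cond_f h5
    have h4' : hasV S (a + 2) = true := h4
    have h6' : hasV S (b + 2) = true := h6
    have ha1 : hasV S (a + 1) = true := by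
      rw [hasV_iff] at h3 h4' ⊢
      exact ⟨by omega, by omega⟩
    have hb1 : hasV S (b + 1) = true := by
      rw [hasV_iff] at h5 h6' ⊢
      exact ⟨by omega, by omega⟩
    apply ok_strict
    show 0 < dot3 C.X (formT a b (vec S a) (vec S (a + 1)) (vec S (a + 2))
        (vec S b) (vec S (b + 1)) (vec S (b + 2))).toR
    have hf := formT_le C a b (vec S a) (vec S (a + 1)) (vec S (a + 2))
        (vec S b) (vec S (b + 1)) (vec S (b + 2))
    rw [xv C S hS _ h3, xv C S hS _ h4', xv C S hS _ ha1, xv C S hS _ h5, xv C S hS _ h6',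
      xv C S hS _ hb1] at hf
    have hl := lab_lt C a b (lab_A C S hS _ h1) (lab_D C S hS _ h2)
    simp only [Ctx.P] at hl
    linarith
  · -- first height positive
    have h' : cond (Nat.beq (Nat.add a S.k) 64) (hasV S a) false = true := h
    obtain ⟨h1, h2⟩ := cond_f h'
    apply ok_strict
    show 0 < dot3 C.X (vec S a).toR
    rw [xv C S hS _ h2]
    exact C.x_pos' a
  · -- label A just before the first vector, D at b
    have h' : cond (Nat.beq (Nat.add a S.k) 63) (cond (labIs S a 1) (cond (labIs S b 2)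
        (cond (hasV S b) (cond (hasV S (Nat.add b 2)) (hasV S (Nat.add a 2)) false) false)
        false) false) false = true := h
    obtain ⟨h1, h2⟩ := cond_f h'
    obtain ⟨h2, h3⟩ := cond_f h2
    obtain ⟨h3, h4⟩ := cond_f h3
    obtain ⟨h4, h5⟩ := cond_f h4
    obtain ⟨h5, h6⟩ := cond_f h5
    have hak : a + S.k = 63 := beq_t h1
    have h5' : hasV S (b + 2) = true := h5
    have h6' : hasV S (a + 2) = true := h6
    have ha1 : hasV S (a + 1) = true := by
      rw [hasV_iff] at h6' ⊢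
      exact ⟨by omega, by omega⟩
    have hb1 : hasV S (b + 1) = true := by
      rw [hasV_iff] at h4 h5' ⊢
      exact ⟨by omega, by omega⟩
    apply ok_strict
    show 0 < dot3 C.X (formT a b (vec S (a + 1)) (vec S (a + 1)) (vec S (a + 2))
        (vec S b) (vec S (b + 1)) (vec S (b + 2))).toR
    have hf := formT_le C a b (vec S (a + 1)) (vec S (a + 1)) (vec S (a + 2))
        (vec S b) (vec S (b + 1)) (vec S (b + 2))
    rw [xv C S hS _ h4, xv C S hS _ h5', xv C S hS _ ha1, xv C S hS _ h6',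
      xv C S hS _ hb1] at hf
    have hl := lab_lt C a b (lab_A C S hS _ h2) (lab_D C S hS _ h3)
    simp only [Ctx.P] at hl
    have hx : C.x a < C.x (a + 1) := C.x_lt a
    linarith
  · -- label D just before the first vector
    have h' : cond (Nat.beq (Nat.add a S.k) 63) (cond (labIs S a 2) (hasV S (Nat.add a 2)) false)
        false = true := h
    obtain ⟨h1, h2⟩ := cond_f h'
    obtain ⟨h2, h3⟩ := cond_f h2
    have hak : a + S.k = 63 := beq_t h1
    have h3' : hasV S (a + 2) = true := h3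
    have ha1 : hasV S (a + 1) = true := by
      rw [hasV_iff] at h3' ⊢
      exact ⟨by omega, by omega⟩
    have hD := lab_D C S hS _ h2
    obtain ⟨m, rfl⟩ : ∃ m, a = m + 1 := ⟨a - 1, by omega⟩
    have key : C.x (m + 3) < 2 * C.x (m + 2) := by
      have h01 : C.x m < C.x (m + 1) := C.x_lt m
      have h12 : C.x (m + 1) < C.x (m + 2) := C.x_lt (m + 1)
      have h0 := C.x_pos' m
      by_cases hA : C.A m
      · have hv := lab_viol C m hA hD
        have hz := C.viol m hv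
        have hx : C.x m + C.x (m + 3) = C.x (m + 1) + C.x (m + 2) := by
          simp only [Ctx.x]
          rw [← dot3_add, ← dot3_add, ← cast3_add, ← cast3_add, hz]
        linarith
      · have hz := C.hist2 m (by omega) (not_lt.mp hA) (not_lt.mp hD)
        have hx : C.x (m + 3) = C.x (m + 1) + C.x m := by
          simp only [Ctx.x]
          rw [hz, cast3_add, dot3_add]
        linarith
    apply ok_strict
    show 0 < dot3 C.X (Vc.norm (Vc.sub (Vc.smul 2 (vec S (m + 1 + 1))) (vec S (m + 1 + 2)))).toR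
    rw [Vc.toR_norm, Vc.toR_sub, Vc.toR_smul, dot3_sub, dot3_smul,
      xv C S hS _ h3', xv C S hS _ ha1]
    have e1 : C.x (m + 1 + 2) = C.x (m + 3) := rfl
    have e2 : C.x (m + 1 + 1) = C.x (m + 2) := rfl
    rw [e1, e2]
    push_cast
    linarith
  · have h' : get false [] t = true := h
    have h'' : false = true := h'
    exact absurd h'' (by simp)

theorem fd_sound (C : Ctx) (S : St) (hS : Holds C S) (l : FD) (h : fdOk S l = true) :
    ∀ f ∈ fdV S l, Fact.ok C f := by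
  induction l with
  | nil => exact hS.fs
  | c t a b c r ih =>
    obtain ⟨h1, h2⟩ := cond_f (h : cond (factOk S t a b c) (fdOk S r) false = true)
    intro f hf
    have hf' : f ∈ List.cons (factV S t a b c) (fdV S r) := hf
    rcases List.mem_cons.mp hf' with rfl | hf''
    · exact factOk_sound C S hS t a b c h1
    · exact ih h2 f hf''

/-! ### Farkas certificates -/

theorem get_cases {α : Type} (d : α) (l : List α) (i : ℕ) : get d l i = d ∨ get d l i ∈ l := by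
  induction l generalizing i with
  | nil => exact Or.inl rfl
  | cons h t ih =>
    cases i with
    | zero =>
      right
      have : get d (h :: t) 0 = h := rfl
      rw [this]
      exact List.mem_cons_self
    | succ j =>
      have : get d (h :: t) (j + 1) = get d t j := rfl
      rw [this]
      rcases ih j with hh | hh
      · exact Or.inl hh
      · exact Or.inr (List.mem_cons_of_mem _ hh)

theorem geV_sound (C : Ctx) (x y : Vc) (h : geV x y = true) :
    dot3 C.X y.toR ≤ dot3 C.X x.toR := by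
  obtain ⟨h1, h2⟩ := cond_f h
  obtain ⟨h2, h3⟩ := cond_f h2
  have g1 : x.an + y.ap ≤ x.ap + y.an := ble_t h1
  have g2 : x.bn + y.bp ≤ x.bp + y.bn := ble_t h2
  have g3 : x.un + y.up ≤ x.up + y.un := ble_t h3
  obtain ⟨x1, x2, x3⟩ := C.X_pos
  have k1 : ((y.ap : ℝ) - y.an) ≤ x.ap - x.an := by
    have : ((x.an + y.ap : ℕ) : ℝ) ≤ ((x.ap + y.an : ℕ) : ℝ) := by exact_mod_cast g1
    push_cast at this
    linarith
  have k2 : ((y.bp : ℝ) - y.bn) ≤ x.bp - x.bn := by
    have : ((x.bn + y.bp : ℕ) : ℝ) ≤ ((x.bp + y.bn : ℕ) : ℝ) := by exact_mod_cast g2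
    push_cast at this
    linarith
  have k3 : ((y.up : ℝ) - y.un) ≤ x.up - x.un := by
    have : ((x.un + y.up : ℕ) : ℝ) ≤ ((x.up + y.un : ℕ) : ℝ) := by exact_mod_cast g3
    push_cast at this
    linarith
  simp only [dot3, Vc.toR]
  have l1 := mul_le_mul_of_nonneg_left k1 x1.le
  have l2 := mul_le_mul_of_nonneg_left k2 x2.le
  have l3 := mul_le_mul_of_nonneg_left k3 x3.le
  linarith

theorem ble_f {m n : ℕ} (h : Nat.ble m n = false) : n < m := by
  by_contra hc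
  push Not at hc
  rw [t_ble hc] at h
  exact absurd h (by simp)

theorem gtV_sound (C : Ctx) (x y : Vc) (h : geV x y = true) (hgt : gtV x y = true) :
    dot3 C.X y.toR < dot3 C.X x.toR := by
  obtain ⟨h1, h2⟩ := cond_f h
  obtain ⟨h2, h3⟩ := cond_f h2
  have g1 : x.an + y.ap ≤ x.ap + y.an := ble_t h1
  have g2 : x.bn + y.bp ≤ x.bp + y.bn := ble_t h2
  have g3 : x.un + y.up ≤ x.up + y.un := ble_t h3
  obtain ⟨x1, x2, x3⟩ := C.X_pos
  have hor : (x.an + y.ap < x.ap + y.an) ∨ (x.bn + y.bp < x.bp + y.bn) ∨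
      (x.un + y.up < x.up + y.un) := by
    unfold gtV at hgt
    rcases e1 : Nat.ble (Nat.add x.ap y.an) (Nat.add x.an y.ap) with _ | _
    · left
      exact ble_f e1
    · rw [e1, cond_true] at hgt
      rcases e2 : Nat.ble (Nat.add x.bp y.bn) (Nat.add x.bn y.bp) with _ | _
      · right
        left
        exact ble_f e2
      · rw [e2, cond_true] at hgt
        right
        right
        exact ble_t hgt
  have k1 : ((y.ap : ℝ) - y.an) ≤ x.ap - x.an := by
    have : ((x.an + y.ap : ℕ) : ℝ) ≤ ((x.ap + y.an : ℕ) : ℝ) := by exact_mod_cast g1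
    push_cast at this
    linarith
  have k2 : ((y.bp : ℝ) - y.bn) ≤ x.bp - x.bn := by
    have : ((x.bn + y.bp : ℕ) : ℝ) ≤ ((x.bp + y.bn : ℕ) : ℝ) := by exact_mod_cast g2
    push_cast at this
    linarith
  have k3 : ((y.up : ℝ) - y.un) ≤ x.up - x.un := by
    have : ((x.un + y.up : ℕ) : ℝ) ≤ ((x.up + y.un : ℕ) : ℝ) := by exact_mod_cast g3
    push_cast at this
    linarith
  simp only [dot3, Vc.toR]
  have l1 := mul_le_mul_of_nonneg_left k1 x1.le
  have l2 := mul_le_mul_of_nonneg_left k2 x2.le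
  have l3 := mul_le_mul_of_nonneg_left k3 x3.le
  rcases hor with hh | hh | hh
  · have k : ((y.ap : ℝ) - y.an) < x.ap - x.an := by
      have : ((x.an + y.ap : ℕ) : ℝ) < ((x.ap + y.an : ℕ) : ℝ) := by exact_mod_cast hh
      push_cast at this
      linarith
    have l := mul_lt_mul_of_pos_left k x1
    linarith
  · have k : ((y.bp : ℝ) - y.bn) < x.bp - x.bn := by
      have : ((x.bn + y.bp : ℕ) : ℝ) < ((x.bp + y.bn : ℕ) : ℝ) := by exact_mod_cast hh
      push_cast at this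
      linarith
    have l := mul_lt_mul_of_pos_left k x2
    linarith
  · have k : ((y.up : ℝ) - y.un) < x.up - x.un := by
      have : ((x.un + y.up : ℕ) : ℝ) < ((x.up + y.un : ℕ) : ℝ) := by exact_mod_cast hh
      push_cast at this
      linarith
    have l := mul_lt_mul_of_pos_left k x3
    linarith

theorem farkR_sound (C : Ctx) (fs : List Fact) (hf : ∀ f ∈ fs, Fact.ok C f) (L : Vc) (st nz : Bool)
    (c : FL) : ∀ (acc : Vc) (b : Bool), farkR fs L st nz c acc b = true →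
    0 ≤ dot3 C.X acc.toR → (b = true → 0 < dot3 C.X acc.toR) →
    ∃ mu : ℕ, (nz = true → 1 ≤ mu) ∧ 0 ≤ (mu : ℝ) * dot3 C.X L.toR ∧
      (st = true → 0 < (mu : ℝ) * dot3 C.X L.toR) := by
  induction c with
  | z mu =>
    intro acc b h h0 hb
    have h' : cond (cond nz (Nat.ble 1 mu) true)
      (cond (geV (Vc.smul mu L) acc) (cond st (cond b true (gtV (Vc.smul mu L) acc)) true) false)
      false = true := h
    obtain ⟨h1, h23⟩ := cond_f h'
    obtain ⟨h2, h3⟩ := cond_f h23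
    clear h' h23 h
    have hge := geV_sound C _ _ h2
    rw [Vc.toR_smul, dot3_smul] at hge
    refine ⟨mu, ?_, le_trans h0 hge, ?_⟩
    · intro hnz
      rw [hnz, cond_true] at h1
      exact ble_t h1
    · intro hst
      rw [hst, cond_true] at h3
      cases b with
      | true => exact lt_of_lt_of_le (hb rfl) hge
      | false =>
        rw [cond_false] at h3
        have := gtV_sound C _ _ h2 h3
        rw [Vc.toR_smul, dot3_smul] at this
        exact lt_of_le_of_lt h0 this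
  | t i l r ih =>
    intro acc b h h0 hb
    have h' : farkR fs L st nz r (Vc.add acc (Vc.smul l (get ⟨Vc.zero, false⟩ fs i).f))
        (cond b true (cond (get ⟨Vc.zero, false⟩ fs i).strict (Nat.ble 1 l) false)) = true := h
    have hF : Fact.ok C (get ⟨Vc.zero, false⟩ fs i) := by
      rcases get_cases (⟨Vc.zero, false⟩ : Fact) fs i with hh | hh
      · rw [hh]
        apply ok_weak
        rw [Vc.toR_zero, dot3_zero]
      · exact hf _ hh
    have hl0 : (0 : ℝ) ≤ (l : ℝ) := Nat.cast_nonneg l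
    refine ih _ _ h' ?_ ?_
    · rw [Vc.toR_add, Vc.toR_smul, dot3_add, dot3_smul]
      have := mul_nonneg hl0 hF.1
      linarith
    · intro hb'
      rw [Vc.toR_add, Vc.toR_smul, dot3_add, dot3_smul]
      cases b with
      | true =>
        have := mul_nonneg hl0 hF.1
        have := hb rfl
        linarith
      | false =>
        rw [cond_false] at hb'
        obtain ⟨hs, hl1⟩ := cond_f hb'
        have hl1' : (1 : ℝ) ≤ (l : ℝ) := by exact_mod_cast ble_t hl1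
        have := mul_pos (by linarith : (0 : ℝ) < l) (hF.2 hs)
        linarith

theorem fark_sound (C : Ctx) (fs : List Fact) (hf : ∀ f ∈ fs, Fact.ok C f) (L : Vc) (st : Bool)
    (c : FL) (h : fark fs L st c = true) :
    0 ≤ dot3 C.X L.toR ∧ (st = true → 0 < dot3 C.X L.toR) := by
  obtain ⟨mu, h1, h2, h3⟩ := farkR_sound C fs hf L st true c Vc.zero false h
    (by rw [Vc.toR_zero, dot3_zero]) (by intro hh; exact absurd hh (by simp))
  have hmu : (0 : ℝ) < mu := by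
    have := h1 rfl
    have : (1 : ℝ) ≤ mu := by exact_mod_cast this
    linarith
  exact ⟨nonneg_of_mul_nonneg_right h2 hmu, fun hst => (mul_pos_iff_of_pos_left hmu).mp (h3 hst)⟩

theorem dead_sound (C : Ctx) (fs : List Fact) (hf : ∀ f ∈ fs, Fact.ok C f) (c : FL)
    (h : dead fs c = true) : False := by
  obtain ⟨mu, h1, h2, h3⟩ := farkR_sound C fs hf Vc.zero true false c Vc.zero false h
    (by rw [Vc.toR_zero, dot3_zero]) (by intro hh; exact absurd hh (by simp))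
  have := h3 rfl
  rw [Vc.toR_zero, dot3_zero, mul_zero] at this
  exact lt_irrefl _ this

/-! ### Planar lower bounds -/

/-- The bound for the height of the next vector. -/
theorem nextLB_le (C : Ctx) (S : St) (hS : Holds C S) :
    dot3 C.X (nextLB S).toR ≤ C.x (S.lst + 1) ∧
      (nextStrict S = false → dot3 C.X (nextLB S).toR < C.x (S.lst + 1)) := by
  have hl := hS.hlst
  have hk := hS.hk
  rcases hn : nextStrict S with _ | _
  · have hv : hasV S S.lst = true := by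
      rw [hasV_iff]
      exact ⟨by omega, le_refl _⟩
    have hlb : nextLB S = vec S S.lst := by
      unfold nextLB
      rw [hn, cond_false]
    rw [hlb, xv C S hS _ hv]
    have := C.x_lt S.lst
    exact ⟨le_of_lt this, fun _ => this⟩
  · have hlb : nextLB S = Vc.add (vec S (S.lst - 1)) (vec S (S.lst - 2)) := by
      unfold nextLB
      rw [hn, cond_true]
      rfl
    obtain ⟨h1, h2⟩ := cond_f (hn : cond (labIs S (S.lst - 3) 1) (labIs S (S.lst - 2) 2) false = true)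
    have hv1 : hasV S (S.lst - 1) = true := by
      rw [hasV_iff]
      exact ⟨by omega, by omega⟩
    have hv2 : hasV S (S.lst - 2) = true := by
      rw [hasV_iff]
      exact ⟨by omega, by omega⟩
    have hA : C.A (S.lst - 3) := lab_A C S hS _ h1
    have hD : ¬ C.A (S.lst - 2) := lab_D C S hS _ h2
    rw [hlb, Vc.toR_add, dot3_add, xv C S hS _ hv1, xv C S hS _ hv2]
    obtain ⟨m, hm⟩ : ∃ m, S.lst = m + 3 := ⟨S.lst - 3, by omega⟩
    rw [hm] at hA hD ⊢
    have e1 : m + 3 - 3 = m := by omega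
    have e2 : m + 3 - 2 = m + 1 := by omega
    have e3 : m + 3 - 1 = m + 2 := by omega
    rw [e1] at hA
    rw [e2] at hD
    rw [e2, e3]
    have hvv := lab_viol C m hA hD
    have h4 : C.x (m + 2) + C.x (m + 1) ≤ C.x (m + 4) := C.no_two m hvv
    refine ⟨h4, fun hf => absurd hf (by simp)⟩

theorem yOk_sound (C : Ctx) (S : St) (hS : Holds C S) (fs : List Fact)
    (hf : ∀ f ∈ fs, Fact.ok C f) (y : Vc) (lev : ℕ) (c1 c2 : FL)
    (h : yOk S fs y lev c1 c2 = true) : Lev.ok C ⟨y, lev⟩ := by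
  have hl := hS.hlst
  have hk := hS.hk
  obtain ⟨hsm, h⟩ := cond_f h
  have hnz : y.toZ ≠ 0 := by
    intro hz
    rw [(Vc.isZero_iff y).mpr hz] at h
    exact absurd h (by simp)
  rcases hiz : Vc.isZero y with _ | _
  swap
  · exact absurd ((Vc.isZero_iff y).mp hiz) hnz
  rw [hiz, cond_false] at h
  have hbest : ∀ m : ℕ, |dot3 C.X y.toR| < C.x (m + 1) → C.r m ≤ C.ν y.toR := by
    intro m hm
    have := C.best m y.toZ hnz (by rw [Vc.cast3_toZ]; exact hm)
    rw [Vc.cast3_toZ] at this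
    exact this
  rcases hisz : isZ S y lev with _ | _
  · rw [hisz, cond_false] at h
    rcases hlev : Nat.beq lev S.lst with _ | _
    · rw [hlev, cond_false] at h
      obtain ⟨hv, h⟩ := cond_f h
      obtain ⟨h1, h2⟩ := cond_f h
      have hv' : lev + 1 ≤ S.lst := ((hasV_iff S (lev + 1)).mp hv).2
      have g1 := (fark_sound C fs hf _ _ _ h1).2 rfl
      have g2 := (fark_sound C fs hf _ _ _ h2).2 rfl
      rw [Vc.toR_sub, dot3_sub, xv C S hS _ hv] at g1
      rw [Vc.toR_add, dot3_add, xv C S hS _ hv] at g2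
      refine ⟨hsm, (by show lev ≤ 1000; omega), ?_⟩
      apply hbest
      show |dot3 C.X y.toR| < C.x (Nat.succ lev)
      rw [abs_lt]
      constructor <;> linarith
    · rw [hlev, cond_true] at h
      have hle : lev = S.lst := beq_t hlev
      obtain ⟨h1, h2⟩ := cond_f h
      have g1 := fark_sound C fs hf _ _ _ h1
      have g2 := fark_sound C fs hf _ _ _ h2
      rw [Vc.toR_sub, dot3_sub] at g1
      rw [Vc.toR_add, dot3_add] at g2
      have hnx := nextLB_le C S hS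
      refine ⟨hsm, (by show lev ≤ 1000; omega), ?_⟩
      apply hbest
      rw [hle, abs_lt]
      rcases hns : nextStrict S with _ | _
      · have := hnx.2 hns
        constructor <;> linarith [g1.1, g2.1]
      · have := hnx.1
        constructor <;> linarith [g1.2 hns, g2.2 hns]
  · obtain ⟨hv, hz⟩ := cond_f hisz
    have hv' : lev ≤ S.lst := ((hasV_iff S lev).mp hv).2
    refine ⟨hsm, (by show lev ≤ 1000; omega), ?_⟩
    show C.r lev ≤ C.ν y.toR
    rcases hz1 : Vc.eqv y (vec S lev) with _ | _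
    · rw [hz1, cond_false] at hz
      rw [Vc.eqv_iff, hS.zs lev hv, Vc.toZ_neg] at hz
      have : y.toR = -cast3 (C.z lev) := by
        rw [← hz, cast3_neg, neg_neg, Vc.cast3_toZ]
      rw [this, map_neg_eq_map]
      exact le_refl _
    · rw [Vc.eqv_iff, hS.zs lev hv] at hz1
      have : y.toR = cast3 (C.z lev) := by
        rw [← hz1, Vc.cast3_toZ]
      rw [this]
      exact le_refl _

theorem yd_sound (C : Ctx) (S : St) (hS : Holds C S) (fs : List Fact)
    (hf : ∀ f ∈ fs, Fact.ok C f) (l : YD) (h : ydOk S fs l = true) :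
    ∀ y ∈ ydV S.ys l, Lev.ok C y := by
  induction l with
  | nil => exact hS.ys
  | c y lev c1 c2 r ih =>
    unfold ydOk at h
    dsimp only at h
    obtain ⟨h1, h2⟩ := cond_f h
    intro v hv
    have hv' : v ∈ List.cons (⟨pVc y, lev⟩ : Lev) (ydV S.ys r) := hv
    rcases List.mem_cons.mp hv' with rfl | hv''
    · exact yOk_sound C S hS fs hf _ _ _ _ h1
    · exact ih h2 v hv''

/-! ### Gaps -/

/-- Label D at `lst - 1`, label A at `j`: bound for the height of the vector number `lst + 1`. -/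
theorem formG_lt (C : Ctx) (S : St) (hS : Holds C S) (j : ℕ) (h : jOk S j = true) :
    (kapT j (S.lst - 1) : ℝ) * C.x (S.lst + 1) < dot3 C.X (formG S j).toR := by
  have hl := hS.hlst
  have hk := hS.hk
  obtain ⟨h1, h2⟩ := cond_f h
  obtain ⟨h2, h3⟩ := cond_f h2
  obtain ⟨h3, h4⟩ := cond_f h3
  obtain ⟨h4, h5⟩ := cond_f h4
  have h4' : hasV S (j + 2) = true := h4
  have hj1 : hasV S (j + 1) = true := by
    rw [hasV_iff] at h3 h4' ⊢
    exact ⟨by omega, by omega⟩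
  have hll : hasV S S.lst = true := by
    rw [hasV_iff]
    exact ⟨by omega, le_refl _⟩
  have hA := lab_A C S hS _ h1
  have hD : ¬ C.A (S.lst - 1) := lab_D C S hS _ h2
  have h5' : hasV S (S.lst - 1) = true := h5
  have hf := formT_le C j (S.lst - 1) (vec S j) (vec S (j + 1)) (vec S (j + 2))
    (vec S (S.lst - 1)) (vec S S.lst) Vc.zero
  rw [xv C S hS _ h3, xv C S hS _ hj1, xv C S hS _ h4', xv C S hS _ h5', xv C S hS _ hll,
    Vc.toR_zero, dot3_zero] at hf
  have hlt := lab_lt C j (S.lst - 1) hA hD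
  obtain ⟨m, hm⟩ : ∃ m, S.lst = m + 1 := ⟨S.lst - 1, by omega⟩
  have hG : formG S j = formT j (S.lst - 1) (vec S j) (vec S (j + 1)) (vec S (j + 2))
    (vec S (S.lst - 1)) (vec S S.lst) Vc.zero := rfl
  rw [hG]
  refine lt_of_lt_of_le ?_ hf
  have hkap := kapT_le C j (S.lst - 1)
  rw [hm] at hlt hkap ⊢
  have e1 : m + 1 - 1 = m := by omega
  rw [e1] at hlt hkap ⊢
  simp only [Ctx.P] at hlt
  have hx := C.x_pos' (m + 2)
  have hkx := mul_le_mul_of_nonneg_right hkap hx.le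
  have hz : C.φ ^ ((j : ℤ) + 1 - (m : ℤ)) = C.φ ^ ((j : ℤ) - (m : ℤ)) * C.φ := by
    rw [← zpow_add_one₀ C.φ_pos.ne']
    congr 1
    ring
  rw [hz] at hkx
  have e2 : C.x (m + 1 + 1) = C.x (m + 2) := rfl
  rw [e2]
  nlinarith

theorem gapOk_sound (C : Ctx) (S : St) (hS : Holds C S) (fs : List Fact)
    (hf : ∀ f ∈ fs, Fact.ok C f) (i m j : ℕ) (c : FL)
    (h : gapOk S fs i m j c = true) : Gap.ok C ⟨i, m, S.lst + 1⟩ := by
  obtain ⟨h1, h2⟩ := cond_f h
  obtain ⟨h2, h3⟩ := cond_f h2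
  obtain ⟨h3, h4⟩ := cond_f h3
  have hG := formG_lt C S hS j h1
  have hF := (fark_sound C fs hf _ _ _ h4).1
  rw [Vc.toR_sub, Vc.toR_smul, Vc.toR_add, dot3_sub, dot3_smul, dot3_add, xv C S hS _ h2,
    xv C S hS _ h3] at hF
  have hF' : 0 ≤ (kapT j (S.lst - 1) : ℝ) * (C.x m + C.x (i + 1)) - dot3 C.X (formG S j).toR := hF
  have hkap : (0 : ℝ) ≤ (kapT j (S.lst - 1) : ℝ) := Nat.cast_nonneg _
  have hlt : C.x (S.lst + 1) < C.x m + C.x (i + 1) := by
    by_contra hc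
    push Not at hc
    have := mul_le_mul_of_nonneg_left hc hkap
    linarith
  have hm : m ≤ S.lst := ((hasV_iff S m).mp h3).2
  have hxm : C.x m < C.x (S.lst + 1) := C.x_strictMono (by omega)
  have hd : dot3 C.X (cast3 (C.z (S.lst + 1) - C.z m)) = C.x (S.lst + 1) - C.x m := by
    rw [cast3_sub, dot3_sub]
    rfl
  have hw : C.z (S.lst + 1) - C.z m ≠ 0 := by
    intro hw
    rw [hw] at hd
    have : cast3 0 = 0 := by simp [cast3]
    rw [this, dot3_zero] at hd
    linarith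
  have hb := C.best i (C.z (S.lst + 1) - C.z m) hw (by
    rw [hd, abs_of_pos (by linarith)]
    show _ < C.x (i + 1)
    linarith)
  show C.ν (cast3 (C.z i)) ≤ C.ν (cast3 (C.z m)) + C.ν (cast3 (C.z (S.lst + 1)))
  refine le_trans hb ?_
  rw [cast3_sub]
  have := map_sub_le_add C.ν (cast3 (C.z (S.lst + 1))) (cast3 (C.z m))
  linarith

theorem gd_sound (C : Ctx) (S : St) (hS : Holds C S) (fs : List Fact)
    (hf : ∀ f ∈ fs, Fact.ok C f) (l : GD) (h : gdOk S fs l = true) :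
    ∀ g ∈ gdV S l, Gap.ok C g := by
  induction l with
  | nil => exact hS.gs
  | c i m j c r ih =>
    obtain ⟨h1, h2⟩ := cond_f (h : cond (gapOk S fs i m j c) (gdOk S fs r) false = true)
    intro v hv
    have hv' : v ∈ List.cons (⟨i, m, Nat.succ S.lst⟩ : Gap) (gdV S r) := hv
    rcases List.mem_cons.mp hv' with rfl | hv''
    · exact gapOk_sound C S hS fs hf _ _ _ _ h1
    · exact ih h2 v hv''

end Pool.Agent.Helper54.Cert
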