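import Pool.Agent.Lib.Helper54.S18919.Leaf

/-!
# States, height facts, Farkas certificates (definitions only)

Indices are absolute: the violation is at index 64. Labels: 1 = A (large), 2 = D (small), 0 = unknown.
-/

set_option autoImplicit false

namespace Pool.Agent.Helper54.Cert

noncomputable section

/-- After a drop at `i` the labels `i - cJ, ..., i` are all A. -/
def cJ : Nat := 3
/-- There are no `cK` consecutive labels D. -/
def cK : Nat := 7

/-- State of the search: `k` past vectors, chain `zs` with indices `64 - k, ..., lst`; labels `ls` with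
indices `64 - kl, ..., lh`; height facts; planar lower bounds; gap facts; trees of cells. -/
structure St where
  k : Nat
  lst : Nat
  zs : List Vc
  kl : Nat
  lh : Nat
  ls : List Nat
  fs : List Fact
  ys : List Lev
  gs : List Gap
  t1 : CT
  t2 : CT

/-- The vector with absolute index `i` is known. -/
def hasV (S : St) (i : Nat) : Bool := cond (Nat.ble 64 (Nat.add i S.k)) (Nat.ble i S.lst) false

def vec (S : St) (i : Nat) : Vc := get Vc.zero S.zs (Nat.sub (Nat.add i S.k) 64)

/-- The label with absolute index `i`. -/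
def lab (S : St) (i : Nat) : Nat :=
  cond (Nat.ble 64 (Nat.add i S.kl)) (get 0 S.ls (Nat.sub (Nat.add i S.kl) 64)) 0

def labIs (S : St) (i l : Nat) : Bool := Nat.beq (lab S i) l

/-- Class modulo two of a vector. -/
def cls2 (v : Vc) : Nat :=
  Nat.add (Nat.land (Nat.add v.ap v.an) 1)
    (Nat.add (Nat.mul 2 (Nat.land (Nat.add v.bp v.bn) 1)) (Nat.mul 4 (Nat.land (Nat.add v.up v.un) 1)))

/-! ### Powers of the plastic number -/

/-- Multiplication by `φ` in the basis `1, φ, φ²` (fields `a, b, u`). -/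
def mulPhi (v : Vc) : Vc := ⟨v.up, v.un, Nat.add v.ap v.up, Nat.add v.an v.un, v.bp, v.bn⟩
/-- Multiplication by `φ⁻¹`. -/
def divPhi (v : Vc) : Vc := ⟨Nat.add v.bp v.an, Nat.add v.bn v.ap, v.up, v.un, v.ap, v.an⟩

/-- `φ ^ (a - b)`. -/
def phiPow (a b : Nat) : Vc :=
  cond (Nat.ble b a)
    (Nat.rec (motive := fun _ => Vc) ⟨1, 0, 0, 0, 0, 0⟩ (fun _ v => Vc.norm (mulPhi v)) (Nat.sub a b))
    (Nat.rec (motive := fun _ => Vc) ⟨1, 0, 0, 0, 0, 0⟩ (fun _ v => Vc.norm (divPhi v)) (Nat.sub b a))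

/-- `2 ^ 40 φ` lies between `cPLO` and `cPLO + 1`, and `2 ^ 40 φ²` between `cRLO` and `cRHI`. -/
def cPLO : Nat := 1456542797514
def cRLO : Nat := 1929508399361
def cRHI : Nat := 1929508399365

/-- Upper bound for `2 ^ 16 (s₀ + s₁ φ + s₂ φ²)`; `s` is normalized first. -/
def upQ (s : Vc) : Z2 :=
  (fun s : Vc => ⟨Nat.shiftRight (Nat.add (Nat.add (Nat.mul s.ap (Nat.pow 2 40))
      (Nat.add (Nat.mul s.bp (Nat.succ cPLO)) (Nat.mul s.up cRHI))) 16777215) 24,
    Nat.shiftRight (Nat.add (Nat.mul s.an (Nat.pow 2 40))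
      (Nat.add (Nat.mul s.bn cPLO) (Nat.mul s.un cRLO))) 24⟩) (Vc.norm s)

/-- `w₀ + w₂ φ + w₁ φ²` minus `P (v₀ + v₂ φ + v₁ φ²)` for one coordinate, as an element of `ℤ[φ]`. -/
def coordT (w0 w1 w2 v0 v1 v2 : Z2) (P P1 P2 : Vc) : Vc :=
  Vc.sub ⟨w0.p, w0.n, w2.p, w2.n, w1.p, w1.n⟩
    (Vc.add (Vc.zsmul v0 P) (Vc.add (Vc.zsmul v1 P2) (Vc.zsmul v2 P1)))

/-- The form `2 ^ 16 φ^j (Φ_j - Φ_i)` (upper approximation) for the vectors `w₀ w₁ w₂` (index `j`) and
`v₀ v₁ v₂` (index `i`). -/
def formT (j i : Nat) (w0 w1 w2 v0 v1 v2 : Vc) : Vc :=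
  (fun P P1 P2 : Vc =>
    (fun x y z : Z2 => Vc.norm ⟨x.p, x.n, y.p, y.n, z.p, z.n⟩)
      (upQ (coordT ⟨w0.ap, w0.an⟩ ⟨w1.ap, w1.an⟩ ⟨w2.ap, w2.an⟩
        ⟨v0.ap, v0.an⟩ ⟨v1.ap, v1.an⟩ ⟨v2.ap, v2.an⟩ P P1 P2))
      (upQ (coordT ⟨w0.bp, w0.bn⟩ ⟨w1.bp, w1.bn⟩ ⟨w2.bp, w2.bn⟩
        ⟨v0.bp, v0.bn⟩ ⟨v1.bp, v1.bn⟩ ⟨v2.bp, v2.bn⟩ P P1 P2))
      (upQ (coordT ⟨w0.up, w0.un⟩ ⟨w1.up, w1.un⟩ ⟨w2.up, w2.un⟩
        ⟨v0.up, v0.un⟩ ⟨v1.up, v1.un⟩ ⟨v2.up, v2.un⟩ P P1 P2)))
    (phiPow j i) (phiPow (Nat.succ j) i) (phiPow (Nat.succ (Nat.succ j)) i)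

/-- Lower bound for `2 ^ 16 φ ^ (j + 1 - i)`. -/
def kapT (j i : Nat) : Nat :=
  (fun x : Z2 => Nat.sub x.n x.p) (upQ (Vc.neg (phiPow (Nat.succ j) i)))

/-! ### Height facts -/

/-- A violation at index `i` is excluded (`i .. i + 3` known): the vectors do not satisfy the relation, or
there is a violation at a neighbouring index. -/
def nvOk (S : St) (i : Nat) : Bool :=
  cond (Vc.eqv (vec S (Nat.add i 3)) (Vc.sub (Vc.add (vec S (Nat.add i 1)) (vec S (Nat.add i 2))) (vec S i)))
    (or (and (labIs S (Nat.add i 1) 1) (labIs S (Nat.add i 2) 2))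
      (and (labIs S (Nat.sub i 1) 1) (labIs S i 2)))
    true

/-- The height fact of kind `t` with parameters `a b c` is available. -/
def factOk (S : St) (t a b c : Nat) : Bool :=
  get false
    [ -- 0: order
      cond (hasV S a) (hasV S (Nat.succ a)) false,
      -- 1: same class
      cond (below a b) (cond (hasV S a) (cond (hasV S b)
        (Nat.beq (cls2 (vec S a)) (cls2 (vec S b))) false) false) false,
      -- 2: Fano line
      cond (below a b) (cond (below b c) (cond (hasV S a) (cond (hasV S c)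
        (Nat.beq (Nat.xor (cls2 (vec S a)) (cls2 (vec S b))) (cls2 (vec S c)))
        false) false) false) false,
      -- 3: no violation
      cond (hasV S a) (cond (hasV S (Nat.add a 3)) (nvOk S a) false) false,
      -- 4: labels A at a, D at b
      cond (labIs S a 1) (cond (labIs S b 2) (cond (hasV S a) (cond (hasV S (Nat.add a 2))
        (cond (hasV S b) (hasV S (Nat.add b 2)) false) false) false) false) false,
      -- 5: first height positive
      cond (Nat.beq (Nat.add a S.k) 64) (hasV S a) false,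
      -- 6: label A just before the first vector, D at b
      cond (Nat.beq (Nat.add a S.k) 63) (cond (labIs S a 1) (cond (labIs S b 2)
        (cond (hasV S b) (cond (hasV S (Nat.add b 2)) (hasV S (Nat.add a 2)) false) false)
        false) false) false,
      -- 7: label D just before the first vector (index a)
      cond (Nat.beq (Nat.add a S.k) 63) (cond (labIs S a 2) (hasV S (Nat.add a 2)) false) false ]
    t

/-- The height fact of kind `t` with parameters `a b c`. -/
def factV (S : St) (t a b c : Nat) : Fact :=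
  get ⟨Vc.zero, false⟩
    [ ⟨Vc.norm (Vc.sub (vec S (Nat.succ a)) (vec S a)), true⟩,
      ⟨Vc.norm (Vc.sub (Vc.sub (vec S b) (vec S a)) (Vc.smul 2 (vec S (Nat.succ a)))), false⟩,
      ⟨Vc.norm (Vc.sub (Vc.sub (vec S c) (vec S a)) (vec S b)), false⟩,
      ⟨Vc.norm (Vc.sub (Vc.sub (vec S (Nat.add a 3)) (vec S (Nat.add a 1))) (vec S a)), false⟩,
      ⟨formT a b (vec S a) (vec S (Nat.add a 1)) (vec S (Nat.add a 2))
        (vec S b) (vec S (Nat.add b 1)) (vec S (Nat.add b 2)), true⟩,
      ⟨vec S a, true⟩,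
      ⟨formT a b (vec S (Nat.add a 1)) (vec S (Nat.add a 1)) (vec S (Nat.add a 2))
        (vec S b) (vec S (Nat.add b 1)) (vec S (Nat.add b 2)), true⟩,
      ⟨Vc.norm (Vc.sub (Vc.smul 2 (vec S (Nat.add a 1))) (vec S (Nat.add a 2))), true⟩ ]
    t

/-- List of descriptors of new height facts. -/
inductive FD where
  | nil : FD
  | c (t a b c : Nat) (r : FD) : FD

def fdOk (S : St) (l : FD) : Bool :=
  FD.rec (motive := fun _ => Bool) true (fun t a b c _ ih => cond (factOk S t a b c) ih false) l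

def fdV (S : St) (l : FD) : List Fact :=
  FD.rec (motive := fun _ => List Fact) S.fs (fun t a b c _ ih => List.cons (factV S t a b c) ih) l

/-! ### Farkas certificates -/

/-- Certificate: `mu * L` dominates `Σ l_i f_i`; the list of terms ends with `mu`. -/
inductive FL where
  | z (mu : Nat) : FL
  | t (i l : Nat) (r : FL) : FL

/-- Coordinatewise comparison `y ≤ x`. -/
def geV (x y : Vc) : Bool :=
  cond (Nat.ble (Nat.add x.an y.ap) (Nat.add x.ap y.an))
    (cond (Nat.ble (Nat.add x.bn y.bp) (Nat.add x.bp y.bn))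
      (Nat.ble (Nat.add x.un y.up) (Nat.add x.up y.un)) false) false

/-- Some coordinate of `y` is smaller than that of `x`. -/
def gtV (x y : Vc) : Bool :=
  cond (Nat.ble (Nat.add x.ap y.an) (Nat.add x.an y.ap))
    (cond (Nat.ble (Nat.add x.bp y.bn) (Nat.add x.bn y.bp))
      (Nat.ble (Nat.succ (Nat.add x.un y.up)) (Nat.add x.up y.un)) true) true

/-- `mu * L` dominates `acc` plus the remaining terms; `b`: a strict fact has been used with positive weight;
`st`: strictness is wanted; `nz`: `mu` must be positive. -/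
def farkR (fs : List Fact) (L : Vc) (st nz : Bool) (c : FL) : Vc → Bool → Bool :=
  FL.rec (motive := fun _ => Vc → Bool → Bool)
    (fun mu acc b => cond (cond nz (Nat.ble 1 mu) true)
      (cond (geV (Vc.smul mu L) acc) (cond st (cond b true (gtV (Vc.smul mu L) acc)) true) false) false)
    (fun i l _ ih acc b => (fun F : Fact => ih (Vc.add acc (Vc.smul l F.f))
        (cond b true (cond F.strict (Nat.ble 1 l) false))) (get ⟨Vc.zero, false⟩ fs i))
    c

/-- Certified `0 ≤ L` (or `0 < L` if `st`). -/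
def fark (fs : List Fact) (L : Vc) (st : Bool) (c : FL) : Bool := farkR fs L st true c Vc.zero false

/-- Certified contradiction. -/
def dead (fs : List Fact) (c : FL) : Bool := farkR fs Vc.zero true false c Vc.zero false

/-! ### Planar lower bounds and gaps -/

/-- A signed number of 16 bits (offset `32768`). -/
def sgn16 (v : Nat) : Z2 := (fun w : Nat => ⟨Nat.sub w 32768, Nat.sub 32768 w⟩) (Nat.land v 65535)

/-- A vector: three signed numbers. -/
def pVc (s : Nat) : Vc :=
  (fun x y z : Z2 => ⟨x.p, x.n, y.p, y.n, z.p, z.n⟩)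
    (sgn16 s) (sgn16 (Nat.shiftRight s 16)) (sgn16 (Nat.shiftRight s 32))

/-- Bound for the height of the vector number `lst + 1`: it is at least this form (`true`), or larger than
this form (`false`). -/
def nextStrict (S : St) : Bool :=
  cond (labIs S (Nat.sub S.lst 3) 1) (labIs S (Nat.sub S.lst 2) 2) false

def nextLB (S : St) : Vc :=
  cond (nextStrict S) (Vc.add (vec S (Nat.sub S.lst 1)) (vec S (Nat.sub S.lst 2))) (vec S S.lst)

/-- `y = ± z lev`. -/
def isZ (S : St) (y : Vc) (lev : Nat) : Bool :=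
  cond (hasV S lev) (cond (Vc.eqv y (vec S lev)) true (Vc.eqv (Vc.neg y) (vec S lev))) false

/-- `ν y ≥ ν (z lev)` since `|x y| < x (lev + 1)`. -/
def yOk (S : St) (fs : List Fact) (y : Vc) (lev : Nat) (c1 c2 : FL) : Bool :=
  cond (smallV 1024 y) (cond (Vc.isZero y) false
    (cond (isZ S y lev) true (cond (Nat.beq lev S.lst)
      (cond (fark fs (Vc.sub (nextLB S) y) (nextStrict S) c1)
        (fark fs (Vc.add (nextLB S) y) (nextStrict S) c2) false)
      (cond (hasV S (Nat.succ lev))
        (cond (fark fs (Vc.sub (vec S (Nat.succ lev)) y) true c1)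
          (fark fs (Vc.add (vec S (Nat.succ lev)) y) true c2) false) false)))) false

inductive YD where
  | nil : YD
  | c (y lev : Nat) (c1 c2 : FL) (r : YD) : YD

def ydOk (S : St) (fs : List Fact) (l : YD) : Bool :=
  YD.rec (motive := fun _ => Bool) true
    (fun y lev c1 c2 _ ih => cond (yOk S fs (pVc y) lev c1 c2) ih false) l

def ydV (ys : List Lev) (l : YD) : List Lev :=
  YD.rec (motive := fun _ => List Lev) ys (fun y lev _ _ _ ih => List.cons ⟨pVc y, lev⟩ ih) l

/-- The form `2 ^ 16 φ^j (Φ_j - Φ_{lst - 1})` without the term of the unknown vector number `lst + 1`. -/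
def formG (S : St) (j : Nat) : Vc :=
  formT j (Nat.sub S.lst 1) (vec S j) (vec S (Nat.add j 1)) (vec S (Nat.add j 2))
    (vec S (Nat.sub S.lst 1)) (vec S S.lst) Vc.zero

/-- Label A at `j` with known vectors, label D at `lst - 1`. -/
def jOk (S : St) (j : Nat) : Bool :=
  cond (labIs S j 1) (cond (labIs S (Nat.sub S.lst 1) 2) (cond (hasV S j)
    (cond (hasV S (Nat.add j 2)) (hasV S (Nat.sub S.lst 1)) false) false) false) false

/-- `ν (z i) ≤ ν (z m) + ν (z (lst + 1))`. -/
def gapOk (S : St) (fs : List Fact) (i m j : Nat) (c : FL) : Bool :=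
  cond (jOk S j) (cond (hasV S (Nat.succ i)) (cond (hasV S m)
    (fark fs (Vc.sub (Vc.smul (kapT j (Nat.sub S.lst 1)) (Vc.add (vec S m) (vec S (Nat.succ i))))
      (formG S j)) false c) false) false) false

inductive GD where
  | nil : GD
  | c (i m j : Nat) (c : FL) (r : GD) : GD

def gdOk (S : St) (fs : List Fact) (l : GD) : Bool :=
  GD.rec (motive := fun _ => Bool) true
    (fun i m j c _ ih => cond (gapOk S fs i m j c) ih false) l

def gdV (S : St) (l : GD) : List Gap :=
  GD.rec (motive := fun _ => List Gap) S.gs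
    (fun i m _ _ _ ih => List.cons ⟨i, m, Nat.succ S.lst⟩ ih) l

end

end Pool.Agent.Helper54.Cert
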