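import Pool.Agent.Lib.Helper54.S18919.Defs

/-!
# The planar leaf check (definitions only)

The values of a determinant at the three corners of a cell are packed in one number (a *block*): three
subdigits of 96 bits. Planar vectors are packed with blocks of 288 bits.
-/

set_option autoImplicit false

namespace Pool.Agent.Helper54.Cert

noncomputable section

/-- top bits of the three subdigits of a block -/
def cH : Nat := Nat.mul (Nat.pow 2 95) (Nat.add 1 (Nat.add (Nat.pow 2 96) (Nat.pow 2 192)))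
/-- `X ^ 9` with `X = 2 ^ 288` -/
def cX9 : Nat := Nat.pow 2 2592
/-- `X ^ 7 * H + X ^ 7 / 2` -/
def cO : Nat := Nat.add (Nat.mul (Nat.pow 2 2016) cH) (Nat.pow 2 2015)
/-- `X - 1` -/
def cM : Nat := Nat.sub (Nat.pow 2 288) 1
/-- `X ^ 3 - 1` -/
def cM3 : Nat := Nat.sub (Nat.pow 2 864) 1
/-- `X ^ 7 - 1` -/
def cM7 : Nat := Nat.sub (Nat.pow 2 2016) 1
/-- mask for a record of 3072 bits -/
def cMR : Nat := Nat.sub (Nat.pow 2 3072) 1
/-- `1 + X + ... + X ^ 23` -/
def cOnes : Nat := Nat.div (Nat.sub (Nat.pow 2 6912) 1) cM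
def cHH : Nat := Nat.mul cH cOnes

/-- Planar code of a vector `w`: the integers `w_a + w_b X + w_u X^2` and `w_a + w_b X^3 + w_u X^6` up to a
common sign. -/
structure Pc where
  q1 : Nat
  q3 : Nat

def enc (s a b u : Nat) : Nat :=
  Nat.add a (Nat.add (Nat.shiftLeft b s) (Nat.shiftLeft u (Nat.mul 2 s)))

def pcOf (v : Vc) : Pc :=
  cond (Nat.ble (enc 288 v.an v.bn v.un) (enc 288 v.ap v.bp v.up))
    ⟨Nat.sub (enc 288 v.ap v.bp v.up) (enc 288 v.an v.bn v.un),
      Nat.sub (enc 864 v.ap v.bp v.up) (enc 864 v.an v.bn v.un)⟩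
    ⟨Nat.sub (enc 288 v.an v.bn v.un) (enc 288 v.ap v.bp v.up),
      Nat.sub (enc 864 v.an v.bn v.un) (enc 864 v.ap v.bp v.up)⟩

/-- A record of 3072 bits: `q1` (864 bits), `q3` (2016 bits), `lev` (192 bits). -/
def recOf (p : Pc) (lev : Nat) : Nat :=
  Nat.add p.q1 (Nat.add (Nat.shiftLeft p.q3 864) (Nat.shiftLeft lev 2880))

def packC (l : List Vc) : Nat :=
  List.rec (motive := fun _ => Nat) 0
    (fun h _ ih => Nat.add (recOf (pcOf h) 0) (Nat.shiftLeft ih 3072)) l

/-- The level is stored as `1000 - lev`. -/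
def packY (l : List Lev) : Nat :=
  List.rec (motive := fun _ => Nat) 0
    (fun h _ ih => Nat.add (recOf (pcOf h.y) (Nat.sub 1000 h.lev)) (Nat.shiftLeft ih 3072)) l

def fetch (a i : Nat) : Nat := Nat.land (Nat.shiftRight a (Nat.mul 3072 i)) cMR

def pack3 (x y z : Nat) : Nat := Nat.add x (Nat.add (Nat.shiftLeft y 96) (Nat.shiftLeft z 192))

/-- Packed corners: `K_a + K_u X^4 + K_b X^5`. -/
def kOf (T : Tri) : Nat :=
  Nat.add (pack3 T.c1.a T.c2.a T.c3.a)
    (Nat.add (Nat.shiftLeft (pack3 T.c1.u T.c2.u T.c3.u) 1152)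
      (Nat.shiftLeft (pack3 T.c1.b T.c2.b T.c3.b) 1440))

/-- Block with the three subdigits `2 ^ 95 ± det (c, p, q)`. -/
def blk (p1 p3 q1 q3 kp : Nat) : Nat :=
  Nat.land (Nat.shiftRight
    (Nat.add (Nat.mul (Nat.sub (Nat.add (Nat.mul p1 q3) cX9) (Nat.mul q1 p3)) kp) cO) 2016) cM

/-- `X ^ m + ... + X ^ 23` -/
def cS (m : Nat) : Nat :=
  Nat.shiftLeft (Nat.shiftRight cOnes (Nat.mul 288 m)) (Nat.mul 288 m)

/-- A row of a planar leaf: the Cramer inequality for the vector number `yi - 1` of the table and the chain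
vectors `i`, `j`, with multiplier `lam`; `yi = 0` is the gap inequality number `i`. -/
structure Row where
  yi : Nat
  i : Nat
  j : Nat
  sg : Nat
  lam : Nat

/-- `n` rows of `25 + w` bits each (`MR = 2 ^ (25 + w)`). -/
def pRows (n MR : Nat) : Nat → List Row :=
  Nat.rec (motive := fun _ => Nat → List Row) (fun _ => [])
    (fun _ ih s => List.cons
      ⟨Nat.land s 1023, Nat.land (Nat.shiftRight s 10) 31, Nat.land (Nat.shiftRight s 15) 31,
        Nat.land (Nat.shiftRight s 20) 31, Nat.shiftRight (Nat.mod s MR) 25⟩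
      (ih (Nat.div s MR))) n

/-- Data of a planar leaf check: packed chain and table, packed corners, position and weight of the virtual
vector (if any; position 31 means none), absolute index of the first chain vector, gap table, choice of the
endpoint (`e` is 0 or 2), and `fl = 1` if the packed virtual vector has been negated. -/
structure LC where
  ca : Nat
  ya : Nat
  kp : Nat
  pi : Nat
  nu : Nat
  off : Nat
  gs : List Gap
  e : Nat
  fl : Nat

/-- `1` if `pcOf` negates the vector. -/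
def flipOf (v : Vc) : Nat :=
  cond (Nat.ble (enc 288 v.an v.bn v.un) (enc 288 v.ap v.bp v.up)) 0 1

/-- Correction of the orientation bit for rows with the virtual vector. -/
def flR (pi fl i j : Nat) : Nat := cond (Nat.beq i pi) fl (cond (Nat.beq j pi) fl 0)

def wt (pi nu i lam : Nat) : Nat := cond (Nat.beq i pi) (Nat.mul nu lam) lam

def okB (b : Nat) : Bool := Nat.beq (Nat.land b cH) cH

/-- Ordinary row. -/
def ordK (X : LC) (r : Row) (ry ri rj : Nat) (Gp Gn : Nat) (k : Nat → Nat → Bool) : Bool :=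
  (fun y1 y3 i1 i3 j1 j3 =>
    (fun b1 b2 b3 =>
      cond (okB b1) (cond (okB b2) (cond (okB b3)
        (k (Nat.add Gp (Nat.mul (Nat.mul r.lam (Nat.sub b1 cH))
            (cS (Nat.sub (Nat.sub 1000 X.off) (Nat.shiftRight ry 2880)))))
          (Nat.add Gn (Nat.add
            (Nat.mul (Nat.mul (wt X.pi X.nu r.i r.lam) (Nat.sub b2 cH)) (cS r.i))
            (Nat.mul (Nat.mul (wt X.pi X.nu r.j r.lam) (Nat.sub b3 cH)) (cS r.j)))))
        false) false) false)
      (cond (Nat.beq (Nat.land (Nat.add r.sg (flR X.pi X.fl r.i r.j)) 1) 0)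
        (blk i1 i3 j1 j3 X.kp) (blk j1 j3 i1 i3 X.kp))
      (cond (Nat.beq (Nat.land (Nat.shiftRight r.sg X.e) 2) 0)
        (blk y1 y3 j1 j3 X.kp) (blk j1 j3 y1 y3 X.kp))
      (cond (Nat.beq (Nat.land (Nat.shiftRight r.sg X.e) 4) 0)
        (blk y1 y3 i1 i3 X.kp) (blk i1 i3 y1 y3 X.kp)))
    (Nat.land ry cM3) (Nat.land (Nat.shiftRight ry 864) cM7)
    (Nat.land ri cM3) (Nat.land (Nat.shiftRight ri 864) cM7)
    (Nat.land rj cM3) (Nat.land (Nat.shiftRight rj 864) cM7)

/-- Gap row. -/
def gapK (X : LC) (lam : Nat) (g : Gap) (Gp Gn : Nat) (k : Nat → Nat → Bool) : Bool :=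
  cond (Nat.ble X.off g.m) (cond (Nat.ble X.off g.l)
    (cond (Nat.ble (Nat.succ g.m) (Nat.add X.off 24)) (cond (Nat.ble (Nat.succ g.l) (Nat.add X.off 24))
      (k (Nat.add Gp (Nat.mul (Nat.mul lam (Nat.land X.kp cM)) (cS (Nat.sub g.i X.off))))
        (Nat.add Gn (Nat.mul (Nat.mul lam (Nat.land X.kp cM))
          (Nat.add (cS (Nat.sub g.m X.off)) (cS (Nat.sub g.l X.off))))))
      false) false) false) false

def rowK (X : LC) (r : Row) (Gp Gn : Nat) (k : Nat → Nat → Bool) : Bool :=
  Nat.rec (motive := fun _ => Bool)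
    (gapK X r.lam (get ⟨0, 0, 0⟩ X.gs r.i) Gp Gn k)
    (fun y _ => ordK X r (fetch X.ya y) (fetch X.ca r.i) (fetch X.ca r.j) Gp Gn k)
    r.yi

/-- Fold over the rows, then compare all prefix sums; `E` marks one strict position for each corner. -/
def foldK (X : LC) (E : Nat) (l : List Row) : Nat → Nat → Bool :=
  List.rec (motive := fun _ => Nat → Nat → Bool)
    (fun Gp Gn => Nat.beq (Nat.land (Nat.sub (Nat.add Gp cHH) (Nat.add Gn E)) cHH) cHH)
    (fun r _ ih Gp Gn => rowK X r Gp Gn ih) l

/-- Unit at subdigit `c` of block `m` (`m < 24`). -/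
def eOf (c m : Nat) : Nat := Nat.shiftLeft 1 (Nat.add (Nat.mul 96 c) (Nat.mul 288 m))

def below (i n : Nat) : Bool := Nat.ble (Nat.succ i) n

/-- The planar leaf check. The packet: number of rows (8 bits), width of multipliers (8 bits), three strict
positions (5 bits each), rows. -/
def leaf (X : LC) (s : Nat) : Bool :=
  cond (Nat.ble (Nat.land (Nat.shiftRight s 8) 255) 24)
    (cond (below (Nat.land (Nat.shiftRight s 16) 31) 24)
      (cond (below (Nat.land (Nat.shiftRight s 21) 31) 24)
        (cond (below (Nat.land (Nat.shiftRight s 26) 31) 24)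
          (foldK X (Nat.add (eOf 0 (Nat.land (Nat.shiftRight s 16) 31))
              (Nat.add (eOf 1 (Nat.land (Nat.shiftRight s 21) 31))
                (eOf 2 (Nat.land (Nat.shiftRight s 26) 31))))
            (pRows (Nat.land s 255)
              (Nat.pow 2 (Nat.add 25 (Nat.land (Nat.shiftRight s 8) 255))) (Nat.shiftRight s 31)) 0 0)
          false) false) false) false

/-- All coordinates are below `B`. -/
def smallV (B : Nat) (v : Vc) : Bool :=
  cond (below v.ap B) (cond (below v.an B) (cond (below v.bp B) (cond (below v.bn B)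
    (cond (below v.up B) (below v.un B) false) false) false) false) false

def smallC (c : Cn) : Bool :=
  cond (below c.a 65536) (cond (below c.b 65536) (below c.u 65536) false) false

def smallT (T : Tri) : Bool := cond (smallC T.c1) (cond (smallC T.c2) (smallC T.c3) false) false

end

end Pool.Agent.Helper54.Cert
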