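import Pool.Agent.Lib.Helper54.S18919.Sem

/-!
# Arithmetic of packed numbers
-/

set_option autoImplicit false

namespace Pool.Agent.Helper54.Cert

open Finset

/-- Number with digits `t` in base `b`. -/
def dg (b n : ℕ) (t : ℕ → ℕ) : ℕ := ∑ i ∈ range n, t i * b ^ i

lemma dg_zero (b : ℕ) (t : ℕ → ℕ) : dg b 0 t = 0 := rfl

lemma dg_succ (b n : ℕ) (t : ℕ → ℕ) : dg b (n + 1) t = dg b n t + t n * b ^ n := by
  simp [dg, sum_range_succ]

lemma dg_add (b n : ℕ) (s t : ℕ → ℕ) : dg b n (fun i => s i + t i) = dg b n s + dg b n t := by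
  simp only [dg, add_mul, sum_add_distrib]

lemma dg_split (b k m : ℕ) (t : ℕ → ℕ) :
    dg b (k + m) t = dg b k t + b ^ k * dg b m (fun i => t (k + i)) := by
  induction m with
  | zero => simp [dg_zero]
  | succ m ih =>
    rw [← add_assoc, dg_succ, ih, dg_succ, pow_add]
    ring

lemma dg_lt {b n : ℕ} {t : ℕ → ℕ} (ht : ∀ i, i < n → t i < b) : dg b n t < b ^ n := by
  induction n with
  | zero => simp [dg_zero]
  | succ n ih =>
    have h1 := ih (fun i hi => ht i (by omega))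
    have h2 : t n + 1 ≤ b := ht n (by omega)
    rw [dg_succ, pow_succ]
    have h3 : (t n + 1) * b ^ n ≤ b * b ^ n := Nat.mul_le_mul_right _ h2
    nlinarith

lemma dg_digit {b n k : ℕ} {t : ℕ → ℕ} (hb : 0 < b) (ht : ∀ i, i < n → t i < b) (hk : k < n) :
    dg b n t / b ^ k % b = t k := by
  obtain ⟨m, rfl⟩ : ∃ m, n = k + (m + 1) := ⟨n - k - 1, by omega⟩
  have h0 : dg b k t < b ^ k := dg_lt (fun i hi => ht i (by omega))
  rw [dg_split, Nat.add_mul_div_left _ _ (pow_pos hb k), Nat.div_eq_of_lt h0, zero_add,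
    add_comm m 1, dg_split]
  have h1 : dg b 1 (fun i => t (k + i)) = t k := by simp [dg]
  rw [h1, pow_one, Nat.add_mul_mod_self_left, Nat.mod_eq_of_lt (ht k (by omega))]

/-- top bit of the digit number `k` (digits of 96 bits) -/
lemma dg_testBit {n k : ℕ} {t : ℕ → ℕ} (ht : ∀ i, i < n → t i < 2 ^ 96) (hk : k < n) :
    (dg (2 ^ 96) n t).testBit (96 * k + 95) = (t k).testBit 95 := by
  rw [← Nat.testBit_shiftRight, Nat.shiftRight_eq_div_pow, pow_mul]
  have h := Nat.testBit_mod_two_pow (dg (2 ^ 96) n t / (2 ^ 96) ^ k) 96 95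
  rw [dg_digit (by positivity) ht hk] at h
  rw [h]
  simp

lemma le_of_testBit {x : ℕ} (h : x.testBit 95 = true) : 2 ^ 95 ≤ x := by
  by_contra hc
  have := Nat.testBit_lt_two_pow (not_le.1 hc)
  rw [this] at h
  exact Bool.noConfusion h

lemma testBit_of_le {x : ℕ} (h : 2 ^ 95 ≤ x) (h' : x < 2 ^ 96) : x.testBit 95 = true := by
  rw [Nat.testBit_eq_decide_div_mod_eq]
  have h1 : x / 2 ^ 95 = 1 := by
    apply Nat.div_eq_of_lt_le
    · rw [one_mul]; exact h
    · calc x < 2 ^ 96 := h'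
        _ = (1 + 1) * 2 ^ 95 := by norm_num
  rw [h1]; rfl

/-- The comparison of all digits. -/
lemma dg_land {n : ℕ} {t : ℕ → ℕ} (ht : ∀ i, i < n → t i < 2 ^ 96)
    (h : dg (2 ^ 96) n t &&& dg (2 ^ 96) n (fun _ => 2 ^ 95) = dg (2 ^ 96) n (fun _ => 2 ^ 95))
    (k : ℕ) (hk : k < n) : 2 ^ 95 ≤ t k := by
  have h1 : (dg (2 ^ 96) n (fun _ => 2 ^ 95)).testBit (96 * k + 95) = true := by
    rw [dg_testBit (fun i _ => by norm_num) hk]
    exact testBit_of_le le_rfl (by norm_num)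
  have h2 := congrArg (fun x => x.testBit (96 * k + 95)) h
  simp only [Nat.testBit_and] at h2
  rw [h1, Bool.and_true, dg_testBit ht hk] at h2
  exact le_of_testBit h2

lemma dg_blocks (b n : ℕ) (t : ℕ → ℕ) :
    dg (b ^ 3) n (fun j => t (3 * j) + t (3 * j + 1) * b + t (3 * j + 2) * b ^ 2)
      = dg b (3 * n) t := by
  induction n with
  | zero => simp [dg_zero]
  | succ n ih =>
    rw [dg_succ, ih, show 3 * (n + 1) = 3 * n + 1 + 1 + 1 by ring, dg_succ, dg_succ, dg_succ,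
      ← pow_mul]
    ring

/-- Constant multiples of `X ^ m + ... + X ^ (n - 1)`. -/
def tail (m : ℕ) (k : ℕ → ℕ) : ℕ → ℕ := fun i => if m ≤ i / 3 then k (i % 3) else 0

lemma geom_tail (X n m : ℕ) (hX : 2 ≤ X) :
    (∑ i ∈ range n, X ^ i) / X ^ m * X ^ m = dg X n (fun j => if m ≤ j then 1 else 0) := by
  have hX0 : 0 < X := by omega
  rcases Nat.lt_or_ge n m with h | h
  · have h1 : ∑ i ∈ range n, X ^ i < X ^ m := by
      calc ∑ i ∈ range n, X ^ i = dg X n (fun _ => 1) := by simp [dg]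
        _ < X ^ n := dg_lt (fun _ _ => by omega)
        _ ≤ X ^ m := Nat.pow_le_pow_right hX0 h.le
    rw [Nat.div_eq_of_lt h1, zero_mul]
    symm
    apply sum_eq_zero
    intro i hi
    rw [mem_range] at hi
    have hi' : ¬ m ≤ i := by omega
    simp only [hi', if_false, zero_mul]
  · obtain ⟨l, rfl⟩ : ∃ l, n = m + l := ⟨n - m, by omega⟩
    have e1 : ∑ i ∈ range (m + l), X ^ i = dg X (m + l) (fun _ => 1) := by simp [dg]
    rw [e1, dg_split, dg_split, Nat.add_mul_div_left _ _ (pow_pos hX0 m),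
      Nat.div_eq_of_lt (dg_lt (fun _ _ => by omega)), zero_add, mul_comm]
    have e2 : dg X m (fun j => if m ≤ j then 1 else 0) = 0 := by
      apply sum_eq_zero
      intro i hi
      rw [mem_range] at hi
      have hi' : ¬ m ≤ i := by omega
      simp only [hi', if_false, zero_mul]
    rw [e2, zero_add]
    congr 1
    apply sum_congr rfl
    intro i _
    simp

lemma cOnes_def : cOnes = (2 ^ 6912 - 1) / (2 ^ 288 - 1) := by
  unfold cOnes cM
  generalize 6912 = a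
  generalize 288 = b
  rfl

lemma cOnes_eq : cOnes = ∑ i ∈ range 24, (2 ^ 288) ^ i := by
  have h : (2:ℕ) ≤ 2 ^ 288 := by
    calc 2 = 2 ^ 1 := rfl
      _ ≤ 2 ^ 288 := Nat.pow_le_pow_right (by norm_num) (by norm_num)
  rw [Nat.geomSum_eq h]
  have e : ((2:ℕ) ^ 288) ^ 24 = 2 ^ 6912 := by rw [← pow_mul]
  rw [e, cOnes_def]

lemma cS_eq (m : ℕ) : cS m = dg (2 ^ 288) 24 (fun j => if m ≤ j then 1 else 0) := by
  have h : (2:ℕ) ≤ 2 ^ 288 := by
    calc 2 = 2 ^ 1 := rfl
      _ ≤ 2 ^ 288 := Nat.pow_le_pow_right (by norm_num) (by norm_num)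
  rw [← geom_tail _ _ _ h, ← cOnes_eq, ← pow_mul]
  unfold cS
  rw [Nat.mul_eq]
  show cOnes >>> (288 * m) <<< (288 * m) = _
  rw [Nat.shiftRight_eq_div_pow, Nat.shiftLeft_eq]

lemma cH_eq : cH = dg (2 ^ 96) 3 (fun _ => 2 ^ 95) := by
  simp only [dg, sum_range_succ, sum_range_zero]
  show 2 ^ 95 * (1 + (2 ^ 96 + 2 ^ 192)) = _
  norm_num

lemma pack3_eq (k : ℕ → ℕ) : pack3 (k 0) (k 1) (k 2) = dg (2 ^ 96) 3 k := by
  simp only [dg, sum_range_succ, sum_range_zero]
  show k 0 + ((k 1) <<< 96 + (k 2) <<< 192) = _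
  rw [Nat.shiftLeft_eq, Nat.shiftLeft_eq]
  ring

/-- A block times a mask. -/
lemma block_tail (m : ℕ) (k : ℕ → ℕ) :
    dg (2 ^ 96) 3 k * cS m = dg (2 ^ 96) 72 (tail m k) := by
  have h := dg_blocks (2 ^ 96) 24 (tail m k)
  rw [show 3 * 24 = 72 from rfl] at h
  rw [← h, cS_eq, show ((2:ℕ) ^ 96) ^ 3 = 2 ^ 288 by rw [← pow_mul]]
  unfold dg
  rw [mul_sum]
  apply sum_congr rfl
  intro j _
  have e0 : tail m k (3 * j) = if m ≤ j then k 0 else 0 := by
    have a : 3 * j / 3 = j := by omega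
    have b : 3 * j % 3 = 0 := by omega
    simp only [tail, a, b]
  have e1 : tail m k (3 * j + 1) = if m ≤ j then k 1 else 0 := by
    have a : (3 * j + 1) / 3 = j := by omega
    have b : (3 * j + 1) % 3 = 1 := by omega
    simp only [tail, a, b]
  have e2 : tail m k (3 * j + 2) = if m ≤ j then k 2 else 0 := by
    have a : (3 * j + 2) / 3 = j := by omega
    have b : (3 * j + 2) % 3 = 2 := by omega
    simp only [tail, a, b]
  beta_reduce
  rw [e0, e1, e2]
  simp only [sum_range_succ, sum_range_zero]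
  split_ifs <;> ring

lemma cHH_eq : cHH = dg (2 ^ 96) 72 (fun _ => 2 ^ 95) := by
  have h := block_tail 0 (fun _ => 2 ^ 95)
  have h1 : tail 0 (fun _ => 2 ^ 95) = fun _ => 2 ^ 95 := by
    funext i; simp [tail]
  rw [h1] at h
  rw [← h, ← cH_eq]
  unfold cHH
  rw [Nat.mul_eq, cOnes_eq, cS_eq]
  simp only [dg, Nat.zero_le, if_true, one_mul]

end Pool.Agent.Helper54.Cert
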