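import Pool.Agent.Lib.Helper54.S18919.LeafA

/-!
# The packed determinant
-/

set_option autoImplicit false

namespace Pool.Agent.Helper54.Cert

open Finset

/-! ### Integer coordinates -/

def Vc.ia (v : Vc) : ℤ := (v.ap : ℤ) - v.an
def Vc.ib (v : Vc) : ℤ := (v.bp : ℤ) - v.bn
def Vc.iu (v : Vc) : ℤ := (v.up : ℤ) - v.un

/-- The corners of a cell. -/
def Tri.cor (T : Tri) (i : ℕ) : Cn := if i = 0 then T.c1 else if i = 1 then T.c2 else T.c3

/-- The determinant of a corner and two vectors. -/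
def detI (c : Cn) (p q : Vc) : ℤ :=
  (c.a : ℤ) * (p.ib * q.iu - p.iu * q.ib) + (c.b : ℤ) * (p.iu * q.ia - p.ia * q.iu)
    + (c.u : ℤ) * (p.ia * q.ib - p.ib * q.ia)

lemma detI_swap (c : Cn) (p q : Vc) : detI c q p = - detI c p q := by
  unfold detI; ring

lemma below_iff (i n : ℕ) : below i n = true ↔ i < n := by
  unfold below
  rw [Nat.ble_eq]
  exact Nat.succ_le_iff

lemma smallV_iff (B : ℕ) (v : Vc) : smallV B v = true ↔
    v.ap < B ∧ v.an < B ∧ v.bp < B ∧ v.bn < B ∧ v.up < B ∧ v.un < B := by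
  unfold smallV
  simp only [Bool.cond_eq_true_distrib, below_iff, Bool.false_eq_true, if_false_right, and_self]

lemma smallC_iff (c : Cn) : smallC c = true ↔ c.a < 65536 ∧ c.b < 65536 ∧ c.u < 65536 := by
  unfold smallC
  simp only [Bool.cond_eq_true_distrib, below_iff, Bool.false_eq_true, if_false_right, and_self]

lemma smallT_iff (T : Tri) : smallT T = true ↔
    smallC T.c1 = true ∧ smallC T.c2 = true ∧ smallC T.c3 = true := by
  unfold smallT
  simp only [Bool.cond_eq_true_distrib, Bool.false_eq_true, if_false_right]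

lemma small_cor {T : Tri} (hT : smallT T = true) (i : ℕ) :
    (T.cor i).a < 65536 ∧ (T.cor i).b < 65536 ∧ (T.cor i).u < 65536 := by
  rw [smallT_iff, smallC_iff, smallC_iff, smallC_iff] at hT
  unfold Tri.cor
  split_ifs
  · exact hT.1
  · exact hT.2.1
  · exact hT.2.2

/-- Bounds for the integer coordinates. -/
lemma small_coords {B : ℕ} {v : Vc} (h : smallV B v = true) :
    |v.ia| ≤ (B : ℤ) - 1 ∧ |v.ib| ≤ (B : ℤ) - 1 ∧ |v.iu| ≤ (B : ℤ) - 1 := by
  rw [smallV_iff] at h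
  obtain ⟨h1, h2, h3, h4, h5, h6⟩ := h
  unfold Vc.ia Vc.ib Vc.iu
  refine ⟨?_, ?_, ?_⟩ <;> rw [abs_le] <;> constructor <;> omega

lemma abs_minor {A B x y z w : ℤ} (hA : 0 ≤ A) (hx : |x| ≤ A) (hy : |y| ≤ B)
    (hz : |z| ≤ A) (hw : |w| ≤ B) : |x * y - z * w| ≤ 2 * (A * B) := by
  have h1 : |x * y| ≤ A * B := by
    rw [abs_mul]; exact mul_le_mul hx hy (abs_nonneg _) hA
  have h2 : |z * w| ≤ A * B := by
    rw [abs_mul]; exact mul_le_mul hz hw (abs_nonneg _) hA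
  rw [abs_le] at *
  constructor <;> linarith [h1.1, h1.2, h2.1, h2.2]

/-- Bound for the determinant. -/
lemma detI_bound {A B : ℕ} {c : Cn} {p q : Vc}
    (hc : c.a < 65536 ∧ c.b < 65536 ∧ c.u < 65536) (hA : 1 ≤ A)
    (hp : smallV A p = true) (hq : smallV B q = true) :
    |detI c p q| ≤ 6 * 65536 * ((A : ℤ) * B) := by
  obtain ⟨a1, a2, a3⟩ := small_coords hp
  obtain ⟨b1, b2, b3⟩ := small_coords hq
  have hA' : (0:ℤ) ≤ (A:ℤ) - 1 := by omega
  have hB : 1 ≤ B := by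
    rw [smallV_iff] at hq
    omega
  have m1 := abs_minor hA' a2 b3 a3 b2
  have m2 := abs_minor hA' a3 b1 a1 b3
  have m3 := abs_minor hA' a1 b2 a2 b1
  have hAB : ((A:ℤ) - 1) * ((B:ℤ) - 1) ≤ (A:ℤ) * B := by
    have : (1:ℤ) ≤ A := by exact_mod_cast hA
    have : (1:ℤ) ≤ B := by exact_mod_cast hB
    nlinarith
  have key : ∀ (k : ℕ) (m : ℤ), k < 65536 → |m| ≤ 2 * (((A:ℤ) - 1) * ((B:ℤ) - 1)) →
      |(k:ℤ) * m| ≤ 2 * 65536 * ((A : ℤ) * B) := by
    intro k m hk hm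
    rw [abs_mul, Nat.abs_cast]
    have h1 : (k:ℤ) ≤ 65536 := by exact_mod_cast hk.le
    have h2 : |m| ≤ 2 * ((A:ℤ) * B) := by linarith
    calc (k:ℤ) * |m| ≤ 65536 * (2 * ((A:ℤ) * B)) :=
          mul_le_mul h1 h2 (abs_nonneg _) (by norm_num)
      _ = 2 * 65536 * ((A : ℤ) * B) := by ring
  have k1 := key _ _ hc.1 m1
  have k2 := key _ _ hc.2.1 m2
  have k3 := key _ _ hc.2.2 m3
  unfold detI
  rw [abs_le] at *
  constructor <;> linarith [k1.1, k1.2, k2.1, k2.2, k3.1, k3.2]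

/-! ### Encoding of vectors -/

lemma enc_eq (s a b u : ℕ) : enc s a b u = a + b * 2 ^ s + u * (2 ^ s) ^ 2 := by
  show a + (b <<< s + u <<< (2 * s)) = _
  rw [Nat.shiftLeft_eq, Nat.shiftLeft_eq, ← pow_mul, mul_comm s 2]
  ring

/-- Lexicographic nonnegativity. -/
def LexNN (a b u : ℤ) : Prop := 0 < u ∨ (u = 0 ∧ (0 < b ∨ (b = 0 ∧ 0 ≤ a)))

lemma lex_iff {M S a b u : ℤ} (hM : 1 ≤ M) (hS : 2 * M ≤ S) (ha : |a| ≤ M) (hb : |b| ≤ M) :
    0 ≤ a + b * S + u * S ^ 2 ↔ LexNN a b u := by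
  rw [abs_le] at ha hb
  unfold LexNN
  have hS0 : 0 < S := by linarith
  have hSS : 2 * M * S ≤ S ^ 2 := by nlinarith
  have hMS : M * 2 ≤ M * S := by nlinarith
  have hbS1 : b * S ≤ M * S := by nlinarith
  have hbS2 : -(M * S) ≤ b * S := by nlinarith
  constructor
  · intro h
    rcases lt_trichotomy u 0 with hu | hu | hu
    · exfalso
      have h1 : u * S ^ 2 ≤ -1 * S ^ 2 := by nlinarith [sq_nonneg S]
      nlinarith
    · right
      refine ⟨hu, ?_⟩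
      rw [hu, zero_mul, add_zero] at h
      rcases lt_trichotomy b 0 with hb0 | hb0 | hb0
      · exfalso
        have : b * S ≤ -1 * S := by nlinarith
        linarith
      · right
        refine ⟨hb0, ?_⟩
        rw [hb0] at h
        linarith
      · left; exact hb0
    · left; exact hu
  · rintro (hu | ⟨hu, hb0 | ⟨hb0, ha0⟩⟩)
    · have h1 : 1 * S ^ 2 ≤ u * S ^ 2 := by nlinarith [sq_nonneg S]
      nlinarith
    · rw [hu, zero_mul, add_zero]
      have : 1 * S ≤ b * S := by nlinarith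
      linarith
    · rw [hu, hb0]
      linarith

/-- The sign used by `pcOf`. -/
def sg (v : Vc) : ℤ := if flipOf v = 0 then 1 else -1

lemma two_pow_ge (k : ℕ) (hk : 22 ≤ k) : (2:ℤ) * (2097152 - 1) ≤ 2 ^ k := by
  have h : (2:ℤ) ^ 22 ≤ 2 ^ k := pow_le_pow_right₀ (by norm_num) hk
  have : (2:ℤ) ^ 22 = 4194304 := by norm_num
  linarith

lemma enc_cast (s a b u a' b' u' : ℕ) :
    ((enc s a b u : ℕ) : ℤ) - (enc s a' b' u' : ℕ)
      = ((a:ℤ) - a') + ((b:ℤ) - b') * 2 ^ s + ((u:ℤ) - u') * (2 ^ s) ^ 2 := by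
  rw [enc_eq, enc_eq]
  push_cast
  ring

lemma pcOf_spec (v : Vc) (hv : smallV 1048576 v = true) :
    ((pcOf v).q1 : ℤ) = sg v * (v.ia + v.ib * 2 ^ 288 + v.iu * (2 ^ 288) ^ 2) ∧
    ((pcOf v).q3 : ℤ) = sg v * (v.ia + v.ib * 2 ^ 864 + v.iu * (2 ^ 864) ^ 2) := by
  obtain ⟨h1, h2, h3⟩ := small_coords hv
  have c1 : |v.ia| ≤ (2097152:ℤ) - 1 := by push_cast at h1; linarith
  have c2 : |v.ib| ≤ (2097152:ℤ) - 1 := by push_cast at h2; linarith
  have l1 := lex_iff (u := v.iu) (by norm_num) (two_pow_ge 288 (by norm_num)) c1 c2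
  have l3 := lex_iff (u := v.iu) (by norm_num) (two_pow_ge 864 (by norm_num)) c1 c2
  have d1 := enc_cast 288 v.ap v.bp v.up v.an v.bn v.un
  have d3 := enc_cast 864 v.ap v.bp v.up v.an v.bn v.un
  change _ = v.ia + v.ib * _ + v.iu * _ at d1
  change _ = v.ia + v.ib * _ + v.iu * _ at d3
  unfold pcOf sg flipOf
  cases hc : Nat.ble (enc 288 v.an v.bn v.un) (enc 288 v.ap v.bp v.up) with
  | true =>
    rw [Nat.ble_eq] at hc
    have hc' : ((enc 288 v.an v.bn v.un : ℕ) : ℤ) ≤ (enc 288 v.ap v.bp v.up : ℕ) := by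
      exact_mod_cast hc
    have hl : LexNN v.ia v.ib v.iu := l1.1 (by rw [← d1]; linarith)
    have hc3 : enc 864 v.an v.bn v.un ≤ enc 864 v.ap v.bp v.up := by
      have := l3.2 hl
      rw [← d3] at this
      have h' : ((enc 864 v.an v.bn v.un : ℕ) : ℤ) ≤ (enc 864 v.ap v.bp v.up : ℕ) := by linarith
      exact_mod_cast h'
    rw [cond_true, cond_true, if_pos rfl, one_mul, one_mul, ← d1, ← d3]
    refine ⟨?_, ?_⟩
    · show ((enc 288 v.ap v.bp v.up - enc 288 v.an v.bn v.un : ℕ) : ℤ) = _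
      rw [Nat.cast_sub hc]
    · show ((enc 864 v.ap v.bp v.up - enc 864 v.an v.bn v.un : ℕ) : ℤ) = _
      rw [Nat.cast_sub hc3]
  | false =>
    have hc0 : ¬ (enc 288 v.an v.bn v.un ≤ enc 288 v.ap v.bp v.up) := by
      rw [← Nat.ble_eq, hc]; simp
    have hc1 : enc 288 v.ap v.bp v.up ≤ enc 288 v.an v.bn v.un := (not_le.1 hc0).le
    have hl : ¬ LexNN v.ia v.ib v.iu := by
      intro hl
      have := l1.2 hl
      rw [← d1] at this
      apply hc0
      have h' : ((enc 288 v.an v.bn v.un : ℕ) : ℤ) ≤ (enc 288 v.ap v.bp v.up : ℕ) := by linarith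
      exact_mod_cast h'
    have hc3 : enc 864 v.ap v.bp v.up ≤ enc 864 v.an v.bn v.un := by
      by_contra hcon
      apply hl
      apply l3.1
      rw [← d3]
      have h' : ((enc 864 v.an v.bn v.un : ℕ) : ℤ) ≤ (enc 864 v.ap v.bp v.up : ℕ) := by
        exact_mod_cast (not_le.1 hcon).le
      linarith
    rw [cond_false, cond_false, if_neg one_ne_zero, neg_one_mul, neg_one_mul, ← d1, ← d3]
    refine ⟨?_, ?_⟩
    · show ((enc 288 v.an v.bn v.un - enc 288 v.ap v.bp v.up : ℕ) : ℤ) = _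
      rw [Nat.cast_sub hc1]; ring
    · show ((enc 864 v.an v.bn v.un - enc 864 v.ap v.bp v.up : ℕ) : ℤ) = _
      rw [Nat.cast_sub hc3]; ring

lemma sg_abs (v : Vc) : |sg v| = 1 := by
  unfold sg; split_ifs <;> simp

lemma sg_sq (v : Vc) : sg v * sg v = 1 := by
  unfold sg; split_ifs <;> norm_num

lemma bound_poly {M S a b u : ℤ} (hM : 0 ≤ M) (hS : 4 * M + 4 ≤ S) (ha : |a| ≤ M) (hb : |b| ≤ M)
    (hu : |u| ≤ M) : |a + b * S + u * S ^ 2| < S ^ 2 * (M + 1) := by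
  have hS1 : 1 ≤ S := by linarith
  have hS0 : 0 ≤ S := by linarith
  have h1 : |a + b * S + u * S ^ 2| ≤ |a| + |b| * S + |u| * S ^ 2 := by
    calc |a + b * S + u * S ^ 2| ≤ |a + b * S| + |u * S ^ 2| := abs_add_le _ _
      _ ≤ |a| + |b * S| + |u * S ^ 2| := by linarith [abs_add_le a (b * S)]
      _ = |a| + |b| * S + |u| * S ^ 2 := by
        rw [abs_mul, abs_mul, abs_of_nonneg hS0, abs_of_nonneg (sq_nonneg S)]
  have h2 : |b| * S ≤ M * S := mul_le_mul_of_nonneg_right hb hS0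
  have h3 : |u| * S ^ 2 ≤ M * S ^ 2 := mul_le_mul_of_nonneg_right hu (sq_nonneg S)
  have h4 : (4 * M + 4) * S ≤ S * S := mul_le_mul_of_nonneg_right hS hS0
  have h5 : M ≤ M * S := by nlinarith
  nlinarith

lemma big_pow (k : ℕ) (hk : 24 ≤ k) : (16777216:ℤ) ≤ 2 ^ k := by
  have h : (2:ℤ) ^ 24 ≤ 2 ^ k := pow_le_pow_right₀ (by norm_num) hk
  have : (2:ℤ) ^ 24 = 16777216 := by norm_num
  linarith

lemma pcOf_lt (v : Vc) (hv : smallV 1048576 v = true) :
    (pcOf v).q1 < 2 ^ 864 ∧ (pcOf v).q3 < 2 ^ 2016 := by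
  obtain ⟨h1, h2, h3⟩ := small_coords hv
  push_cast at h1 h2 h3
  obtain ⟨s1, s3⟩ := pcOf_spec v hv
  have p288 := big_pow 288 (by norm_num)
  have p864 := big_pow 864 (by norm_num)
  have b1 := bound_poly (S := 2 ^ 288) (by norm_num) (le_trans (by norm_num) p288) h1 h2 h3
  have b3 := bound_poly (S := 2 ^ 864) (by norm_num) (le_trans (by norm_num) p864) h1 h2 h3
  have q1 : ((pcOf v).q1 : ℤ) ≤ |v.ia + v.ib * 2 ^ 288 + v.iu * (2 ^ 288) ^ 2| := by
    rw [s1]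
    refine (le_abs_self _).trans ?_
    rw [abs_mul, sg_abs, one_mul]
  have q3 : ((pcOf v).q3 : ℤ) ≤ |v.ia + v.ib * 2 ^ 864 + v.iu * (2 ^ 864) ^ 2| := by
    rw [s3]
    refine (le_abs_self _).trans ?_
    rw [abs_mul, sg_abs, one_mul]
  constructor
  · have : ((pcOf v).q1 : ℤ) < 2 ^ 864 := by
      calc ((pcOf v).q1 : ℤ) ≤ _ := q1
        _ < (2 ^ 288) ^ 2 * (1048576 - 1 + 1) := b1
        _ ≤ (2 ^ 288) ^ 2 * 2 ^ 288 := by
            apply mul_le_mul_of_nonneg_left _ (by positivity)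
            exact le_trans (by norm_num) p288
        _ = 2 ^ 864 := by rw [← pow_succ, ← pow_mul]
    exact_mod_cast this
  · have : ((pcOf v).q3 : ℤ) < 2 ^ 2016 := by
      calc ((pcOf v).q3 : ℤ) ≤ _ := q3
        _ < (2 ^ 864) ^ 2 * (1048576 - 1 + 1) := b3
        _ ≤ (2 ^ 864) ^ 2 * 2 ^ 288 := by
            apply mul_le_mul_of_nonneg_left _ (by positivity)
            exact le_trans (by norm_num) p288
        _ = 2 ^ 2016 := by rw [← pow_mul, ← pow_add]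
    exact_mod_cast this

/-! ### The block -/

lemma blk_alg {X Q Ka Kb Ku ma mb mu s H hf : ℤ} (hQ : 1 ≤ Q) (hX : 32 * Q ≤ X)
    (hs : |s| = 1) (hhf : 2 * hf = X ^ 7)
    (haa : |ma * Ka| ≤ Q) (hba : |mb * Ka| ≤ Q) (hua : |mu * Ka| ≤ Q)
    (hbu : |mb * Ku| ≤ Q) (huu : |mu * Ku| ≤ Q) (hub : |mu * Kb| ≤ Q)
    (h0 : 0 ≤ s * (ma * Ka + mb * Kb + mu * Ku) + H)
    (h1 : s * (ma * Ka + mb * Kb + mu * Ku) + H < X) :
    ((s * (-mu * X + mb * X ^ 2 + mu * X ^ 3 - ma * X ^ 5 - mb * X ^ 6 + ma * X ^ 7) + X ^ 9)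
      * (Ka + Ku * X ^ 4 + Kb * X ^ 5) + X ^ 7 * H + hf) / X ^ 7 % X
    = s * (ma * Ka + mb * Kb + mu * Ku) + H := by
  have hX0 : 0 < X := by linarith
  set L : ℤ := s * (-(mu * Ka) * X + (mb * Ka) * X ^ 2 + (mu * Ka) * X ^ 3
    + (-(ma * Ka) - mu * Ku) * X ^ 5 + (-(mb * Ka) + mb * Ku - mu * Kb) * X ^ 6) with hL
  set R : ℤ := s * (mu * Kb) + (Ka - s * (ma * Ku)) * X + s * (-(mb * Ku) - ma * Kb) * X ^ 2
    + s * (ma * Ku - mb * Kb) * X ^ 3 + s * (ma * Kb) * X ^ 4 + Ku * X ^ 5 + Kb * X ^ 6 with hR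
  have hT : (s * (-mu * X + mb * X ^ 2 + mu * X ^ 3 - ma * X ^ 5 - mb * X ^ 6 + ma * X ^ 7) + X ^ 9)
      * (Ka + Ku * X ^ 4 + Kb * X ^ 5) + X ^ 7 * H + hf
      = (L + hf) + X ^ 7 * ((s * (ma * Ka + mb * Kb + mu * Ku) + H) + X * R) := by
    rw [hL, hR]; ring
  have hX7 : 0 < X ^ 7 := pow_pos hX0 7
  -- bound for L
  have hLb : |L| < hf := by
    have hX1 : 1 ≤ X := by linarith
    have q : ∀ (c : ℤ) (k : ℕ) (n : ℤ), |c| ≤ n * Q → 0 ≤ n → k ≤ 6 →
        |c * X ^ k| ≤ n * (Q * X ^ 6) := by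
      intro c k n hc hn hk
      rw [abs_mul, abs_of_pos (pow_pos hX0 k)]
      have h1 : X ^ k ≤ X ^ 6 := pow_le_pow_right₀ hX1 hk
      calc |c| * X ^ k ≤ (n * Q) * X ^ 6 :=
            mul_le_mul hc h1 (pow_pos hX0 k).le (mul_nonneg hn (by linarith))
        _ = n * (Q * X ^ 6) := by ring
    have i1 := q (-(mu * Ka)) 1 1 (by rw [abs_neg]; linarith) (by norm_num) (by norm_num)
    have i2 := q (mb * Ka) 2 1 (by linarith) (by norm_num) (by norm_num)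
    have i3 := q (mu * Ka) 3 1 (by linarith) (by norm_num) (by norm_num)
    have i5 := q (-(ma * Ka) - mu * Ku) 5 2 (by
      rw [abs_le] at *; constructor <;> linarith [haa.1, haa.2, huu.1, huu.2])
      (by norm_num) (by norm_num)
    have i6 := q (-(mb * Ka) + mb * Ku - mu * Kb) 6 3 (by
      rw [abs_le] at *
      constructor <;> linarith [hba.1, hba.2, hbu.1, hbu.2, hub.1, hub.2])
      (by norm_num) (by norm_num)
    rw [pow_one] at i1
    rw [hL, abs_mul, hs, one_mul]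
    have hQX : 32 * (Q * X ^ 6) ≤ X ^ 7 := by
      have := mul_le_mul_of_nonneg_right hX (pow_pos hX0 6).le
      calc 32 * (Q * X ^ 6) = 32 * Q * X ^ 6 := by ring
        _ ≤ X * X ^ 6 := this
        _ = X ^ 7 := by ring
    have hpos : 0 < Q * X ^ 6 := mul_pos (by linarith) (pow_pos hX0 6)
    rw [abs_le] at i1 i2 i3 i5 i6
    rw [abs_lt]
    constructor <;>
      linarith [i1.1, i1.2, i2.1, i2.2, i3.1, i3.2, i5.1, i5.2, i6.1, i6.2]
  rw [abs_lt] at hLb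
  rw [hT, Int.add_mul_ediv_left _ _ hX7.ne', Int.ediv_eq_zero_of_lt (by linarith) (by linarith),
    zero_add, Int.add_mul_emod_self_left, Int.emod_eq_of_lt h0 h1]

lemma kOf_eq (T : Tri) : kOf T = dg (2 ^ 96) 3 (fun i => (T.cor i).a)
    + dg (2 ^ 96) 3 (fun i => (T.cor i).u) * (2 ^ 288) ^ 4
    + dg (2 ^ 96) 3 (fun i => (T.cor i).b) * (2 ^ 288) ^ 5 := by
  have ha := pack3_eq (fun i => (T.cor i).a)
  have hu := pack3_eq (fun i => (T.cor i).u)
  have hb := pack3_eq (fun i => (T.cor i).b)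
  rw [← ha, ← hu, ← hb, ← pow_mul, ← pow_mul]
  show pack3 T.c1.a T.c2.a T.c3.a + (pack3 T.c1.u T.c2.u T.c3.u <<< 1152
    + pack3 T.c1.b T.c2.b T.c3.b <<< 1440) = _
  rw [Nat.shiftLeft_eq, Nat.shiftLeft_eq, add_assoc]
  rfl

end Pool.Agent.Helper54.Cert
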