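import Pool.Agent.Lib.Helper54.S18919.LeafB

/-!
# Meaning of a block
-/

set_option autoImplicit false
set_option exponentiation.threshold 100000

namespace Pool.Agent.Helper54.Cert

open Finset

lemma smallV_mono {v : Vc} (h : smallV 1024 v = true) : smallV 1048576 v = true := by
  rw [smallV_iff] at *
  omega

lemma D_bound {X M ma mb mu s : ℤ} (hM : 1 ≤ M) (hX : 8 * M ≤ X) (hs : |s| = 1)
    (ha : |ma| ≤ M) (hb : |mb| ≤ M) (hu : |mu| ≤ M) :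
    0 ≤ s * (-mu * X + mb * X ^ 2 + mu * X ^ 3 - ma * X ^ 5 - mb * X ^ 6 + ma * X ^ 7) + X ^ 9 := by
  have hX0 : 0 < X := by linarith
  have hX1 : 1 ≤ X := by linarith
  have q : ∀ (c : ℤ) (k : ℕ), |c| ≤ M → k ≤ 7 → |c * X ^ k| ≤ M * X ^ 7 := by
    intro c k hc hk
    rw [abs_mul, abs_of_pos (pow_pos hX0 k)]
    have h1 : X ^ k ≤ X ^ 7 := pow_le_pow_right₀ hX1 hk
    exact mul_le_mul hc h1 (pow_pos hX0 k).le (by linarith)
  have i1 := q mu 1 hu (by norm_num)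
  have i2 := q mb 2 hb (by norm_num)
  have i3 := q mu 3 hu (by norm_num)
  have i5 := q ma 5 ha (by norm_num)
  have i6 := q mb 6 hb (by norm_num)
  have i7 := q ma 7 ha (by norm_num)
  rw [pow_one] at i1
  have hQX : 8 * (M * X ^ 7) ≤ X ^ 9 := by
    have h1 := mul_le_mul_of_nonneg_right hX (pow_pos hX0 7).le
    have h2 : X * X ^ 7 ≤ X ^ 9 := by
      have : X ^ 9 = X * (X * X ^ 7) := by ring
      rw [this]
      have h3 : 0 < X * X ^ 7 := mul_pos hX0 (pow_pos hX0 7)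
      nlinarith
    calc 8 * (M * X ^ 7) = 8 * M * X ^ 7 := by ring
      _ ≤ X * X ^ 7 := h1
      _ ≤ X ^ 9 := h2
  have hpos : 0 < M * X ^ 7 := mul_pos (by linarith) (pow_pos hX0 7)
  have key : |s * (-mu * X + mb * X ^ 2 + mu * X ^ 3 - ma * X ^ 5 - mb * X ^ 6 + ma * X ^ 7)|
      ≤ X ^ 9 := by
    rw [abs_mul, hs, one_mul]
    rw [abs_le] at i1 i2 i3 i5 i6 i7
    rw [abs_le]
    constructor <;>
      linarith [i1.1, i1.2, i2.1, i2.2, i3.1, i3.2, i5.1, i5.2, i6.1, i6.2, i7.1, i7.2]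
  rw [abs_le] at key
  linarith [key.1]

lemma K_bound {k : ℕ → ℕ} (h : ∀ i, k i < 65536) : dg (2 ^ 96) 3 k ≤ 2 ^ 209 := by
  have h0 := h 0
  have h1 := h 1
  have h2 := h 2
  simp only [dg, sum_range_succ, sum_range_zero]
  norm_num
  omega

lemma cX9_eq : cX9 = (2 ^ 288) ^ 9 := by
  have h : ∀ a, Nat.pow 2 a = 2 ^ a := fun _ => rfl
  rw [← pow_mul, show 288 * 9 = 2592 from rfl]
  unfold cX9
  exact h 2592

lemma cO_eq : cO = (2 ^ 288) ^ 7 * cH + 2 ^ 2015 := by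
  have h : ∀ a b, Nat.add (Nat.mul (Nat.pow 2 a) cH) (Nat.pow 2 b) = 2 ^ a * cH + 2 ^ b :=
    fun _ _ => rfl
  rw [← pow_mul, show 288 * 7 = 2016 from rfl]
  unfold cO
  exact h 2016 2015

lemma blk_eq (p1 p3 q1 q3 kp : ℕ) : blk p1 p3 q1 q3 kp =
    ((p1 * q3 + (2 ^ 288) ^ 9 - q1 * p3) * kp + ((2 ^ 288) ^ 7 * cH + 2 ^ 2015)) /
      (2 ^ 288) ^ 7 % 2 ^ 288 := by
  have h : ∀ a b c d, Nat.land (Nat.shiftRight
      (Nat.add (Nat.mul (Nat.sub (Nat.add (Nat.mul p1 q3) a) (Nat.mul q1 p3)) kp) b) c)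
        (Nat.sub (Nat.pow 2 d) 1) = (((p1 * q3 + a - q1 * p3) * kp + b) / 2 ^ c) % 2 ^ d := by
    intro a b c d
    rw [← Nat.and_two_pow_sub_one_eq_mod, ← Nat.shiftRight_eq_div_pow]
    rfl
  rw [← cX9_eq, ← cO_eq, ← pow_mul 2 288 7, show 288 * 7 = 2016 from rfl]
  exact h _ _ _ _

/-- value of a block -/
def bv (T : Tri) (s : ℤ) (p q : Vc) (c : ℕ) : ℕ := (2 ^ 95 + s * detI (T.cor c) p q).toNat

lemma det_small {T : Tri} (hT : smallT T = true) {p q : Vc} (hp : smallV 1048576 p = true)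
    (hq : smallV 1048576 q = true) (c : ℕ) : |detI (T.cor c) p q| ≤ 2 ^ 59 := by
  have h := detI_bound (small_cor hT c) (by norm_num) hp hq
  refine h.trans ?_
  norm_num

lemma bv_cast {T : Tri} (hT : smallT T = true) {p q : Vc} (hp : smallV 1048576 p = true)
    (hq : smallV 1048576 q = true) {s : ℤ} (hs : |s| = 1) (c : ℕ) :
    (bv T s p q c : ℤ) = 2 ^ 95 + s * detI (T.cor c) p q ∧ bv T s p q c < 2 ^ 96 := by
  have h := det_small hT hp hq c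
  have h1 : |s * detI (T.cor c) p q| ≤ 2 ^ 59 := by rw [abs_mul, hs, one_mul]; exact h
  rw [abs_le] at h1
  have h2 : (0:ℤ) ≤ 2 ^ 95 + s * detI (T.cor c) p q := by
    have := h1.1
    norm_num at this ⊢
    linarith
  have h3 : (bv T s p q c : ℤ) = 2 ^ 95 + s * detI (T.cor c) p q := Int.toNat_of_nonneg h2
  refine ⟨h3, ?_⟩
  have h4 : (bv T s p q c : ℤ) < 2 ^ 96 := by
    rw [h3]
    have := h1.2
    norm_num at this ⊢
    linarith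
  exact_mod_cast h4

lemma half_pow : (2:ℤ) * 2 ^ 2015 = (2 ^ 288) ^ 7 := by
  rw [← pow_mul, ← pow_succ']

lemma cast_aux (P Q K Z H X : ℕ) (h : Q ≤ P + X ^ 9) :
    ((((P + X ^ 9 - Q) * K + (X ^ 7 * H + Z)) / X ^ 7 % X : ℕ) : ℤ)
      = (((P : ℤ) - Q + (X : ℤ) ^ 9) * K + (X : ℤ) ^ 7 * H + Z) / (X : ℤ) ^ 7 % X := by
  rw [Int.natCast_mod, Int.natCast_div, Nat.cast_add, Nat.cast_mul, Nat.cast_sub h]
  push_cast
  congr 2
  ring

theorem blk_spec {T : Tri} (hT : smallT T = true) {p q : Vc} (hp : smallV 1048576 p = true)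
    (hq : smallV 1048576 q = true) :
    blk (pcOf p).q1 (pcOf p).q3 (pcOf q).q1 (pcOf q).q3 (kOf T)
      = dg (2 ^ 96) 3 (bv T (sg p * sg q) p q) := by
  obtain ⟨p1, p3⟩ := pcOf_spec p hp
  obtain ⟨q1, q3⟩ := pcOf_spec q hq
  obtain ⟨pa, pb, pu⟩ := small_coords hp
  obtain ⟨qa, qb, qu⟩ := small_coords hq
  push_cast at pa pb pu qa qb qu
  set s : ℤ := sg p * sg q with hs
  have hs1 : |s| = 1 := by rw [hs, abs_mul, sg_abs, sg_abs, one_mul]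
  set ma : ℤ := p.ib * q.iu - p.iu * q.ib with hma
  set mb : ℤ := p.iu * q.ia - p.ia * q.iu with hmb
  set mu : ℤ := p.ia * q.ib - p.ib * q.ia with hmu
  have ma1 := abs_minor (by norm_num) pb qu pu qb
  have mb1 := abs_minor (by norm_num) pu qa pa qu
  have mu1 := abs_minor (by norm_num) pa qb pb qa
  rw [← hma] at ma1
  rw [← hmb] at mb1
  rw [← hmu] at mu1
  have e41 : (2:ℤ) * ((1048576 - 1) * (1048576 - 1)) ≤ 2 ^ 41 := by norm_num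
  have ma2 := ma1.trans e41
  have mb2 := mb1.trans e41
  have mu2 := mu1.trans e41
  set Ka : ℕ := dg (2 ^ 96) 3 (fun i => (T.cor i).a) with hKa
  set Kb : ℕ := dg (2 ^ 96) 3 (fun i => (T.cor i).b) with hKb
  set Ku : ℕ := dg (2 ^ 96) 3 (fun i => (T.cor i).u) with hKu
  have ka : Ka ≤ 2 ^ 209 := K_bound (fun i => (small_cor hT i).1)
  have kb : Kb ≤ 2 ^ 209 := K_bound (fun i => (small_cor hT i).2.1)
  have ku : Ku ≤ 2 ^ 209 := K_bound (fun i => (small_cor hT i).2.2)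
  have prod : ∀ (m : ℤ) (K : ℕ), |m| ≤ 2 ^ 41 → K ≤ 2 ^ 209 → |m * (K:ℤ)| ≤ 2 ^ 250 := by
    intro m K hm hK
    rw [abs_mul, Nat.abs_cast]
    have hK' : (K:ℤ) ≤ 2 ^ 209 := by exact_mod_cast hK
    calc |m| * (K:ℤ) ≤ 2 ^ 41 * 2 ^ 209 := mul_le_mul hm hK' (Int.natCast_nonneg _) (by norm_num)
      _ = 2 ^ 250 := by norm_num
  -- the difference
  have hD : ((pcOf p).q1 : ℤ) * (pcOf q).q3 - (pcOf q).q1 * (pcOf p).q3
      = s * (-mu * 2 ^ 288 + mb * (2 ^ 288) ^ 2 + mu * (2 ^ 288) ^ 3 - ma * (2 ^ 288) ^ 5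
        - mb * (2 ^ 288) ^ 6 + ma * (2 ^ 288) ^ 7) := by
    rw [p1, p3, q1, q3, hma, hmb, hmu, hs, show (864:ℕ) = 288 * 3 from rfl,
      pow_mul (2:ℤ) 288 3]
    generalize (2:ℤ) ^ 288 = Y
    ring
  have hX8 : (8:ℤ) * 2 ^ 41 ≤ 2 ^ 288 := by
    rw [show (8:ℤ) * 2 ^ 41 = 2 ^ 44 by norm_num]
    exact pow_le_pow_right₀ (by norm_num) (by norm_num)
  have hX32 : (32:ℤ) * 2 ^ 250 ≤ 2 ^ 288 := by
    rw [show (32:ℤ) * 2 ^ 250 = 2 ^ 255 by norm_num]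
    exact pow_le_pow_right₀ (by norm_num) (by norm_num)
  have hD0 := D_bound (s := s) (one_le_pow₀ (by norm_num : (1:ℤ) ≤ 2)) hX8 hs1 ma2 mb2 mu2
  have hle : (pcOf q).q1 * (pcOf p).q3 ≤ (pcOf p).q1 * (pcOf q).q3 + (2 ^ 288) ^ 9 := by
    rw [← hD] at hD0
    have : ((pcOf q).q1 : ℤ) * (pcOf p).q3 ≤ (pcOf p).q1 * (pcOf q).q3 + (2 ^ 288) ^ 9 := by
      linarith
    exact_mod_cast this
  -- the digits
  have hdig : ∀ c, (bv T s p q c : ℤ) = 2 ^ 95 + s * detI (T.cor c) p q ∧ bv T s p q c < 2 ^ 96 :=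
    fun c => bv_cast hT hp hq hs1 c
  have hsum : ((dg (2 ^ 96) 3 (bv T s p q) : ℕ) : ℤ)
      = s * (ma * (Ka:ℤ) + mb * (Kb:ℤ) + mu * (Ku:ℤ)) + (cH : ℤ) := by
    rw [cH_eq, hKa, hKb, hKu]
    simp only [dg, sum_range_succ, sum_range_zero]
    push_cast
    rw [(hdig 0).1, (hdig 1).1, (hdig 2).1]
    unfold detI
    rw [hma, hmb, hmu]
    ring
  have hlt : dg (2 ^ 96) 3 (bv T s p q) < 2 ^ 288 := by
    have := dg_lt (b := 2 ^ 96) (n := 3) (fun i _ => (hdig i).2)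
    rwa [← pow_mul] at this
  have hpos : (0:ℤ) ≤ ((dg (2 ^ 96) 3 (bv T s p q) : ℕ) : ℤ) := Int.natCast_nonneg _
  have hlt' : ((dg (2 ^ 96) 3 (bv T s p q) : ℕ) : ℤ) < 2 ^ 288 := by exact_mod_cast hlt
  rw [hsum] at hpos hlt'
  have alg := blk_alg (X := 2 ^ 288) (Q := 2 ^ 250) (Ka := Ka) (Kb := Kb) (Ku := Ku)
    (ma := ma) (mb := mb) (mu := mu) (s := s) (H := cH) (hf := 2 ^ 2015)
    (one_le_pow₀ (by norm_num : (1:ℤ) ≤ 2)) hX32 hs1 half_pow (prod _ _ ma2 ka) (prod _ _ mb2 ka)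
    (prod _ _ mu2 ka) (prod _ _ mb2 ku) (prod _ _ mu2 ku) (prod _ _ mu2 kb)
    hpos hlt'
  rw [← hsum, ← hD] at alg
  rw [blk_eq, kOf_eq, ← hKa, ← hKb, ← hKu]
  have hc := cast_aux ((pcOf p).q1 * (pcOf q).q3) ((pcOf q).q1 * (pcOf p).q3)
    (Ka + Ku * (2 ^ 288) ^ 4 + Kb * (2 ^ 288) ^ 5) (2 ^ 2015) cH (2 ^ 288) hle
  simp only [Nat.cast_add, Nat.cast_mul, Nat.cast_pow, Nat.cast_ofNat] at hc
  have hc2 := hc.trans alg
  exact_mod_cast hc2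

end Pool.Agent.Helper54.Cert
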