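import Pool.Agent.Lib.Helper54.S18919.LeafC

/-!
# Records and oriented blocks
-/

set_option autoImplicit false
set_option exponentiation.threshold 100000

namespace Pool.Agent.Helper54.Cert

open Finset

lemma dg_congr {b n : ℕ} {s t : ℕ → ℕ} (h : ∀ i, i < n → s i = t i) : dg b n s = dg b n t :=
  sum_congr rfl (fun i hi => by rw [h i (mem_range.1 hi)])

lemma okB_dg {t : ℕ → ℕ} (ht : ∀ i, i < 3 → t i < 2 ^ 96) (h : okB (dg (2 ^ 96) 3 t) = true) :
    ∀ c, c < 3 → 2 ^ 95 ≤ t c := by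
  have h1 : dg (2 ^ 96) 3 t &&& cH = cH := by
    have := Nat.eq_of_beq_eq_true h
    exact this
  rw [cH_eq] at h1
  exact fun c hc => dg_land ht h1 c hc

lemma sub_cH {t : ℕ → ℕ} (h : ∀ c, c < 3 → 2 ^ 95 ≤ t c) :
    Nat.sub (dg (2 ^ 96) 3 t) cH = dg (2 ^ 96) 3 (fun c => t c - 2 ^ 95) := by
  have e : dg (2 ^ 96) 3 t = dg (2 ^ 96) 3 (fun c => t c - 2 ^ 95) + cH := by
    rw [cH_eq, ← dg_add]
    apply dg_congr
    intro i hi
    have := h i hi
    omega
  show dg (2 ^ 96) 3 t - cH = _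
  rw [e, Nat.add_sub_cancel]

/-- absolute values of the determinants -/
def ab (T : Tri) (p q : Vc) (c : ℕ) : ℕ := (detI (T.cor c) p q).natAbs

lemma ab_swap (T : Tri) (p q : Vc) : ab T q p = ab T p q := by
  funext c
  unfold ab
  rw [detI_swap, Int.natAbs_neg]

lemma cor_ge (T : Tri) (c : ℕ) : ∃ c', c' < 3 ∧ T.cor c = T.cor c' := by
  by_cases h : c < 3
  · exact ⟨c, h, rfl⟩
  · refine ⟨2, by omega, ?_⟩
    unfold Tri.cor
    rw [if_neg (by omega), if_neg (by omega), if_neg (by omega), if_neg (by omega)]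

lemma blk_ok {T : Tri} (hT : smallT T = true) {p q : Vc} (hp : smallV 1048576 p = true)
    (hq : smallV 1048576 q = true)
    (h : okB (blk (pcOf p).q1 (pcOf p).q3 (pcOf q).q1 (pcOf q).q3 (kOf T)) = true) :
    (∀ c, 0 ≤ sg p * sg q * detI (T.cor c) p q) ∧
    Nat.sub (blk (pcOf p).q1 (pcOf p).q3 (pcOf q).q1 (pcOf q).q3 (kOf T)) cH
      = dg (2 ^ 96) 3 (ab T p q) := by
  rw [blk_spec hT hp hq] at h ⊢
  have hs1 : |sg p * sg q| = 1 := by rw [abs_mul, sg_abs, sg_abs, one_mul]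
  have hd : ∀ c, (bv T (sg p * sg q) p q c : ℤ) = 2 ^ 95 + sg p * sg q * detI (T.cor c) p q ∧
      bv T (sg p * sg q) p q c < 2 ^ 96 := fun c => bv_cast hT hp hq hs1 c
  have h1 := okB_dg (fun i _ => (hd i).2) h
  have h2 : ∀ c, 0 ≤ sg p * sg q * detI (T.cor c) p q := by
    intro c
    obtain ⟨c', hc', e⟩ := cor_ge T c
    rw [e]
    have h3 : ((2 ^ 95 : ℕ) : ℤ) ≤ (bv T (sg p * sg q) p q c' : ℤ) := by exact_mod_cast h1 c' hc'
    rw [(hd c').1] at h3
    push_cast at h3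
    linarith
  refine ⟨h2, ?_⟩
  rw [sub_cH h1]
  apply dg_congr
  intro c _
  have h3 := h2 c
  have h4 : ((ab T p q c : ℕ) : ℤ) = sg p * sg q * detI (T.cor c) p q := by
    unfold ab
    rw [Int.natCast_natAbs, ← abs_of_nonneg h3, abs_mul, hs1, one_mul]
  have h5 := (hd c).1
  rw [← h4] at h5
  have h6 : bv T (sg p * sg q) p q c = 2 ^ 95 + ab T p q c := by exact_mod_cast h5
  rw [h6]
  omega

/-! ### Records -/

lemma get_nil {α : Type} (d : α) (i : ℕ) : get d [] i = d := rfl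
lemma get_zero {α : Type} (d : α) (h : α) (l : List α) : get d (h :: l) 0 = h := rfl
lemma get_succ {α : Type} (d : α) (h : α) (l : List α) (i : ℕ) :
    get d (h :: l) (i + 1) = get d l i := rfl

lemma get_ind {α : Type} {d : α} {l : List α} {P : α → Prop} (hd : P d) (hl : ∀ x ∈ l, P x)
    (i : ℕ) : P (get d l i) := by
  induction l generalizing i with
  | nil => exact hd
  | cons h l ih =>
    cases i with
    | zero => exact hl h (by simp)
    | succ i => exact ih (fun x hx => hl x (by simp [hx])) i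

lemma get_mem {α : Type} (d : α) (l : List α) (i : ℕ) (hi : i < l.length) : get d l i ∈ l := by
  induction l generalizing i with
  | nil => simp at hi
  | cons h l ih =>
    cases i with
    | zero => rw [get_zero]; simp
    | succ i =>
      rw [get_succ]
      exact List.mem_cons_of_mem _ (ih i (by simpa using hi))

lemma get_ge {α : Type} (d : α) (l : List α) (i : ℕ) (hi : l.length ≤ i) : get d l i = d := by
  induction l generalizing i with
  | nil => rfl
  | cons h l ih =>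
    cases i with
    | zero => simp at hi
    | succ i =>
      rw [get_succ]
      exact ih i (by simpa using hi)

/-- packing of a list of records -/
noncomputable def packG {α : Type} (f : α → ℕ) (l : List α) : ℕ :=
  List.rec (motive := fun _ => ℕ) 0 (fun h _ ih => Nat.add (f h) (Nat.shiftLeft ih 3072)) l

lemma fetch_eq (a i : ℕ) : fetch a i = a / 2 ^ (3072 * i) % 2 ^ 3072 := by
  have h : ∀ n, Nat.land (Nat.shiftRight a (Nat.mul n i)) (Nat.sub (Nat.pow 2 n) 1)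
      = a / 2 ^ (n * i) % 2 ^ n := by
    intro n
    rw [← Nat.and_two_pow_sub_one_eq_mod, ← Nat.shiftRight_eq_div_pow]
    rfl
  unfold fetch cMR
  exact h 3072

lemma packG_cons {α : Type} (f : α → ℕ) (h : α) (l : List α) :
    packG f (h :: l) = f h + packG f l * 2 ^ 3072 := by
  have e : packG f (h :: l) = f h + (packG f l) <<< 3072 := rfl
  rw [e, Nat.shiftLeft_eq]

lemma fetch_packG {α : Type} (f : α → ℕ) (d : α) (hd : f d = 0) (l : List α)
    (hl : ∀ x ∈ l, f x < 2 ^ 3072) (i : ℕ) : fetch (packG f l) i = f (get d l i) := by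
  rw [fetch_eq]
  induction l generalizing i with
  | nil =>
    rw [get_nil, hd]
    have : packG f [] = 0 := rfl
    rw [this, Nat.zero_div, Nat.zero_mod]
  | cons h l ih =>
    have hh := hl h (by simp)
    have hpos : 0 < 2 ^ 3072 := Nat.two_pow_pos _
    rw [packG_cons]
    cases i with
    | zero =>
      rw [get_zero, Nat.mul_zero, pow_zero, Nat.div_one, Nat.add_mul_mod_self_right,
        Nat.mod_eq_of_lt hh]
    | succ i =>
      rw [get_succ, Nat.mul_succ, Nat.add_comm (3072 * i) 3072, pow_add, ← Nat.div_div_eq_div_mul,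
        Nat.add_mul_div_right _ _ hpos, Nat.div_eq_of_lt hh, zero_add]
      exact ih (fun x hx => hl x (by simp [hx])) i

lemma recOf_eq (p : Pc) (lev : ℕ) : recOf p lev = p.q1 + (p.q3 * 2 ^ 864 + lev * 2 ^ 2880) := by
  have e : recOf p lev = p.q1 + (p.q3 <<< 864 + lev <<< 2880) := rfl
  rw [e, Nat.shiftLeft_eq, Nat.shiftLeft_eq]

lemma rec_general {A B C q1 q3 lev : ℕ} (h1 : q1 < 2 ^ A) (h3 : q3 < 2 ^ B) (hl : lev < 2 ^ C) :
    (q1 + (q3 * 2 ^ A + lev * 2 ^ (A + B))) % 2 ^ A = q1 ∧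
    (q1 + (q3 * 2 ^ A + lev * 2 ^ (A + B))) / 2 ^ A % 2 ^ B = q3 ∧
    (q1 + (q3 * 2 ^ A + lev * 2 ^ (A + B))) / 2 ^ (A + B) = lev ∧
    (q1 + (q3 * 2 ^ A + lev * 2 ^ (A + B))) < 2 ^ (A + B + C) := by
  have pA : 0 < 2 ^ A := Nat.two_pow_pos _
  have pB : 0 < 2 ^ B := Nat.two_pow_pos _
  have e : q1 + (q3 * 2 ^ A + lev * 2 ^ (A + B)) = q1 + (q3 + lev * 2 ^ B) * 2 ^ A := by
    rw [pow_add]; ring
  rw [e]
  have d1 : (q1 + (q3 + lev * 2 ^ B) * 2 ^ A) / 2 ^ A = q3 + lev * 2 ^ B := by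
    rw [Nat.add_mul_div_right _ _ pA, Nat.div_eq_of_lt h1, zero_add]
  refine ⟨?_, ?_, ?_, ?_⟩
  · rw [Nat.add_mul_mod_self_right, Nat.mod_eq_of_lt h1]
  · rw [d1, Nat.add_mul_mod_self_right, Nat.mod_eq_of_lt h3]
  · rw [pow_add, ← Nat.div_div_eq_div_mul, d1, Nat.add_mul_div_right _ _ pB,
      Nat.div_eq_of_lt h3, zero_add]
  · have i1 : q3 + lev * 2 ^ B < 2 ^ B * 2 ^ C := by
      have : (lev + 1) * 2 ^ B ≤ 2 ^ C * 2 ^ B := Nat.mul_le_mul_right _ hl
      nlinarith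
    have i2 : (q3 + lev * 2 ^ B + 1) * 2 ^ A ≤ (2 ^ B * 2 ^ C) * 2 ^ A :=
      Nat.mul_le_mul_right _ i1
    have i3 : 2 ^ (A + B + C) = (2 ^ B * 2 ^ C) * 2 ^ A := by rw [pow_add, pow_add]; ring
    rw [i3]
    nlinarith

lemma rec_fields {p : Pc} {lev : ℕ} (h1 : p.q1 < 2 ^ 864) (h3 : p.q3 < 2 ^ 2016)
    (hl : lev < 2 ^ 192) :
    Nat.land (recOf p lev) cM3 = p.q1 ∧
    Nat.land (Nat.shiftRight (recOf p lev) 864) cM7 = p.q3 ∧
    Nat.shiftRight (recOf p lev) 2880 = lev ∧ recOf p lev < 2 ^ 3072 := by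
  obtain ⟨g1, g2, g3, g4⟩ := rec_general h1 h3 hl
  rw [show 864 + 2016 = 2880 from rfl] at g1 g2 g3 g4
  rw [show 2880 + 192 = 3072 from rfl] at g4
  rw [← recOf_eq] at g1 g2 g3 g4
  have f1 : ∀ x n, Nat.land x (Nat.sub (Nat.pow 2 n) 1) = x % 2 ^ n := by
    intro x n
    rw [← Nat.and_two_pow_sub_one_eq_mod]
    rfl
  have f2 : ∀ x n, Nat.shiftRight x n = x / 2 ^ n := by
    intro x n
    rw [← Nat.shiftRight_eq_div_pow]
    rfl
  refine ⟨?_, ?_, ?_, g4⟩
  · unfold cM3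
    rw [f1]; exact g1
  · unfold cM7
    rw [f1, f2]; exact g2
  · rw [f2]; exact g3

lemma small_zero : smallV 1048576 Vc.zero = true := by
  rw [smallV_iff]
  unfold Vc.zero
  norm_num

lemma pcOf_zero : pcOf Vc.zero = ⟨0, 0⟩ := by
  unfold pcOf Vc.zero
  simp only [enc_eq, zero_mul, add_zero]
  rfl

lemma recC_zero : recOf (pcOf Vc.zero) 0 = 0 := by
  rw [pcOf_zero, recOf_eq]
  simp only [zero_mul, add_zero]

lemma fetch_packC (l : List Vc) (hl : ∀ v ∈ l, smallV 1048576 v = true) (i : ℕ) :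
    fetch (packC l) i = recOf (pcOf (get Vc.zero l i)) 0 := by
  have e : packC l = packG (fun h => recOf (pcOf h) 0) l := rfl
  rw [e]
  apply fetch_packG (fun h => recOf (pcOf h) 0) Vc.zero recC_zero l
  intro v hv
  obtain ⟨b1, b3⟩ := pcOf_lt v (hl v hv)
  exact (rec_fields b1 b3 (Nat.two_pow_pos _)).2.2.2

/-- default entry of the table of lower bounds -/
def lev0 : Lev := ⟨Vc.zero, 1000⟩

lemma lev_lt (lev : ℕ) : Nat.sub 1000 lev < 2 ^ 192 := by
  have h1 : Nat.sub 1000 lev ≤ 1000 := Nat.sub_le _ _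
  refine lt_of_le_of_lt h1 ?_
  norm_num

lemma fetch_packY (l : List Lev) (hl : ∀ y ∈ l, smallV 1048576 y.y = true) (i : ℕ) :
    fetch (packY l) i = recOf (pcOf (get lev0 l i).y) (Nat.sub 1000 (get lev0 l i).lev) := by
  have e : packY l = packG (fun h : Lev => recOf (pcOf h.y) (Nat.sub 1000 h.lev)) l := rfl
  rw [e]
  apply fetch_packG (fun h : Lev => recOf (pcOf h.y) (Nat.sub 1000 h.lev)) lev0 _ l
  · intro v hv
    obtain ⟨b1, b3⟩ := pcOf_lt v.y (hl v hv)
    exact (rec_fields b1 b3 (lev_lt _)).2.2.2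
  · exact recC_zero

/-! ### Oriented blocks -/

/-- A block with an orientation bit. -/
lemma oblk_ok {T : Tri} (hT : smallT T = true) {p q : Vc} (hp : smallV 1048576 p = true)
    (hq : smallV 1048576 q = true) (b : Bool) (β : ℕ)
    (hβ : β = cond b (blk (pcOf p).q1 (pcOf p).q3 (pcOf q).q1 (pcOf q).q3 (kOf T))
      (blk (pcOf q).q1 (pcOf q).q3 (pcOf p).q1 (pcOf p).q3 (kOf T)))
    (h : okB β = true) :
    (∀ c, 0 ≤ (if b = true then (1:ℤ) else -1) * (sg p * sg q) * detI (T.cor c) p q) ∧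
    Nat.sub β cH = dg (2 ^ 96) 3 (ab T p q) := by
  cases b with
  | true =>
    rw [cond_true] at hβ
    subst hβ
    obtain ⟨h1, h2⟩ := blk_ok hT hp hq h
    refine ⟨fun c => ?_, h2⟩
    rw [if_pos rfl, one_mul]
    exact h1 c
  | false =>
    rw [cond_false] at hβ
    subst hβ
    obtain ⟨h1, h2⟩ := blk_ok hT hq hp h
    refine ⟨fun c => ?_, ?_⟩
    · have := h1 c
      rw [detI_swap] at this
      rw [if_neg (by simp)]
      linarith
    · rw [h2, ab_swap]

end Pool.Agent.Helper54.Cert
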