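import Pool.Agent.Lib.Helper54.S18919.LeafD

/-!
# Real part of the planar leaf check
-/

set_option autoImplicit false

namespace Pool.Agent.Helper54.Cert

open Finset

lemma toR_eq (v : Vc) : v.toR = ((v.ia : ℝ), (v.ib : ℝ), (v.iu : ℝ)) := by
  unfold Vc.toR Vc.ia Vc.ib Vc.iu
  push_cast
  rfl

lemma toR_zero : Vc.zero.toR = 0 := by
  unfold Vc.toR Vc.zero
  simp

lemma det3_toR (c : Cn) (p q : Vc) : det3 c.toR p.toR q.toR = (detI c p q : ℝ) := by
  rw [toR_eq, toR_eq]
  unfold det3 Cn.toR detI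
  push_cast
  ring

lemma det3_smul_add (t1 t2 t3 : ℝ) (c1 c2 c3 p q : E3) :
    det3 (t1 • c1 + t2 • c2 + t3 • c3) p q
      = t1 * det3 c1 p q + t2 * det3 c2 p q + t3 * det3 c3 p q := by
  unfold det3
  simp only [Prod.fst_add, Prod.snd_add, Prod.smul_fst, Prod.smul_snd, smul_eq_mul]
  ring

/-- Cramer's rule for a seminorm which vanishes at `c`. -/
lemma cramer (ν : Seminorm ℝ E3) (c : E3) (hc : ν c = 0) (p q y : E3) :
    |det3 c p q| * ν y ≤ |det3 c y q| * ν p + |det3 c y p| * ν q := by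
  have e : det3 c p q • y = det3 c y q • p + (-det3 c y p) • q + det3 y p q • c := by
    unfold det3
    ext
    · simp only [Prod.fst_add, Prod.smul_fst, smul_eq_mul]; ring
    · simp only [Prod.fst_add, Prod.snd_add, Prod.smul_fst, Prod.smul_snd, smul_eq_mul]; ring
    · simp only [Prod.snd_add, Prod.smul_snd, smul_eq_mul]; ring
  have h1 : ν (det3 c p q • y) = |det3 c p q| * ν y := by rw [map_smul_eq_mul, Real.norm_eq_abs]
  have h2 : ν (det3 c y q • p) = |det3 c y q| * ν p := by rw [map_smul_eq_mul, Real.norm_eq_abs]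
  have h3 : ν ((-det3 c y p) • q) = |det3 c y p| * ν q := by
    rw [map_smul_eq_mul, Real.norm_eq_abs, abs_neg]
  have h4 : ν (det3 y p q • c) = 0 := by rw [map_smul_eq_mul, hc, mul_zero]
  rw [← h1, e]
  calc ν (det3 c y q • p + (-det3 c y p) • q + det3 y p q • c)
      ≤ ν (det3 c y q • p + (-det3 c y p) • q) + ν (det3 y p q • c) := map_add_le_add ν _ _
    _ ≤ ν (det3 c y q • p) + ν ((-det3 c y p) • q) + ν (det3 y p q • c) := by
        linarith [map_add_le_add ν (det3 c y q • p) ((-det3 c y p) • q)]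
    _ = |det3 c y q| * ν p + |det3 c y p| * ν q := by rw [h2, h3, h4, add_zero]

/-! ### Weighted values -/

/-- Value of three digits with the weights `t`. -/
def val (t1 t2 t3 : ℝ) (k : ℕ → ℕ) : ℝ := t1 * (k 0 : ℝ) + t2 * (k 1 : ℝ) + t3 * (k 2 : ℝ)

lemma val_nonneg {t1 t2 t3 : ℝ} (h1 : 0 ≤ t1) (h2 : 0 ≤ t2) (h3 : 0 ≤ t3) (k : ℕ → ℕ) :
    0 ≤ val t1 t2 t3 k := by
  unfold val; positivity

/-- The length as a function of the position; zero after the last position. -/
noncomputable def rho (r : ℕ → ℝ) (off m : ℕ) : ℝ := if m < 24 then r (off + m) else 0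

/-- The functional on digit functions. -/
noncomputable def Phi (t1 t2 t3 : ℝ) (r : ℕ → ℝ) (off : ℕ) (P : ℕ → ℕ) : ℝ :=
  ∑ m ∈ range 24, (rho r off m - rho r off (m + 1)) *
    (t1 * (P (3 * m) : ℝ) + t2 * (P (3 * m + 1) : ℝ) + t3 * (P (3 * m + 2) : ℝ))

lemma Phi_add (t1 t2 t3 : ℝ) (r : ℕ → ℝ) (off : ℕ) (P Q : ℕ → ℕ) :
    Phi t1 t2 t3 r off (fun i => P i + Q i) = Phi t1 t2 t3 r off P + Phi t1 t2 t3 r off Q := by
  unfold Phi
  rw [← sum_add_distrib]
  apply sum_congr rfl
  intro m _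
  push_cast
  ring

lemma tele (f : ℕ → ℝ) (v : ℝ) (m n : ℕ) (hm : m ≤ n) :
    ∑ j ∈ range n, (f j - f (j + 1)) * (if m ≤ j then v else 0) = v * (f m - f n) := by
  induction n, hm using Nat.le_induction with
  | base =>
    rw [sub_self, mul_zero]
    apply sum_eq_zero
    intro j hj
    rw [mem_range] at hj
    rw [if_neg (by omega), mul_zero]
  | succ n hn ih =>
    rw [sum_range_succ, ih, if_pos hn]
    ring

lemma Phi_tail (t1 t2 t3 : ℝ) (r : ℕ → ℝ) (off m : ℕ) (k : ℕ → ℕ) :
    Phi t1 t2 t3 r off (tail m k) = val t1 t2 t3 k * rho r off m := by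
  have e : ∀ j, (t1 * (tail m k (3 * j) : ℝ) + t2 * (tail m k (3 * j + 1) : ℝ)
      + t3 * (tail m k (3 * j + 2) : ℝ)) = if m ≤ j then val t1 t2 t3 k else 0 := by
    intro j
    have e0 : tail m k (3 * j) = if m ≤ j then k 0 else 0 := by
      have a : 3 * j / 3 = j := by omega
      have b : 3 * j % 3 = 0 := by omega
      simp only [tail, a, b]
    have e1 : tail m k (3 * j + 1) = if m ≤ j then k 1 else 0 := by
      have a : (3 * j + 1) / 3 = j := by omega
      have b : (3 * j + 1) % 3 = 1 := by omega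
      simp only [tail, a, b]
    have e2 : tail m k (3 * j + 2) = if m ≤ j then k 2 else 0 := by
      have a : (3 * j + 2) / 3 = j := by omega
      have b : (3 * j + 2) % 3 = 2 := by omega
      simp only [tail, a, b]
    rw [e0, e1, e2]
    unfold val
    split_ifs <;> simp
  unfold Phi
  simp only [e]
  rcases Nat.lt_or_ge m 24 with h | h
  · rw [tele _ _ _ _ h.le]
    congr 1
    have : rho r off 24 = 0 := by unfold rho; rw [if_neg (by omega)]
    rw [this, sub_zero]
  · have : rho r off m = 0 := by unfold rho; rw [if_neg (by omega)]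
    rw [this, mul_zero]
    apply sum_eq_zero
    intro j hj
    rw [mem_range] at hj
    rw [if_neg (by omega), mul_zero]

section

variable {r : ℕ → ℝ} (hr : ∀ i, r (i + 1) < r i) (hr0 : ∀ i, 0 < r i)
include hr hr0

lemma delta_pos (off m : ℕ) (hm : m < 24) : 0 < rho r off m - rho r off (m + 1) := by
  unfold rho
  rw [if_pos hm]
  split_ifs with h
  · have := hr (off + m)
    rw [← add_assoc]
    linarith
  · have := hr0 (off + m)
    linarith

lemma Phi_mono {t1 t2 t3 : ℝ} (h1 : 0 ≤ t1) (h2 : 0 ≤ t2) (h3 : 0 ≤ t3) (off : ℕ)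
    {P Q : ℕ → ℕ} (h : ∀ i, i < 72 → P i ≤ Q i) :
    Phi t1 t2 t3 r off P ≤ Phi t1 t2 t3 r off Q := by
  unfold Phi
  apply sum_le_sum
  intro m hm
  rw [mem_range] at hm
  apply mul_le_mul_of_nonneg_left _ (delta_pos hr hr0 off m hm).le
  have a0 : (P (3 * m) : ℝ) ≤ Q (3 * m) := by exact_mod_cast h _ (by omega)
  have a1 : (P (3 * m + 1) : ℝ) ≤ Q (3 * m + 1) := by exact_mod_cast h _ (by omega)
  have a2 : (P (3 * m + 2) : ℝ) ≤ Q (3 * m + 2) := by exact_mod_cast h _ (by omega)
  have b0 := mul_le_mul_of_nonneg_left a0 h1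
  have b1 := mul_le_mul_of_nonneg_left a1 h2
  have b2 := mul_le_mul_of_nonneg_left a2 h3
  linarith

lemma anti_r {i j : ℕ} (h : i ≤ j) : r j ≤ r i :=
  (strictAnti_nat_of_succ_lt hr).antitone h

/-- A lower bound at level `lev` gives one at the truncated position. -/
lemma rho_le (off lev : ℕ) (x : ℝ) (hx0 : 0 ≤ x) (hx : r lev ≤ x) :
    rho r off (lev - off) ≤ x := by
  unfold rho
  split_ifs with h
  · exact (anti_r hr hr0 (by omega)).trans hx
  · exact hx0

end

/-- one unit at the digit `3 m + c` -/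
def unit3 (m0 m1 m2 : ℕ) : ℕ → ℕ := fun i =>
  (if i = 3 * m0 then 1 else 0) + (if i = 3 * m1 + 1 then 1 else 0)
    + (if i = 3 * m2 + 2 then 1 else 0)

lemma Phi_unit3_pos {r : ℕ → ℝ} (hr : ∀ i, r (i + 1) < r i) (hr0 : ∀ i, 0 < r i)
    {t1 t2 t3 : ℝ} (h1 : 0 ≤ t1) (h2 : 0 ≤ t2) (h3 : 0 ≤ t3) (ht : 0 < t1 + t2 + t3)
    (off m0 m1 m2 : ℕ) (hm0 : m0 < 24) (hm1 : m1 < 24) (hm2 : m2 < 24) :
    0 < Phi t1 t2 t3 r off (unit3 m0 m1 m2) := by
  have e : Phi t1 t2 t3 r off (unit3 m0 m1 m2)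
      = ∑ m ∈ range 24, (rho r off m - rho r off (m + 1)) *
        ((if m = m0 then t1 else 0) + (if m = m1 then t2 else 0)
          + (if m = m2 then t3 else 0)) := by
    unfold Phi
    apply sum_congr rfl
    intro m _
    congr 1
    have a : (unit3 m0 m1 m2 (3 * m) : ℝ) = if m = m0 then 1 else 0 := by
      unfold unit3
      have i1 : (3 * m = 3 * m0) ↔ m = m0 := by omega
      have i2 : ¬ (3 * m = 3 * m1 + 1) := by omega
      have i3 : ¬ (3 * m = 3 * m2 + 2) := by omega
      simp only [i1, i2, i3, if_false, add_zero]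
      split_ifs <;> simp
    have b : (unit3 m0 m1 m2 (3 * m + 1) : ℝ) = if m = m1 then 1 else 0 := by
      unfold unit3
      have i1 : ¬ (3 * m + 1 = 3 * m0) := by omega
      have i2 : (3 * m + 1 = 3 * m1 + 1) ↔ m = m1 := by omega
      have i3 : ¬ (3 * m + 1 = 3 * m2 + 2) := by omega
      simp only [i1, i2, i3, if_false, add_zero, zero_add]
      split_ifs <;> simp
    have c : (unit3 m0 m1 m2 (3 * m + 2) : ℝ) = if m = m2 then 1 else 0 := by
      unfold unit3
      have i1 : ¬ (3 * m + 2 = 3 * m0) := by omega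
      have i2 : ¬ (3 * m + 2 = 3 * m1 + 1) := by omega
      have i3 : (3 * m + 2 = 3 * m2 + 2) ↔ m = m2 := by omega
      simp only [i1, i2, i3, if_false, zero_add]
      split_ifs <;> simp
    rw [a, b, c]
    simp only [mul_ite, mul_one, mul_zero]
  rw [e]
  have key : ∀ m ∈ range 24, 0 ≤ (rho r off m - rho r off (m + 1)) *
        ((if m = m0 then t1 else 0) + (if m = m1 then t2 else 0)
          + (if m = m2 then t3 else 0)) := by
    intro m hm
    rw [mem_range] at hm
    have := delta_pos hr hr0 off m hm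
    apply mul_nonneg this.le
    have a : 0 ≤ (if m = m0 then t1 else 0) := by split_ifs <;> linarith
    have b : 0 ≤ (if m = m1 then t2 else 0) := by split_ifs <;> linarith
    have c : 0 ≤ (if m = m2 then t3 else 0) := by split_ifs <;> linarith
    linarith
  have hex : ∃ m, m < 24 ∧ 0 < ((if m = m0 then t1 else 0) + (if m = m1 then t2 else 0)
          + (if m = m2 then t3 else 0)) := by
    have nn : ∀ m, 0 ≤ (if m = m0 then t1 else 0) ∧ 0 ≤ (if m = m1 then t2 else 0) ∧
        0 ≤ (if m = m2 then t3 else 0) := by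
      intro m
      refine ⟨?_, ?_, ?_⟩ <;> split_ifs <;> linarith
    rcases lt_or_eq_of_le h1 with h | h
    · refine ⟨m0, hm0, ?_⟩
      obtain ⟨_, b, c⟩ := nn m0
      rw [if_pos rfl]
      linarith
    rcases lt_or_eq_of_le h2 with h' | h'
    · refine ⟨m1, hm1, ?_⟩
      obtain ⟨a, _, c⟩ := nn m1
      have : (if m1 = m1 then t2 else 0) = t2 := if_pos rfl
      rw [this]
      linarith
    · refine ⟨m2, hm2, ?_⟩
      obtain ⟨a, b, _⟩ := nn m2
      have : (if m2 = m2 then t3 else 0) = t3 := if_pos rfl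
      rw [this]
      linarith
  obtain ⟨m, hm, hpos⟩ := hex
  have h4 := single_le_sum key (mem_range.2 hm)
  have h5 : 0 < (rho r off m - rho r off (m + 1)) *
        ((if m = m0 then t1 else 0) + (if m = m1 then t2 else 0)
          + (if m = m2 then t3 else 0)) := mul_pos (delta_pos hr hr0 off m hm) hpos
  exact lt_of_lt_of_le h5 h4

end Pool.Agent.Helper54.Cert
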