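import Pool.Agent.Lib.Helper54.S18919.LeafE

/-!
# Rows of the planar leaf check
-/

set_option autoImplicit false
set_option exponentiation.threshold 100000

namespace Pool.Agent.Helper54.Cert

open Finset

lemma dg_mul (b n l : ℕ) (t : ℕ → ℕ) : l * dg b n t = dg b n (fun i => l * t i) := by
  unfold dg
  rw [mul_sum]
  exact sum_congr rfl (fun i _ => (mul_assoc _ _ _).symm)

/-- orientation bit of the first block -/
noncomputable def ob (X : LC) (r : Row) : Bool :=
  Nat.beq (Nat.land (Nat.add r.sg (flR X.pi X.fl r.i r.j)) 1) 0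

/-- Digits added on the big side by an ordinary row. -/
noncomputable def incP (T : Tri) (ch : List Vc) (ys : List Lev) (off : ℕ) (r : Row) (y : ℕ) : ℕ → ℕ :=
  tail (Nat.sub (Nat.sub 1000 off) (Nat.sub 1000 (get lev0 ys y).lev))
    (fun c => r.lam * ab T (get Vc.zero ch r.i) (get Vc.zero ch r.j) c)

/-- Digits added on the small side by an ordinary row. -/
noncomputable def incN (T : Tri) (ch : List Vc) (ys : List Lev) (pi nu : ℕ) (r : Row) (y : ℕ) : ℕ → ℕ :=
  fun n => tail r.i (fun c => wt pi nu r.i r.lam * ab T (get lev0 ys y).y (get Vc.zero ch r.j) c) n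
    + tail r.j (fun c => wt pi nu r.j r.lam * ab T (get lev0 ys y).y (get Vc.zero ch r.i) c) n

lemma ordK_spec {X : LC} {T : Tri} {ch : List Vc} {ys : List Lev} (hT : smallT T = true)
    (hch : ∀ v ∈ ch, smallV 1048576 v = true) (hys : ∀ y ∈ ys, smallV 1048576 y.y = true)
    (hca : X.ca = packC ch) (hya : X.ya = packY ys) (hkp : X.kp = kOf T) (r : Row) (y : ℕ)
    (Gp Gn : ℕ) (k : ℕ → ℕ → Bool)
    (h : ordK X r (fetch X.ya y) (fetch X.ca r.i) (fetch X.ca r.j) Gp Gn k = true) :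
    (∀ c, 0 ≤ (if ob X r = true then (1:ℤ) else -1) *
      (sg (get Vc.zero ch r.i) * sg (get Vc.zero ch r.j)) *
        detI (T.cor c) (get Vc.zero ch r.i) (get Vc.zero ch r.j)) ∧
    k (Gp + dg (2 ^ 96) 72 (incP T ch ys X.off r y))
      (Gn + dg (2 ^ 96) 72 (incN T ch ys X.pi X.nu r y)) = true := by
  have si : smallV 1048576 (get Vc.zero ch r.i) = true :=
    get_ind (P := fun v => smallV 1048576 v = true) small_zero hch r.i
  have sj : smallV 1048576 (get Vc.zero ch r.j) = true :=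
    get_ind (P := fun v => smallV 1048576 v = true) small_zero hch r.j
  have sy : smallV 1048576 (get lev0 ys y).y = true :=
    get_ind (P := fun v : Lev => smallV 1048576 v.y = true) (d := lev0) small_zero hys y
  have fi := rec_fields (pcOf_lt _ si).1 (pcOf_lt _ si).2 (Nat.two_pow_pos 192)
  have fj := rec_fields (pcOf_lt _ sj).1 (pcOf_lt _ sj).2 (Nat.two_pow_pos 192)
  have fy := rec_fields (pcOf_lt _ sy).1 (pcOf_lt _ sy).2 (lev_lt (get lev0 ys y).lev)
  rw [hya, hca, fetch_packY ys hys, fetch_packC ch hch, fetch_packC ch hch] at h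
  unfold ordK at h
  rw [fi.1, fi.2.1, fj.1, fj.2.1, fy.1, fy.2.1, fy.2.2.1, hkp] at h
  beta_reduce at h
  unfold incP incN ob
  set vi := get Vc.zero ch r.i with hvi
  set vj := get Vc.zero ch r.j with hvj
  set L := get lev0 ys y with hL
  set b1 := cond (Nat.beq (Nat.land (Nat.add r.sg (flR X.pi X.fl r.i r.j)) 1) 0)
    (blk (pcOf vi).q1 (pcOf vi).q3 (pcOf vj).q1 (pcOf vj).q3 (kOf T))
    (blk (pcOf vj).q1 (pcOf vj).q3 (pcOf vi).q1 (pcOf vi).q3 (kOf T)) with hb1
  set b2 := cond (Nat.beq (Nat.land (Nat.shiftRight r.sg X.e) 2) 0)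
    (blk (pcOf L.y).q1 (pcOf L.y).q3 (pcOf vj).q1 (pcOf vj).q3 (kOf T))
    (blk (pcOf vj).q1 (pcOf vj).q3 (pcOf L.y).q1 (pcOf L.y).q3 (kOf T)) with hb2
  set b3 := cond (Nat.beq (Nat.land (Nat.shiftRight r.sg X.e) 4) 0)
    (blk (pcOf L.y).q1 (pcOf L.y).q3 (pcOf vi).q1 (pcOf vi).q3 (kOf T))
    (blk (pcOf vi).q1 (pcOf vi).q3 (pcOf L.y).q1 (pcOf L.y).q3 (kOf T)) with hb3
  cases o1 : okB b1 with
  | false => rw [o1, cond_false] at h; exact absurd h (by simp)
  | true =>
  cases o2 : okB b2 with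
  | false => rw [o1, o2, cond_true, cond_false] at h; exact absurd h (by simp)
  | true =>
  cases o3 : okB b3 with
  | false => rw [o1, o2, o3, cond_true, cond_true, cond_false] at h; exact absurd h (by simp)
  | true =>
  rw [o1, o2, o3, cond_true, cond_true, cond_true] at h
  obtain ⟨s1, e1⟩ := oblk_ok hT si sj _ b1 hb1 o1
  obtain ⟨-, e2⟩ := oblk_ok hT sy sj _ b2 hb2 o2
  obtain ⟨-, e3⟩ := oblk_ok hT sy si _ b3 hb3 o3
  refine ⟨s1, ?_⟩
  rw [e1, e2, e3] at h
  have m1 : ∀ (l m : ℕ) (t : ℕ → ℕ), Nat.mul (Nat.mul l (dg (2 ^ 96) 3 t)) (cS m)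
      = dg (2 ^ 96) 72 (tail m (fun c => l * t c)) := by
    intro l m t
    rw [← block_tail, ← dg_mul]
    rfl
  rw [m1, m1, m1] at h
  rw [dg_add]
  exact h

/-- Digits added by a gap row. -/
noncomputable def gapP (T : Tri) (off lam : ℕ) (g : Gap) : ℕ → ℕ :=
  tail (Nat.sub g.i off) (fun c => lam * (T.cor c).a)
noncomputable def gapN (T : Tri) (off lam : ℕ) (g : Gap) : ℕ → ℕ :=
  fun n => tail (Nat.sub g.m off) (fun c => lam * (T.cor c).a) n
    + tail (Nat.sub g.l off) (fun c => lam * (T.cor c).a) n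

lemma land_kOf {T : Tri} (hT : smallT T = true) :
    Nat.land (kOf T) cM = dg (2 ^ 96) 3 (fun c => (T.cor c).a) := by
  have f1 : ∀ x n, Nat.land x (Nat.sub (Nat.pow 2 n) 1) = x % 2 ^ n := by
    intro x n
    rw [← Nat.and_two_pow_sub_one_eq_mod]
    rfl
  unfold cM
  rw [f1, kOf_eq]
  have hlt : dg (2 ^ 96) 3 (fun i => (T.cor i).a) < 2 ^ 288 := by
    have := dg_lt (b := 2 ^ 96) (n := 3) (t := fun i => (T.cor i).a)
      (fun i _ => lt_of_lt_of_le (small_cor hT i).1 (by norm_num))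
    rwa [← pow_mul] at this
  generalize dg (2 ^ 96) 3 (fun i => (T.cor i).a) = A at *
  generalize dg (2 ^ 96) 3 (fun i => (T.cor i).b) = B
  generalize dg (2 ^ 96) 3 (fun i => (T.cor i).u) = U
  generalize (2:ℕ) ^ 288 = X at *
  have e : A + U * X ^ 4 + B * X ^ 5 = A + X * (U * X ^ 3 + B * X ^ 4) := by ring
  rw [e, Nat.add_mul_mod_self_left, Nat.mod_eq_of_lt hlt]

lemma gapK_spec {X : LC} {T : Tri} (hT : smallT T = true) (hkp : X.kp = kOf T) (lam : ℕ) (g : Gap)
    (Gp Gn : ℕ) (k : ℕ → ℕ → Bool) (h : gapK X lam g Gp Gn k = true) :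
    (X.off ≤ g.m ∧ X.off ≤ g.l ∧ g.m < X.off + 24 ∧ g.l < X.off + 24) ∧
    k (Gp + dg (2 ^ 96) 72 (gapP T X.off lam g))
      (Gn + dg (2 ^ 96) 72 (gapN T X.off lam g)) = true := by
  unfold gapK at h
  rw [hkp, land_kOf hT] at h
  cases c1 : Nat.ble X.off g.m with
  | false => rw [c1, cond_false] at h; exact absurd h (by simp)
  | true =>
  cases c2 : Nat.ble X.off g.l with
  | false => rw [c1, c2, cond_true, cond_false] at h; exact absurd h (by simp)
  | true =>
  cases c3 : Nat.ble (Nat.succ g.m) (Nat.add X.off 24) with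
  | false => rw [c1, c2, c3, cond_true, cond_true, cond_false] at h; exact absurd h (by simp)
  | true =>
  cases c4 : Nat.ble (Nat.succ g.l) (Nat.add X.off 24) with
  | false => rw [c1, c2, c3, c4, cond_true, cond_true, cond_true, cond_false] at h
             exact absurd h (by simp)
  | true =>
  rw [c1, c2, c3, c4, cond_true, cond_true, cond_true, cond_true] at h
  rw [Nat.ble_eq] at c1 c2 c3 c4
  refine ⟨⟨c1, c2, Nat.succ_le_iff.1 c3, Nat.succ_le_iff.1 c4⟩, ?_⟩
  have m1 : ∀ (l m : ℕ) (t : ℕ → ℕ), Nat.mul (Nat.mul l (dg (2 ^ 96) 3 t)) (cS m)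
      = dg (2 ^ 96) 72 (tail m (fun c => l * t c)) := by
    intro l m t
    rw [← block_tail, ← dg_mul]
    rfl
  have m2 : Nat.mul (Nat.mul lam (dg (2 ^ 96) 3 (fun c => (T.cor c).a)))
      (Nat.add (cS (Nat.sub g.m X.off)) (cS (Nat.sub g.l X.off)))
      = dg (2 ^ 96) 72 (gapN T X.off lam g) := by
    unfold gapN
    rw [dg_add, ← m1, ← m1]
    exact Nat.mul_add _ _ _
  rw [m1, m2] at h
  exact h

end Pool.Agent.Helper54.Cert
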