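import Pool.Agent.Lib.Helper54.S18919.LeafF

/-!
# The inequality of a row
-/

set_option autoImplicit false
set_option exponentiation.threshold 100000

namespace Pool.Agent.Helper54.Cert

open Finset

/-! ### Bounds for the increments -/

lemma ab_le_cc {T : Tri} (hT : smallT T = true) {p q : Vc} (hp : smallV 1048576 p = true)
    (hq : smallV 1048576 q = true) (c : ℕ) : ab T p q c ≤ 2 ^ 59 := by
  have h := det_small hT hp hq c
  unfold ab
  rw [← Int.natCast_natAbs] at h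
  exact_mod_cast h

lemma ab_le_yc {T : Tri} (hT : smallT T = true) {p q : Vc} (hp : smallV 1024 p = true)
    (hq : smallV 1048576 q = true) (c : ℕ) : ab T p q c ≤ 2 ^ 49 := by
  have h := detI_bound (small_cor hT c) (by norm_num) hp hq
  have h2 : |detI (T.cor c) p q| ≤ 2 ^ 49 := h.trans (by norm_num)
  unfold ab
  rw [← Int.natCast_natAbs] at h2
  exact_mod_cast h2

lemma tail_le {m B : ℕ} {k : ℕ → ℕ} (h : ∀ c, k c ≤ B) (n : ℕ) : tail m k n ≤ B := by
  unfold tail
  split_ifs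
  · exact h _
  · exact Nat.zero_le _

lemma wt_eq (pi nu i lam : ℕ) : wt pi nu i lam = if i = pi then nu * lam else lam := by
  unfold wt
  by_cases h : i = pi
  · rw [if_pos h, h]
    simp only [Nat.beq_refl, cond_true, Nat.mul_eq]
  · rw [if_neg h]
    have : Nat.beq i pi = false := by
      rw [Bool.eq_false_iff]
      intro hc
      exact h (Nat.eq_of_beq_eq_true hc)
    rw [this, cond_false]

lemma wt_le {pi nu i lam : ℕ} (hnu : nu ≤ 1024) (hl : lam ≤ 2 ^ 24) : wt pi nu i lam ≤ 2 ^ 34 := by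
  rw [wt_eq]
  split_ifs
  · calc nu * lam ≤ 1024 * 2 ^ 24 := Nat.mul_le_mul hnu hl
      _ = 2 ^ 34 := by norm_num
  · exact hl.trans (by norm_num)

lemma lev_small {ys : List Lev} (hys : ∀ y ∈ ys, smallV 1024 y.y = true) (y : ℕ) :
    smallV 1024 (get lev0 ys y).y = true := by
  refine get_ind (P := fun v : Lev => smallV 1024 v.y = true) (d := lev0) ?_ hys y
  show smallV 1024 Vc.zero = true
  rw [smallV_iff]
  unfold Vc.zero
  norm_num

section bounds

variable {T : Tri} (hT : smallT T = true) {ch : List Vc}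
  (hch : ∀ v ∈ ch, smallV 1048576 v = true) {ys : List Lev}
  (hys : ∀ y ∈ ys, smallV 1024 y.y = true)
include hT hch

lemma get_small (i : ℕ) : smallV 1048576 (get Vc.zero ch i) = true := by
  have := hT
  exact get_ind (P := fun v => smallV 1048576 v = true) small_zero hch i

lemma incP_le (off : ℕ) (r : Row) (hl : r.lam ≤ 2 ^ 24) (y n : ℕ) :
    incP T ch ys off r y n ≤ 2 ^ 84 := by
  unfold incP
  apply tail_le
  intro c
  calc r.lam * ab T (get Vc.zero ch r.i) (get Vc.zero ch r.j) c ≤ 2 ^ 24 * 2 ^ 59 :=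
        Nat.mul_le_mul hl (ab_le_cc hT (get_small hT hch _) (get_small hT hch _) c)
    _ ≤ 2 ^ 84 := by norm_num

include hys in
lemma incN_le {pi nu : ℕ} (hnu : nu ≤ 1024) (r : Row) (hl : r.lam ≤ 2 ^ 24) (y n : ℕ) :
    incN T ch ys pi nu r y n ≤ 2 ^ 84 := by
  unfold incN
  have key : ∀ i j : ℕ, wt pi nu i r.lam * ab T (get lev0 ys y).y (get Vc.zero ch j) 0 ≤ 2 ^ 83 ∨ True :=
    fun _ _ => Or.inr trivial
  have key : ∀ i j c : ℕ, wt pi nu i r.lam * ab T (get lev0 ys y).y (get Vc.zero ch j) c ≤ 2 ^ 83 := by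
    intro i j c
    calc _ ≤ 2 ^ 34 * 2 ^ 49 :=
          Nat.mul_le_mul (wt_le hnu hl) (ab_le_yc hT (lev_small hys y) (get_small hT hch _) c)
      _ = 2 ^ 83 := by norm_num
  calc _ ≤ 2 ^ 83 + 2 ^ 83 := Nat.add_le_add (tail_le (fun c => key _ _ c) n)
        (tail_le (fun c => key _ _ c) n)
    _ = 2 ^ 84 := by norm_num

end bounds

lemma gapP_le {T : Tri} (hT : smallT T = true) (off lam : ℕ) (hl : lam ≤ 2 ^ 24) (g : Gap) (n : ℕ) :
    gapP T off lam g n ≤ 2 ^ 84 := by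
  unfold gapP
  apply tail_le
  intro c
  calc lam * (T.cor c).a ≤ 2 ^ 24 * 65536 := Nat.mul_le_mul hl (small_cor hT c).1.le
    _ ≤ 2 ^ 84 := by norm_num

lemma gapN_le {T : Tri} (hT : smallT T = true) (off lam : ℕ) (hl : lam ≤ 2 ^ 24) (g : Gap) (n : ℕ) :
    gapN T off lam g n ≤ 2 ^ 84 := by
  unfold gapN
  have key : ∀ c, lam * (T.cor c).a ≤ 2 ^ 24 * 65536 :=
    fun c => Nat.mul_le_mul hl (small_cor hT c).1.le
  calc _ ≤ 2 ^ 24 * 65536 + 2 ^ 24 * 65536 := Nat.add_le_add (tail_le key n) (tail_le key n)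
    _ ≤ 2 ^ 84 := by norm_num

/-! ### Determinants of the combination of the corners -/

lemma val_smul (t1 t2 t3 : ℝ) (l : ℕ) (k : ℕ → ℕ) :
    val t1 t2 t3 (fun c => l * k c) = l * val t1 t2 t3 k := by
  unfold val; push_cast; ring

section real

variable {T : Tri} {c : E3} {t1 t2 t3 : ℝ} (h1 : 0 ≤ t1) (h2 : 0 ≤ t2) (h3 : 0 ≤ t3)
  (hc : c = t1 • T.c1.toR + t2 • T.c2.toR + t3 • T.c3.toR)

include hc in
lemma det3_cor (p q : Vc) : det3 c p.toR q.toR = t1 * (detI (T.cor 0) p q : ℝ)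
    + t2 * (detI (T.cor 1) p q : ℝ) + t3 * (detI (T.cor 2) p q : ℝ) := by
  rw [hc, det3_smul_add, det3_toR, det3_toR, det3_toR]
  rfl

include h1 h2 h3 hc in
lemma det3_abs_le (p q : Vc) : |det3 c p.toR q.toR| ≤ val t1 t2 t3 (ab T p q) := by
  rw [det3_cor hc]
  have e : ∀ i, ((ab T p q i : ℕ) : ℝ) = |(detI (T.cor i) p q : ℝ)| := by
    intro i
    unfold ab
    rw [← Int.cast_abs, ← Int.natCast_natAbs, Int.cast_natCast]
  unfold val
  rw [e, e, e]
  calc _ ≤ |t1 * (detI (T.cor 0) p q : ℝ) + t2 * (detI (T.cor 1) p q : ℝ)|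
        + |t3 * (detI (T.cor 2) p q : ℝ)| := abs_add_le _ _
    _ ≤ |t1 * (detI (T.cor 0) p q : ℝ)| + |t2 * (detI (T.cor 1) p q : ℝ)|
        + |t3 * (detI (T.cor 2) p q : ℝ)| := by
          linarith [abs_add_le (t1 * (detI (T.cor 0) p q : ℝ)) (t2 * (detI (T.cor 1) p q : ℝ))]
    _ = _ := by rw [abs_mul, abs_mul, abs_mul, abs_of_nonneg h1, abs_of_nonneg h2, abs_of_nonneg h3]

include hc in
lemma det3_signed {η : ℤ} (hη : |η| = 1) (p q : Vc) (hs : ∀ i, 0 ≤ η * detI (T.cor i) p q) :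
    (η : ℝ) * det3 c p.toR q.toR = val t1 t2 t3 (ab T p q) := by
  rw [det3_cor hc]
  have e : ∀ i, ((ab T p q i : ℕ) : ℝ) = (η : ℝ) * (detI (T.cor i) p q : ℝ) := by
    intro i
    unfold ab
    rw [← Int.cast_natCast, Int.natCast_natAbs]
    have : |detI (T.cor i) p q| = η * detI (T.cor i) p q := by
      rw [← abs_of_nonneg (hs i), abs_mul, hη, one_mul]
    rw [this]
    push_cast
    ring
  unfold val
  rw [e, e, e]
  ring

end real

/-! ### Signs -/

lemma flipOf_cases (v : Vc) : flipOf v = 0 ∨ flipOf v = 1 := by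
  unfold flipOf
  cases Nat.ble (enc 288 v.an v.bn v.un) (enc 288 v.ap v.bp v.up)
  · right; rfl
  · left; rfl

lemma beq_eq (a b : ℕ) : Nat.beq a b = decide (a = b) := by
  by_cases h : a = b
  · subst h; simp
  · have : Nat.beq a b = false := by
      rw [Bool.eq_false_iff]
      intro hc
      exact h (Nat.eq_of_beq_eq_true hc)
    rw [this]; simp [h]

/-- sign of the parity -/
lemma par_flip (s : ℕ) (v : Vc) :
    (if Nat.beq (Nat.land (Nat.add s (flipOf v)) 1) 0 = true then (1:ℤ) else -1) * sg v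
      = if s % 2 = 0 then 1 else -1 := by
  have e : ∀ x, Nat.land x 1 = x % 2 := fun x => Nat.and_one_is_mod x
  have e2 : ∀ x y, Nat.add x y = x + y := fun _ _ => rfl
  rw [e, e2, beq_eq]
  unfold sg
  rcases flipOf_cases v with h | h
  · rw [h]
    simp only [add_zero, decide_eq_true_eq, if_true, mul_one]
  · rw [h]
    simp only [decide_eq_true_eq, one_ne_zero, if_false]
    have hp : (s + 1) % 2 = 0 ↔ ¬ (s % 2 = 0) := by omega
    by_cases hs : s % 2 = 0
    · rw [if_neg (by rw [hp]; exact fun hh => hh hs), if_pos hs]; norm_num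
    · rw [if_pos (hp.2 hs), if_neg hs]; norm_num

/-- The sign of the block of two chain vectors. -/
noncomputable def sgn (pi f : ℕ) (ch : List Vc) (r : Row) : ℤ :=
  (if Nat.beq (Nat.land (Nat.add r.sg (flR pi f r.i r.j)) 1) 0 = true then (1:ℤ) else -1) *
    (sg (get Vc.zero ch r.i) * sg (get Vc.zero ch r.j))

lemma sgn_abs (pi f : ℕ) (ch : List Vc) (r : Row) : |sgn pi f ch r| = 1 := by
  unfold sgn
  rw [abs_mul, abs_mul, sg_abs, sg_abs]
  split_ifs <;> simp

lemma flR_eq (pi fl i j : ℕ) : flR pi fl i j = if i = pi then fl else if j = pi then fl else 0 := by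
  unfold flR
  rw [beq_eq, beq_eq]
  by_cases h : i = pi
  · simp [h]
  · by_cases h' : j = pi
    · simp [h, h']
    · simp [h, h']

lemma sgn_eq {pi : ℕ} {ch1 ch2 : List Vc}
    (hne : ∀ m, m ≠ pi → get Vc.zero ch1 m = get Vc.zero ch2 m) (r : Row) (hij : r.i ≠ r.j) :
    sgn pi (flipOf (get Vc.zero ch1 pi)) ch1 r = sgn pi (flipOf (get Vc.zero ch2 pi)) ch2 r := by
  unfold sgn
  rw [flR_eq, flR_eq]
  by_cases hi : r.i = pi
  · have hj : r.j ≠ pi := fun h => hij (hi.trans h.symm)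
    rw [hne _ hj, if_pos hi, if_pos hi, hi]
    have a1 := par_flip r.sg (get Vc.zero ch1 pi)
    have a2 := par_flip r.sg (get Vc.zero ch2 pi)
    rw [← mul_assoc, ← mul_assoc, a1, a2]
  · by_cases hj : r.j = pi
    · rw [hne _ hi, if_neg hi, if_neg hi, if_pos hj, if_pos hj, hj]
      have a1 := par_flip r.sg (get Vc.zero ch1 pi)
      have a2 := par_flip r.sg (get Vc.zero ch2 pi)
      rw [mul_comm (sg (get Vc.zero ch2 r.i)) (sg (get Vc.zero ch1 pi)),
        mul_comm (sg (get Vc.zero ch2 r.i)) (sg (get Vc.zero ch2 pi)), ← mul_assoc, ← mul_assoc,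
        a1, a2]
    · rw [hne _ hi, hne _ hj, if_neg hi, if_neg hi, if_neg hj, if_neg hj]

end Pool.Agent.Helper54.Cert
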