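import Pool.Agent.Lib.Helper54.S18919.LeafG

/-!
# The inequality of a row and the fold
-/

set_option autoImplicit false
set_option exponentiation.threshold 100000

namespace Pool.Agent.Helper54.Cert

open Finset

lemma det3_self (c p : E3) : det3 c p p = 0 := by unfold det3; ring

lemma det3_left (c p1 p2 q : E3) (a b : ℝ) :
    det3 c (a • p1 + b • p2) q = a * det3 c p1 q + b * det3 c p2 q := by
  unfold det3
  simp only [Prod.fst_add, Prod.snd_add, Prod.smul_fst, Prod.smul_snd, smul_eq_mul]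
  ring

lemma det3_right (c p q1 q2 : E3) (a b : ℝ) :
    det3 c p (a • q1 + b • q2) = a * det3 c p q1 + b * det3 c p q2 := by
  unfold det3
  simp only [Prod.fst_add, Prod.snd_add, Prod.smul_fst, Prod.smul_snd, smul_eq_mul]
  ring

lemma val_self (t1 t2 t3 : ℝ) (T : Tri) (p : Vc) : val t1 t2 t3 (ab T p p) = 0 := by
  have h : ∀ i, ab T p p i = 0 := by
    intro i
    have : detI (T.cor i) p p = 0 := by unfold detI; ring
    unfold ab
    rw [this]
    rfl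
  unfold val
  rw [h, h, h]
  simp

/-- The combination of the two chain vectors at position `m`. -/
noncomputable def zz (ch1 ch2 : List Vc) (θ : ℝ) (m : ℕ) : E3 :=
  (1 - θ) • (get Vc.zero ch1 m).toR + θ • (get Vc.zero ch2 m).toR

lemma zz_of_eq {ch1 ch2 : List Vc} {m : ℕ} (θ : ℝ)
    (h : get Vc.zero ch1 m = get Vc.zero ch2 m) : zz ch1 ch2 θ m = (get Vc.zero ch2 m).toR := by
  unfold zz
  rw [h, ← add_smul]
  have : 1 - θ + θ = 1 := by ring
  rw [this, one_smul]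

lemma det3_zz {ch1 ch2 : List Vc} {pi : ℕ}
    (hne : ∀ m, m ≠ pi → get Vc.zero ch1 m = get Vc.zero ch2 m) (θ : ℝ) (c : E3) (i j : ℕ) :
    det3 c (zz ch1 ch2 θ i) (zz ch1 ch2 θ j)
      = (1 - θ) * det3 c (get Vc.zero ch1 i).toR (get Vc.zero ch1 j).toR
        + θ * det3 c (get Vc.zero ch2 i).toR (get Vc.zero ch2 j).toR := by
  by_cases hij : i = j
  · rw [hij, det3_self, det3_self, det3_self]; ring
  · by_cases hi : i = pi
    · have hj : j ≠ pi := fun h => hij (hi.trans h.symm)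
      rw [zz_of_eq θ (hne j hj), hne j hj]
      unfold zz
      rw [det3_left]
    · rw [zz_of_eq θ (hne i hi), hne i hi]
      unfold zz
      rw [det3_right]

section

variable {ν : Seminorm ℝ E3} {c : E3} (hc : ν c = 0)
  {r : ℕ → ℝ} (hr : ∀ i, r (i + 1) < r i) (hr0 : ∀ i, 0 < r i)
  {T : Tri} (hT : smallT T = true)
  {t1 t2 t3 : ℝ} (ht1 : 0 ≤ t1) (ht2 : 0 ≤ t2) (ht3 : 0 ≤ t3)
  (hcT : c = t1 • T.c1.toR + t2 • T.c2.toR + t3 • T.c3.toR)
  {ch1 ch2 : List Vc} {ys : List Lev} {gs : List Gap} {off pi nu : ℕ}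
  (hl1 : ch1.length ≤ 24) (hl : ch2.length = ch1.length)
  (hs1 : ∀ v ∈ ch1, smallV 1048576 v = true) (hs2 : ∀ v ∈ ch2, smallV 1048576 v = true)
  (hys : ∀ y ∈ ys, smallV 1024 y.y = true ∧ y.lev ≤ 1000)
  (hnu : nu ≤ 1024) (hoff : off ≤ 900)
  (hne : ∀ m, m ≠ pi → get Vc.zero ch1 m = get Vc.zero ch2 m)
  {θ : ℝ} (hθ0 : 0 ≤ θ) (hθ1 : θ ≤ 1)
  (hch : ∀ m, ν (zz ch1 ch2 θ m) ≤ (if m = pi then (nu : ℝ) else 1) * r (off + m))
  (hy : ∀ y ∈ ys, r y.lev ≤ ν y.y.toR)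
  (hg : ∀ g ∈ gs, r g.i ≤ r g.m + r g.l)

include hl1 hl hch in
/-- Upper bound for the length at a position. -/
lemma nu_zz (m : ℕ) : ν (zz ch1 ch2 θ m) ≤ (if m = pi then (nu : ℝ) else 1) * rho r off m := by
  unfold rho
  split_ifs with h1 h2 h2
  · have := hch m; rw [if_pos h1] at this; exact this
  · have a : get Vc.zero ch1 m = Vc.zero := get_ge _ _ _ (by omega)
    have b : get Vc.zero ch2 m = Vc.zero := get_ge _ _ _ (by omega)
    unfold zz
    rw [a, b, toR_zero, smul_zero, smul_zero, add_zero, map_zero, mul_zero]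
  · have := hch m; rw [if_neg h1] at this; exact this
  · have a : get Vc.zero ch1 m = Vc.zero := get_ge _ _ _ (by omega)
    have b : get Vc.zero ch2 m = Vc.zero := get_ge _ _ _ (by omega)
    unfold zz
    rw [a, b, toR_zero, smul_zero, smul_zero, add_zero, map_zero, mul_zero]

include hr hr0 hys hoff hy in
/-- Lower bound for the table vector number `y`. -/
lemma rho_le_nu (y : ℕ) :
    rho r off (Nat.sub (Nat.sub 1000 off) (Nat.sub 1000 (get lev0 ys y).lev))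
      ≤ ν (get lev0 ys y).y.toR := by
  rcases Nat.lt_or_ge y ys.length with h | h
  · have hm := get_mem lev0 ys y h
    have h1 := hy _ hm
    have h2 := (hys _ hm).2
    have e : Nat.sub (Nat.sub 1000 off) (Nat.sub 1000 (get lev0 ys y).lev)
        = (get lev0 ys y).lev - off := by
      show 1000 - off - (1000 - (get lev0 ys y).lev) = _
      omega
    rw [e]
    exact rho_le hr hr0 off _ _ (apply_nonneg ν _) h1
  · rw [get_ge _ _ _ h]
    have e : Nat.sub (Nat.sub 1000 off) (Nat.sub 1000 lev0.lev) = 1000 - off := by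
      show 1000 - off - (1000 - 1000) = _
      omega
    rw [e]
    unfold rho
    rw [if_neg (by omega)]
    exact apply_nonneg ν _

include hc ht1 ht2 ht3 hcT hr hr0 hl1 hl hys hoff hne hθ0 hθ1 hch hy in
/-- The inequality of an ordinary row. -/
lemma row_ineq (R : Row) (y : ℕ)
    (S1 : ∀ i, 0 ≤ sgn pi (flipOf (get Vc.zero ch1 pi)) ch1 R *
      detI (T.cor i) (get Vc.zero ch1 R.i) (get Vc.zero ch1 R.j))
    (S2 : ∀ i, 0 ≤ sgn pi (flipOf (get Vc.zero ch2 pi)) ch2 R *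
      detI (T.cor i) (get Vc.zero ch2 R.i) (get Vc.zero ch2 R.j)) :
    (1 - θ) * (Phi t1 t2 t3 r off (incP T ch1 ys off R y)
        - Phi t1 t2 t3 r off (incN T ch1 ys pi nu R y))
      + θ * (Phi t1 t2 t3 r off (incP T ch2 ys off R y)
        - Phi t1 t2 t3 r off (incN T ch2 ys pi nu R y)) ≤ 0 := by
  have hθ' : 0 ≤ 1 - θ := by linarith
  set Y := (get lev0 ys y).y with hY
  set pos := Nat.sub (Nat.sub 1000 off) (Nat.sub 1000 (get lev0 ys y).lev) with hpos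
  have hρ : rho r off pos ≤ ν Y.toR := rho_le_nu hr hr0 hys hoff hy y
  have hzi := nu_zz hl1 hl hch R.i
  have hzj := nu_zz hl1 hl hch R.j
  set a1 := val t1 t2 t3 (ab T (get Vc.zero ch1 R.i) (get Vc.zero ch1 R.j)) with ha1
  set a2 := val t1 t2 t3 (ab T (get Vc.zero ch2 R.i) (get Vc.zero ch2 R.j)) with ha2
  set b1 := val t1 t2 t3 (ab T Y (get Vc.zero ch1 R.j)) with hb1
  set b2 := val t1 t2 t3 (ab T Y (get Vc.zero ch2 R.j)) with hb2
  set d1 := val t1 t2 t3 (ab T Y (get Vc.zero ch1 R.i)) with hd1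
  set d2 := val t1 t2 t3 (ab T Y (get Vc.zero ch2 R.i)) with hd2
  set wi : ℝ := if R.i = pi then (nu : ℝ) else 1 with hwi
  set wj : ℝ := if R.j = pi then (nu : ℝ) else 1 with hwj
  have e1 : Phi t1 t2 t3 r off (incP T ch1 ys off R y) = R.lam * a1 * rho r off pos := by
    unfold incP
    rw [Phi_tail, val_smul]
  have e2 : Phi t1 t2 t3 r off (incP T ch2 ys off R y) = R.lam * a2 * rho r off pos := by
    unfold incP
    rw [Phi_tail, val_smul]
  have hw : ∀ i, ((wt pi nu i R.lam : ℕ) : ℝ) = (if i = pi then (nu : ℝ) else 1) * R.lam := by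
    intro i
    rw [wt_eq]
    split_ifs
    · push_cast; ring
    · rw [one_mul]
  have e3 : Phi t1 t2 t3 r off (incN T ch1 ys pi nu R y)
      = wi * R.lam * b1 * rho r off R.i + wj * R.lam * d1 * rho r off R.j := by
    unfold incN
    rw [Phi_add, Phi_tail, Phi_tail, val_smul, val_smul, hw, hw]
  have e4 : Phi t1 t2 t3 r off (incN T ch2 ys pi nu R y)
      = wi * R.lam * b2 * rho r off R.i + wj * R.lam * d2 * rho r off R.j := by
    unfold incN
    rw [Phi_add, Phi_tail, Phi_tail, val_smul, val_smul, hw, hw]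
  -- determinant of the two chain vectors
  have hA : |det3 c (zz ch1 ch2 θ R.i) (zz ch1 ch2 θ R.j)| = (1 - θ) * a1 + θ * a2 := by
    have hnn : 0 ≤ (1 - θ) * a1 + θ * a2 :=
      add_nonneg (mul_nonneg hθ' (val_nonneg ht1 ht2 ht3 _)) (mul_nonneg hθ0 (val_nonneg ht1 ht2 ht3 _))
    by_cases hij : R.i = R.j
    · rw [ha1, ha2, hij, val_self, val_self, det3_self, abs_zero]
      ring
    · have hsg := sgn_eq hne R hij
      set η := sgn pi (flipOf (get Vc.zero ch2 pi)) ch2 R with hη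
      rw [hsg] at S1
      have hη1 : |η| = 1 := sgn_abs _ _ _ _
      have s1 := det3_signed hcT hη1 _ _ S1
      have s2 := det3_signed hcT hη1 _ _ S2
      have s3 : (η : ℝ) * det3 c (zz ch1 ch2 θ R.i) (zz ch1 ch2 θ R.j) = (1 - θ) * a1 + θ * a2 := by
        rw [det3_zz hne, ha1, ha2, ← s1, ← s2]
        ring
      rw [← s3] at hnn ⊢
      have hη2 : |(η : ℝ)| = 1 := by rw [← Int.cast_abs, hη1]; simp
      rw [← abs_of_nonneg hnn, abs_mul, hη2, one_mul]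
  have hB : |det3 c Y.toR (zz ch1 ch2 θ R.j)| ≤ (1 - θ) * b1 + θ * b2 := by
    unfold zz
    rw [det3_right]
    have i1 := det3_abs_le ht1 ht2 ht3 hcT Y (get Vc.zero ch1 R.j)
    have i2 := det3_abs_le ht1 ht2 ht3 hcT Y (get Vc.zero ch2 R.j)
    have j1 := mul_le_mul_of_nonneg_left i1 hθ'
    have j2 := mul_le_mul_of_nonneg_left i2 hθ0
    refine (abs_add_le _ _).trans ?_
    rw [abs_mul, abs_mul, abs_of_nonneg hθ', abs_of_nonneg hθ0]
    linarith
  have hD : |det3 c Y.toR (zz ch1 ch2 θ R.i)| ≤ (1 - θ) * d1 + θ * d2 := by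
    unfold zz
    rw [det3_right]
    have i1 := det3_abs_le ht1 ht2 ht3 hcT Y (get Vc.zero ch1 R.i)
    have i2 := det3_abs_le ht1 ht2 ht3 hcT Y (get Vc.zero ch2 R.i)
    have j1 := mul_le_mul_of_nonneg_left i1 hθ'
    have j2 := mul_le_mul_of_nonneg_left i2 hθ0
    refine (abs_add_le _ _).trans ?_
    rw [abs_mul, abs_mul, abs_of_nonneg hθ', abs_of_nonneg hθ0]
    linarith
  have hcr := cramer ν c hc (zz ch1 ch2 θ R.i) (zz ch1 ch2 θ R.j) Y.toR
  have hlam : (0:ℝ) ≤ R.lam := Nat.cast_nonneg _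
  have k1 : |det3 c (zz ch1 ch2 θ R.i) (zz ch1 ch2 θ R.j)| * rho r off pos
      ≤ |det3 c (zz ch1 ch2 θ R.i) (zz ch1 ch2 θ R.j)| * ν Y.toR :=
    mul_le_mul_of_nonneg_left hρ (abs_nonneg _)
  have k2 : |det3 c Y.toR (zz ch1 ch2 θ R.j)| * ν (zz ch1 ch2 θ R.i)
      ≤ ((1 - θ) * b1 + θ * b2) * (wi * rho r off R.i) :=
    mul_le_mul hB hzi (apply_nonneg ν _) ((abs_nonneg _).trans hB)
  have k3 : |det3 c Y.toR (zz ch1 ch2 θ R.i)| * ν (zz ch1 ch2 θ R.j)
      ≤ ((1 - θ) * d1 + θ * d2) * (wj * rho r off R.j) :=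
    mul_le_mul hD hzj (apply_nonneg ν _) ((abs_nonneg _).trans hD)
  rw [hA] at k1
  rw [hA] at hcr
  have k4 : ((1 - θ) * a1 + θ * a2) * rho r off pos
      ≤ ((1 - θ) * b1 + θ * b2) * (wi * rho r off R.i)
        + ((1 - θ) * d1 + θ * d2) * (wj * rho r off R.j) := by linarith
  have k5 := mul_le_mul_of_nonneg_left k4 hlam
  rw [e1, e2, e3, e4]
  linarith

include hr hr0 ht1 ht2 ht3 in
/-- The inequality of a gap row. -/
lemma gap_ineq (lam : ℕ) (g : Gap) (h1 : off ≤ g.m) (h2 : off ≤ g.l) (h3 : g.m < off + 24)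
    (h4 : g.l < off + 24) (h5 : r g.i ≤ r g.m + r g.l) :
    Phi t1 t2 t3 r off (gapP T off lam g) ≤ Phi t1 t2 t3 r off (gapN T off lam g) := by
  unfold gapP gapN
  rw [Phi_add, Phi_tail, Phi_tail, Phi_tail, ← mul_add]
  apply mul_le_mul_of_nonneg_left _ (val_nonneg ht1 ht2 ht3 _)
  have e1 : rho r off (Nat.sub g.m off) = r g.m := by
    show rho r off (g.m - off) = _
    unfold rho
    rw [if_pos (by omega)]
    congr 1
    omega
  have e2 : rho r off (Nat.sub g.l off) = r g.l := by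
    show rho r off (g.l - off) = _
    unfold rho
    rw [if_pos (by omega)]
    congr 1
    omega
  rw [e1, e2]
  exact rho_le hr hr0 off g.i _ (by linarith [hr0 g.m, hr0 g.l]) h5

/-! ### The fold -/

lemma foldK_nil (X : LC) (E Gp Gn : ℕ) : foldK X E [] Gp Gn
    = Nat.beq (Nat.land (Nat.sub (Nat.add Gp cHH) (Nat.add Gn E)) cHH) cHH := rfl

lemma foldK_cons (X : LC) (E : ℕ) (R : Row) (l : List Row) (Gp Gn : ℕ) :
    foldK X E (R :: l) Gp Gn = rowK X R Gp Gn (foldK X E l) := rfl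

lemma rowK_zero (X : LC) (R : Row) (Gp Gn : ℕ) (k : ℕ → ℕ → Bool) (h : R.yi = 0) :
    rowK X R Gp Gn k = gapK X R.lam (get ⟨0, 0, 0⟩ X.gs R.i) Gp Gn k := by
  unfold rowK; rw [h]; rfl

lemma rowK_succ (X : LC) (R : Row) (Gp Gn : ℕ) (k : ℕ → ℕ → Bool) (y : ℕ) (h : R.yi = y + 1) :
    rowK X R Gp Gn k = ordK X R (fetch X.ya y) (fetch X.ca R.i) (fetch X.ca R.j) Gp Gn k := by
  unfold rowK; rw [h]

lemma ob_sgn (X : LC) (R : Row) (ch : List Vc) :
    (if ob X R = true then (1:ℤ) else -1) *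
      (sg (get Vc.zero ch R.i) * sg (get Vc.zero ch R.j)) = sgn X.pi X.fl ch R := by
  unfold sgn ob
  rfl

lemma conv_pos {θ A B : ℝ} (h0 : 0 ≤ θ) (h1 : θ ≤ 1) (hA : 0 < A) (hB : 0 < B) :
    0 < (1 - θ) * A + θ * B := by
  rcases lt_or_eq_of_le h0 with h | h
  · have : 0 < θ * B := mul_pos h hB
    have : 0 ≤ (1 - θ) * A := mul_nonneg (by linarith) hA.le
    linarith
  · rw [← h]; linarith

/-- The final comparison. -/
lemma final_cmp {P N e : ℕ → ℕ} (hP : ∀ i, P i ≤ 255 * 2 ^ 84) (hN : ∀ i, N i ≤ 255 * 2 ^ 84)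
    (he : ∀ i, e i ≤ 3)
    (h : Nat.beq (Nat.land (Nat.sub (Nat.add (dg (2 ^ 96) 72 P) cHH)
      (Nat.add (dg (2 ^ 96) 72 N) (dg (2 ^ 96) 72 e))) cHH) cHH = true) :
    ∀ i, i < 72 → N i + e i ≤ P i := by
  have h1 := Nat.eq_of_beq_eq_true h
  have h2 : (dg (2 ^ 96) 72 P + cHH - (dg (2 ^ 96) 72 N + dg (2 ^ 96) 72 e)) &&& cHH = cHH := h1
  have hb : ∀ i, N i + e i ≤ 2 ^ 95 := by
    intro i
    calc N i + e i ≤ 255 * 2 ^ 84 + 3 := Nat.add_le_add (hN i) (he i)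
      _ ≤ 2 ^ 95 := by norm_num
  have e1 : dg (2 ^ 96) 72 P + cHH - (dg (2 ^ 96) 72 N + dg (2 ^ 96) 72 e)
      = dg (2 ^ 96) 72 (fun i => P i + 2 ^ 95 - (N i + e i)) := by
    rw [cHH_eq, ← dg_add, ← dg_add]
    apply Nat.sub_eq_of_eq_add
    rw [← dg_add]
    apply dg_congr
    intro i _
    have := hb i
    omega
  rw [e1, cHH_eq] at h2
  have hlt : ∀ i, i < 72 → P i + 2 ^ 95 - (N i + e i) < 2 ^ 96 := by
    intro i _
    have := hP i
    have h3 : 255 * 2 ^ 84 + 2 ^ 95 < 2 ^ 96 := by norm_num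
    omega
  intro i hi
  have h4 := dg_land hlt h2 i hi
  omega

include hc hr hr0 hT ht1 ht2 ht3 hcT hl1 hl hs1 hs2 hys hnu hoff hne hθ0 hθ1 hch hy hg in
lemma fold_sound (e1 e2 E : ℕ) (e : ℕ → ℕ) (he : ∀ i, e i ≤ 3) (hE : E = dg (2 ^ 96) 72 e)
    (hePhi : 0 < Phi t1 t2 t3 r off e) (l : List Row) (hlam : ∀ R ∈ l, R.lam ≤ 2 ^ 24) :
    ∀ (n : ℕ), n + l.length ≤ 255 → ∀ P1 N1 P2 N2 : ℕ → ℕ,
      (∀ i, P1 i ≤ n * 2 ^ 84) → (∀ i, N1 i ≤ n * 2 ^ 84) →
      (∀ i, P2 i ≤ n * 2 ^ 84) → (∀ i, N2 i ≤ n * 2 ^ 84) →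
      (1 - θ) * (Phi t1 t2 t3 r off P1 - Phi t1 t2 t3 r off N1)
        + θ * (Phi t1 t2 t3 r off P2 - Phi t1 t2 t3 r off N2) ≤ 0 →
      foldK ⟨packC ch1, packY ys, kOf T, pi, nu, off, gs, e1, flipOf (get Vc.zero ch1 pi)⟩ E l
        (dg (2 ^ 96) 72 P1) (dg (2 ^ 96) 72 N1) = true →
      foldK ⟨packC ch2, packY ys, kOf T, pi, nu, off, gs, e2, flipOf (get Vc.zero ch2 pi)⟩ E l
        (dg (2 ^ 96) 72 P2) (dg (2 ^ 96) 72 N2) = true → False := by
  have hθ' : 0 ≤ 1 - θ := by linarith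
  have hys' : ∀ y ∈ ys, smallV 1048576 y.y = true := fun y h => smallV_mono (hys y h).1
  have hys1 : ∀ y ∈ ys, smallV 1024 y.y = true := fun y h => (hys y h).1
  induction l with
  | nil =>
    intro n hn P1 N1 P2 N2 hP1 hN1 hP2 hN2 hPhi g1 g2
    have hn' : n ≤ 255 := by simpa using hn
    have hb : n * 2 ^ 84 ≤ 255 * 2 ^ 84 := Nat.mul_le_mul_right _ hn'
    rw [foldK_nil, hE] at g1 g2
    have c1 := final_cmp (fun i => (hP1 i).trans hb) (fun i => (hN1 i).trans hb) he g1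
    have c2 := final_cmp (fun i => (hP2 i).trans hb) (fun i => (hN2 i).trans hb) he g2
    have m1 := Phi_mono hr hr0 ht1 ht2 ht3 off c1
    have m2 := Phi_mono hr hr0 ht1 ht2 ht3 off c2
    rw [Phi_add] at m1 m2
    exact absurd hPhi (not_le.2 (conv_pos hθ0 hθ1 (by linarith only [m1, hePhi])
      (by linarith only [m2, hePhi])))
  | cons R l ih =>
    intro n hn P1 N1 P2 N2 hP1 hN1 hP2 hN2 hPhi g1 g2
    rw [foldK_cons] at g1 g2
    have X1kp : (⟨packC ch1, packY ys, kOf T, pi, nu, off, gs, e1,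
      flipOf (get Vc.zero ch1 pi)⟩ : LC).kp = kOf T := by dsimp only
    have X2kp : (⟨packC ch2, packY ys, kOf T, pi, nu, off, gs, e2,
      flipOf (get Vc.zero ch2 pi)⟩ : LC).kp = kOf T := by dsimp only
    have X1ca : (⟨packC ch1, packY ys, kOf T, pi, nu, off, gs, e1,
      flipOf (get Vc.zero ch1 pi)⟩ : LC).ca = packC ch1 := by dsimp only
    have X2ca : (⟨packC ch2, packY ys, kOf T, pi, nu, off, gs, e2,
      flipOf (get Vc.zero ch2 pi)⟩ : LC).ca = packC ch2 := by dsimp only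
    have X1ya : (⟨packC ch1, packY ys, kOf T, pi, nu, off, gs, e1,
      flipOf (get Vc.zero ch1 pi)⟩ : LC).ya = packY ys := by dsimp only
    have X2ya : (⟨packC ch2, packY ys, kOf T, pi, nu, off, gs, e2,
      flipOf (get Vc.zero ch2 pi)⟩ : LC).ya = packY ys := by dsimp only
    have hR : R.lam ≤ 2 ^ 24 := hlam R (by simp)
    have hn' : n + 1 + l.length ≤ 255 := by
      rw [List.length_cons] at hn; omega
    have next := ih (fun Q hQ => hlam Q (by simp [hQ])) (n + 1) hn'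
    have hbd : ∀ (P Q : ℕ → ℕ), (∀ i, P i ≤ n * 2 ^ 84) → (∀ i, Q i ≤ 2 ^ 84) →
        ∀ i, P i + Q i ≤ (n + 1) * 2 ^ 84 := by
      intro P Q h1 h2 i
      have := h1 i
      have := h2 i
      rw [Nat.add_mul, one_mul]
      omega
    cases hyi : R.yi with
    | zero =>
      rw [rowK_zero _ _ _ _ _ hyi] at g1 g2
      obtain ⟨⟨k1, k2, k3, k4⟩, g1'⟩ := gapK_spec hT X1kp _ _ _ _ _ g1
      obtain ⟨-, g2'⟩ := gapK_spec hT X2kp _ _ _ _ _ g2
      rw [← dg_add, ← dg_add] at g1' g2'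
      dsimp only at k1 k2 k3 k4 g1' g2'
      have hgap : r (get (⟨0, 0, 0⟩ : Gap) gs R.i).i
          ≤ r (get (⟨0, 0, 0⟩ : Gap) gs R.i).m + r (get (⟨0, 0, 0⟩ : Gap) gs R.i).l :=
        get_ind (P := fun g : Gap => r g.i ≤ r g.m + r g.l) (d := (⟨0, 0, 0⟩ : Gap))
          (by show r 0 ≤ r 0 + r 0; linarith only [hr0 0]) hg R.i
      have hineq := gap_ineq hr hr0 (T := T) ht1 ht2 ht3 R.lam
        (get (⟨0, 0, 0⟩ : Gap) gs R.i) k1 k2 k3 k4 hgap
      refine next _ _ _ _ (hbd _ _ hP1 (gapP_le hT _ _ hR _)) (hbd _ _ hN1 (gapN_le hT _ _ hR _))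
        (hbd _ _ hP2 (gapP_le hT _ _ hR _)) (hbd _ _ hN2 (gapN_le hT _ _ hR _)) ?_ g1' g2'
      rw [Phi_add, Phi_add, Phi_add, Phi_add]
      change Phi t1 t2 t3 r off (gapP T off R.lam (get (⟨0, 0, 0⟩ : Gap) gs R.i)) ≤
        Phi t1 t2 t3 r off (gapN T off R.lam (get (⟨0, 0, 0⟩ : Gap) gs R.i)) at hineq
      set a := Phi t1 t2 t3 r off (gapP T off R.lam (get (⟨0, 0, 0⟩ : Gap) gs R.i))
      set b := Phi t1 t2 t3 r off (gapN T off R.lam (get (⟨0, 0, 0⟩ : Gap) gs R.i))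
      have e : (1 - θ) * (Phi t1 t2 t3 r off P1 + a - (Phi t1 t2 t3 r off N1 + b))
          + θ * (Phi t1 t2 t3 r off P2 + a - (Phi t1 t2 t3 r off N2 + b))
          = ((1 - θ) * (Phi t1 t2 t3 r off P1 - Phi t1 t2 t3 r off N1)
            + θ * (Phi t1 t2 t3 r off P2 - Phi t1 t2 t3 r off N2)) + (a - b) := by ring
      rw [e]
      linarith only [hPhi, hineq]
    | succ y =>
      rw [rowK_succ _ _ _ _ _ y hyi] at g1 g2
      obtain ⟨s1, g1'⟩ := ordK_spec hT hs1 hys' X1ca X1ya X1kp R y _ _ _ g1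
      obtain ⟨s2, g2'⟩ := ordK_spec hT hs2 hys' X2ca X2ya X2kp R y _ _ _ g2
      rw [← dg_add, ← dg_add] at g1' g2'
      simp only [ob_sgn] at s1 s2
      dsimp only at g1' g2'
      have hineq := row_ineq hc hr hr0 ht1 ht2 ht3 hcT hl1 hl hys hoff hne hθ0 hθ1 hch hy R y s1 s2
      refine next _ _ _ _ (hbd _ _ hP1 (incP_le hT hs1 _ _ hR _))
        (hbd _ _ hN1 (incN_le hT hs1 hys1 hnu _ hR _))
        (hbd _ _ hP2 (incP_le hT hs2 _ _ hR _))
        (hbd _ _ hN2 (incN_le hT hs2 hys1 hnu _ hR _)) ?_ g1' g2'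
      rw [Phi_add, Phi_add, Phi_add, Phi_add]
      linarith only [hPhi, hineq]

end

end Pool.Agent.Helper54.Cert
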