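import Pool.Agent.Lib.Helper54.S18919.EnumSound

/-!
# Soundness of the main check (chunk R)
-/

set_option autoImplicit false

namespace Pool.Agent.Helper54.Cert

/-- Meaning of an accepted argument. -/
def Arg.Good (a : Arg) : Prop :=
  Arg.rec (motive := fun _ => Prop)
    (fun S => Valid S)
    (fun E n w => ∀ (C : Ctx) (S : St) (Gm : ℕ), EGood C S Gm E →
      ∀ i : ℕ, i < n → ∀ B A : ℤ,
        C.z (tgt S E.past) = w.toZ + (i : ℤ) • E.h.toZ + B • E.g.toZ + A • E.f.toZ → C.Concl)
    (fun E w => ∀ (C : Ctx) (S : St) (Gm : ℕ), EGood C S Gm E →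
      ∀ i : ℕ, ∀ A : ℤ,
        C.z (tgt S E.past) = w.toZ + (i : ℤ) • E.g.toZ + A • E.f.toZ → C.Concl)
    (fun E _ _ _ w => ∀ (C : Ctx) (S : St) (Gm : ℕ), EGood C S Gm E →
      ∀ i : ℕ, C.z (tgt S E.past) = w.toZ + (i : ℤ) • E.f.toZ → C.Concl)
    a

/-! ### Elementary facts about the tests -/

theorem cond_and {a b : Bool} : cond a b false = true ↔ a = true ∧ b = true := by
  cases a <;> simp

theorem nble {m n : ℕ} : Nat.ble m n = true ↔ m ≤ n := by
  rw [Nat.ble_eq]

theorem onSt_st (S : St) (f : St → Bool) : onSt (Arg.st S) f = f S := rfl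

theorem nbeq {m n : ℕ} : Nat.beq m n = true ↔ m = n := by
  constructor
  · exact Nat.eq_of_beq_eq_true
  · rintro rfl
    exact Nat.beq_refl m

theorem rs_hasV_iff (S : St) (i : ℕ) : hasV S i = true ↔ 64 ≤ i + S.k ∧ i ≤ S.lst := by
  unfold hasV
  rw [cond_and, nble, nble]
  rfl

theorem get_cons_succ {α : Type} (d h : α) (l : List α) (i : ℕ) :
    get d (h :: l) (i + 1) = get d l i := rfl

theorem get_cons_zero {α : Type} (d h : α) (l : List α) : get d (h :: l) 0 = h := rfl

theorem rs_get_nil {α : Type} (d : α) (i : ℕ) : get d ([] : List α) i = d := rfl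

theorem rs_get_ge {α : Type} (d : α) (l : List α) (i : ℕ) (h : l.length ≤ i) : get d l i = d := by
  induction l generalizing i with
  | nil => rfl
  | cons a l ih =>
    rcases i with _ | i
    · simp at h
    · rw [get_cons_succ]
      exact ih i (by simpa using h)

theorem lab_eq (S : St) (i : ℕ) :
    lab S i = if 64 ≤ i + S.kl then get 0 S.ls (i + S.kl - 64) else 0 := by
  unfold lab
  by_cases h : 64 ≤ i + S.kl
  · have h' : Nat.ble 64 (Nat.add i S.kl) = true := nble.mpr h
    rw [h', if_pos h]
    rfl
  · have h' : Nat.ble 64 (Nat.add i S.kl) = false := by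
      rw [Bool.eq_false_iff]
      intro hc
      exact h (nble.mp hc)
    rw [h', if_neg h]
    rfl

theorem rs_labIs_iff (S : St) (i l : ℕ) : labIs S i l = true ↔ lab S i = l := nbeq

theorem get_consN (n x : ℕ) (l : List ℕ) (m : ℕ) :
    get 0 (consN n x l) m = if m < n then x else get 0 l (m - n) := by
  induction n generalizing m with
  | zero => simp [consN]
  | succ n ih =>
    have e : consN (n + 1) x l = x :: consN n x l := rfl
    rw [e]
    rcases m with _ | m
    · simp [get_cons_zero]
    · rw [get_cons_succ, ih]
      by_cases h : m < n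
      · rw [if_pos h, if_pos (by omega)]
      · rw [if_neg h, if_neg (by omega)]
        congr 1
        omega

theorem length_consN (n x : ℕ) (l : List ℕ) : (consN n x l).length = l.length + n := by
  induction n with
  | zero => rfl
  | succ n ih =>
    have e : consN (n + 1) x l = x :: consN n x l := rfl
    rw [e, List.length_cons, ih]
    omega

theorem get_snocN (l : List ℕ) (w m : ℕ) :
    get 0 (snocN l w) m = if m < l.length then get 0 l m else if m = l.length then w else 0 := by
  induction l generalizing m with
  | nil =>
    have e : snocN [] w = [w] := rfl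
    rw [e]
    rcases m with _ | m
    · simp [get_cons_zero]
    · rw [get_cons_succ, rs_get_nil]
      simp
  | cons a l ih =>
    have e : snocN (a :: l) w = a :: snocN l w := rfl
    rw [e]
    rcases m with _ | m
    · simp [get_cons_zero]
    · rw [get_cons_succ, ih, get_cons_succ]
      simp only [List.length_cons, Nat.add_lt_add_iff_right, Nat.add_right_cancel_iff]

theorem length_snocN (l : List ℕ) (w : ℕ) : (snocN l w).length = l.length + 1 := by
  induction l with
  | nil => rfl
  | cons a l ih =>
    have e : snocN (a :: l) w = a :: snocN l w := rfl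
    rw [e, List.length_cons, ih, List.length_cons]

/-- the labels of `S.labs n x` -/
theorem lab_labs (S : St) (n x i : ℕ) :
    lab (S.labs n x) i = if 64 ≤ i + S.kl then lab S i
      else if 64 ≤ i + S.kl + n then x else 0 := by
  rw [lab_eq, lab_eq]
  have e1 : (S.labs n x).kl = S.kl + n := rfl
  have e2 : (S.labs n x).ls = consN n x S.ls := rfl
  rw [e1, e2, get_consN]
  by_cases h1 : 64 ≤ i + S.kl
  · rw [if_pos (by omega), if_neg (by omega), if_pos h1, if_pos h1]
    congr 1
    omega
  · rw [if_neg h1]
    by_cases h2 : 64 ≤ i + S.kl + n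
    · rw [if_pos (by omega), if_pos (by omega), if_pos h2]
    · rw [if_neg (by omega), if_neg h2]

/-- new labels before the first one -/
theorem labs_holds (C : Ctx) (S : St) (hS : Holds C S) (n x : ℕ) (hn : S.kl + n ≤ 62)
    (hx1 : x = 1 → ∀ i, i < 64 - S.kl → 64 ≤ i + S.kl + n → C.A i)
    (hx2 : x = 2 → ∀ i, i < 64 - S.kl → 64 ≤ i + S.kl + n → ¬ C.A i) :
    Holds C (S.labs n x) where
  hk := hS.hk
  hlst := hS.hlst
  len := hS.len
  zs := hS.zs
  hkl := hn
  hlh := hS.hlh
  lenl := by
    have e : (S.labs n x).ls = consN n x S.ls := rfl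
    have e1 : (S.labs n x).kl = S.kl + n := rfl
    have e2 : (S.labs n x).lh = S.lh := rfl
    rw [e, e1, e2, length_consN]
    have := hS.lenl
    omega
  labA := by
    intro i hi
    rw [lab_labs] at hi
    by_cases h1 : 64 ≤ i + S.kl
    · rw [if_pos h1] at hi
      exact hS.labA i hi
    · rw [if_neg h1] at hi
      by_cases h2 : 64 ≤ i + S.kl + n
      · rw [if_pos h2] at hi
        exact hx1 hi i (by omega) h2
      · rw [if_neg h2] at hi
        omega
  labD := by
    intro i hi
    rw [lab_labs] at hi
    by_cases h1 : 64 ≤ i + S.kl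
    · rw [if_pos h1] at hi
      exact hS.labD i hi
    · rw [if_neg h1] at hi
      by_cases h2 : 64 ≤ i + S.kl + n
      · rw [if_pos h2] at hi
        exact hx2 hi i (by omega) h2
      · rw [if_neg h2] at hi
        omega
  fs := hS.fs
  ys := hS.ys
  gs := hS.gs
  cells := hS.cells

/-- history 1 in terms of labels -/
theorem Ctx.drop (C : Ctx) (i : ℕ) (hi : i < 64) (hA : C.A i) (hD : ¬ C.A (i + 1)) (j : ℕ)
    (h1 : j ≤ i) (h2 : i ≤ j + cJ) : C.A j :=
  C.hist1 i hi hA (not_lt.mp hD) j h1 h2

theorem labelSt_holds (C : Ctx) (S : St) (hS : Holds C S) (hkl : S.kl = S.k) (hk : S.k ≤ 50)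
    (hA : C.A (63 - S.k)) : Holds C (labelSt S) := by
  unfold labelSt
  have hf : fstI S = 64 - S.k := rfl
  have hcJ : cJ = 3 := rfl
  cases hl : labIs S (fstI S) 2
  · show Holds C (S.labs 1 1)
    refine labs_holds C S hS 1 1 (by omega) ?_ ?_
    · intro _ i h1 h2
      have : i = 63 - S.k := by omega
      rw [this]
      exact hA
    · intro h
      omega
  · show Holds C (S.labs (Nat.succ cJ) 1)
    rw [rs_labIs_iff] at hl
    have hD := hS.labD _ hl
    rw [hf] at hD
    have e : 64 - S.k = 63 - S.k + 1 := by omega
    rw [e] at hD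
    refine labs_holds C S hS (Nat.succ cJ) 1 (by rw [hcJ]; omega) ?_ ?_
    · intro _ i h1 h2
      rw [hcJ] at h2
      exact C.drop (63 - S.k) (by omega) hA hD i (by omega) (by rw [hcJ]; omega)
    · intro h
      omega

theorem labs2_holds (C : Ctx) (S : St) (hS : Holds C S) (hkl : S.kl = S.k) (hk : S.k ≤ 50)
    (hD : ¬ C.A (63 - S.k)) : Holds C (S.labs 1 2) := by
  refine labs_holds C S hS 1 2 (by omega) ?_ ?_
  · intro h
    omega
  · intro _ i h1 h2
    have : i = 63 - S.k := by omega
    rw [this]
    exact hD

theorem forced_holds (C : Ctx) (S : St) (hS : Holds C S) (h : forcedOk S = true) (w : Vc)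
    (hw : w.toZ = (forcedV S).toZ) : Holds C (S.push w) := by
  unfold forcedOk at h
  rw [cond_and, cond_and, cond_and, cond_and, nble, nble] at h
  obtain ⟨h1, h50, _, hD, hAD⟩ := h
  rw [rs_labIs_iff] at hD
  have hf : fstI S = 64 - S.k := rfl
  have hlst := hS.hlst
  have hv : ∀ m : ℕ, m ≤ 2 → (vec S (fstI S + m)).toZ = C.z (fstI S + m) := by
    intro m hm
    refine hS.zs _ ?_
    rw [rs_hasV_iff, hf]
    omega
  have hDp := hS.labD _ hD
  -- the vector
  have hz : w.toZ = C.z (63 - S.k) := by
    rw [hw]
    have e0 := hv 0 (by omega)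
    have e1 := hv 1 (by omega)
    have e2 := hv 2 (by omega)
    rw [Nat.add_zero] at e0
    have i0 : fstI S = 63 - S.k + 1 := by omega
    have i1 : fstI S + 1 = 63 - S.k + 2 := by omega
    have i2 : fstI S + 2 = 63 - S.k + 3 := by omega
    unfold forcedV
    cases hl : labIs S (Nat.sub 63 S.k) 1
    · -- label D
      rw [hl] at hAD
      have hl2 : labIs S (Nat.sub 63 S.k) 2 = true := hAD
      rw [rs_labIs_iff] at hl2
      have hD2 := hS.labD _ hl2
      show ((Vc.sub (vec S (Nat.add (fstI S) 2)) (vec S (fstI S))).norm).toZ = _
      rw [Vc.toZ_norm, Vc.toZ_sub]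
      have hr := C.hist2 (63 - S.k) (by omega) (not_lt.mp hD2)
        (by rw [i0] at hDp; exact not_lt.mp hDp)
      have e2' : (vec S (Nat.add (fstI S) 2)).toZ = C.z (63 - S.k + 3) := by
        rw [← i2]
        exact e2
      rw [e2', e0, i0, hr]
      abel
    · -- label A
      rw [rs_labIs_iff] at hl
      have hA := hS.labA _ hl
      show ((Vc.sub (Vc.add (vec S (fstI S)) (vec S (Nat.succ (fstI S))))
        (vec S (Nat.add (fstI S) 2))).norm).toZ = _
      rw [Vc.toZ_norm, Vc.toZ_sub, Vc.toZ_add]
      have hvio := lab_viol C (63 - S.k) hA (by rw [i0] at hDp; exact hDp)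
      have hr := C.viol (63 - S.k) hvio
      have e2' : (vec S (Nat.add (fstI S) 2)).toZ = C.z (63 - S.k + 3) := by
        rw [← i2]
        exact e2
      have e1' : (vec S (Nat.succ (fstI S))).toZ = C.z (63 - S.k + 2) := by
        rw [← i1]
        exact e1
      rw [e2', e1', e0, i0]
      rw [← hr]
      abel
  have hkk : (S.push w).k = S.k + 1 := rfl
  have hll : (S.push w).lst = S.lst := rfl
  have hzz : (S.push w).zs = w :: S.zs := rfl
  exact
    { hk := by rw [hkk]; omega
      hlst := hS.hlst
      len := by
        have := hS.len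
        have e : lenV (w :: S.zs) = lenV S.zs + 1 := rfl
        rw [hkk, hll, hzz, e]
        omega
      zs := by
        intro i hi
        rw [rs_hasV_iff, hkk, hll] at hi
        have hvec : vec (S.push w) i = get Vc.zero (w :: S.zs) (i + (S.k + 1) - 64) := rfl
        rw [hvec]
        rcases Nat.lt_or_ge (i + S.k) 64 with hlt | hge
        · have e : i + (S.k + 1) - 64 = 0 := by omega
          rw [e, get_cons_zero, hz]
          congr 1
          omega
        · have e : i + (S.k + 1) - 64 = (i + S.k - 64) + 1 := by omega
          rw [e, get_cons_succ]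
          exact hS.zs i ((rs_hasV_iff S i).mpr ⟨hge, hi.2⟩)
      hkl := hS.hkl
      hlh := hS.hlh
      lenl := hS.lenl
      labA := hS.labA
      labD := hS.labD
      fs := hS.fs
      ys := hS.ys
      gs := hS.gs
      cells := hS.cells }

theorem allA_iff (S : St) (n i : ℕ) : allA S n i = true ↔ ∀ m, m < n → lab S (i + m) = 1 := by
  induction n generalizing i with
  | zero =>
    constructor
    · intro _ m hm
      omega
    · intro _
      rfl
  | succ n ih =>
    have e : allA S (n + 1) i = cond (labIs S i 1) (allA S n (Nat.succ i)) false := rfl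
    rw [e, cond_and, rs_labIs_iff, ih]
    constructor
    · rintro ⟨h1, h2⟩ m hm
      rcases m with _ | m
      · exact h1
      · have := h2 m (by omega)
        rw [← this]
        congr 1
        omega
    · intro h
      refine ⟨h 0 (by omega), fun m hm => ?_⟩
      have := h (m + 1) (by omega)
      rw [← this]
      congr 1
      omega

theorem allD_iff (S : St) (n i : ℕ) : allD S n i = true ↔ ∀ m, m < n → lab S (i + m) = 2 := by
  induction n generalizing i with
  | zero =>
    constructor
    · intro _ m hm
      omega
    · intro _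
      rfl
  | succ n ih =>
    have e : allD S (n + 1) i = cond (labIs S i 2) (allD S n (Nat.succ i)) false := rfl
    rw [e, cond_and, rs_labIs_iff, ih]
    constructor
    · rintro ⟨h1, h2⟩ m hm
      rcases m with _ | m
      · exact h1
      · have := h2 m (by omega)
        rw [← this]
        congr 1
        omega
    · intro h
      refine ⟨h 0 (by omega), fun m hm => ?_⟩
      have := h (m + 1) (by omega)
      rw [← this]
      congr 1
      omega

theorem pad_sound (C : Ctx) (S : St) (hS : Holds C S) (n i : ℕ) (h : pad S n i = true) :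
    ∀ m, m < n → C.z (i + m + 3) = C.z (i + m + 1) + C.z (i + m) := by
  induction n generalizing i with
  | zero =>
    intro m hm
    omega
  | succ n ih =>
    have e : pad S (n + 1) i = cond (cond (hasV S i) (hasV S (Nat.add i 3)) false)
      (cond (Vc.eqv (vec S (Nat.add i 3)) (Vc.add (vec S (Nat.add i 1)) (vec S i)))
        (pad S n (Nat.succ i)) false) false := rfl
    rw [e, cond_and, cond_and, cond_and] at h
    obtain ⟨⟨h1, h3⟩, h4, h5⟩ := h
    intro m hm
    rcases m with _ | m
    · rw [Nat.add_zero]
      rw [Vc.eqv_iff, Vc.toZ_add] at h4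
      have h1' := (rs_hasV_iff S i).mp h1
      have h3' := (rs_hasV_iff S (i + 3)).mp h3
      have e1 := hS.zs i h1
      have e3 := hS.zs (i + 3) h3
      have e2 := hS.zs (i + 1) ((rs_hasV_iff S (i + 1)).mpr (by omega))
      have h4' : (vec S (i + 3)).toZ = (vec S (i + 1)).toZ + (vec S i).toZ := h4
      rw [e1, e2, e3] at h4'
      exact h4'
    · have := ih (i + 1) h5 m (by omega)
      have e1 : i + (m + 1) = i + 1 + m := by omega
      rw [e1]
      exact this

theorem flOk_sound (C : Ctx) (S : St) (hS : Holds C S) (h : flOk S = true)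
    (hA : C.A (S.lh + 1)) : C.Concl := by
  unfold flOk at h
  rw [cond_and, cond_and, cond_and, cond_and, nble, nble, allA_iff, allD_iff] at h
  obtain ⟨⟨h1, h2⟩, h3, h4, h5⟩ := h
  have hcJ : cJ = 3 := rfl
  have hcK : cK = 7 := rfl
  have h2' : S.lh + 1 ≤ 64 + cK := h2
  have hpad := pad_sound C S hS _ _ h5
  refine ⟨?_, ?_, ?_⟩
  · intro j hj1 hj2
    have h6 := h3 (j - (64 - cJ)) (by
      have : Nat.succ cJ = 4 := rfl
      rw [this]
      omega)
    have e : Nat.sub 64 cJ + (j - (64 - cJ)) = j := by
      have : Nat.sub 64 cJ = 64 - cJ := rfl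
      rw [this]
      omega
    rw [e] at h6
    exact hS.labA j h6
  · intro i hi1 hi2 hi3
    have hlt : i < S.lh := by
      by_contra hcon
      exact hi3 (S.lh + 1) (by omega) (by omega) hA
    have h6 := hpad (i - 65) (by
      have : Nat.sub S.lh 65 = S.lh - 65 := rfl
      rw [this]
      omega)
    have e : 65 + (i - 65) = i := by omega
    rw [e] at h6
    exact h6
  · exact ⟨S.lh + 1, by omega, h2', hA⟩

theorem labD_holds (C : Ctx) (S : St) (hS : Holds C S) (hD : ¬ C.A (S.lh + 1)) :
    Holds C S.labD := by
  have e1 : S.labD.kl = S.kl := rfl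
  have e2 : S.labD.ls = snocN S.ls 2 := rfl
  have e3 : S.labD.lh = S.lh + 1 := rfl
  have hlab : ∀ i, lab S.labD i = lab S i ∨ (lab S.labD i = 2 ∧ i = S.lh + 1) ∨
      lab S.labD i = 0 := by
    intro i
    rw [lab_eq, lab_eq, e1, e2, get_snocN]
    by_cases h1 : 64 ≤ i + S.kl
    · rw [if_pos h1, if_pos h1]
      by_cases h2 : i + S.kl - 64 < S.ls.length
      · rw [if_pos h2]
        exact Or.inl rfl
      · rw [if_neg h2]
        by_cases h3 : i + S.kl - 64 = S.ls.length
        · rw [if_pos h3]
          refine Or.inr (Or.inl ⟨rfl, ?_⟩)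
          have := hS.lenl
          omega
        · rw [if_neg h3]
          exact Or.inr (Or.inr rfl)
    · rw [if_neg h1]
      exact Or.inr (Or.inr rfl)
  exact
    { hk := hS.hk
      hlst := hS.hlst
      len := hS.len
      zs := hS.zs
      hkl := hS.hkl
      hlh := by
        rw [e3]
        have := hS.hlh
        omega
      lenl := by
        rw [e1, e2, e3, length_snocN]
        have := hS.lenl
        omega
      labA := by
        intro i hi
        rcases hlab i with h | h | h
        · exact hS.labA i (h.symm.trans hi)
        · rw [h.1] at hi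
          omega
        · rw [h] at hi
          omega
      labD := by
        intro i hi
        rcases hlab i with h | h | h
        · exact hS.labD i (h.symm.trans hi)
        · rw [h.2]
          exact hD
        · rw [h] at hi
          omega
      fs := hS.fs
      ys := hS.ys
      gs := hS.gs
      cells := hS.cells }

/-! ### Equality tests -/

theorem eqV_eq {x y : Vc} (h : eqV x y = true) : x = y := by
  unfold eqV at h
  rw [cond_and, cond_and, cond_and, cond_and, cond_and, nbeq, nbeq, nbeq, nbeq, nbeq, nbeq] at h
  obtain ⟨h1, h2, h3, h4, h5, h6⟩ := h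
  cases x
  cases y
  simp_all

theorem eqL_eq {α : Type} (e : α → α → Bool) (he : ∀ x y, e x y = true → x = y) (l m : List α)
    (h : eqL e l m = true) : l = m := by
  induction l generalizing m with
  | nil =>
    cases m with
    | nil => rfl
    | cons a m => exact absurd h (by simp [eqL])
  | cons a l ih =>
    cases m with
    | nil => exact absurd h (by simp [eqL])
    | cons b m =>
      have h' : cond (e a b) (eqL e l m) false = true := h
      rw [cond_and] at h'
      rw [he a b h'.1, ih m h'.2]

theorem eqB_eq {x y : Bool} (h : eqB x y = true) : x = y := by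
  revert h
  cases x <;> cases y <;> simp [eqB]

theorem eqFact_eq {x y : Fact} (h : eqFact x y = true) : x = y := by
  unfold eqFact at h
  rw [cond_and] at h
  have h1 := eqV_eq h.1
  have h2 := eqB_eq h.2
  cases x
  cases y
  simp_all

theorem eqLev_eq {x y : Lev} (h : eqLev x y = true) : x = y := by
  unfold eqLev at h
  rw [cond_and, nbeq] at h
  have h1 := eqV_eq h.1
  have h2 := h.2
  cases x
  cases y
  simp_all

theorem eqGap_eq {x y : Gap} (h : eqGap x y = true) : x = y := by
  unfold eqGap at h
  rw [cond_and, cond_and, nbeq, nbeq, nbeq] at h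
  obtain ⟨h1, h2, h3⟩ := h
  cases x
  cases y
  simp_all

theorem eqCT_eq (t s : CT) (h : eqCT t s = true) : t = s := by
  induction t generalizing s with
  | e =>
    cases s with
    | e => rfl
    | c => exact absurd h (by simp [eqCT])
    | s i k1 k2 l r => exact absurd h (by simp [eqCT])
  | c =>
    cases s with
    | e => exact absurd h (by simp [eqCT])
    | c => rfl
    | s i k1 k2 l r => exact absurd h (by simp [eqCT])
  | s i k1 k2 l r ihl ihr =>
    cases s with
    | e => exact absurd h (by simp [eqCT])
    | c => exact absurd h (by simp [eqCT])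
    | s i' k1' k2' l' r' =>
      have h' : cond (Nat.beq i i') (cond (Nat.beq k1 k1') (cond (Nat.beq k2 k2')
        (cond (eqCT l l') (eqCT r r') false) false) false) false = true := h
      rw [cond_and, cond_and, cond_and, cond_and, nbeq, nbeq, nbeq] at h'
      obtain ⟨h1, h2, h3, h4, h5⟩ := h'
      rw [h1, h2, h3, ihl l' h4, ihr r' h5]

theorem leSt_sound (C : Ctx) (T S : St) (hS : Holds C S) (h : leSt T S = true) : Holds C T := by
  unfold leSt at h
  rw [cond_and, cond_and, cond_and, cond_and, cond_and, cond_and, cond_and, cond_and, cond_and,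
    cond_and, nbeq, nbeq, nbeq, nbeq] at h
  obtain ⟨⟨h1, h2, h3, h4⟩, h5, h6, h7, h8, h9, h10, h11⟩ := h
  have h5' := eqL_eq eqV (fun _ _ => eqV_eq) _ _ h5
  have h6' := eqL_eq eqN (fun _ _ h => nbeq.mp h) _ _ h6
  have h7' := eqL_eq eqFact (fun _ _ => eqFact_eq) _ _ h7
  have h8' := eqL_eq eqLev (fun _ _ => eqLev_eq) _ _ h8
  have h9' := eqL_eq eqGap (fun _ _ => eqGap_eq) _ _ h9
  have h10' := eqCT_eq _ _ h10
  have h11' := eqCT_eq _ _ h11
  have hT : T = ⟨S.k, S.lst, S.zs, S.kl, S.lh, S.ls, S.fs, [], [], S.t1, S.t2⟩ := by
    cases T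
    simp_all
  rw [hT]
  exact
    { hk := hS.hk
      hlst := hS.hlst
      len := hS.len
      zs := hS.zs
      hkl := hS.hkl
      hlh := hS.hlh
      lenl := hS.lenl
      labA := hS.labA
      labD := hS.labD
      fs := hS.fs
      ys := by
        intro y hy
        simp at hy
      gs := by
        intro g hg
        simp at hg
      cells := hS.cells }

/-! ### The main induction -/

theorem isE_eq {t : CT} (h : isE t = true) : t = CT.e := by
  cases t with
  | e => rfl
  | c => exact absurd h (by simp [isE])
  | s i k1 k2 l r => exact absurd h (by simp [isE])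

theorem plan_of_holds (C : Ctx) (S : St) (hS : Holds C S)
    (hsm : smallL 1048576 S.zs = true) : Plan C S.zs S.ys S.gs (64 - S.k) where
  small := hsm
  hoff := by omega
  zs := by
    intro m hm
    have hk := hS.hk
    have hlen := hS.len
    have h1 := hS.zs (64 - S.k + m) ((rs_hasV_iff S _).mpr (by omega))
    have e : vec S (64 - S.k + m) = get Vc.zero S.zs (64 - S.k + m + S.k - 64) := rfl
    rw [e] at h1
    have e2 : 64 - S.k + m + S.k - 64 = m := by omega
    rw [e2] at h1
    exact h1
  ys := hS.ys
  gs := hS.gs

theorem cut_mem (S : St) (cuts : List St) (j : ℕ)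
    (h : List.rec (motive := fun _ => Nat → Bool) (fun _ => false)
      (fun C _ ih j => Nat.rec (motive := fun _ => Bool) (leSt C S) (fun j' _ => ih j') j) cuts j
        = true) : ∃ T ∈ cuts, leSt T S = true := by
  induction cuts generalizing j with
  | nil => exact absurd h (by simp)
  | cons T cuts ih =>
    rcases j with _ | j
    · exact ⟨T, List.mem_cons_self .., h⟩
    · obtain ⟨T', h1, h2⟩ := ih j h
      exact ⟨T', List.mem_cons_of_mem _ h1, h2⟩

theorem toZ_addO_aux (w f : Vc) (p n : ℕ) (k : ℤ) (h : (p : ℤ) - n = k) :
    (Vc.norm (Vc.add w (Vc.zsmul ⟨p, n⟩ f))).toZ = w.toZ + k • f.toZ := by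
  rw [Vc.toZ_norm, Vc.toZ_add, Vc.toZ_zsmul, h]

theorem toZ_addO (w : Vc) (a : ℕ) (f : Vc) :
    (addO w a f).toZ = w.toZ + ((a : ℤ) - 512) • f.toZ := by
  unfold addO
  refine toZ_addO_aux w f _ _ _ ?_
  simp only [Nat.sub_eq]
  omega

theorem toZ_gBase (E : EC) (Gm : ℕ) : (gBase E Gm).toZ = (-(Gm : ℤ)) • E.h.toZ := by
  unfold gBase
  rw [Vc.toZ_norm, Vc.toZ_zsmul]
  congr 1
  show ((0 : ℕ) : ℤ) - (Gm : ℤ) = -(Gm : ℤ)
  simp

theorem npOk_sound (C : Ctx) (S : St) (hS : Holds C S) (i g : ℕ) (h : npOk S i g = true) :
    False := by
  unfold npOk at h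
  rw [cond_and, cond_and, nble] at h
  obtain ⟨h1, h2, h3⟩ := h
  unfold divB at h3
  rw [cond_and, cond_and, nbeq, nbeq, nbeq] at h3
  obtain ⟨ha, hb, hu⟩ := h3
  have hz := hS.zs i h2
  have key : ∀ p n : ℕ, Nat.mod (Nat.add (Nat.sub p n) (Nat.sub n p)) g = 0 →
      ∃ w : ℤ, (p : ℤ) - n = g * w := by
    intro p n hpn
    have e : Nat.add (Nat.sub p n) (Nat.sub n p) = (p - n) + (n - p) := rfl
    rw [e] at hpn
    have hd : g ∣ (p - n) + (n - p) := Nat.dvd_of_mod_eq_zero hpn
    rcases le_total n p with hle | hle
    · have e2 : n - p = 0 := by omega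
      rw [e2, Nat.add_zero] at hd
      obtain ⟨c, hc⟩ := hd
      refine ⟨c, ?_⟩
      have : (p : ℤ) - n = ((p - n : ℕ) : ℤ) := by omega
      rw [this, hc]
      push_cast
      ring
    · have e2 : p - n = 0 := by omega
      rw [e2, Nat.zero_add] at hd
      obtain ⟨c, hc⟩ := hd
      refine ⟨-c, ?_⟩
      have : (p : ℤ) - n = -((n - p : ℕ) : ℤ) := by omega
      rw [this, hc]
      push_cast
      ring
  obtain ⟨wa, hwa⟩ := key _ _ ha
  obtain ⟨wb, hwb⟩ := key _ _ hb
  obtain ⟨wu, hwu⟩ := key _ _ hu
  refine prim C i g (by exact_mod_cast h1) (wa, wb, wu) ?_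
  rw [← hz]
  unfold Vc.toZ
  rw [hwa, hwb, hwu]
  simp

/-- **Soundness of the checker.** -/
theorem run_sound (cuts : List St) (hc : ∀ T ∈ cuts, Valid T) (c : Cert) (a : Arg)
    (h : run cuts c a = true) : a.Good := by
  induction c generalizing a with
  | dead c =>
    cases a with
    | st S =>
      intro C hS
      exact (dead_sound C S.fs hS.fs c h).elim
    | gr E n w => exact absurd h Bool.false_ne_true
    | br E w => exact absurd h Bool.false_ne_true
    | ch E th jh c' w => exact absurd h Bool.false_ne_true
  | pre fd yd gd n ih =>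
    cases a with
    | st S =>
      have h' : cond (fdOk S fd) (cond (ydOk S (fdV S fd) yd)
        (cond (gdOk S (fdV S fd) gd)
          (run cuts n (Arg.st ((S.setF (fdV S fd)).setY (ydV S.ys yd) (gdV S gd)))) false) false)
            false = true := h
      rw [cond_and, cond_and, cond_and] at h'
      obtain ⟨h1, h2, h3, h4⟩ := h'
      have hv : Valid ((S.setF (fdV S fd)).setY (ydV S.ys yd) (gdV S gd)) := ih _ h4
      intro C hS
      have hf := fd_sound C S hS fd h1
      refine hv C ?_
      exact
        { hk := hS.hk
          hlst := hS.hlst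
          len := hS.len
          zs := hS.zs
          hkl := hS.hkl
          hlh := hS.hlh
          lenl := hS.lenl
          labA := hS.labA
          labD := hS.labD
          fs := hf
          ys := yd_sound C S hS _ hf yd h2
          gs := gd_sound C S hS _ hf gd h3
          cells := hS.cells }
    | gr E n w => exact absurd h Bool.false_ne_true
    | br E w => exact absurd h Bool.false_ne_true
    | ch E th jh c' w => exact absurd h Bool.false_ne_true
  | clr n ih =>
    cases a with
    | st S =>
      have hv : Valid (S.setY [] []) := ih _ h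
      intro C hS
      refine hv C ?_
      exact
        { hk := hS.hk
          hlst := hS.hlst
          len := hS.len
          zs := hS.zs
          hkl := hS.hkl
          hlh := hS.hlh
          lenl := hS.lenl
          labA := hS.labA
          labD := hS.labD
          fs := hS.fs
          ys := fun y hy => absurd hy (List.not_mem_nil)
          gs := fun g hg => absurd hg (List.not_mem_nil)
          cells := hS.cells }
    | gr E n w => exact absurd h Bool.false_ne_true
    | br E w => exact absurd h Bool.false_ne_true
    | ch E th jh c' w => exact absurd h Bool.false_ne_true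
  | prune p1 p2 n ih =>
    cases a with
    | st S =>
      have h' : cond (cond (smallL 1048576 S.zs) (Nat.ble (lenV S.zs) 24) false)
        (force (packC S.zs) fun ca => force (packY S.ys) fun ya =>
          (fun X : PX => pruneK X p1 S.t1 root1 fun t1 => pruneK X p2 S.t2 root2 fun t2 =>
            cond (cond (isE t1) (isE t2) false) true (run cuts n (Arg.st (S.setT t1 t2))))
          ⟨ca, ya, Nat.sub 64 S.k, S.gs⟩) false = true := h
      rw [cond_and, cond_and, nble, force_eq, force_eq] at h'
      obtain ⟨⟨h1, h2⟩, h3⟩ := h'
      intro C hS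
      have hP := plan_of_holds C S hS h1
      obtain ⟨t1, h4, h5⟩ := pruneK_sound C S.zs S.ys S.gs (64 - S.k) hP h2 p1 S.t1 root1 _ h3
      obtain ⟨t2, h6, h7⟩ := pruneK_sound C S.zs S.ys S.gs (64 - S.k) hP h2 p2 S.t2 root2 _ h4
      have hcells : t1.mem C.c root1 ∨ t2.mem C.c root2 := hS.cells.imp h5 h7
      cases he : cond (isE t1) (isE t2) false
      · rw [he] at h6
        have hv : Valid (S.setT t1 t2) := ih _ h6
        refine hv C ?_
        exact
          { hk := hS.hk
            hlst := hS.hlst
            len := hS.len
            zs := hS.zs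
            hkl := hS.hkl
            hlh := hS.hlh
            lenl := hS.lenl
            labA := hS.labA
            labD := hS.labD
            fs := hS.fs
            ys := hS.ys
            gs := hS.gs
            cells := hcells }
      · rw [cond_and] at he
        rw [isE_eq he.1, isE_eq he.2] at hcells
        rcases hcells with hcon | hcon
        · exact hcon.elim
        · exact hcon.elim
    | gr E n w => exact absurd h Bool.false_ne_true
    | br E w => exact absurd h Bool.false_ne_true
    | ch E th jh c' w => exact absurd h Bool.false_ne_true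
  | label ca cd iha ihd =>
    cases a with
    | st S =>
      have h' : cond (cond (Nat.beq S.kl S.k) (Nat.ble S.k 50) false)
        (cond (run cuts ca (Arg.st (labelSt S))) (run cuts cd (Arg.st (S.labs 1 2))) false) false
          = true := h
      rw [cond_and, cond_and, cond_and, nbeq, nble] at h'
      obtain ⟨⟨h1, h2⟩, h3, h4⟩ := h'
      have hva : Valid (labelSt S) := iha _ h3
      have hvd : Valid (S.labs 1 2) := ihd _ h4
      intro C hS
      by_cases hA : C.A (63 - S.k)
      · exact hva C (labelSt_holds C S hS h1 h2 hA)
      · exact hvd C (labs2_holds C S hS h1 h2 hA)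
    | gr E n w => exact absurd h Bool.false_ne_true
    | br E w => exact absurd h Bool.false_ne_true
    | ch E th jh c' w => exact absurd h Bool.false_ne_true
  | labelA ca iha =>
    cases a with
    | st S =>
      have h' : cond (cond (Nat.beq S.kl S.k) (Nat.ble S.k 50) false)
        (cond (allD S (Nat.sub cK 1) (fstI S)) (run cuts ca (Arg.st (labelSt S))) false) false
          = true := h
      rw [cond_and, cond_and, cond_and, nbeq, nble, allD_iff] at h'
      obtain ⟨⟨h1, h2⟩, h3, h4⟩ := h'
      have hva : Valid (labelSt S) := iha _ h4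
      intro C hS
      have hf : fstI S = 64 - S.k := rfl
      have hcK : Nat.sub cK 1 = 6 := rfl
      have hcK' : cK = 7 := rfl
      rw [hcK, hf] at h3
      have h64 : C.A 64 := C.lab64
      have hk6 : 6 ≤ S.k := by
        by_contra hcon
        have h5 := hS.labD _ (h3 S.k (by omega))
        have e : 64 - S.k + S.k = 64 := by omega
        rw [e] at h5
        exact h5 h64
      have hA : C.A (63 - S.k) := by
        obtain ⟨j, hj1, hj2, hj3⟩ := C.hist3 (63 - S.k) (by rw [hcK']; omega)
        rw [hcK'] at hj2
        have hj3' : C.A j := hj3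
        rcases Nat.eq_or_lt_of_le hj1 with he | hlt
        · rw [he]
          exact hj3'
        · have h5 := hS.labD _ (h3 (j - (64 - S.k)) (by omega))
          have e : 64 - S.k + (j - (64 - S.k)) = j := by omega
          rw [e] at h5
          exact absurd hj3' h5
      exact hva C (labelSt_holds C S hS h1 h2 hA)
    | gr E n w => exact absurd h Bool.false_ne_true
    | br E w => exact absurd h Bool.false_ne_true
    | ch E th jh c' w => exact absurd h Bool.false_ne_true
  | forced n ih =>
    cases a with
    | st S =>
      have h' : cond (forcedOk S)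
        (forceV (forcedV S) fun w => run cuts n (Arg.st (S.push w))) false = true := h
      rw [cond_and, forceV_eq] at h'
      have hv : Valid (S.push (forcedV S)) := ih _ h'.2
      intro C hS
      exact hv C (forced_holds C S hS h'.1 _ rfl)
    | gr E n w => exact absurd h Bool.false_ne_true
    | br E w => exact absurd h Bool.false_ne_true
    | ch E th jh c' w => exact absurd h Bool.false_ne_true
  | flabel n ih =>
    cases a with
    | st S =>
      have h' : cond (flOk S) (run cuts n (Arg.st S.labD)) false = true := h
      rw [cond_and] at h'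
      have hv : Valid S.labD := ih _ h'.2
      intro C hS
      by_cases hA : C.A (S.lh + 1)
      · exact flOk_sound C S hS h'.1 hA
      · exact hv C (labD_holds C S hS hA)
    | gr E n w => exact absurd h Bool.false_ne_true
    | br E w => exact absurd h Bool.false_ne_true
    | ch E th jh c' w => exact absurd h Bool.false_ne_true
  | xsplit f ca cd iha ihd =>
    cases a with
    | st S =>
      have h' : onSt (Arg.st S) (fun S => forceV (pVc f) (fun v =>
        cond (run cuts ca (Arg.st (S.setF (List.cons ⟨v, false⟩ S.fs))))
          (run cuts cd (Arg.st (S.setF (List.cons ⟨Vc.neg v, false⟩ S.fs)))) false)) = true := h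
      rw [onSt_st, forceV_eq, cond_and] at h'
      have hva : Valid (S.setF (List.cons ⟨pVc f, false⟩ S.fs)) := iha _ h'.1
      have hvd : Valid (S.setF (List.cons ⟨Vc.neg (pVc f), false⟩ S.fs)) := ihd _ h'.2
      intro C hS
      have hset : ∀ F : Fact, Fact.ok C F → Holds C (S.setF (List.cons F S.fs)) := by
        intro F hF
        exact
          { hk := hS.hk
            hlst := hS.hlst
            len := hS.len
            zs := hS.zs
            hkl := hS.hkl
            hlh := hS.hlh
            lenl := hS.lenl
            labA := hS.labA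
            labD := hS.labD
            fs := by
              intro f' hf'
              rcases List.mem_cons.mp hf' with h1 | h1
              · rw [h1]
                exact hF
              · exact hS.fs f' h1
            ys := hS.ys
            gs := hS.gs
            cells := hS.cells }
      rcases le_total 0 (dot3 C.X (pVc f).toR) with h0 | h0
      · refine hva C (hset _ ⟨h0, ?_⟩)
        intro hcon
        exact absurd hcon Bool.false_ne_true
      · refine hvd C (hset _ ⟨?_, ?_⟩)
        · show 0 ≤ dot3 C.X (Vc.neg (pVc f)).toR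
          rw [Vc.toR_neg]
          have e : dot3 C.X (-(pVc f).toR) = - dot3 C.X (pVc f).toR := by
            unfold dot3
            simp only [Prod.fst_neg, Prod.snd_neg]
            ring
          rw [e]
          linarith
        · intro hcon
          exact absurd hcon Bool.false_ne_true
    | gr E n w => exact absurd h Bool.false_ne_true
    | br E w => exact absurd h Bool.false_ne_true
    | ch E th jh c' w => exact absurd h Bool.false_ne_true
  | np i g =>
    cases a with
    | st S =>
      intro C hS
      exact (npOk_sound C S hS i g h).elim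
    | gr E n w => exact absurd h Bool.false_ne_true
    | br E w => exact absurd h Bool.false_ne_true
    | ch E th jh c' w => exact absurd h Bool.false_ne_true
  | cut j =>
    cases a with
    | st S =>
      obtain ⟨T, hT, hle⟩ := cut_mem S cuts j h
      intro C hS
      exact hc T hT C (leSt_sound C T S hS hle)
    | gr E n w => exact absurd h Bool.false_ne_true
    | br E w => exact absurd h Bool.false_ne_true
    | ch E th jh c' w => exact absurd h Bool.false_ne_true
  | enum H rows ih =>
    cases a with
    | st S =>
      have h' : onSt (Arg.st S) (fun S => enumH S H (fun E => forceV (gBase E H.Gm) fun w =>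
        run cuts rows (Arg.gr E (Nat.succ (Nat.mul 2 H.Gm)) w))) = true := h
      rw [onSt_st] at h'
      intro C hS
      obtain ⟨E, hk, hE, _⟩ := enumH_sound C S hS H _ h'
      rw [forceV_eq] at hk
      have hg := ih _ hk
      obtain ⟨G, B, A, hG, hz⟩ := hE.coord
      have hG' := abs_le.mp hG
      obtain ⟨i, hi⟩ : ∃ i : ℕ, (i : ℤ) = G + H.Gm := ⟨(G + H.Gm).toNat, by omega⟩
      refine hg C S H.Gm hE i ?_ B A ?_
      · show i < 2 * H.Gm + 1
        omega
      · rw [hz, toZ_gBase, hi]
        module
    | gr E n w => exact absurd h Bool.false_ne_true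
    | br E w => exact absurd h Bool.false_ne_true
    | ch E th jh c' w => exact absurd h Bool.false_ne_true
  | grow b0 bs next ihb ihn =>
    cases a with
    | st S => exact absurd h Bool.false_ne_true
    | gr E n w =>
      rcases n with _ | n
      · exact absurd h Bool.false_ne_true
      · have h' : forceV (addO w b0 E.g) (fun w0 =>
          cond (octT E (Vc.neg (fB E (Vc.sub w0 E.g))) E.M)
            (cond (run cuts bs (Arg.br E w0))
              (forceV (Vc.norm (Vc.add w E.h)) fun w' => run cuts next (Arg.gr E n w')) false)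
                false) = true := h
        rw [forceV_eq, cond_and, cond_and, forceV_eq] at h'
        obtain ⟨h1, h2, h3⟩ := h'
        have hb := ihb _ h2
        have hn := ihn _ h3
        intro C S Gm hE i hi B A hz
        rcases i with _ | i
        · rcases le_or_gt 0 (B - ((b0 : ℤ) - 512)) with h0 | h0
          · obtain ⟨i', hi'⟩ : ∃ i' : ℕ, (i' : ℤ) = B - ((b0 : ℤ) - 512) :=
              ⟨(B - ((b0 : ℤ) - 512)).toNat, by omega⟩
            refine hb C S Gm hE i' A ?_
            rw [hz, toZ_addO, hi']
            push_cast
            module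
          · obtain ⟨j, hj⟩ : ∃ j : ℕ, (j : ℤ) = ((b0 : ℤ) - 512) - B - 1 :=
              ⟨(((b0 : ℤ) - 512) - B - 1).toNat, by omega⟩
            refine absurd ?_ (bLow_sound C S Gm E hE _ h1 j A)
            rw [hz, Vc.toZ_sub, toZ_addO, hj]
            push_cast
            module
        · refine hn C S Gm hE i (by omega) B A ?_
          rw [hz, Vc.toZ_norm, Vc.toZ_add]
          push_cast
          module
    | br E w => exact absurd h Bool.false_ne_true
    | ch E th jh c' w => exact absurd h Bool.false_ne_true
  | gnil =>
    cases a with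
    | st S => exact absurd h Bool.false_ne_true
    | gr E n w =>
      have h' : n = 0 := nbeq.mp h
      intro C S Gm hE i hi
      omega
    | br E w => exact absurd h Bool.false_ne_true
    | ch E th jh c' w => exact absurd h Bool.false_ne_true
  | brow a0 tl il cl th jh chi cs next ihc ihn =>
    cases a with
    | st S => exact absurd h Bool.false_ne_true
    | gr E n w => exact absurd h Bool.false_ne_true
    | br E w =>
      have h' : forceV (addO w a0 E.f) (fun wl =>
        cond (lowCut E tl il cl wl)
          (cond (forceV (Vc.norm (Vc.add wl E.f)) fun w1 => run cuts cs (Arg.ch E th jh chi w1))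
            (forceV (Vc.norm (Vc.add w E.g)) fun w' => run cuts next (Arg.br E w')) false) false)
              = true := h
      rw [forceV_eq, cond_and, cond_and, forceV_eq, forceV_eq] at h'
      obtain ⟨h1, h2, h3⟩ := h'
      have hcs := ihc _ h2
      have hn := ihn _ h3
      intro C S Gm hE i A hz
      rcases i with _ | i
      · rcases le_or_gt 1 (A - ((a0 : ℤ) - 512)) with h0 | h0
        · obtain ⟨i', hi'⟩ : ∃ i' : ℕ, (i' : ℤ) = A - ((a0 : ℤ) - 512) - 1 :=
            ⟨(A - ((a0 : ℤ) - 512) - 1).toNat, by omega⟩
          refine hcs C S Gm hE i' ?_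
          rw [hz, Vc.toZ_norm, Vc.toZ_add, toZ_addO, hi']
          push_cast
          module
        · obtain ⟨j, hj⟩ : ∃ j : ℕ, (j : ℤ) = ((a0 : ℤ) - 512) - A :=
            ⟨(((a0 : ℤ) - 512) - A).toNat, by omega⟩
          refine absurd ?_ (lowCut_sound C S Gm E hE _ _ _ _ h1 j)
          rw [hz, toZ_addO, hj]
          push_cast
          module
      · refine hn C S Gm hE i A ?_
        rw [hz, Vc.toZ_norm, Vc.toZ_add]
        push_cast
        module
    | ch E th jh c' w => exact absurd h Bool.false_ne_true
  | bnil =>
    cases a with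
    | st S => exact absurd h Bool.false_ne_true
    | gr E n w => exact absurd h Bool.false_ne_true
    | br E w =>
      intro C S Gm hE i A hz
      exact absurd hz (bHigh_sound C S Gm E hE w h i A)
    | ch E th jh c' w => exact absurd h Bool.false_ne_true
  | child cc next ihc ihn =>
    cases a with
    | st S => exact absurd h Bool.false_ne_true
    | gr E n w => exact absurd h Bool.false_ne_true
    | br E w => exact absurd h Bool.false_ne_true
    | ch E th jh c' w =>
      have h' : cond (run cuts cc (Arg.st (pushE E w)))
        (forceV (Vc.norm (Vc.add w E.f)) fun w' => run cuts next (Arg.ch E th jh c' w')) false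
          = true := h
      rw [cond_and, forceV_eq] at h'
      have hv : Valid (pushE E w) := ihc _ h'.1
      have hn := ihn _ h'.2
      intro C S Gm hE i hz
      rcases i with _ | i
      · refine hv C (pushE_holds C S Gm E hE w ?_)
        rw [hz]
        simp
      · refine hn C S Gm hE i ?_
        rw [hz, Vc.toZ_norm, Vc.toZ_add]
        push_cast
        module
  | cnil =>
    cases a with
    | st S => exact absurd h Bool.false_ne_true
    | gr E n w => exact absurd h Bool.false_ne_true
    | br E w => exact absurd h Bool.false_ne_true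
    | ch E th jh c' w =>
      intro C S Gm hE i hz
      exact absurd hz (highCut_sound C S Gm E hE _ _ _ w h i)

end Pool.Agent.Helper54.Cert
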