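import Mathlib
import Pool.Agent.Lib.Helper54.S18919.Leaf

/-!
# Meaning of the data: vectors, determinants, cells
-/

set_option autoImplicit false

namespace Pool.Agent.Helper54.Cert

/-- The three-dimensional space, with coordinates `(a, b, u)`. -/
abbrev E3 := ℝ × ℝ × ℝ

/-- Real vector of an integer vector. -/
def Vc.toR (v : Vc) : E3 := ((v.ap : ℝ) - v.an, (v.bp : ℝ) - v.bn, (v.up : ℝ) - v.un)

def Cn.toR (c : Cn) : E3 := ((c.a : ℝ), (c.b : ℝ), (c.u : ℝ))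

/-- Determinant of three vectors. -/
def det3 (c p q : E3) : ℝ :=
  c.1 * (p.2.1 * q.2.2 - p.2.2 * q.2.1) + c.2.1 * (p.2.2 * q.1 - p.1 * q.2.2)
    + c.2.2 * (p.1 * q.2.1 - p.2.1 * q.1)

/-- `c` is in the cone over the cell `T`. -/
def Tri.mem (T : Tri) (c : E3) : Prop :=
  ∃ t1 t2 t3 : ℝ, 0 ≤ t1 ∧ 0 ≤ t2 ∧ 0 ≤ t3 ∧
    c = t1 • T.c1.toR + t2 • T.c2.toR + t3 • T.c3.toR

/-- `c` is in a cell of the tree. -/
def CT.mem (c : E3) (t : CT) : Tri → Prop :=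
  CT.rec (motive := fun _ => Tri → Prop) (fun _ => False) (fun T => T.mem c)
    (fun i k1 k2 _ _ ihl ihr T => ihl (T.left i k1 k2) ∨ ihr (T.right i k1 k2)) t

end Pool.Agent.Helper54.Cert
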